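import Mathlib
import Pool.Agent.R845.E3.Gfi
import Pool.Agent.R845.E3.Plc
import Pool.Agent.R845.E3.Cc
import Pool.Agent.R845.T2.Div

/-! # Places over a point of projective space

`z` is a generic point of projective space over a field `E` of odd degree over the field of the
ratios. There is a place of `E` of odd ramification index and of odd residue degree over the
exceptional divisor of the blow-up of the point `(1 : 0 : ... : 0)`. -/

set_option autoImplicit false

namespace Pool.Agent.N122

open MvPolynomial Pool.Agent.TH314.PD Module FF IntermediateField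
open Pool.Agent.R845.T2 Pool.Agent.R845.E3

noncomputable section

/-- regular functions at the place `0` of the rational function field are constants up to the
maximal ideal -/
theorem wc_const (a : LF ℂ) (ha : (wc (0 : ℂ)).Reg a) :
    ∃ c : ℂ, a - algebraMap ℂ (LF ℂ) c = 0 ∨ 0 < (wc (0 : ℂ)).ord (a - algebraMap ℂ (LF ℂ) c) := by
  obtain ⟨c, hc⟩ := (evc_bij (0 : ℂ)).2 ((wc (0 : ℂ)).red a)
  refine ⟨c, ?_⟩
  have h1 : (wc (0 : ℂ)).Reg (algebraMap ℂ (LF ℂ) c) := (wc (0 : ℂ)).reg_const c
  have h2 : (wc (0 : ℂ)).Reg (a - algebraMap ℂ (LF ℂ) c) := by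
    rw [sub_eq_add_neg]
    exact Place.reg_add _ ha (Place.reg_neg _ h1)
  rw [← Place.red_eq_zero_iff _ h2, Place.red_sub _ ha h1, ← hc, sub_eq_zero]
  rfl

theorem blow {r : ℕ} {E : Type} [Field E] [Algebra ℂ E] (z : Fin (r + 2) → E)
    (hz : ∀ (e : ℕ) (H : MvPolynomial (Fin (r + 2)) ℂ), H.IsHomogeneous e → aeval z H = 0 → H = 0)
    (hodd : Odd (finrank (ratioField z) E)) :
    ∃ w : Place ℂ E, Odd (w.ord (z 1 / z 0)) ∧ 0 < w.ord (z 1 / z 0) ∧
      (∀ j : Fin r, w.Reg (z j.succ.succ / z 1)) ∧
      AlgebraicIndependent ℂ (fun j : Fin r => w.red (z j.succ.succ / z 1)) ∧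
      Odd (finrank (IntermediateField.adjoin ℂ
        (Set.range fun j : Fin r => w.red (z j.succ.succ / z 1))) w.RF) := by
  classical
  have hne : ∀ i, z i ≠ 0 := by
    intro i h
    exact X_ne_zero i (hz 1 (X i) (isHomogeneous_X _ _) (by rw [aeval_X, h]))
  set ε : E := z 1 / z 0 with hε
  have hε0 : ε ≠ 0 := div_ne_zero (hne 1) (hne 0)
  set y : Fin r → E := fun j => z j.succ.succ / z 1 with hy
  -- algebraic independence
  have hind : AlgebraicIndependent ℂ (Sum.elim y (fun _ : Unit => z 0 / z 1)) := by
    let f : Fin r ⊕ Unit → Fin (r + 1 + 1) := Sum.elim (fun j => j.succ.succ) (fun _ => 0)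
    have h1 := gen_ratio (r := r + 1) z hz 1 f (by
      rintro (i | i) (j | j) hij
      · simp only [f, Sum.elim_inl] at hij
        rw [Fin.succ_injective _ (Fin.succ_injective _ hij)]
      · simp only [f, Sum.elim_inl, Sum.elim_inr] at hij
        exact absurd hij (Fin.succ_ne_zero _)
      · simp only [f, Sum.elim_inl, Sum.elim_inr] at hij
        exact absurd hij.symm (Fin.succ_ne_zero _)
      · rfl) (by
      rintro (i | i) h
      · simp only [f, Sum.elim_inl] at h
        have := congrArg Fin.val h
        simp at this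
      · simp only [f, Sum.elim_inr] at h
        have := congrArg Fin.val h
        simp at this)
    convert h1 using 1
    funext s
    rcases s with j | i <;> rfl
  obtain ⟨hi0, hiy⟩ := AlgebraicIndependent.sumElim_iff.1 hind
  have htr : Transcendental ℂ ε := by
    have h1 : Transcendental ℂ (z 0 / z 1) := (algebraicIndependent_unique_type_iff).1 hi0
    intro h2
    apply h1
    have h3 : z 0 / z 1 = ε⁻¹ := by rw [hε, inv_div]
    rw [h3]
    exact h2.inv
  have hinj : Function.Injective (Polynomial.aeval ε : Polynomial ℂ →ₐ[ℂ] E) :=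
    transcendental_iff_injective.1 htr
  let lft : LF ℂ →ₐ[ℂ] E := IsFractionRing.liftAlgHom (K := LF ℂ) hinj
  let aK : Algebra (LF ℂ) E := lft.toRingHom.toAlgebra
  have ha : ∀ a : LF ℂ, algebraMap (LF ℂ) E a = lft a := fun _ => rfl
  have tK : IsScalarTower ℂ (LF ℂ) E := IsScalarTower.of_algebraMap_eq fun c => by
    rw [ha]
    exact (lft.commutes c).symm
  have hlX : ∀ p : Polynomial ℂ, algebraMap (LF ℂ) E (algebraMap (Polynomial ℂ) (LF ℂ) p) =
      Polynomial.aeval ε p := by
    intro p
    rw [ha]
    exact IsFractionRing.lift_algebraMap hinj p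
  -- the image of the field of rational functions
  set K1 : IntermediateField ℂ E := adjoin ℂ (Set.range fun _ : Unit => z 0 / z 1) with hK1
  have hεK1 : ε ∈ K1 := by
    have h1 : ε = (z 0 / z 1)⁻¹ := by rw [hε, inv_div]
    rw [h1]
    exact inv_mem (subset_adjoin ℂ _ ⟨(), rfl⟩)
  have hpoly : ∀ (L : IntermediateField ℂ E), ε ∈ L → ∀ p : Polynomial ℂ,
      Polynomial.aeval ε p ∈ L := by
    intro L hL p
    have h5 : Algebra.adjoin ℂ {ε} ≤ L.toSubalgebra :=
      Algebra.adjoin_le (Set.singleton_subset_iff.2 hL)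
    exact h5 (Polynomial.aeval_mem_adjoin_singleton ℂ ε)
  have hfrac : ∀ (L : IntermediateField ℂ E), ε ∈ L → ∀ a : LF ℂ, algebraMap (LF ℂ) E a ∈ L := by
    intro L hL a
    obtain ⟨p, q, -, rfl⟩ := IsFractionRing.div_surjective (A := Polynomial ℂ) a
    rw [map_div₀, hlX, hlX]
    exact div_mem (hpoly L hL p) (hpoly L hL q)
  have hyK : AlgebraicIndependent (LF ℂ) y := by
    have h1 : AlgebraicIndependent K1 y := algebraicIndependent_adjoin_iff.2 hiy
    let f : LF ℂ →+* K1 := (algebraMap (LF ℂ) E).codRestrict K1.toSubfield.toSubring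
      (hfrac K1 hεK1)
    refine AlgebraicIndependent.of_ringHom_of_comp_eq (S := K1) (B := E) f (RingHom.id E) ?_
      f.injective ?_
    · exact h1
    · ext a
      rfl
  -- the field generated by the ratios
  have hrat : ∀ x : E, x ∈ Set.range (algebraMap (adjoin (LF ℂ) (Set.range y)) E) ↔
      x ∈ Set.range (algebraMap (ratioField z) E) := by
    intro x
    have hr1 : x ∈ Set.range (algebraMap (adjoin (LF ℂ) (Set.range y)) E) ↔
        x ∈ adjoin (LF ℂ) (Set.range y) := by
      constructor
      · rintro ⟨x, rfl⟩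
        exact x.2
      · intro h
        exact ⟨⟨x, h⟩, rfl⟩
    have hr2 : x ∈ Set.range (algebraMap (ratioField z) E) ↔ x ∈ ratioField z := by
      constructor
      · rintro ⟨x, rfl⟩
        exact x.2
      · intro h
        exact ⟨⟨x, h⟩, rfl⟩
    rw [hr1, hr2]
    clear hr1 hr2
    have hεr : ε ∈ ratioField z := subset_adjoin ℂ _ ⟨_, _, rfl⟩
    constructor
    · intro hx
      induction hx using IntermediateField.adjoin_induction with
      | mem x hx =>
        obtain ⟨j, rfl⟩ := hx
        exact subset_adjoin ℂ _ ⟨_, _, rfl⟩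
      | algebraMap c => exact hfrac _ hεr c
      | add a b _ _ ha hb => exact add_mem ha hb
      | inv a _ ha => exact inv_mem ha
      | mul a b _ _ ha hb => exact mul_mem ha hb
    · intro hx
      have hεm : ε ∈ adjoin (LF ℂ) (Set.range y) := by
        have h1 := (adjoin (LF ℂ) (Set.range y)).algebraMap_mem
          (algebraMap (Polynomial ℂ) (LF ℂ) Polynomial.X)
        rwa [hlX, Polynomial.aeval_X] at h1
      have hmem : ∀ i, z i / z 1 ∈ adjoin (LF ℂ) (Set.range y) := by
        intro i
        refine Fin.cases ?_ (fun i => ?_) i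
        · have h1 : z 0 / z 1 = ε⁻¹ := by rw [hε, inv_div]
          rw [h1]
          exact inv_mem hεm
        · refine Fin.cases ?_ (fun i => ?_) i
          · have h1 : z (Fin.succ 0) / z 1 = 1 := by
              rw [Fin.succ_zero_eq_one, div_self (hne 1)]
            rw [h1]
            exact one_mem _
          · exact subset_adjoin _ _ ⟨i, rfl⟩
      have h1 : ratioField z ≤ (adjoin (LF ℂ) (Set.range y)).restrictScalars ℂ := by
        unfold ratioField
        rw [adjoin_le_iff]
        rintro _ ⟨i, j, rfl⟩
        rw [SetLike.mem_coe, mem_restrictScalars]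
        have h2 : z i / z j = (z i / z 1) / (z j / z 1) := by
          rw [div_div_div_cancel_right₀ (hne 1)]
        rw [h2]
        exact div_mem (hmem i) (hmem j)
      exact h1 hx
  obtain ⟨hfd, hfr⟩ := Pool.Agent.Y201.LI.finrank_same hrat
  have hfdz : FiniteDimensional (ratioField z) E := FiniteDimensional.of_finrank_pos hodd.pos
  have hfdK : FiniteDimensional (adjoin (LF ℂ) (Set.range y)) E := hfd.2 hfdz
  -- the fundamental identity
  set ϖ : LF ℂ := algebraMap (Polynomial ℂ) (LF ℂ) (Polynomial.X - Polynomial.C 0) with hϖ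
  have hϖ0 : ϖ ≠ 0 := by
    intro h
    exact Polynomial.X_sub_C_ne_zero (0 : ℂ) (inj_LF (h.trans (map_zero _).symm))
  have hϖ1 : (wc (0 : ℂ)).ord ϖ = 1 := wc_ord_X 0
  have hϖE : algebraMap (LF ℂ) E ϖ = ε := by
    rw [hϖ, hlX]
    simp
  obtain ⟨S, hS, hsum⟩ := gfi ℂ (LF ℂ) E r (wc (0 : ℂ)) ϖ y hϖ0 hϖ1 hyK hfdK
  rw [hfr, hϖE] at hsum
  obtain ⟨w, hwS, hw⟩ : ∃ w ∈ S, Odd ((w.ord ε).toNat *
      finrank (Subfield.closure ({c : w.RF | ∃ a : LF ℂ, (wc (0 : ℂ)).Reg a ∧
        w.red (algebraMap (LF ℂ) E a) = c} ∪ Set.range fun j => w.red (y j))) w.RF) := by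
    by_contra hcon
    push Not at hcon
    rw [← hsum] at hodd
    apply Nat.not_even_iff_odd.2 hodd
    rw [even_iff_two_dvd]
    refine Finset.dvd_sum fun w hw => ?_
    rw [← even_iff_two_dvd, ← Nat.not_odd_iff_even]
    exact hcon w hw
  obtain ⟨hKr, hϖw, hyr, hG⟩ := (hS w).1 hwS
  rw [hϖE] at hϖw
  rw [Nat.odd_mul] at hw
  obtain ⟨hw1, hw2⟩ := hw
  have hordodd : Odd (w.ord ε) := by
    have h1 : ((w.ord ε).toNat : ℤ) = w.ord ε := Int.toNat_of_nonneg hϖw.le
    rw [← h1]
    exact_mod_cast hw1
  refine ⟨w, hordodd, hϖw, hyr, ?_, ?_⟩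
  · rw [algebraicIndependent_iff]
    intro p hp
    by_contra hp0
    obtain ⟨α, hα⟩ := MvPolynomial.ne_zero_iff.1 hp0
    have h1 := hG (map (algebraMap ℂ (LF ℂ)) p) (fun β => by
      rw [coeff_map]
      exact (wc (0 : ℂ)).reg_const _) ⟨α, by
        rw [coeff_map]
        refine ⟨?_, (wc (0 : ℂ)).ord_const hα⟩
        rw [Ne, map_eq_zero]
        exact hα⟩
    apply h1
    rw [aeval_map_algebraMap, (Pool.Agent.R845.T2.red_aeval w y hyr p).2]
    exact hp
  · have h3 : ∀ x : w.RF, x ∈ Set.range (algebraMap (Subfield.closure ({c : w.RF | ∃ a : LF ℂ,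
        (wc (0 : ℂ)).Reg a ∧ w.red (algebraMap (LF ℂ) E a) = c} ∪
          Set.range fun j => w.red (y j))) w.RF) ↔
        x ∈ Set.range (algebraMap (IntermediateField.adjoin ℂ
          (Set.range fun j : Fin r => w.red (y j))) w.RF) := by
      intro x
      have hr1 : x ∈ Set.range (algebraMap (Subfield.closure ({c : w.RF | ∃ a : LF ℂ,
          (wc (0 : ℂ)).Reg a ∧ w.red (algebraMap (LF ℂ) E a) = c} ∪
          Set.range fun j => w.red (y j))) w.RF) ↔
          x ∈ Subfield.closure ({c : w.RF | ∃ a : LF ℂ,
          (wc (0 : ℂ)).Reg a ∧ w.red (algebraMap (LF ℂ) E a) = c} ∪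
          Set.range fun j => w.red (y j)) := by
        constructor
        · rintro ⟨x, rfl⟩
          exact x.2
        · intro h
          exact ⟨⟨x, h⟩, rfl⟩
      have hr2 : x ∈ Set.range (algebraMap (IntermediateField.adjoin ℂ
          (Set.range fun j : Fin r => w.red (y j))) w.RF) ↔
          x ∈ IntermediateField.adjoin ℂ (Set.range fun j : Fin r => w.red (y j)) := by
        constructor
        · rintro ⟨x, rfl⟩
          exact x.2
        · intro h
          exact ⟨⟨x, h⟩, rfl⟩
      rw [hr1, hr2]
      clear hr1 hr2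
      constructor
      · intro hx
        induction hx using Subfield.closure_induction with
        | mem x hx =>
          rcases hx with ⟨a, ha, rfl⟩ | hx
          · obtain ⟨c, hc⟩ := wc_const a ha
            have hregc : w.Reg (algebraMap (LF ℂ) E (algebraMap ℂ (LF ℂ) c)) := by
              rw [← IsScalarTower.algebraMap_apply]
              exact w.reg_const c
            have h4 : w.red (algebraMap (LF ℂ) E a) = algebraMap ℂ w.RF c := by
              rw [w.algebraMap_RF]
              rcases hc with hc | hc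
              · rw [sub_eq_zero] at hc
                rw [hc, ← IsScalarTower.algebraMap_apply]
              · have h5 : (wc (0 : ℂ)).Reg ((a - algebraMap ℂ (LF ℂ) c) / ϖ) := by
                  by_cases h0 : a - algebraMap ℂ (LF ℂ) c = 0
                  · left
                    rw [h0, zero_div]
                  · right
                    rw [Place.ord_div _ h0 hϖ0, hϖ1]
                    omega
                have h6 := hKr _ h5
                have h7 : algebraMap (LF ℂ) E a = algebraMap (LF ℂ) E ((a -
                    algebraMap ℂ (LF ℂ) c) / ϖ) * ε + algebraMap ℂ E c := by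
                  rw [← hϖE, ← map_mul, div_mul_cancel₀ _ hϖ0, map_sub,
                    ← IsScalarTower.algebraMap_apply, sub_add_cancel]
                have hεreg : w.Reg ε := Or.inr hϖw.le
                have hε0' : w.red ε = 0 := (w.red_eq_zero_iff hεreg).2 (Or.inr hϖw)
                rw [h7, w.red_add (w.reg_mul h6 hεreg) (w.reg_const c), w.red_mul h6 hεreg,
                  hε0', mul_zero, zero_add]
            rw [h4]
            exact IntermediateField.algebraMap_mem _ c
          · exact subset_adjoin _ _ hx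
        | one => exact one_mem _
        | add a b _ _ ha hb => exact add_mem ha hb
        | neg a _ ha => exact neg_mem ha
        | inv a _ ha => exact inv_mem ha
        | mul a b _ _ ha hb => exact mul_mem ha hb
      · intro hx
        induction hx using IntermediateField.adjoin_induction with
        | mem x hx => exact Subfield.subset_closure (Or.inr hx)
        | algebraMap c =>
          refine Subfield.subset_closure (Or.inl ⟨algebraMap ℂ (LF ℂ) c,
            (wc (0 : ℂ)).reg_const c, ?_⟩)
          rw [← IsScalarTower.algebraMap_apply]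
          rfl
        | add a b _ _ ha hb => exact add_mem ha hb
        | inv a _ ha => exact inv_mem ha
        | mul a b _ _ ha hb => exact mul_mem ha hb
    rw [← (Pool.Agent.Y201.LI.finrank_same h3).2]
    exact hw2

end

end Pool.Agent.N122
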