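import Mathlib
import Pool.Agent.N122.Blow

/-! # No tangent hyperplane of a point of odd degree passes through a generic point -/

set_option autoImplicit false

namespace Pool.Agent.N122

open MvPolynomial Pool.Agent.TH314.PD Module FF IntermediateField
open Pool.Agent.R845.T2 Pool.Agent.R845.E3

noncomputable section

theorem no_pole {r : ℕ} {F : MvPolynomial (Fin (r + 2)) ℂ} (hF : F.IsHomogeneous 3) (hsm : Sm F)
    {E : Type} [Field E] [Algebra ℂ E] (y : Fin r → E) (hy : AlgebraicIndependent ℂ y)
    (hodd : Odd (finrank (IntermediateField.adjoin ℂ (Set.range y)) E)) (p : Fin (r + 2) → E)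
    (hp : p ≠ 0) (h0 : aeval p (pderiv 0 F) = 0)
    (h1 : aeval p (pderiv 1 F) + ∑ j : Fin r, y j * aeval p (pderiv j.succ.succ F) = 0) :
    False := by
  classical
  let Ω := LF E
  let ψ : Polynomial E →ₐ[E] Ω := IsScalarTower.toAlgHom E (Polynomial E) Ω
  have hψ : Function.Injective ψ := IsFractionRing.injective (Polynomial E) Ω
  let s : Ω := ψ Polynomial.X
  have hs : s ≠ 0 := by
    intro h
    exact Polynomial.X_ne_zero (hψ (h.trans (map_zero ψ).symm))
  have htr : Transcendental E s := by
    intro h
    exact Polynomial.transcendental_X E ((isAlgebraic_algHom_iff ψ hψ).1 h)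
  have hτ : AlgebraicIndependent E (fun _ : Unit => s) := by
    rw [algebraicIndependent_unique_type_iff]
    exact htr
  have hind : AlgebraicIndependent ℂ (Sum.elim (fun _ : Unit => s) (algebraMap E Ω ∘ y)) :=
    AlgebraicIndependent.sumElim_comp hy hτ
  set yy : Fin (r + 1 + 1) → Ω := Fin.cons s (Fin.cons 1 (fun j => algebraMap E Ω (y j))) with hyy
  have y0 : yy 0 = s := rfl
  have y1 : yy 1 = 1 := rfl
  have y2 : ∀ j : Fin r, yy j.succ.succ = algebraMap E Ω (y j) := fun _ => rfl
  have hgen : ∀ (e : ℕ) (H : MvPolynomial (Fin (r + 1 + 1)) ℂ), H.IsHomogeneous e →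
      aeval yy H = 0 → H = 0 := by
    intro e H hH h
    refine Fd.eq_zero_of_indep hH yy (b := 1) (by rw [y1]; exact one_ne_zero) ?_ h
    let g : Fin (r + 1) → Unit ⊕ Fin r := Fin.cons (Sum.inl ()) (fun j => Sum.inr j)
    have hg : Function.Injective g := by
      intro a b hab
      refine Fin.cases (fun hab => ?_) (fun a hab => ?_) a hab
      · refine Fin.cases (fun _ => rfl) (fun b hab => ?_) b hab
        simp [g] at hab
      · refine Fin.cases (fun hab => ?_) (fun b hab => ?_) b hab
        · simp [g] at hab
        · simp only [g, Fin.cons_succ, Sum.inr.injEq] at hab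
          rw [hab]
    have h2 := hind.comp g hg
    have h7 : (fun l : Fin (r + 1) => yy ((1 : Fin (r + 1 + 1)).succAbove l) / yy 1) =
        (Sum.elim (fun _ : Unit => s) (algebraMap E Ω ∘ y)) ∘ g := by
      funext l
      rw [y1, div_one]
      refine Fin.cases ?_ (fun l => ?_) l
      · rfl
      · have h3 : (1 : Fin (r + 1 + 1)).succAbove l.succ = l.succ.succ := by
          rw [Fin.succAbove_of_lt_succ]
          · rw [Fin.lt_def]
            simp
        rw [h3, y2]
        rfl
    rw [h7]
    exact h2
  -- the degree
  have htop : adjoin E (Set.range fun _ : Unit => s) = ⊤ := by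
    rw [eq_top_iff]
    rintro z -
    have htm : s ∈ adjoin E (Set.range fun _ : Unit => s) := subset_adjoin _ _ ⟨(), rfl⟩
    have hP : ∀ q : Polynomial E, ψ q ∈ adjoin E (Set.range fun _ : Unit => s) := by
      intro q
      induction q using Polynomial.induction_on' with
      | add f g hf hg =>
        rw [map_add]
        exact add_mem hf hg
      | monomial n a =>
        rw [← Polynomial.C_mul_X_pow_eq_monomial, map_mul, map_pow]
        have h5 : ψ (Polynomial.C a) = algebraMap E Ω a := ψ.commutes a
        rw [h5]
        exact mul_mem (IntermediateField.algebraMap_mem _ _) (pow_mem htm n)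
    obtain ⟨a, b, -, hz⟩ := IsFractionRing.div_surjective (A := Polynomial E) z
    rw [← hz]
    exact div_mem (hP a) (hP b)
  set R : IntermediateField ℂ E := IntermediateField.adjoin ℂ (Set.range y) with hR
  have hfdR : FiniteDimensional R E := FiniteDimensional.of_finrank_pos hodd.pos
  have hR0 : CharZero R := charZero_of_injective_algebraMap (algebraMap ℂ R).injective
  obtain ⟨hE1, hE2⟩ := Pool.Agent.Y220.LI.ext R E Ω Unit (fun _ => s) hτ htop
  have hmem : ∀ z : Ω, z ∈ (adjoin R (Set.range fun _ : Unit => s) : IntermediateField R Ω) ↔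
      z ∈ ratioField yy := by
    intro z
    have hsr : s ∈ ratioField yy := by
      have h2 : s = yy 0 / yy 1 := by rw [y0, y1, div_one]
      rw [h2]
      exact subset_adjoin ℂ _ ⟨_, _, rfl⟩
    have hRr : ∀ a : E, a ∈ R → algebraMap E Ω a ∈ ratioField yy := by
      intro a ha
      rw [hR] at ha
      induction ha using IntermediateField.adjoin_induction with
      | mem x hx =>
        obtain ⟨j, rfl⟩ := hx
        have h2 : algebraMap E Ω (y j) = yy j.succ.succ / yy 1 := by rw [y2, y1, div_one]
        rw [h2]
        exact subset_adjoin ℂ _ ⟨_, _, rfl⟩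
      | algebraMap c =>
        rw [← IsScalarTower.algebraMap_apply]
        exact IntermediateField.algebraMap_mem _ c
      | add a b _ _ ha hb => rw [map_add]; exact add_mem ha hb
      | inv a _ ha => rw [map_inv₀]; exact inv_mem ha
      | mul a b _ _ ha hb => rw [map_mul]; exact mul_mem ha hb
    constructor
    · intro hz
      induction hz using IntermediateField.adjoin_induction with
      | mem z hz =>
        obtain ⟨_, rfl⟩ := hz
        exact hsr
      | algebraMap c => exact hRr c c.2
      | add a b _ _ ha hb => exact add_mem ha hb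
      | inv a _ ha => exact inv_mem ha
      | mul a b _ _ ha hb => exact mul_mem ha hb
    · intro hz
      have hm : ∀ i, yy i ∈ (adjoin R (Set.range fun _ : Unit => s) : IntermediateField R Ω) := by
        intro i
        refine Fin.cases ?_ (fun i => ?_) i
        · exact subset_adjoin _ _ ⟨(), rfl⟩
        · refine Fin.cases ?_ (fun i => ?_) i
          · exact one_mem _
          · have h3 : y i ∈ R := subset_adjoin _ _ ⟨i, rfl⟩
            exact IntermediateField.algebraMap_mem _ (⟨y i, h3⟩ : R)
      have h4 : ratioField yy ≤ (adjoin R (Set.range fun _ : Unit => s)).restrictScalars ℂ := by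
        unfold ratioField
        rw [adjoin_le_iff]
        rintro _ ⟨i, j, rfl⟩
        rw [SetLike.mem_coe, mem_restrictScalars]
        exact div_mem (hm i) (hm j)
      exact h4 hz
  obtain ⟨hs1, hs2⟩ := Pool.Agent.Y201.LI.finrank_same
    (A := (adjoin R (Set.range fun _ : Unit => s) : IntermediateField R Ω)) (B := ratioField yy)
    (Ω := Ω) (by
      intro z
      constructor
      · rintro ⟨a, rfl⟩
        exact ⟨⟨(a : Ω), (hmem a).1 a.2⟩, rfl⟩
      · rintro ⟨a, rfl⟩
        exact ⟨⟨(a : Ω), (hmem a).2 a.2⟩, rfl⟩)
  have hfK : FiniteDimensional (ratioField yy) Ω := hs1.1 hE1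
  have h5 := div (r + 2) 3 F hF (by norm_num) hsm Ω yy hgen hfK
    (fun i => algebraMap E Ω (p i)) (by
      intro h
      apply hp
      funext i
      have := congrFun h i
      rw [Pi.zero_apply, map_eq_zero] at this
      exact this) (by
      have hev : ∀ i, aeval (fun i => algebraMap E Ω (p i)) (pderiv i F) =
          algebraMap E Ω (aeval p (pderiv i F)) := by
        intro i
        exact aeval_algebraMap_apply Ω p _
      rw [Fin.sum_univ_succ, Fin.sum_univ_succ]
      have e1 : yy (Fin.succ 0) = 1 := rfl
      have e2 : (Fin.succ 0 : Fin (r + 2)) = 1 := rfl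
      rw [hev, h0, map_zero, mul_zero, zero_add, e1, one_mul, hev, e2]
      have e3 : ∀ j : Fin r, yy j.succ.succ * aeval (fun i => algebraMap E Ω (p i))
          (pderiv j.succ.succ F) = algebraMap E Ω (y j * aeval p (pderiv j.succ.succ F)) := by
        intro j
        rw [hev, y2, map_mul]
      rw [Finset.sum_congr rfl fun j _ => e3 j, ← map_sum, ← map_add, h1, map_zero])
  rw [← hs2, hE2] at h5
  have h6 : 2 ∣ finrank R E := h5
  exact Nat.not_even_iff_odd.2 hodd (even_iff_two_dvd.2 h6)

end

end Pool.Agent.N122
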