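import Mathlib
import Pool.Agent.N122.NoPole
import Pool.Agent.R845.T2.Nt
import Pool.Agent.R845.E3.Rat

/-! # The double cover of a special section has no point of odd degree -/

set_option autoImplicit false

namespace Pool.Agent.N122

open MvPolynomial Pool.Agent.TH314.PD Module FF IntermediateField Pool.Agent.Y201.C3
open Pool.Agent.R845.T2 Pool.Agent.R845.E3

noncomputable section

/-- reduction commutes with the trilinear form -/
theorem red_Bg {σ : Type} [Fintype σ] [DecidableEq σ] {E : Type} [Field E] [Algebra ℂ E]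
    (w : Place ℂ E) (T : σ → σ → σ → ℂ) (x y z : σ → E) (hx : ∀ i, w.Reg (x i))
    (hy : ∀ i, w.Reg (y i)) (hz : ∀ i, w.Reg (z i)) :
    w.Reg (Bg T x y z) ∧ w.red (Bg T x y z) =
      Bg T (fun i => w.red (x i)) (fun i => w.red (y i)) (fun i => w.red (z i)) := by
  let b : σ ⊕ σ ⊕ σ → E := Sum.elim x (Sum.elim y z)
  have hb : ∀ i, w.Reg (b i) := by
    rintro (i | i | i)
    · exact hx i
    · exact hy i
    · exact hz i
  let P : MvPolynomial (σ ⊕ σ ⊕ σ) ℂ := Bg T (fun i => X (Sum.inl i))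
    (fun i => X (Sum.inr (Sum.inl i))) (fun i => X (Sum.inr (Sum.inr i)))
  obtain ⟨h1, h2⟩ := NT.red_aeval w b hb P
  have h3 : aeval b P = Bg T x y z := by
    rw [map_Bg (aeval b : MvPolynomial (σ ⊕ σ ⊕ σ) ℂ →ₐ[ℂ] E)]
    simp only [aeval_X]
    rfl
  have h4 : aeval (fun i => w.red (b i)) P =
      Bg T (fun i => w.red (x i)) (fun i => w.red (y i)) (fun i => w.red (z i)) := by
    rw [map_Bg (aeval (fun i => w.red (b i)) : MvPolynomial (σ ⊕ σ ⊕ σ) ℂ →ₐ[ℂ] w.RF)]
    simp only [aeval_X]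
    rfl
  rw [h3] at h1 h2
  rw [h4] at h2
  exact ⟨h1, h2⟩

theorem red_lin {N : ℕ} {E : Type} [Field E] [Algebra ℂ E]
    (w : Place ℂ E) (β : Fin N → ℂ) (x : Fin N → E) (hx : ∀ i, w.Reg (x i)) :
    w.Reg (∑ i, algebraMap ℂ E (β i) * x i) ∧ w.red (∑ i, algebraMap ℂ E (β i) * x i) =
      ∑ i, algebraMap ℂ w.RF (β i) * w.red (x i) := by
  have h := NT.red_aeval w x hx (∑ i, C (β i) * X i)
  simp only [map_sum, map_mul, aeval_X, aeval_C] at h
  exact h

theorem odd0 {r : ℕ} {F : MvPolynomial (Fin (r + 2)) ℂ} (hF : F.IsHomogeneous 3) (hsm : Sm F)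
    {T : Fin (r + 2) → Fin (r + 2) → Fin (r + 2) → ℂ} (hT : SymG T) (hFT : F = Bg T X X X)
    {E : Type} [Field E] [Algebra ℂ E] (z : Fin (r + 2) → E)
    (hz : ∀ (e : ℕ) (H : MvPolynomial (Fin (r + 2)) ℂ), H.IsHomogeneous e → aeval z H = 0 → H = 0)
    (hodd : Odd (finrank (ratioField z) E)) (β0 : ℂ) (β : Fin (r + 2) → ℂ)
    (c : Fin (r + 2) → E) (hc0 : c 0 = 0) (hc : Bg T c c c = 0)
    (h1 : 3 * Bg T c c (Rat.ev E 0) = (∑ i, algebraMap ℂ E (β i) * c i) ^ 2)
    (h2 : 3 * Bg T c (Rat.ev E 0) (Rat.ev E 0) =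
      2 * algebraMap ℂ E β0 * ∑ i, algebraMap ℂ E (β i) * c i)
    (h3 : Bg T (Rat.ev ℂ 0) (Rat.ev ℂ 0) (Rat.ev ℂ 0) = β0 ^ 2) (α : E)
    (hα : aeval (fun i => z i + α * c i) F = 0) : False := by
  classical
  obtain ⟨w, hwodd, hwpos, hyr, hyind, hyodd⟩ := blow z hz hodd
  have hne : ∀ i, z i ≠ 0 := by
    intro i h
    exact X_ne_zero i (hz 1 (X i) (isHomogeneous_X _ _) (by rw [aeval_X, h]))
  have hF0 : F ≠ 0 := ne_zero_of_smooth (m := r + 1) hsm
  have hzF : aeval z F ≠ 0 := fun h => hF0 (hz 3 F hF h)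
  have hev : ∀ {R : Type} [CommRing R] [Algebra ℂ R] (v : Fin (r + 2) → R),
      aeval v F = Bg T v v v := by
    intro R _ _ v
    conv_lhs => rw [hFT]
    exact aeval_frmG T v
  have hα0 : α ≠ 0 := by
    intro h
    apply hzF
    rw [← hα, h]
    congr 2
    funext i
    ring
  set ε : E := z 1 / z 0 with hε
  have hε0 : ε ≠ 0 := div_ne_zero (hne 1) (hne 0)
  have hεr : w.Reg ε := Or.inr hwpos.le
  have hεred : w.red ε = 0 := (w.red_eq_zero_iff hεr).2 (Or.inr hwpos)
  set y : Fin r → E := fun j => z j.succ.succ / z 1 with hy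
  -- scaling of `c`
  obtain ⟨i1, hi1, hmin⟩ : ∃ i1, c i1 ≠ 0 ∧ ∀ i, c i ≠ 0 → w.ord (c i1) ≤ w.ord (c i) := by
    have hne1 : (Finset.univ.filter fun i => c i ≠ 0).Nonempty := by
      by_contra h
      rw [Finset.not_nonempty_iff_eq_empty, Finset.filter_eq_empty_iff] at h
      push Not at h
      apply hzF
      rw [← hα]
      congr 2
      funext i
      rw [h (Finset.mem_univ i), mul_zero, add_zero]
    obtain ⟨i1, h4, h5⟩ := Finset.exists_min_image _ (fun i => w.ord (c i)) hne1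
    refine ⟨i1, (Finset.mem_filter.1 h4).2, fun i hi => h5 i (Finset.mem_filter.2
      ⟨Finset.mem_univ i, hi⟩)⟩
  set lam : E := (c i1)⁻¹ with hlam
  have hlam0 : lam ≠ 0 := inv_ne_zero hi1
  set c' : Fin (r + 2) → E := fun i => lam * c i with hc'
  have hcr : ∀ i, w.Reg (c' i) := by
    intro i
    by_cases h : c i = 0
    · left
      rw [hc']
      simp only
      rw [h, mul_zero]
    · right
      rw [hc']
      simp only
      rw [w.ord_mul hlam0 h, hlam, w.ord_inv]
      have := hmin i h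
      omega
  have hci1 : c' i1 = 1 := inv_mul_cancel₀ hi1
  have hc'0 : c' 0 = 0 := by
    rw [hc']
    simp only
    rw [hc0, mul_zero]
  set e : Fin (r + 2) → E := Rat.ev E 0 with he
  set l : E := ∑ i, algebraMap ℂ E (β i) * c' i with hl
  have hl' : l = lam * ∑ i, algebraMap ℂ E (β i) * c i := by
    rw [hl, Finset.mul_sum]
    refine Finset.sum_congr rfl fun i _ => ?_
    rw [hc']
    ring
  have g0 : Bg T c' c' c' = 0 := by
    rw [hc', Bg_smul1, Bg_smul2, Bg_smul3, hc]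
    ring
  have g1 : 3 * Bg T c' c' e = l ^ 2 := by
    rw [hl', mul_pow, ← h1, hc', Bg_smul1, Bg_smul2]
    ring
  have g2 : 3 * Bg T c' e e = 2 * algebraMap ℂ E β0 * l := by
    rw [hl', hc', Bg_smul1]
    linear_combination lam * h2
  have g3 : ∀ (R : Type) [CommRing R] [Algebra ℂ R],
      Bg T (Rat.ev R (0 : Fin (r + 2))) (Rat.ev R 0) (Rat.ev R 0) = algebraMap ℂ R β0 ^ 2 := by
    intro R _ _
    have h4 := Bg_alg (R := R) T (Rat.ev ℂ (0 : Fin (r + 2))) (Rat.ev ℂ 0) (Rat.ev ℂ 0)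
    have h5 : (fun i => algebraMap ℂ R (Rat.ev ℂ (0 : Fin (r + 2)) i)) = Rat.ev R 0 := by
      funext i
      unfold Rat.ev
      by_cases hi : i = 0 <;> simp [hi]
    rw [h5, h3, map_pow] at h4
    exact h4
  -- the vector `v`
  set v : Fin (r + 2) → E := Fin.cons 0 (Fin.cons 1 y) with hv
  have hvr : ∀ i, w.Reg (v i) := by
    intro i
    refine Fin.cases ?_ (fun i => ?_) i
    · exact w.reg_zero
    · refine Fin.cases ?_ (fun i => ?_) i
      · exact w.reg_one
      · exact hyr i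
  have her : ∀ i, w.Reg (e i) := by
    intro i
    rw [he]
    unfold Rat.ev
    split_ifs
    · exact w.reg_one
    · exact w.reg_zero
  have hzv : ∀ i, z i / z 0 = e i + ε * v i := by
    intro i
    refine Fin.cases ?_ (fun i => ?_) i
    · rw [div_self (hne 0)]
      change (1 : E) = Rat.ev E 0 0 + ε * 0
      simp [Rat.ev]
    · refine Fin.cases ?_ (fun i => ?_) i
      · change z 1 / z 0 = Rat.ev E 0 1 + ε * 1
        simp [Rat.ev, hε]
      · change z i.succ.succ / z 0 = Rat.ev E 0 i.succ.succ + ε * (z i.succ.succ / z 1)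
        have h5 : Rat.ev E (0 : Fin (r + 2)) i.succ.succ = 0 := by
          unfold Rat.ev
          rw [if_neg (Fin.succ_ne_zero _)]
        rw [h5, hε]
        have := hne 0
        have := hne 1
        field_simp
        ring
  -- the point of the line
  set α' : E := α * c i1 / z 0 with hα'
  have hα'0 : α' ≠ 0 := div_ne_zero (mul_ne_zero hα0 hi1) (hne 0)
  have hline : Bg T (fun i => α' * c' i + 1 * e i + (1 * ε) * v i)
      (fun i => α' * c' i + 1 * e i + (1 * ε) * v i)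
      (fun i => α' * c' i + 1 * e i + (1 * ε) * v i) = 0 := by
    have h5 : (fun i => α' * c' i + 1 * e i + (1 * ε) * v i) =
        fun i => (z 0)⁻¹ * (z i + α * c i) := by
      funext i
      have h6 := hzv i
      have h7 : α' * c' i = (z 0)⁻¹ * (α * c i) := by
        rw [hα', hc', hlam]
        simp only
        have := hne 0
        field_simp
      rw [h7, mul_add]
      have h8 : (z 0)⁻¹ * z i = z i / z 0 := by rw [div_eq_inv_mul]
      rw [h8, h6]
      ring
    rw [h5, ← hev, aeval_smul_form hF, hα, mul_zero]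
  obtain ⟨A, B, hA, hB, hB0, hAB, hAB0⟩ : ∃ A B : E, w.Reg A ∧ w.Reg B ∧ B ≠ 0 ∧
      (w.red A ≠ 0 ∨ w.red B ≠ 0) ∧
      Bg T (fun i => A * c' i + B * e i + (B * ε) * v i)
        (fun i => A * c' i + B * e i + (B * ε) * v i)
        (fun i => A * c' i + B * e i + (B * ε) * v i) = 0 := by
    rcases le_or_gt 0 (w.ord α') with h | h
    · refine ⟨α', 1, Or.inr h, w.reg_one, one_ne_zero, Or.inr ?_, hline⟩
      rw [w.red_one]
      exact one_ne_zero
    · refine ⟨1, α'⁻¹, w.reg_one, Or.inr ?_, inv_ne_zero hα'0, Or.inl ?_, ?_⟩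
      · rw [w.ord_inv]
        omega
      · rw [w.red_one]
        exact one_ne_zero
      · have h5 : (fun i => 1 * c' i + α'⁻¹ * e i + (α'⁻¹ * ε) * v i) =
            fun i => α'⁻¹ * (α' * c' i + 1 * e i + (1 * ε) * v i) := by
          funext i
          field_simp
        rw [h5, Bg_smul1, Bg_smul2, Bg_smul3, hline]
        ring
  -- the expansion
  have hexp := Bg_span3 hT c' e v A B (B * ε)
  rw [hAB0, g0] at hexp
  have g3E := g3 E
  rw [← he] at g3E
  set D : E := A * l + B * algebraMap ℂ E β0 with hD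
  set G : E := 3 * A ^ 2 * Bg T c' c' v + 6 * A * B * Bg T c' e v + 3 * B ^ 2 * Bg T e e v +
    ε * (3 * A * B * Bg T c' v v + 3 * B ^ 2 * Bg T e v v + B ^ 2 * ε * Bg T v v v) with hG
  have hDG : D ^ 2 = -(ε * G) := by
    have h5 : B * (D ^ 2 + ε * G) = 0 := by
      rw [hD, hG]
      linear_combination (A ^ 2 * B * -1) * g1 - A * B ^ 2 * g2 - B ^ 3 * g3E - hexp
    have h6 := (mul_eq_zero.1 h5).resolve_left hB0
    linear_combination h6
  -- regularity
  obtain ⟨q1, q1'⟩ := red_Bg w T c' c' v hcr hcr hvr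
  obtain ⟨q2, q2'⟩ := red_Bg w T c' e v hcr her hvr
  obtain ⟨q3, q3'⟩ := red_Bg w T e e v her her hvr
  obtain ⟨q4, -⟩ := red_Bg w T c' v v hcr hvr hvr
  obtain ⟨q5, -⟩ := red_Bg w T e v v her hvr hvr
  obtain ⟨q6, -⟩ := red_Bg w T v v v hvr hvr hvr
  obtain ⟨q7, q7'⟩ := red_Bg w T c' c' e hcr hcr her
  obtain ⟨q8, q8'⟩ := red_Bg w T c' e e hcr her her
  obtain ⟨q9, q9'⟩ := red_lin w β c' hcr
  have hn : ∀ n : ℕ, w.Reg (n : E) ∧ w.red (n : E) = n := by
    intro n
    have h5 := w.reg_const (n : ℂ)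
    have h6 : w.red (algebraMap ℂ E (n : ℂ)) = algebraMap ℂ w.RF (n : ℂ) := rfl
    rw [map_natCast] at h5 h6
    rw [map_natCast] at h6
    exact ⟨h5, h6⟩
  have n3 := hn 3
  have n6 := hn 6
  have n2 := hn 2
  push_cast at n3 n6 n2
  have hA2 : w.Reg (A ^ 2) := by rw [pow_two]; exact w.reg_mul hA hA
  have hB2 : w.Reg (B ^ 2) := by rw [pow_two]; exact w.reg_mul hB hB
  have hA2' : w.red (A ^ 2) = w.red A ^ 2 := by rw [pow_two, pow_two, w.red_mul hA hA]
  have hB2' : w.red (B ^ 2) = w.red B ^ 2 := by rw [pow_two, pow_two, w.red_mul hB hB]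
  have r1 := w.reg_mul (w.reg_mul n3.1 hA2) q1
  have r2 := w.reg_mul (w.reg_mul (w.reg_mul n6.1 hA) hB) q2
  have r3 := w.reg_mul (w.reg_mul n3.1 hB2) q3
  have r4 : w.Reg (3 * A * B * Bg T c' v v + 3 * B ^ 2 * Bg T e v v +
      B ^ 2 * ε * Bg T v v v) :=
    w.reg_add (w.reg_add (w.reg_mul (w.reg_mul (w.reg_mul n3.1 hA) hB) q4)
      (w.reg_mul (w.reg_mul n3.1 hB2) q5)) (w.reg_mul (w.reg_mul hB2 hεr) q6)
  have hGr : w.Reg G := w.reg_add (w.reg_add (w.reg_add r1 r2) r3) (w.reg_mul hεr r4)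
  have hGred : w.red G = 3 * w.red A ^ 2 * w.red (Bg T c' c' v) +
      6 * w.red A * w.red B * w.red (Bg T c' e v) + 3 * w.red B ^ 2 * w.red (Bg T e e v) := by
    rw [hG, w.red_add (w.reg_add (w.reg_add r1 r2) r3) (w.reg_mul hεr r4),
      w.red_mul hεr r4, hεred, zero_mul, add_zero, w.red_add (w.reg_add r1 r2) r3,
      w.red_add r1 r2, w.red_mul (w.reg_mul n3.1 hA2) q1, w.red_mul n3.1 hA2,
      w.red_mul (w.reg_mul (w.reg_mul n6.1 hA) hB) q2, w.red_mul (w.reg_mul n6.1 hA) hB,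
      w.red_mul n6.1 hA, w.red_mul (w.reg_mul n3.1 hB2) q3, w.red_mul n3.1 hB2, hA2', hB2',
      n3.2, n6.2]
  have hG0 : w.red G = 0 := by
    by_contra h
    have h5 := (w.red_eq_zero_iff hGr).not.1 h
    push Not at h5
    have h6 := (w.reg_iff h5.1).1 hGr
    have h7 : w.ord G = 0 := by omega
    have h8 : D ≠ 0 := by
      intro h9
      rw [h9] at hDG
      have h10 : ε * G = 0 := by linear_combination hDG
      exact mul_ne_zero hε0 h5.1 h10
    have h9 : w.ord (D ^ 2) = w.ord ε := by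
      rw [hDG, w.ord_neg, w.ord_mul hε0 h5.1, h7, add_zero]
    rw [w.ord_pow] at h9
    rw [← h9] at hwodd
    have h10 : ¬ Odd ((2 : ℤ) * w.ord D) := by
      rw [Int.not_odd_iff_even]
      exact even_two_mul _
    apply h10
    exact_mod_cast hwodd
  have hDr : w.Reg D := w.reg_add (w.reg_mul hA q9) (w.reg_mul hB (w.reg_const β0))
  have hD0 : w.red D = 0 := by
    have h5 : w.red (D ^ 2) = 0 := by
      rw [hDG, w.red_neg (w.reg_mul hεr hGr), w.red_mul hεr hGr, hεred, zero_mul, neg_zero]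
    rw [w.red_pow hDr] at h5
    exact pow_eq_zero_iff (two_ne_zero) |>.1 h5
  have hDred : w.red D = w.red A * w.red l + w.red B * algebraMap ℂ w.RF β0 := by
    rw [hD, w.red_add (w.reg_mul hA q9) (w.reg_mul hB (w.reg_const β0)), w.red_mul hA q9,
      w.red_mul hB (w.reg_const β0)]
    rfl
  rw [hDred] at hD0
  -- the reductions of the relations
  set cb : Fin (r + 2) → w.RF := fun i => w.red (c' i) with hcb
  have heb : (fun i => w.red (e i)) = Rat.ev w.RF (0 : Fin (r + 2)) := by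
    funext i
    rw [he]
    unfold Rat.ev
    split_ifs
    · exact w.red_one
    · exact w.red_zero
  set eb : Fin (r + 2) → w.RF := Rat.ev w.RF 0 with hebd
  set vb : Fin (r + 2) → w.RF := fun i => w.red (v i) with hvb
  rw [heb] at q2' q3' q7' q8'
  have k1 : 3 * Bg T cb cb eb = w.red l ^ 2 := by
    rw [← w.red_pow q9, ← g1, w.red_mul n3.1 q7, n3.2, q7']
  have k2 : 3 * Bg T cb eb eb = 2 * algebraMap ℂ w.RF β0 * w.red l := by
    have h5 : w.red (3 * Bg T c' e e) = w.red (2 * algebraMap ℂ E β0 * l) := by rw [g2]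
    rw [w.red_mul n3.1 q8, n3.2, q8', w.red_mul (w.reg_mul n2.1 (w.reg_const β0)) q9,
      w.red_mul n2.1 (w.reg_const β0), n2.2] at h5
    exact h5
  have k3 : Bg T eb eb eb = algebraMap ℂ w.RF β0 ^ 2 := g3 w.RF
  set a := w.red A with ha
  set b := w.red B with hb
  set p : Fin (r + 2) → w.RF := fun i => a * cb i + b * eb i + 0 * vb i with hp
  have hpp : ∀ u : Fin (r + 2) → w.RF, Bg T p p u = a ^ 2 * Bg T cb cb u +
      2 * a * b * Bg T cb eb u + b ^ 2 * Bg T eb eb u := by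
    intro u
    have h5 : p = fun i => a * cb i + b * eb i := by
      funext i
      rw [hp]
      ring
    rw [h5, Bg_add1 T (fun i => a * cb i) (fun i => b * eb i), Bg_smul1, Bg_smul1,
      Bg_add2 T cb (fun i => a * cb i) (fun i => b * eb i), Bg_smul2, Bg_smul2,
      Bg_add2 T eb (fun i => a * cb i) (fun i => b * eb i), Bg_smul2, Bg_smul2,
      Bg_swap12 hT eb cb u]
    ring
  have hp0 : p ≠ 0 := by
    intro h
    have h5 := congrFun h 0
    have h6 := congrFun h i1
    have hi10 : i1 ≠ 0 := by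
      rintro rfl
      exact hi1 hc0
    have e1 : cb 0 = 0 := by
      rw [hcb]
      simp only
      rw [hc'0, w.red_zero]
    have e2 : eb 0 = 1 := by
      rw [hebd]
      simp [Rat.ev]
    have e3 : cb i1 = 1 := by
      rw [hcb]
      simp only
      rw [hci1, w.red_one]
    have e4 : eb i1 = 0 := by
      rw [hebd]
      simp [Rat.ev, hi10]
    rw [hp] at h5 h6
    simp only [Pi.zero_apply, e1, e2, mul_zero, mul_one, zero_add, zero_mul, add_zero] at h5
    simp only [Pi.zero_apply, e3, e4, mul_zero, mul_one, zero_mul, add_zero] at h6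
    rcases hAB with h7 | h7
    · exact h7 h6
    · exact h7 h5
  have hpd : ∀ s, aeval p (pderiv s F) = 3 * Bg T p p (Rat.ev w.RF s) := by
    intro s
    rw [hFT]
    exact Rat.pd_ev hT s p
  refine no_pole hF hsm (fun j => w.red (y j)) hyind hyodd p hp0 ?_ ?_
  · rw [hpd, hpp]
    linear_combination a ^ 2 * k1 + 2 * a * b * k2 + 3 * b ^ 2 * k3 +
      (a * w.red l + 3 * b * algebraMap ℂ w.RF β0) * hD0
  · have h5 : 3 * Bg T p p vb = 0 := by
      rw [hpp, ← q1', ← q2', ← q3', ← hG0, hGred]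
      ring
    have h6 : vb = fun i => ∑ s, vb s * Rat.ev w.RF s i := by
      funext i
      rw [Finset.sum_eq_single i]
      · simp [Rat.ev]
      · intro s _ hs
        unfold Rat.ev
        rw [if_neg (Ne.symm hs), mul_zero]
      · intro h
        exact absurd (Finset.mem_univ i) h
    rw [h6, Bg_sum3 hT] at h5
    simp only [Bg_smul3] at h5
    rw [Fin.sum_univ_succ, Fin.sum_univ_succ] at h5
    have v0 : vb 0 = 0 := by
      rw [hvb]
      exact w.red_zero
    have v1 : vb (Fin.succ 0) = 1 := by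
      rw [hvb]
      exact w.red_one
    have v2 : ∀ j : Fin r, vb j.succ.succ = w.red (y j) := fun _ => rfl
    rw [v0, v1, zero_mul, zero_add, one_mul, mul_add, Finset.mul_sum] at h5
    rw [hpd]
    rw [show (1 : Fin (r + 2)) = Fin.succ 0 from rfl, ← h5]
    congr 1
    refine Finset.sum_congr rfl fun j _ => ?_
    rw [hpd, v2]
    ring

end

end Pool.Agent.N122
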