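import Mathlib
import Pool.Agent.N122.Core
import Pool.Agent.R845.E3.Lin

/-! # The main lemma in arbitrary coordinates -/

set_option autoImplicit false

namespace Pool.Agent.N122

open MvPolynomial Pool.Agent.TH314.PD Module FF IntermediateField Pool.Agent.Y201.C3
open Pool.Agent.R845.T2 Pool.Agent.R845.E3

noncomputable section

/-- a basis which starts with a given vector, and whose other vectors are in a given hyperplane -/
theorem exists_basis {r : ℕ} (z0 ψ : Fin (r + 2) → ℂ) (h : ∑ i, ψ i * z0 i = 1) :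
    ∃ (w G : Fin (r + 2) → Fin (r + 2) → ℂ), w 0 = z0 ∧
      (∀ a, a ≠ 0 → ∑ i, ψ i * w a i = 0) ∧
      (∀ i j, ∑ a, w a i * G a j = if i = j then 1 else 0) ∧
      (∀ a b, ∑ i, G a i * w b i = if a = b then 1 else 0) := by
  classical
  let φ : (Fin (r + 2) → ℂ) →ₗ[ℂ] ℂ :=
    { toFun := fun v => ∑ i, ψ i * v i
      map_add' := fun v v' => by
        rw [← Finset.sum_add_distrib]
        refine Finset.sum_congr rfl fun i _ => ?_
        rw [Pi.add_apply, mul_add]
      map_smul' := fun c v => by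
        rw [RingHom.id_apply, smul_eq_mul, Finset.mul_sum]
        refine Finset.sum_congr rfl fun i _ => ?_
        rw [Pi.smul_apply, smul_eq_mul]
        ring }
  have hφ0 : φ z0 = 1 := h
  have hsurj : Function.Surjective φ := by
    intro c
    refine ⟨c • z0, ?_⟩
    rw [map_smul, hφ0, smul_eq_mul, mul_one]
  have hker : finrank ℂ (LinearMap.ker φ) = r + 1 := by
    have h1 := LinearMap.finrank_range_add_finrank_ker φ
    rw [LinearMap.range_eq_top.2 hsurj, finrank_top, finrank_self, finrank_fin_fun] at h1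
    omega
  let b : Basis (Fin (r + 1)) ℂ (LinearMap.ker φ) := finBasisOfFinrankEq ℂ _ hker
  let w : Fin (r + 1 + 1) → (Fin (r + 2) → ℂ) := Fin.cons z0 (fun j => (b j : Fin (r + 2) → ℂ))
  have hw : LinearIndependent ℂ w := by
    rw [linearIndependent_finCons]
    refine ⟨?_, ?_⟩
    · have h2 := b.linearIndependent.map' (LinearMap.ker φ).subtype (Submodule.ker_subtype _)
      exact h2
    · intro h2
      have h3 : Submodule.span ℂ (Set.range fun j => (b j : Fin (r + 2) → ℂ)) ≤
          LinearMap.ker φ := by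
        rw [Submodule.span_le]
        rintro _ ⟨j, rfl⟩
        exact (b j).2
      have h4 : φ z0 = 0 := h3 h2
      rw [hφ0] at h4
      exact one_ne_zero h4
  let B : Basis (Fin (r + 2)) ℂ (Fin (r + 2) → ℂ) :=
    basisOfLinearIndependentOfCardEqFinrank (b := w) hw (by
      rw [Fintype.card_fin, finrank_fin_fun])
  have hB : ∀ a, B a = w a := fun a => by
    simp only [B, coe_basisOfLinearIndependentOfCardEqFinrank]
  refine ⟨w, fun a i => B.repr (Pi.single i 1) a, rfl, ?_, ?_, ?_⟩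
  · intro a ha
    obtain ⟨j, rfl⟩ := Fin.exists_succ_eq.2 ha
    exact (b j).2
  · intro i j
    have h2 := B.sum_repr (Pi.single j 1)
    have h3 := congrFun h2 i
    rw [Finset.sum_apply] at h3
    simp only [Pi.smul_apply, smul_eq_mul, hB, Pi.single_apply] at h3
    rw [← h3]
    refine Finset.sum_congr rfl fun a _ => ?_
    ring
  · intro a c
    have h2 : B.repr (w c) a = if a = c then 1 else 0 := by
      rw [← hB, B.repr_self, Finsupp.single_apply]
      simp only [eq_comm]
    rw [← h2]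
    have h3 : w c = ∑ i, w c i • (Pi.single i 1 : Fin (r + 2) → ℂ) := by
      funext j
      rw [Finset.sum_apply, Finset.sum_eq_single j]
      · simp
      · intro i _ hi
        rw [Pi.smul_apply, Pi.single_eq_of_ne (Ne.symm hi), smul_zero]
      · intro h4
        exact absurd (Finset.mem_univ j) h4
    conv_rhs => rw [h3, map_sum]
    rw [Finsupp.finsetSum_apply]
    refine Finset.sum_congr rfl fun i _ => ?_
    rw [map_smul, Finsupp.smul_apply, smul_eq_mul, mul_comm]

theorem hom_Bg {N : ℕ} (T : Fin N → Fin N → Fin N → ℂ) :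
    (Bg T X X X : MvPolynomial (Fin N) ℂ).IsHomogeneous 3 := by
  unfold Bg
  refine IsHomogeneous.sum _ _ _ fun i _ => IsHomogeneous.sum _ _ _ fun j _ =>
    IsHomogeneous.sum _ _ _ fun k _ => ?_
  have h1 := (((isHomogeneous_C (Fin N) (T i j k)).mul (isHomogeneous_X ℂ i)).mul
    (isHomogeneous_X ℂ j)).mul (isHomogeneous_X ℂ k)
  exact h1

/-- new coordinates -/
def nc {r : ℕ} {R : Type} [CommRing R] [Algebra ℂ R] (G : Fin r → Fin r → ℂ) (v : Fin r → R) :
    Fin r → R :=
  fun a => ∑ i, algebraMap ℂ R (G a i) * v i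

/-- old coordinates -/
def oc {r : ℕ} {R : Type} [CommRing R] [Algebra ℂ R] (w : Fin r → Fin r → ℂ) (v : Fin r → R) :
    Fin r → R :=
  fun i => ∑ a, v a * algebraMap ℂ R (w a i)

section coords

variable {r : ℕ} {w G : Fin r → Fin r → ℂ}

theorem oc_nc (hwG : ∀ i j, ∑ a, w a i * G a j = if i = j then 1 else 0)
    {R : Type} [CommRing R] [Algebra ℂ R] (v : Fin r → R) : oc w (nc G v) = v := by
  funext i
  have e1 : ∀ a, nc G v a * algebraMap ℂ R (w a i) =
      ∑ j, algebraMap ℂ R (w a i * G a j) * v j := by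
    intro a
    change (∑ j, algebraMap ℂ R (G a j) * v j) * _ = _
    rw [Finset.sum_mul]
    refine Finset.sum_congr rfl fun j _ => ?_
    rw [map_mul]
    ring
  change ∑ a, nc G v a * algebraMap ℂ R (w a i) = v i
  rw [Finset.sum_congr rfl fun a _ => e1 a, Finset.sum_comm]
  have e2 : ∀ j, ∑ a, algebraMap ℂ R (w a i * G a j) * v j = if i = j then v j else 0 := by
    intro j
    rw [← Finset.sum_mul, ← map_sum, hwG]
    split_ifs <;> simp
  rw [Finset.sum_congr rfl fun j _ => e2 j, Finset.sum_ite_eq Finset.univ i]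
  simp

theorem nc_oc (hGw : ∀ a b, ∑ i, G a i * w b i = if a = b then 1 else 0)
    {R : Type} [CommRing R] [Algebra ℂ R] (v : Fin r → R) : nc G (oc w v) = v := by
  funext b
  change ∑ i, algebraMap ℂ R (G b i) * (∑ a, v a * algebraMap ℂ R (w a i)) = v b
  have e1 : ∀ i, algebraMap ℂ R (G b i) * (∑ a, v a * algebraMap ℂ R (w a i)) =
      ∑ a, algebraMap ℂ R (G b i * w a i) * v a := by
    intro i
    rw [Finset.mul_sum]
    refine Finset.sum_congr rfl fun a _ => ?_
    rw [map_mul]
    ring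
  rw [Finset.sum_congr rfl fun i _ => e1 i, Finset.sum_comm]
  have e2 : ∀ a, ∑ i, algebraMap ℂ R (G b i * w a i) * v a = if b = a then v a else 0 := by
    intro a
    rw [← Finset.sum_mul, ← map_sum, hGw]
    split_ifs <;> simp
  rw [Finset.sum_congr rfl fun a _ => e2 a, Finset.sum_ite_eq Finset.univ b]
  simp

/-- linear functionals in old and in new coordinates -/
theorem lin_oc (hwG : ∀ i j, ∑ a, w a i * G a j = if i = j then 1 else 0)
    {R : Type} [CommRing R] [Algebra ℂ R] (β : Fin r → ℂ) (c : Fin r → R) :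
    ∑ i, algebraMap ℂ R (β i) * c i = ∑ a, algebraMap ℂ R (∑ i, β i * w a i) * nc G c a := by
  have e1 : ∀ i, algebraMap ℂ R (β i) * c i =
      ∑ a, algebraMap ℂ R (β i * w a i) * nc G c a := by
    intro i
    conv_lhs => rw [← oc_nc hwG c]
    unfold oc
    rw [Finset.mul_sum]
    refine Finset.sum_congr rfl fun a _ => ?_
    rw [map_mul]
    ring
  rw [Finset.sum_congr rfl fun i _ => e1 i, Finset.sum_comm]
  refine Finset.sum_congr rfl fun a _ => ?_
  rw [map_sum, Finset.sum_mul]

theorem map_nc {R R' : Type} [CommRing R] [Algebra ℂ R] [CommRing R'] [Algebra ℂ R']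
    (φ : R →ₐ[ℂ] R') (v : Fin r → R) (a : Fin r) :
    φ (nc G v a) = nc G (fun i => φ (v i)) a := by
  unfold nc
  rw [map_sum]
  refine Finset.sum_congr rfl fun i _ => ?_
  rw [map_mul, AlgHom.commutes]

theorem gen_nc (hGw : ∀ a b, ∑ i, G a i * w b i = if a = b then 1 else 0)
    {E : Type} [Field E] [Algebra ℂ E] (z : Fin r → E)
    (hz : ∀ (e : ℕ) (H : MvPolynomial (Fin r) ℂ), H.IsHomogeneous e → aeval z H = 0 → H = 0)
    (e : ℕ) (H : MvPolynomial (Fin r) ℂ) (hH : H.IsHomogeneous e) (h0 : aeval (nc G z) H = 0) :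
    H = 0 := by
  have e1 : aeval z (aeval (nc G (X : Fin r → MvPolynomial (Fin r) ℂ)) H) = aeval (nc G z) H := by
    rw [comp_aeval_apply]
    congr 2
    funext a
    rw [map_nc]
    congr 1
    funext i
    rw [aeval_X]
  have e2 : (aeval (nc G (X : Fin r → MvPolynomial (Fin r) ℂ)) H).IsHomogeneous (1 * e) := by
    refine hH.aeval (nc G (X : Fin r → MvPolynomial (Fin r) ℂ)) (n := 1) (fun a => ?_)
    refine IsHomogeneous.sum _ _ _ fun i _ => ?_
    have := (isHomogeneous_C (Fin r) (G a i)).mul (isHomogeneous_X ℂ i)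
    rw [zero_add] at this
    exact this
  have e3 := hz _ _ e2 (by rw [e1, h0])
  have e4 : aeval (oc w (X : Fin r → MvPolynomial (Fin r) ℂ))
      (aeval (nc G (X : Fin r → MvPolynomial (Fin r) ℂ)) H) = H := by
    rw [comp_aeval_apply]
    have e5 : (fun a => aeval (oc w (X : Fin r → MvPolynomial (Fin r) ℂ))
        (nc G (X : Fin r → MvPolynomial (Fin r) ℂ) a)) = X := by
      funext a
      rw [map_nc]
      simp only [aeval_X]
      exact congrFun (nc_oc hGw (X : Fin r → MvPolynomial (Fin r) ℂ)) a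
    rw [e5]
    exact aeval_X_left_apply H
  rw [← e4, e3, map_zero]

theorem ratio_nc (hwG : ∀ i j, ∑ a, w a i * G a j = if i = j then 1 else 0)
    {E : Type} [Field E] [Algebra ℂ E] (z : Fin r → E) (h1 : ∃ b, z b ≠ 0)
    (h2 : ∃ b, nc G z b ≠ 0) : ratioField (nc G z) = ratioField z := by
  apply le_antisymm
  · refine ratioField_le z h1 _ fun a => ⟨∑ i, C (G a i) * X i, ?_, ?_⟩
    · refine IsHomogeneous.sum _ _ _ fun i _ => ?_
      have := (isHomogeneous_C (Fin r) (G a i)).mul (isHomogeneous_X ℂ i)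
      rw [zero_add] at this
      exact this
    · rw [map_sum]
      refine Finset.sum_congr rfl fun i _ => ?_
      rw [map_mul, aeval_X, aeval_C]
  · refine ratioField_le (nc G z) h2 _ fun i => ⟨∑ a, C (w a i) * X a, ?_, ?_⟩
    · refine IsHomogeneous.sum _ _ _ fun a _ => ?_
      have := (isHomogeneous_C (Fin r) (w a i)).mul (isHomogeneous_X ℂ a)
      rw [zero_add] at this
      exact this
    · have e1 := congrFun (oc_nc hwG z) i
      rw [map_sum]
      conv_lhs => rw [← e1]
      refine Finset.sum_congr rfl fun a _ => ?_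
      rw [map_mul, aeval_X, aeval_C, mul_comm]

theorem Bg_nc (hwG : ∀ i j, ∑ a, w a i * G a j = if i = j then 1 else 0)
    {T : Fin r → Fin r → Fin r → ℂ} (hT : SymG T) {R : Type} [CommRing R] [Algebra ℂ R]
    (x y u : Fin r → R) : Bg (comp T w) (nc G x) (nc G y) (nc G u) = Bg T x y u := by
  rw [Bg_comp hT]
  have e1 := oc_nc hwG x
  have e2 := oc_nc hwG y
  have e3 := oc_nc hwG u
  unfold oc at e1 e2 e3
  rw [e1, e2, e3]

theorem sum_ev {R : Type} [CommRing R] (v : Fin r → R) :
    (fun i => ∑ s, v s * Rat.ev R s i) = v := by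
  funext i
  rw [Finset.sum_eq_single i]
  · simp [Rat.ev]
  · intro s _ hs
    unfold Rat.ev
    rw [if_neg (Ne.symm hs), mul_zero]
  · intro h
    exact absurd (Finset.mem_univ i) h

theorem sm_nc (hwG : ∀ i j, ∑ a, w a i * G a j = if i = j then 1 else 0)
    (hGw : ∀ a b, ∑ i, G a i * w b i = if a = b then 1 else 0)
    {T : Fin r → Fin r → Fin r → ℂ} (hT : SymG T)
    (hsm : Sm (Bg T X X X : MvPolynomial (Fin r) ℂ)) :
    Sm (Bg (comp T w) X X X : MvPolynomial (Fin r) ℂ) := by
  have hT's : SymG (comp T w) := comp_sym hT w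
  intro u hu
  have e1 : ∀ s, 3 * Bg (comp T w) u u (Rat.ev ℂ s) = 0 := by
    intro s
    rw [← hu s, ← aeval_eq_eval]
    exact (Rat.pd_ev hT's s u).symm
  set U : Fin r → ℂ := oc w u with hU
  have e2 : ∀ v : Fin r → ℂ, 3 * Bg T U U v = 0 := by
    intro v
    have e3 := Bg_nc hwG hT U U v
    rw [hU, nc_oc hGw u, ← hU] at e3
    rw [← e3, ← sum_ev (nc G v), Bg_sum3 hT's]
    simp only [Bg_smul3]
    rw [Finset.mul_sum]
    refine Finset.sum_eq_zero fun s _ => ?_
    have e5 := e1 s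
    linear_combination nc G v s * e5
  have e3 : U = 0 := by
    apply hsm
    intro i
    rw [← aeval_eq_eval]
    exact (Rat.pd_ev hT i U).trans (e2 _)
  rw [← nc_oc hGw u, ← hU, e3]
  funext a
  change ∑ i, algebraMap ℂ ℂ (G a i) * (0 : Fin r → ℂ) i = 0
  simp

end coords

theorem odd1 {r : ℕ} {F : MvPolynomial (Fin (r + 2)) ℂ} (hsm : Sm F)
    {T : Fin (r + 2) → Fin (r + 2) → Fin (r + 2) → ℂ} (hT : SymG T) (hFT : F = Bg T X X X)
    {E : Type} [Field E] [Algebra ℂ E] (z : Fin (r + 2) → E)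
    (hz : ∀ (e : ℕ) (H : MvPolynomial (Fin (r + 2)) ℂ), H.IsHomogeneous e → aeval z H = 0 → H = 0)
    (hodd : Odd (finrank (ratioField z) E)) (z0 ψ β : Fin (r + 2) → ℂ) (β0 : ℂ)
    (hψ : ∑ i, ψ i * z0 i = 1)
    (c : Fin (r + 2) → E) (hc0 : ∑ i, algebraMap ℂ E (ψ i) * c i = 0) (hc : Bg T c c c = 0)
    (h1 : 3 * Bg T c c (fun i => algebraMap ℂ E (z0 i)) =
      (∑ i, algebraMap ℂ E (β i) * c i) ^ 2)
    (h2 : 3 * Bg T c (fun i => algebraMap ℂ E (z0 i)) (fun i => algebraMap ℂ E (z0 i)) =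
      2 * algebraMap ℂ E β0 * ∑ i, algebraMap ℂ E (β i) * c i)
    (h3 : Bg T z0 z0 z0 = β0 ^ 2) (α : E)
    (hα : aeval (fun i => z i + α * c i) F = 0) : False := by
  classical
  obtain ⟨w, G, hw0, hwψ, hwG, hGw⟩ := exists_basis z0 ψ hψ
  have hev : ∀ {R : Type} [CommRing R] [Algebra ℂ R] (v : Fin (r + 2) → R),
      aeval v F = Bg T v v v := by
    intro R _ _ v
    conv_lhs => rw [hFT]
    exact aeval_frmG T v
  have hz' := gen_nc hGw z hz
  have hzne : ∀ i, z i ≠ 0 := by
    intro i h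
    exact X_ne_zero i (hz 1 (X i) (isHomogeneous_X _ _) (by rw [aeval_X, h]))
  have hzne' : ∀ i, nc G z i ≠ 0 := by
    intro i h
    exact X_ne_zero i (hz' 1 (X i) (isHomogeneous_X _ _) (by rw [aeval_X, h]))
  have hrat : ratioField (nc G z) = ratioField z :=
    ratio_nc hwG z ⟨0, hzne 0⟩ ⟨0, hzne' 0⟩
  have hz0 : ∀ (R : Type) [CommRing R] [Algebra ℂ R],
      nc G (fun i => algebraMap ℂ R (z0 i)) = Rat.ev R 0 := by
    intro R _ _
    rw [← nc_oc hGw (Rat.ev R (0 : Fin (r + 2)))]
    congr 1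
    funext i
    unfold oc
    rw [Finset.sum_eq_single 0]
    · simp [Rat.ev, hw0]
    · intro a _ ha
      simp [Rat.ev, ha]
    · intro h
      exact absurd (Finset.mem_univ _) h
  refine odd0 (hom_Bg (comp T w)) (sm_nc hwG hGw hT (hFT ▸ hsm)) (comp_sym hT w) rfl
    (nc G z) hz' (by rw [hrat]; exact hodd) β0
    (fun a => ∑ i, β i * w a i) (nc G c) ?_ ?_ ?_ ?_ ?_ α ?_
  · rw [lin_oc hwG, Finset.sum_eq_single 0] at hc0
    · rw [hw0, hψ, map_one, one_mul] at hc0
      exact hc0
    · intro a _ ha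
      rw [hwψ a ha, map_zero, zero_mul]
    · intro h
      exact absurd (Finset.mem_univ _) h
  · rw [Bg_nc hwG hT]
    exact hc
  · rw [← hz0 E, Bg_nc hwG hT, ← lin_oc hwG]
    exact h1
  · rw [← hz0 E, Bg_nc hwG hT, ← lin_oc hwG]
    exact h2
  · have e1 := hz0 ℂ
    rw [← e1, Bg_nc hwG hT]
    exact h3
  · rw [aeval_frmG]
    have e1 : (fun a => nc G z a + α * nc G c a) = nc G (fun i => z i + α * c i) := by
      funext a
      change (∑ i, _ * z i) + α * ∑ i, _ * c i = ∑ i, _ * (z i + α * c i)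
      rw [Finset.mul_sum, ← Finset.sum_add_distrib]
      refine Finset.sum_congr rfl fun i _ => ?_
      ring
    rw [e1, Bg_nc hwG hT, ← hev]
    exact hα

end

end Pool.Agent.N122
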