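import Mathlib
import Pool.Agent.N122.Change
import Pool.Agent.R845.Zero

/-! # Existence of a special point -/

set_option autoImplicit false

namespace Pool.Agent.N122

open MvPolynomial Module Pool.Agent.Y201.C3 Pool.Agent.R845.E3

noncomputable section

variable {N : ℕ} {E : Type} [Field E] [Algebra ℂ E]

/-- the space spanned by the coordinates -/
def sp1 (c : Fin N → E) : Submodule ℂ E := Submodule.span ℂ (Set.range c)

/-- the space spanned by the products of two coordinates -/
def sp2 (c : Fin N → E) : Submodule ℂ E :=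
  Submodule.span ℂ (Set.range fun p : Fin N × Fin N => c p.1 * c p.2)

instance (c : Fin N → E) : FiniteDimensional ℂ (sp1 c) :=
  FiniteDimensional.span_of_finite ℂ (Set.finite_range c)

instance (c : Fin N → E) : FiniteDimensional ℂ (sp2 c) :=
  FiniteDimensional.span_of_finite ℂ (Set.finite_range _)

theorem exists_pt {T : Fin N → Fin N → Fin N → ℂ} (hT : SymG T) (c : Fin N → E)
    (hdim : finrank ℂ (sp1 c) + finrank ℂ (sp2 c) < N) :
    ∃ (z0 ψ β : Fin N → ℂ) (β0 : ℂ), ∑ i, ψ i * z0 i = 1 ∧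
      ∑ i, algebraMap ℂ E (ψ i) * c i = 0 ∧
      3 * Bg T c c (fun i => algebraMap ℂ E (z0 i)) =
        (∑ i, algebraMap ℂ E (β i) * c i) ^ 2 ∧
      3 * Bg T c (fun i => algebraMap ℂ E (z0 i)) (fun i => algebraMap ℂ E (z0 i)) =
        2 * algebraMap ℂ E β0 * ∑ i, algebraMap ℂ E (β i) * c i ∧
      Bg T z0 z0 z0 = β0 ^ 2 := by
  classical
  -- the relations
  let κ : (Fin N → ℂ) →ₗ[ℂ] E :=
    { toFun := fun v => ∑ i, algebraMap ℂ E (v i) * c i
      map_add' := fun v v' => by
        rw [← Finset.sum_add_distrib]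
        refine Finset.sum_congr rfl fun i _ => ?_
        rw [Pi.add_apply, map_add, add_mul]
      map_smul' := fun a v => by
        rw [RingHom.id_apply, Finset.smul_sum]
        refine Finset.sum_congr rfl fun i _ => ?_
        rw [Pi.smul_apply, smul_eq_mul, map_mul, Algebra.smul_def]
        ring }
  have hκ : ∀ v, κ v = ∑ i, algebraMap ℂ E (v i) * c i := fun _ => rfl
  have hrange : LinearMap.range κ = sp1 c := by
    apply le_antisymm
    · rintro _ ⟨v, rfl⟩
      rw [hκ]
      refine Submodule.sum_mem _ fun i _ => ?_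
      rw [← Algebra.smul_def]
      exact Submodule.smul_mem _ _ (Submodule.subset_span ⟨i, rfl⟩)
    · unfold sp1
      rw [Submodule.span_le]
      rintro _ ⟨i, rfl⟩
      refine ⟨Pi.single i 1, ?_⟩
      rw [hκ, Finset.sum_eq_single i]
      · simp
      · intro j _ hj
        rw [Pi.single_eq_of_ne hj, map_zero, zero_mul]
      · intro h
        exact absurd (Finset.mem_univ i) h
  set d := finrank ℂ (sp1 c) with hd
  set h := finrank ℂ (sp2 c) with hh
  have hker : finrank ℂ (LinearMap.ker κ) + d = N := by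
    have h1 := LinearMap.finrank_range_add_finrank_ker κ
    rw [hrange, finrank_fin_fun] at h1
    omega
  set q := finrank ℂ (LinearMap.ker κ) with hq
  let bR : Basis (Fin q) ℂ (LinearMap.ker κ) := finBasis ℂ _
  let b1 : Basis (Fin d) ℂ (sp1 c) := finBasis ℂ _
  let b2 : Basis (Fin h) ℂ (sp2 c) := finBasis ℂ _
  have hφ : ∀ a : Fin d, ∃ v : Fin N → ℂ, κ v = b1 a := by
    intro a
    have h1 : (b1 a : E) ∈ LinearMap.range κ := by
      rw [hrange]
      exact (b1 a).2
    exact h1
  choose φ hφ using hφ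
  have hc1 : ∀ i, c i ∈ sp1 c := fun i => Submodule.subset_span ⟨i, rfl⟩
  have hc2 : ∀ i j, c i * c j ∈ sp2 c := fun i j => Submodule.subset_span ⟨(i, j), rfl⟩
  let m1 : Fin N → Fin d → ℂ := fun i a => b1.repr ⟨c i, hc1 i⟩ a
  let m2 : Fin N → Fin N → Fin h → ℂ := fun i j a => b2.repr ⟨c i * c j, hc2 i j⟩ a
  -- the unknowns
  let σ : Type := Fin q ⊕ Fin d ⊕ Unit
  let Z : Fin N → MvPolynomial σ ℂ := fun k =>
    ∑ j : Fin q, C ((starRingEnd ℂ) ((bR j : Fin N → ℂ) k)) * X (Sum.inl j)
  let Bt : Fin N → MvPolynomial σ ℂ := fun i => ∑ a : Fin d, C (φ a i) * X (Sum.inr (Sum.inl a))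
  let B0 : MvPolynomial σ ℂ := X (Sum.inr (Sum.inr ()))
  let P1 : Fin h → MvPolynomial σ ℂ := fun a => ∑ i, ∑ j, C (m2 i j a) *
    ((∑ k, C (3 * T i j k) * Z k) - Bt i * Bt j)
  let P2 : Fin d → MvPolynomial σ ℂ := fun a => ∑ i, C (m1 i a) *
    ((∑ j, ∑ k, C (3 * T i j k) * Z j * Z k) - 2 * B0 * Bt i)
  let P3 : MvPolynomial σ ℂ := (∑ i, ∑ j, ∑ k, C (T i j k) * Z i * Z j * Z k) - B0 ^ 2
  obtain ⟨b, hb, hz⟩ := Pool.Agent.R845.exists_other_zero'' (σ := σ)
    (ι := Fin h ⊕ Fin d ⊕ Unit) (by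
      simp only [σ, Fintype.card_sum, Fintype.card_fin, Fintype.card_unit]
      omega) (Sum.elim P1 (Sum.elim P2 (fun _ => P3))) 0 (by
      rintro (a | a | a)
      · simp [P1, Z, Bt]
      · simp [P2, Z, Bt, B0]
      · simp [P3, Z, B0])
  set z0 : Fin N → ℂ := fun k => ∑ j : Fin q, (starRingEnd ℂ) ((bR j : Fin N → ℂ) k) *
    b (Sum.inl j) with hz0
  set β : Fin N → ℂ := fun i => ∑ a : Fin d, φ a i * b (Sum.inr (Sum.inl a)) with hβ
  set β0 : ℂ := b (Sum.inr (Sum.inr ())) with hβ0
  have eZ : ∀ k, eval b (Z k) = z0 k := by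
    intro k
    simp [Z, hz0]
  have eB : ∀ i, eval b (Bt i) = β i := by
    intro i
    simp [Bt, hβ]
  have z1 : ∀ a : Fin h, ∑ i, ∑ j, m2 i j a * ((∑ k, (3 * T i j k) * z0 k) - β i * β j) = 0 := by
    intro a
    have h1 := hz (Sum.inl a)
    simp only [Sum.elim_inl, P1, map_sum, map_mul, map_sub, eval_C, eZ, eB] at h1
    exact h1
  have z2 : ∀ a : Fin d, ∑ i, m1 i a * ((∑ j, ∑ k, (3 * T i j k) * z0 j * z0 k) -
      2 * β0 * β i) = 0 := by
    intro a
    have h1 := hz (Sum.inr (Sum.inl a))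
    simp only [Sum.elim_inl, Sum.elim_inr, P2, map_sum, map_mul, map_sub, eval_C, eZ, eB,
      map_ofNat] at h1
    simp only [B0, eval_X] at h1
    exact h1
  have z3 : (∑ i, ∑ j, ∑ k, T i j k * z0 i * z0 j * z0 k) = β0 ^ 2 := by
    have h1 := hz (Sum.inr (Sum.inr ()))
    simp only [Sum.elim_inr, P3, map_sum, map_mul, map_sub, eval_C, eZ, map_pow] at h1
    simp only [B0, eval_X] at h1
    exact sub_eq_zero.1 h1
  -- back to the field
  have s1 : ∀ S : Fin N → ℂ, (∀ a : Fin d, ∑ i, m1 i a * S i = 0) →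
      ∑ i, algebraMap ℂ E (S i) * c i = 0 := by
    intro S hS
    have h1 : (∑ i, S i • (⟨c i, hc1 i⟩ : sp1 c)) = 0 := by
      apply b1.repr.injective
      rw [map_zero, map_sum]
      ext a
      rw [Finsupp.finsetSum_apply, Finsupp.zero_apply, ← hS a]
      refine Finset.sum_congr rfl fun i _ => ?_
      rw [map_smul, Finsupp.smul_apply, smul_eq_mul, mul_comm]
    have h2 := congrArg (Submodule.subtype (sp1 c)) h1
    rw [map_zero, map_sum] at h2
    rw [← h2]
    refine Finset.sum_congr rfl fun i _ => ?_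
    rw [map_smul, Algebra.smul_def]
    rfl
  have s2 : ∀ S : Fin N → Fin N → ℂ, (∀ a : Fin h, ∑ i, ∑ j, m2 i j a * S i j = 0) →
      ∑ i, ∑ j, algebraMap ℂ E (S i j) * (c i * c j) = 0 := by
    intro S hS
    have h1 : (∑ i, ∑ j, S i j • (⟨c i * c j, hc2 i j⟩ : sp2 c)) = 0 := by
      apply b2.repr.injective
      rw [map_zero, map_sum]
      ext a
      rw [Finsupp.finsetSum_apply, Finsupp.zero_apply, ← hS a]
      refine Finset.sum_congr rfl fun i _ => ?_
      rw [map_sum, Finsupp.finsetSum_apply]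
      refine Finset.sum_congr rfl fun j _ => ?_
      rw [map_smul, Finsupp.smul_apply, smul_eq_mul, mul_comm]
    have h2 := congrArg (Submodule.subtype (sp2 c)) h1
    rw [map_zero, map_sum] at h2
    rw [← h2]
    refine Finset.sum_congr rfl fun i _ => ?_
    rw [map_sum]
    refine Finset.sum_congr rfl fun j _ => ?_
    rw [map_smul, Algebra.smul_def]
    rfl
  have e1 := s2 _ z1
  have e2 := s1 _ z2
  have f1 : 3 * Bg T c c (fun i => algebraMap ℂ E (z0 i)) =
      (∑ i, algebraMap ℂ E (β i) * c i) ^ 2 := by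
    rw [← sub_eq_zero, ← e1]
    unfold Bg
    rw [pow_two, Finset.sum_mul_sum, Finset.mul_sum, ← Finset.sum_sub_distrib]
    refine Finset.sum_congr rfl fun i _ => ?_
    rw [Finset.mul_sum, ← Finset.sum_sub_distrib]
    refine Finset.sum_congr rfl fun j _ => ?_
    have g1 : (3 : E) * ∑ k, algebraMap ℂ E (T i j k) * c i * c j * algebraMap ℂ E (z0 k) =
        algebraMap ℂ E (∑ k, 3 * T i j k * z0 k) * (c i * c j) := by
      rw [Finset.mul_sum, map_sum, Finset.sum_mul]
      refine Finset.sum_congr rfl fun k _ => ?_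
      simp only [map_mul, map_ofNat]
      ring
    rw [g1, map_sub, sub_mul, map_mul]
    generalize algebraMap ℂ E (β i) = u
    generalize algebraMap ℂ E (β j) = v
    ring
  have f2 : 3 * Bg T c (fun i => algebraMap ℂ E (z0 i)) (fun i => algebraMap ℂ E (z0 i)) =
      2 * algebraMap ℂ E β0 * ∑ i, algebraMap ℂ E (β i) * c i := by
    rw [← sub_eq_zero, ← e2]
    unfold Bg
    rw [Finset.mul_sum, Finset.mul_sum, ← Finset.sum_sub_distrib]
    refine Finset.sum_congr rfl fun i _ => ?_
    rw [map_sub, sub_mul]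
    congr 1
    · rw [Finset.mul_sum, map_sum, Finset.sum_mul]
      refine Finset.sum_congr rfl fun j _ => ?_
      rw [Finset.mul_sum, map_sum, Finset.sum_mul]
      refine Finset.sum_congr rfl fun k _ => ?_
      simp only [map_mul, map_ofNat]
      ring
    · simp only [map_mul, map_ofNat]
      ring
  have f3 : Bg T z0 z0 z0 = β0 ^ 2 := by
    rw [← z3]
    rfl
  -- the relation
  set ρ : Fin N → ℂ := fun k => (starRingEnd ℂ) (z0 k) with hρ
  have hρmem : ρ ∈ LinearMap.ker κ := by
    have h1 : ρ = ∑ j : Fin q, (starRingEnd ℂ) (b (Sum.inl j)) • (bR j : Fin N → ℂ) := by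
      funext k
      rw [hρ, hz0, Finset.sum_apply]
      simp only
      rw [map_sum]
      refine Finset.sum_congr rfl fun j _ => ?_
      rw [map_mul, Pi.smul_apply, smul_eq_mul, Complex.conj_conj, mul_comm]
    rw [h1]
    exact Submodule.sum_mem _ fun j _ => Submodule.smul_mem _ _ (bR j).2
  have hz0ne : z0 ≠ 0 := by
    intro h0
    apply hb
    -- `β0 = 0`
    have g0 : β0 = 0 := by
      rw [h0] at f3
      have h1 : Bg T (0 : Fin N → ℂ) 0 0 = 0 := by
        unfold Bg
        simp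
      rw [h1] at f3
      exact pow_eq_zero_iff (two_ne_zero) |>.1 f3.symm
    have g1 : ∑ i, algebraMap ℂ E (β i) * c i = 0 := by
      have h1 : 3 * Bg T c c (fun i => algebraMap ℂ E (z0 i)) = 0 := by
        rw [h0]
        unfold Bg
        simp
      rw [h1] at f1
      exact pow_eq_zero_iff (two_ne_zero) |>.1 f1.symm
    have g2 : ∀ a, b (Sum.inr (Sum.inl a)) = 0 := by
      have h1 : κ β = ∑ a : Fin d, b (Sum.inr (Sum.inl a)) • (b1 a : E) := by
        have h2 : β = ∑ a : Fin d, b (Sum.inr (Sum.inl a)) • φ a := by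
          funext i
          rw [hβ, Finset.sum_apply]
          refine Finset.sum_congr rfl fun a _ => ?_
          rw [Pi.smul_apply, smul_eq_mul, mul_comm]
        rw [h2, map_sum]
        refine Finset.sum_congr rfl fun a _ => ?_
        rw [map_smul, hφ]
      rw [hκ, g1] at h1
      have h2 : (∑ a : Fin d, b (Sum.inr (Sum.inl a)) • b1 a) = 0 := by
        apply Subtype.ext
        rw [Submodule.coe_sum]
        simp only [Submodule.coe_smul]
        exact h1.symm
      exact Fintype.linearIndependent_iff.1 b1.linearIndependent _ h2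
    have g3 : ∀ j, b (Sum.inl j) = 0 := by
      have h1 : (∑ j : Fin q, (starRingEnd ℂ) (b (Sum.inl j)) • bR j) = 0 := by
        apply Subtype.ext
        rw [Submodule.coe_sum]
        simp only [Submodule.coe_smul]
        funext k
        rw [Finset.sum_apply]
        have h2 := congrArg (starRingEnd ℂ) (congrFun h0 k)
        rw [hz0] at h2
        simp only [map_sum, map_mul, Complex.conj_conj, Pi.zero_apply, map_zero] at h2
        rw [Submodule.coe_zero, Pi.zero_apply, ← h2]
        refine Finset.sum_congr rfl fun j _ => ?_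
        rw [Pi.smul_apply, smul_eq_mul, mul_comm]
      intro j
      have h2 := Fintype.linearIndependent_iff.1 bR.linearIndependent _ h1 j
      rw [← Complex.conj_conj (b (Sum.inl j)), h2, map_zero]
    funext s
    rcases s with j | a | u
    · exact g3 j
    · exact g2 a
    · exact g0
  -- the norm
  set nn : ℂ := ∑ i, ρ i * z0 i with hnn
  have hnn0 : nn ≠ 0 := by
    have h1 : nn = ((∑ i, Complex.normSq (z0 i) : ℝ) : ℂ) := by
      rw [hnn, Complex.ofReal_sum]
      refine Finset.sum_congr rfl fun i _ => ?_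
      rw [Complex.normSq_eq_conj_mul_self]
    rw [h1]
    intro h2
    rw [Complex.ofReal_eq_zero] at h2
    apply hz0ne
    funext i
    have h3 := (Finset.sum_eq_zero_iff_of_nonneg (fun i _ => Complex.normSq_nonneg (z0 i))).1 h2 i
      (Finset.mem_univ i)
    exact Complex.normSq_eq_zero.1 h3
  refine ⟨z0, fun i => nn⁻¹ * ρ i, β, β0, ?_, ?_, f1, f2, f3⟩
  · have h1 : ∀ i, nn⁻¹ * ρ i * z0 i = nn⁻¹ * (ρ i * z0 i) := fun i => by ring
    rw [Finset.sum_congr rfl fun i _ => h1 i, ← Finset.mul_sum, ← hnn, inv_mul_cancel₀ hnn0]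
  · have h1 : ∑ i, algebraMap ℂ E (ρ i) * c i = 0 := hρmem
    have h2 : ∀ i, algebraMap ℂ E (nn⁻¹ * ρ i) * c i =
        algebraMap ℂ E nn⁻¹ * (algebraMap ℂ E (ρ i) * c i) := fun i => by
      rw [map_mul]
      ring
    rw [Finset.sum_congr rfl fun i _ => h2 i, ← Finset.mul_sum, h1, mul_zero]

end

end Pool.Agent.N122
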