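import Mathlib
import Pool.Agent.N122.Pt
import Pool.Agent.R845.E3.Refl

/-! # The parity of the degree is preserved by chords -/

set_option autoImplicit false

namespace Pool.Agent.N122

open MvPolynomial Pool.Agent.TH314.PD Module Pool.Agent.Y201.C3 IntermediateField
open Pool.Agent.R845.T2 Pool.Agent.R845.E3

noncomputable section

variable {N : ℕ} {M : Type} [Field M] [Algebra ℂ M]

theorem gen_li {F : MvPolynomial (Fin N) ℂ} (hF : F.IsHomogeneous 3) (x : Fin N → M)
    (hgen : ∀ (e : ℕ) (H : MvPolynomial (Fin N) ℂ), H.IsHomogeneous e → aeval x H = 0 → F ∣ H)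
    (a : Fin N → ℂ) (h : ∑ i, algebraMap ℂ M (a i) * x i = 0) : a = 0 := by
  classical
  have hH : (∑ i, C (a i) * X i : MvPolynomial (Fin N) ℂ).IsHomogeneous 1 := by
    refine IsHomogeneous.sum _ _ _ fun i _ => ?_
    have h1 := (isHomogeneous_C (Fin N) (a i)).mul (isHomogeneous_X ℂ i)
    rwa [zero_add] at h1
  obtain ⟨Q, hQ⟩ := hgen 1 _ hH (by
    rw [map_sum, ← h]
    refine Finset.sum_congr rfl fun i _ => ?_
    rw [map_mul, aeval_C, aeval_X])
  have h0 : (∑ i, C (a i) * X i : MvPolynomial (Fin N) ℂ) = 0 := by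
    by_contra hne
    obtain ⟨h1, -⟩ := exists_form_quot hF hH hQ hne
    omega
  funext i
  have h1 := congrArg (eval (Pi.single i (1 : ℂ))) h0
  rw [map_sum, map_zero, Finset.sum_eq_single i] at h1
  · simpa using h1
  · intro j _ hj
    rw [map_mul, eval_X, Pi.single_eq_of_ne hj, mul_zero]
  · intro h2
    exact absurd (Finset.mem_univ i) h2

theorem exists_rel (c : Fin N → M) (h : finrank ℂ (sp1 c) < N) :
    ∃ a : Fin N → ℂ, a ≠ 0 ∧ ∑ i, algebraMap ℂ M (a i) * c i = 0 := by
  by_contra hcon
  push Not at hcon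
  have h1 : LinearIndependent ℂ c := by
    rw [Fintype.linearIndependent_iff]
    intro g hg i
    by_contra hi
    refine hcon g (fun h0 => hi (by rw [h0]; rfl)) ?_
    rw [← hg]
    refine Finset.sum_congr rfl fun j _ => ?_
    rw [Algebra.smul_def]
  have h2 := finrank_span_eq_card h1
  rw [Fintype.card_fin] at h2
  unfold sp1 at h
  omega

theorem sp1_map {E : Type} [Field E] [Algebra ℂ E] (f : M →ₐ[ℂ] E) (c : Fin N → M) :
    finrank ℂ (sp1 fun i => f (c i)) = finrank ℂ (sp1 c) := by
  have h1 : sp1 (fun i => f (c i)) = (sp1 c).map f.toLinearMap := by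
    unfold sp1
    rw [Submodule.map_span, ← Set.range_comp]
    rfl
  rw [h1]
  exact (Submodule.equivMapOfInjective f.toLinearMap f.toRingHom.injective _).finrank_eq.symm

theorem sp2_map {E : Type} [Field E] [Algebra ℂ E] (f : M →ₐ[ℂ] E) (c : Fin N → M) :
    finrank ℂ (sp2 fun i => f (c i)) = finrank ℂ (sp2 c) := by
  have h1 : sp2 (fun i => f (c i)) = (sp2 c).map f.toLinearMap := by
    unfold sp2
    rw [Submodule.map_span, ← Set.range_comp]
    congr 2
    funext p
    simp
  rw [h1]
  exact (Submodule.equivMapOfInjective f.toLinearMap f.toRingHom.injective _).finrank_eq.symm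

/-- no special point: the generic point of a chord is not of odd degree -/
theorem no_special {r : ℕ} {F : MvPolynomial (Fin (r + 2)) ℂ} (hF : F.IsHomogeneous 3)
    (hsm : Sm F) {M : Type} [Field M] [Algebra ℂ M] (x c : Fin (r + 2) → M)
    (hx : aeval x F = 0) (hcF : aeval c F = 0)
    (hdim : finrank ℂ (sp1 c) + finrank ℂ (sp2 c) < r + 2)
    (hz : ∀ (e : ℕ) (H : MvPolynomial (Fin (r + 2)) ℂ), H.IsHomogeneous e →
        aeval (fun j => algebraMap (Polynomial M) (FractionRing (Polynomial M))
          (Polynomial.C (x j) + Polynomial.X * Polynomial.C (c j))) H = 0 → H = 0)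
    (hodd : Odd (finrank (ratioField fun j => algebraMap (Polynomial M)
      (FractionRing (Polynomial M)) (Polynomial.C (x j) + Polynomial.X * Polynomial.C (c j)))
      (FractionRing (Polynomial M)))) : False := by
  classical
  obtain ⟨T, hT, hFT⟩ := exists_tri F hF
  have hev : ∀ {R : Type} [CommRing R] [Algebra ℂ R] (v : Fin (r + 2) → R),
      aeval v F = Bg T v v v := by
    intro R _ _ v
    conv_lhs => rw [hFT]
    exact aeval_frmG T v
  let f : M →ₐ[ℂ] FractionRing (Polynomial M) := (IsScalarTower.toAlgHom ℂ (Polynomial M)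
      (FractionRing (Polynomial M))).comp (Polynomial.CAlgHom : M →ₐ[ℂ] Polynomial M)
  have hf : ∀ v, f v = algebraMap (Polynomial M) (FractionRing (Polynomial M))
    (Polynomial.C v) := fun _ => rfl
  obtain ⟨z0, ψ, β, β0, hψ, hc0, h1, h2, h3⟩ := exists_pt hT (fun i => f (c i)) (by
    rw [sp1_map, sp2_map]
    exact hdim)
  refine odd1 hsm hT hFT _ hz hodd z0 ψ β β0 hψ (fun i => f (c i)) hc0 ?_ h1 h2 h3
    (-(algebraMap (Polynomial M) (FractionRing (Polynomial M)) Polynomial.X)) ?_
  · rw [← hev]
    have h4 := comp_aeval_apply (f := c) f F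
    rw [hcF, map_zero] at h4
    exact h4.symm
  · have h4 := comp_aeval_apply (f := x) f F
    rw [hx, map_zero] at h4
    rw [h4]
    congr 2
    funext i
    rw [hf, hf, map_add, map_mul]
    ring

theorem indep {n : ℕ} {F : MvPolynomial (Fin (n + 2)) ℂ} (hF : F.IsHomogeneous 3)
    {M : Type} [Field M] [Algebra ℂ M] (x c : Fin (n + 2) → M)
    (hG : Gp F x) (hc : c ≠ 0) (hdim : finrank ℂ (sp1 c) < n + 2) :
    LinearIndependent M ![x, c] := by
  obtain ⟨a, ha0, ha⟩ := exists_rel c hdim
  have hxc : LinearIndependent M ![x, c] := by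
    rw [LinearIndependent.pair_iff]
    intro u v huv
    have hu : u = 0 := by
      by_contra hu
      apply ha0
      refine gen_li hF x hG.2 a ?_
      have h1 : ∀ i, x i = -(v / u) * c i := by
        intro i
        have h2 := congrFun huv i
        simp only [Pi.add_apply, Pi.smul_apply, smul_eq_mul, Pi.zero_apply] at h2
        field_simp
        linear_combination h2
      have h2 : ∀ i, algebraMap ℂ M (a i) * x i = -(v / u) * (algebraMap ℂ M (a i) * c i) := by
        intro i
        rw [h1]
        ring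
      rw [Finset.sum_congr rfl fun i _ => h2 i, ← Finset.mul_sum, ha, mul_zero]
    refine ⟨hu, ?_⟩
    rw [hu, zero_smul, zero_add] at huv
    exact (smul_eq_zero.1 huv).resolve_right hc
  exact hxc

/-- scaling a point -/
theorem scale {n : ℕ} {F : MvPolynomial (Fin (n + 2)) ℂ} (hF : F.IsHomogeneous 3)
    {M : Type} [Field M] [Algebra ℂ M] (v : Fin (n + 2) → M) (b : M) (hb : b ≠ 0)
    (h1 : Gp F v) (h2 : Odd (finrank (ratioField v) M)) :
    Gp F (fun j => b * v j) ∧ Odd (finrank (ratioField fun j => b * v j) M) := by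
  refine ⟨⟨by rw [aeval_smul_form hF, h1.1, mul_zero], fun e H hH h0 => ?_⟩, ?_⟩
  · rw [aeval_smul_form hH] at h0
    exact h1.2 e H hH ((mul_eq_zero.1 h0).resolve_left (pow_ne_zero _ hb))
  · have h3 : (fun j => (b * v j) / b) = v := by
      funext j
      rw [mul_div_cancel_left₀ _ hb]
    have h4 := Pool.Agent.Y929.LI.ratioField_div (fun j => b * v j) hb
    rw [h3] at h4
    rw [← h4]
    exact h2

/-- **The parity of the degree is preserved by chords through points of small height.** -/
theorem chord {n : ℕ} {F : MvPolynomial (Fin (n + 2)) ℂ} (hF : F.IsHomogeneous 3)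
    (hsm : Sm F) {M : Type} [Field M] [Algebra ℂ M] (x c : Fin (n + 2) → M)
    (hG : Gp F x) (hodd : Odd (finrank (ratioField x) M)) (hc : c ≠ 0)
    (hcF : aeval c F = 0)
    (hdim : finrank ℂ (sp1 c) + finrank ℂ (sp2 c) < n + 2) (s t : M) (hs : s ≠ 0)
    (hst : aeval (fun j => s * x j + t * c j) F = 0) :
    Gp F (fun j => s * x j + t * c j) ∧ Odd (finrank (ratioField fun j => s * x j + t * c j) M) := by
  classical
  have tan : S_TAN := tan_of div (nt Pool.Agent.Y201.LI.hT1) fi fd
  obtain ⟨T, hT, hFT⟩ := exists_tri F hF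
  obtain ⟨a, ha0, ha⟩ := exists_rel c (by omega)
  have hxc := indep hF x c hG hc (by omega)
  have hpn : ¬ Gp F c := fun h => ha0 (gen_li hF c h.2 a ha)
  have hodd2 : ¬ 2 ∣ finrank (ratioField x) M := fun h =>
    (Nat.not_even_iff_odd.2 hodd) (even_iff_two_dvd.2 h)
  set A := 3 * Bg T x x c with hA
  set B := 3 * Bg T x c c with hB
  have hline := line_shape hT hFT x c hG.1 hcF
  rw [← hA, ← hB] at hline
  have hB0 : B ≠ 0 := by
    intro h0
    rw [h0, Polynomial.C_0, zero_mul, add_zero] at hline
    exact hodd2 (tan (n + 1) 3 F hF (by norm_num) hsm M x c A hxc hG.1 hG.2 hline)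
  have hscale := fun v b hb h1 h2 => scale hF (M := M) v b hb h1 h2
  -- the equation of the point
  have heq : t * (s * A + t * B) = 0 := by
    have h1 := congrArg (Polynomial.eval (t / s)) hline
    rw [Polynomial.eval_add, Polynomial.eval_mul, Polynomial.eval_mul, Polynomial.eval_pow,
      Polynomial.eval_C, Polynomial.eval_C, Polynomial.eval_X] at h1
    have h2 : Polynomial.eval (t / s) (aeval (fun j => Polynomial.C (x j) +
        Polynomial.X * Polynomial.C (c j)) F) = aeval (fun j => x j + t / s * c j) F := by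
      have h3 := comp_aeval_apply (f := fun j => Polynomial.C (x j) +
        Polynomial.X * Polynomial.C (c j)) ((Polynomial.aeval (R := M) (t / s)).restrictScalars ℂ) F
      have h4 : ((Polynomial.aeval (R := M) (t / s)).restrictScalars ℂ) (aeval (fun j =>
          Polynomial.C (x j) + Polynomial.X * Polynomial.C (c j)) F) =
          Polynomial.eval (t / s) (aeval (fun j => Polynomial.C (x j) +
            Polynomial.X * Polynomial.C (c j)) F) := by
        rw [AlgHom.restrictScalars_apply, Polynomial.coe_aeval_eq_eval]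
      rw [← h4, h3]
      congr 2
      funext j
      rw [AlgHom.restrictScalars_apply, Polynomial.coe_aeval_eq_eval]
      rw [Polynomial.eval_add, Polynomial.eval_mul, Polynomial.eval_C, Polynomial.eval_C,
        Polynomial.eval_X]
    rw [h2] at h1
    have h3 : (fun j => s * x j + t * c j) = fun j => s * (x j + t / s * c j) := by
      funext j
      field_simp
    rw [h3, aeval_smul_form hF, h1] at hst
    have h4 := (mul_eq_zero.1 hst).resolve_left (pow_ne_zero _ hs)
    field_simp at h4
    linear_combination h4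
  rcases mul_eq_zero.1 heq with ht | hAB
  · have h1 : (fun j => s * x j + t * c j) = fun j => s * x j := by
      funext j
      rw [ht, zero_mul, add_zero]
    rw [h1]
    exact hscale x s hs hG hodd
  have h1 : (fun j => s * x j + t * c j) = fun j => (s / B) * (B * x j - A * c j) := by
    funext j
    field_simp
    linear_combination c j * hAB
  rw [h1]
  have hsB : s / B ≠ 0 := div_ne_zero hs hB0
  by_cases hA0 : A = 0
  · have h2 : (fun j => (s / B) * (B * x j - A * c j)) = fun j => s * x j := by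
      funext j
      rw [hA0, zero_mul, sub_zero]
      field_simp
    rw [h2]
    exact hscale x s hs hG hodd
  by_cases hy : Gp F (fun j => B * x j - A * c j) ∧
      Odd (finrank (ratioField fun j => B * x j - A * c j) M)
  · exact hscale _ _ hsB hy.1 hy.2
  exfalso
  obtain ⟨hygen, hyodd⟩ := p3 (n + 1) F hF hsm M x c A B hxc hG hodd hpn hA0 hB0 hline
    (by
      intro h2
      by_contra h3
      apply hy
      refine ⟨h2, ?_⟩
      rw [← Nat.not_even_iff_odd, even_iff_two_dvd]
      exact h3)
  exact no_special hF hsm x c hG.1 hcF hdim hygen hyodd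

/-- **No odd families of conics.** -/
theorem no_conics {n : ℕ} {F : MvPolynomial (Fin (n + 2)) ℂ} (hF : F.IsHomogeneous 3)
    (hsm : Sm F) {M : Type} [Field M] [Algebra ℂ M] (L : IntermediateField ℂ M) (t : M)
    (ht : Transcendental L t) (α β γ : Fin (n + 2) → M) (hα : ∀ i, α i ∈ L)
    (hβ : ∀ i, β i ∈ L) (hγ : ∀ i, γ i ∈ L)
    (hdim : finrank ℂ (sp1 α) + finrank ℂ (sp2 α) < n + 2)
    (hG : Gp F (fun i => t ^ 2 * α i + t * β i + γ i)) :
    Even (finrank (ratioField fun i => t ^ 2 * α i + t * β i + γ i) M) := by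
  classical
  rw [← Nat.not_odd_iff_even]
  intro hodd
  set x : Fin (n + 2) → M := fun i => t ^ 2 * α i + t * β i + γ i with hx
  have hodd2 : ¬ 2 ∣ finrank (ratioField x) M := fun h =>
    (Nat.not_even_iff_odd.2 hodd) (even_iff_two_dvd.2 h)
  have hF0 : F ≠ 0 := ne_zero_of_smooth (m := n + 1) hsm
  have hirr : Irreducible F := Pool.Agent.Y201.LI.irreducible_of_generic hF hF0 x hG.1 hG.2
  have hT1 := Pool.Agent.Y201.LI.hT1 (n + 2) 3 F hF (by norm_num) hirr hsm M L t ht
  have hane : α ≠ 0 := by
    intro h0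
    have h1 : x = fun i => t * β i + γ i := by
      funext i
      rw [hx]
      simp only
      rw [h0, Pi.zero_apply, mul_zero, zero_add]
    have h2 := hG
    rw [h1] at h2 hodd2
    exact hodd2 (hT1 β γ hβ hγ h2.1 h2.2)
  obtain ⟨l1, l2, l3, k1, k2, k3, hline⟩ := conic_shape hF L t ht α β γ hα hβ hγ hG.1
  have hev : ∀ τ : M, aeval (fun j => x j + τ * α j) F =
      -(l1 * t ^ 2 + l2 * t + l3) * τ + -l1 * τ ^ 2 := by
    intro τ
    have h1 := congrArg (Polynomial.eval τ) hline
    rw [Polynomial.eval_add, Polynomial.eval_mul, Polynomial.eval_mul, Polynomial.eval_pow,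
      Polynomial.eval_C, Polynomial.eval_C, Polynomial.eval_X] at h1
    rw [← h1]
    have h3 := comp_aeval_apply (f := fun j => Polynomial.C (t ^ 2 * α j + t * β j + γ j) +
        Polynomial.X * Polynomial.C (α j)) ((Polynomial.aeval (R := M) τ).restrictScalars ℂ) F
    have h4 : ((Polynomial.aeval (R := M) τ).restrictScalars ℂ) (aeval (fun j =>
        Polynomial.C (t ^ 2 * α j + t * β j + γ j) + Polynomial.X * Polynomial.C (α j)) F) =
        Polynomial.eval τ (aeval (fun j => Polynomial.C (t ^ 2 * α j + t * β j + γ j) +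
          Polynomial.X * Polynomial.C (α j)) F) := by
      rw [AlgHom.restrictScalars_apply, Polynomial.coe_aeval_eq_eval]
    rw [← h4, h3]
    congr 2
    funext j
    rw [AlgHom.restrictScalars_apply, Polynomial.coe_aeval_eq_eval]
    rw [Polynomial.eval_add, Polynomial.eval_mul, Polynomial.eval_C, Polynomial.eval_C,
      Polynomial.eval_X]
  have hxα := indep hF x α hG hane (by omega)
  have tan : S_TAN := tan_of div (nt Pool.Agent.Y201.LI.hT1) fi fd
  have hl1 : l1 ≠ 0 := by
    intro h0
    have h1 : Polynomial.C (-l1) * Polynomial.X ^ 2 = 0 := by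
      rw [h0, neg_zero, Polynomial.C_0, zero_mul]
    rw [h1, add_zero] at hline
    exact hodd2 (tan (n + 1) 3 F hF (by norm_num) hsm M x α _ hxα hG.1 hG.2 hline)
  -- the point `α` lies on the hypersurface
  have hαF : aeval α F = 0 := by
    obtain ⟨T, hT, hFT⟩ := exists_tri F hF
    have hT' : ∀ {R : Type} [CommRing R] [Algebra ℂ R] (v : Fin (n + 2) → R),
        aeval v F = Bg T v v v := by
      intro R _ _ v
      conv_lhs => rw [hFT]
      exact aeval_frmG T v
    have h1 : ∀ τ : M, aeval (fun j => x j + τ * α j) F =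
        3 * Bg T x x α * τ + 3 * Bg T x α α * τ ^ 2 + Bg T α α α * τ ^ 3 := by
      intro τ
      have h2 := Bg_span3 hT x α α 1 τ 0
      have h3 : (fun i => 1 * x i + τ * α i + 0 * α i) = fun i => x i + τ * α i := by
        funext i
        ring
      rw [h3, ← hT', ← hT' x, hG.1] at h2
      linear_combination h2
    have e1 := (h1 1).symm.trans (hev 1)
    have e2 := (h1 (-1)).symm.trans (hev (-1))
    have e3 := (h1 2).symm.trans (hev 2)
    rw [hT']
    have h6 : (6 : M) * Bg T α α α = 0 := by
      linear_combination e3 - 3 * e1 - e2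
    have h60 : (6 : M) ≠ 0 := by
      have := Algebra.algebraMap_eq_smul_one (R := ℂ) (A := M) 6
      have h7 : algebraMap ℂ M 6 ≠ 0 := by
        rw [Ne, map_eq_zero]
        norm_num
      rwa [map_ofNat] at h7
    exact (mul_eq_zero.1 h6).resolve_left h60
  have hs : -l1 ≠ 0 := neg_ne_zero.2 hl1
  have h1 := chord hF hsm x α hG hodd hane hαF hdim (-l1) (l1 * t ^ 2 + l2 * t + l3) hs (by
    have h2 : (fun j => -l1 * x j + (l1 * t ^ 2 + l2 * t + l3) * α j) =
        fun j => -l1 * (x j + (l1 * t ^ 2 + l2 * t + l3) / -l1 * α j) := by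
      funext j
      have h3 := div_mul_cancel₀ (l1 * t ^ 2 + l2 * t + l3) hs
      linear_combination -α j * h3
    rw [h2, aeval_smul_form hF, hev]
    have h3 := div_mul_cancel₀ (l1 * t ^ 2 + l2 * t + l3) hs
    generalize (l1 * t ^ 2 + l2 * t + l3) / -l1 = τ at h3
    rw [← h3]
    ring)
  have h2 : (fun j => -l1 * x j + (l1 * t ^ 2 + l2 * t + l3) * α j) =
      fun j => t * (-l1 * β j + l2 * α j) + (-l1 * γ j + l3 * α j) := by
    funext j
    rw [hx]
    ring
  rw [h2] at h1
  have h3 := hT1 _ _ (fun j => add_mem (mul_mem (neg_mem k1) (hβ j)) (mul_mem k2 (hα j)))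
      (fun j => add_mem (mul_mem (neg_mem k1) (hγ j)) (mul_mem k3 (hα j))) h1.1.1 h1.1.2
  exact (Nat.not_even_iff_odd.2 h1.2) (even_iff_two_dvd.2 h3)

/-- values on a linear subspace -/
theorem span_aeval {N r : ℕ} {F : MvPolynomial (Fin N) ℂ} (A : Fin r → Fin N → ℂ)
    (hA : ∀ a : Fin r → ℂ, eval (fun i => ∑ l, a l * A l i) F = 0)
    {R : Type} [CommRing R] [Algebra ℂ R] (w : Fin r → R) :
    aeval (fun i => ∑ l, w l * algebraMap ℂ R (A l i)) F = 0 := by
  have h1 : aeval (fun i => ∑ l, X l * C (A l i) : Fin N → MvPolynomial (Fin r) ℂ) F = 0 := by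
    apply MvPolynomial.funext
    intro a
    rw [map_zero, ← hA a]
    have h2 := comp_aeval_apply (f := (fun i => ∑ l, X l * C (A l i) :
      Fin N → MvPolynomial (Fin r) ℂ)) (aeval a : MvPolynomial (Fin r) ℂ →ₐ[ℂ] ℂ) F
    have h3 : ∀ (σ : Type) (b : σ → ℂ) (P : MvPolynomial σ ℂ), aeval b P = eval b P :=
      fun σ b P => by rw [aeval_def, Algebra.algebraMap_self, eval₂_id]
    rw [h3, h3] at h2
    rw [h2]
    congr 2
    funext i
    rw [h3, map_sum]
    refine Finset.sum_congr rfl fun l _ => ?_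
    rw [map_mul, eval_X, eval_C]
  have h2 := comp_aeval_apply (f := (fun i => ∑ l, X l * C (A l i) :
      Fin N → MvPolynomial (Fin r) ℂ)) (aeval w : MvPolynomial (Fin r) ℂ →ₐ[ℂ] R) F
  rw [h1, map_zero] at h2
  rw [h2]
  congr 2
  funext i
  rw [map_sum]
  refine Finset.sum_congr rfl fun l _ => ?_
  rw [map_mul, aeval_X, aeval_C]

theorem size_span {N r : ℕ} (A : Fin r → Fin N → ℂ) {M : Type} [Field M] [Algebra ℂ M]
    (w : Fin r → M) :
    finrank ℂ (sp1 fun i => ∑ l, w l * algebraMap ℂ M (A l i)) +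
      finrank ℂ (sp2 fun i => ∑ l, w l * algebraMap ℂ M (A l i)) ≤ r + r * (r + 1) / 2 := by
  classical
  set c : Fin N → M := fun i => ∑ l, w l * algebraMap ℂ M (A l i) with hc
  let q : Sym2 (Fin r) → M := Sym2.lift ⟨fun l m => w l * w m, fun l m => mul_comm _ _⟩
  have hf1 : FiniteDimensional ℂ (Submodule.span ℂ (Set.range w)) :=
    FiniteDimensional.span_of_finite ℂ (Set.finite_range w)
  have hf2 : FiniteDimensional ℂ (Submodule.span ℂ (Set.range q)) :=
    FiniteDimensional.span_of_finite ℂ (Set.finite_range q)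
  have h1 : sp1 c ≤ Submodule.span ℂ (Set.range w) := by
    unfold sp1
    rw [Submodule.span_le]
    rintro _ ⟨i, rfl⟩
    rw [hc]
    refine Submodule.sum_mem _ fun l _ => ?_
    rw [mul_comm, ← Algebra.smul_def]
    exact Submodule.smul_mem _ _ (Submodule.subset_span ⟨l, rfl⟩)
  have h2 : sp2 c ≤ Submodule.span ℂ (Set.range q) := by
    unfold sp2
    rw [Submodule.span_le]
    rintro _ ⟨⟨i, j⟩, rfl⟩
    simp only [hc]
    rw [Finset.sum_mul_sum]
    refine Submodule.sum_mem _ fun l _ => Submodule.sum_mem _ fun m _ => ?_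
    have h3 : w l * algebraMap ℂ M (A l i) * (w m * algebraMap ℂ M (A m j)) =
        (A l i * A m j) • (w l * w m) := by
      rw [Algebra.smul_def, map_mul]
      ring
    rw [h3]
    exact Submodule.smul_mem _ _ (Submodule.subset_span ⟨s(l, m), rfl⟩)
  have h3 := (Submodule.finrank_mono h1).trans (finrank_range_le_card (R := ℂ) w)
  have h4 := (Submodule.finrank_mono h2).trans (finrank_range_le_card (R := ℂ) q)
  rw [Fintype.card_fin] at h3
  rw [Sym2.card, Fintype.card_fin, Nat.choose_two_right, Nat.add_sub_cancel, mul_comm] at h4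
  exact add_le_add h3 h4

/-- **Points in the fibres of the projection from a linear subspace.** -/
theorem fibre {n : ℕ} {F : MvPolynomial (Fin (n + 2)) ℂ} (hF : F.IsHomogeneous 3)
    (hsm : Sm F) {r : ℕ} (A : Fin r → Fin (n + 2) → ℂ)
    (hA : ∀ a : Fin r → ℂ, eval (fun i => ∑ l, a l * A l i) F = 0)
    (hr : r + r * (r + 1) / 2 ≤ n + 1) {M : Type} [Field M] [Algebra ℂ M]
    (x y : Fin (n + 2) → M) (hyF : aeval y F = 0) (hG : Gp F x)
    (hodd : Odd (finrank (ratioField x) M))
    (h : ∃ (s : M) (w : Fin r → M), s ≠ 0 ∧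
      ∀ i, y i = s * x i + ∑ l, w l * algebraMap ℂ M (A l i)) :
    Gp F y ∧ Odd (finrank (ratioField y) M) := by
  obtain ⟨s, w, hs, hy⟩ := h
  set c : Fin (n + 2) → M := fun i => ∑ l, w l * algebraMap ℂ M (A l i) with hc
  have hy1 : y = fun i => s * x i + 1 * c i := by
    funext i
    rw [hy, one_mul]
  by_cases hc0 : c = 0
  · have hy2 : y = fun i => s * x i := by
      rw [hy1, hc0]
      funext i
      simp
    rw [hy2]
    exact scale hF x s hs hG hodd
  rw [hy1] at hyF ⊢
  have hsz := size_span A w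
  exact chord hF hsm x c hG hodd hc0 (span_aeval A hA w) (by
    rw [← hc] at hsz
    omega) s 1 hs hyF

end

end Pool.Agent.N122
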