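import Mathlib
import Pool.Agent.N122.Chord
import Pool.Agent.R845.E3.FourAll
import Pool.Agent.R845.E3.All

/-! # Rational sections of the projection from a linear subspace -/

set_option autoImplicit false

namespace Pool.Agent.N122

open MvPolynomial Pool.Agent.TH314.PD Module Pool.Agent.Y201.C3 IntermediateField
open Pool.Agent.R845.T2 Pool.Agent.R845.E3

noncomputable section

/-- the generic point `(1, t_1, ..., t_n)` of the projective space -/
def gz (n : ℕ) : Fin (n + 1) → Rn n := fun i =>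
  algebraMap (MvPolynomial (Fin n) ℂ) (Rn n)
    ((Fin.cons 1 X : Fin (n + 1) → MvPolynomial (Fin n) ℂ) i)

theorem gz_gen (n : ℕ) (e : ℕ) (H : MvPolynomial (Fin (n + 1)) ℂ) (hH : H.IsHomogeneous e)
    (h : aeval (gz n) H = 0) : H = 0 := by
  refine hom_zero hH ?_
  have h1 := comp_aeval_apply (f := (Fin.cons 1 X : Fin (n + 1) → MvPolynomial (Fin n) ℂ))
    (IsScalarTower.toAlgHom ℂ (MvPolynomial (Fin n) ℂ) (Rn n)) H
  have hinj : Function.Injective (IsScalarTower.toAlgHom ℂ (MvPolynomial (Fin n) ℂ) (Rn n)) :=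
    IsFractionRing.injective (MvPolynomial (Fin n) ℂ) _
  apply hinj
  rw [map_zero, h1]
  exact h

theorem gz_top (n : ℕ) : ratioField (gz n) = ⊤ := by
  rw [eq_top_iff]
  intro z _
  obtain ⟨a, b, hb, rfl⟩ := IsFractionRing.div_surjective (A := MvPolynomial (Fin n) ℂ) z
  have h1 : ∀ a : MvPolynomial (Fin n) ℂ,
      algebraMap (MvPolynomial (Fin n) ℂ) (Rn n) a ∈ ratioField (gz n) := by
    intro a
    induction a using MvPolynomial.induction_on with
    | C a =>
      have h2 : algebraMap (MvPolynomial (Fin n) ℂ) (Rn n) (C a) = algebraMap ℂ (Rn n) a := by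
        rw [← algebraMap_eq, ← IsScalarTower.algebraMap_apply]
      rw [h2]
      exact (ratioField (gz n)).algebraMap_mem _
    | add f g hf hg =>
      rw [map_add]
      exact add_mem hf hg
    | mul_X f i hf =>
      rw [map_mul]
      refine mul_mem hf (subset_adjoin ℂ _ ⟨i.succ, 0, ?_⟩)
      unfold gz
      rw [Fin.cons_succ, Fin.cons_zero, map_one, div_one]
  exact div_mem (h1 a) (h1 b)

theorem gz_odd (n : ℕ) : Odd (finrank (ratioField (gz n)) (Rn n)) := by
  rw [gz_top, IntermediateField.finrank_top]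
  exact odd_one

/-- the projection from the span of the vectors `A l` has a rational section: a point of the
span of the generic point of the projective space and of `W`, not in `W`, lies on `F = 0` -/
def HasSec {n r : ℕ} (F : MvPolynomial (Fin (n + 2)) ℂ) (A : Fin r → Fin (n + 2) → ℂ) : Prop :=
  ∃ w : Fin r → Rn (n + 1),
    aeval (fun i => gz (n + 1) i + ∑ l, w l * algebraMap ℂ (Rn (n + 1)) (A l i)) F = 0

/-- coordinates adapted to a linear subspace -/
theorem adapt2 {N P : ℕ} {F : MvPolynomial (Fin N) ℂ} (hF0 : F ≠ 0)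
    (A : Fin N → Fin P → ℂ) (hA0 : A ≠ 0)
    (hA : ∀ a : Fin P → ℂ, eval (fun i => ∑ l, a l * A i l) F = 0) :
    ∃ (k m : ℕ) (σ : Fin (k + 1 + (m + 1)) ≃ Fin N) (U : Fin (k + 1) → Fin (m + 1) → ℂ),
      VanW (shear U (rename σ.symm F)) ∧
      (∀ j l, A (σ (Fin.natAdd (k + 1) j)) l =
        ∑ i, U i j * A (σ (Fin.castAdd (m + 1) i)) l) ∧
      (∀ u : Fin (k + 1) → ℂ, ∃ a : Fin P → ℂ,
        ∀ i, ∑ l, a l * A (σ (Fin.castAdd (m + 1) i)) l = u i) ∧
      ∀ (M : Type) [Field M] [Algebra ℂ M] (w : Fin P → M) (j : Fin (m + 1)),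
        tp U (fun i => ∑ l, w l * algebraMap ℂ M (A (σ i) l)) (Fin.natAdd (k + 1) j) = 0 := by
  classical
  obtain ⟨k, m, σ, U, hli, hU⟩ := rows' A hA0 (by
    intro h
    apply hF0
    apply MvPolynomial.funext
    intro u
    obtain ⟨a, ha⟩ := h u
    rw [map_zero, ← hA a, show (fun i => ∑ l, a l * A i l) = u from funext ha])
  set F1 : MvPolynomial (Fin (k + 1 + (m + 1))) ℂ := rename σ.symm F with hF1
  set F2 := shear U F1 with hF2
  -- `F2` vanishes on `W`
  have hsurj : ∀ u : Fin (k + 1) → ℂ, ∃ a : Fin P → ℂ,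
      ∀ i, ∑ l, a l * A (σ (Fin.castAdd (m + 1) i)) l = u i := by
    intro u
    have h1 : Function.Surjective (Matrix.mulVecLin (Matrix.of fun i : Fin (k + 1) =>
        A (σ (Fin.castAdd (m + 1) i)))) := by
      rw [← LinearMap.range_eq_top]
      have h2 := LinearIndependent.rank_matrix (M := Matrix.of fun i : Fin (k + 1) =>
        A (σ (Fin.castAdd (m + 1) i))) hli
      apply Submodule.eq_top_of_finrank_eq
      rw [Module.finrank_fin_fun]
      rw [Fintype.card_fin] at h2
      exact h2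
    obtain ⟨a, ha⟩ := h1 u
    refine ⟨a, fun i => ?_⟩
    rw [← ha]
    simp only [Matrix.mulVecLin_apply, Matrix.mulVec, dotProduct, Matrix.of_apply]
    exact Finset.sum_congr rfl fun l _ => mul_comm _ _
  refine ⟨k, m, σ, U, ?_, hU, hsurj, ?_⟩
  · unfold VanW
    apply MvPolynomial.funext
    intro u
    rw [map_zero]
    obtain ⟨a, ha⟩ := hsurj u
    have h1 : eval u (aeval (Fin.append (X : Fin (k + 1) → MvPolynomial (Fin (k + 1)) ℂ) 0) F2) =
        aeval (Fin.append u (0 : Fin (m + 1) → ℂ)) F2 := by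
      have h2 := comp_aeval_apply (f := Fin.append (X : Fin (k + 1) →
        MvPolynomial (Fin (k + 1)) ℂ) 0) (aeval u) F2
      rw [aeval_eq_eval] at h2
      rw [h2]
      congr 2
      funext i
      refine Fin.addCases (fun j => ?_) (fun j => ?_) i
      · rw [Fin.append_left, Fin.append_left, eval_X]
      · rw [Fin.append_right, Fin.append_right, Pi.zero_apply, Pi.zero_apply, map_zero]
    rw [h1, hF2, aeval_shear, hF1, aeval_rename]
    have h3 : ((Fin.append (fun i => Fin.append u (0 : Fin (m + 1) → ℂ) (Fin.castAdd (m + 1) i))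
        (fun j => Fin.append u (0 : Fin (m + 1) → ℂ) (Fin.natAdd (k + 1) j) +
          ∑ i, algebraMap ℂ ℂ (U i j) * Fin.append u (0 : Fin (m + 1) → ℂ)
            (Fin.castAdd (m + 1) i))) ∘ σ.symm) = fun i => ∑ l, a l * A i l := by
      funext i
      obtain ⟨i', rfl⟩ := σ.surjective i
      simp only [Function.comp_apply, Equiv.symm_apply_apply]
      refine Fin.addCases (fun j => ?_) (fun j => ?_) i'
      · rw [Fin.append_left, Fin.append_left, ha]
      · rw [Fin.append_right, Fin.append_right, Pi.zero_apply, zero_add]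
        simp only [Fin.append_left, Algebra.algebraMap_self, RingHom.id_apply, hU]
        simp only [Finset.mul_sum]
        rw [Finset.sum_comm]
        refine Finset.sum_congr rfl fun i _ => ?_
        rw [← ha, Finset.mul_sum]
        refine Finset.sum_congr rfl fun l _ => ?_
        ring
    rw [h3, aeval_eq_eval]
    exact hA a
  · intro M _ _ w j
    unfold tp
    rw [Fin.append_right, sub_eq_zero]
    simp only [hU, map_sum, map_mul, Finset.mul_sum]
    rw [Finset.sum_comm]
    refine Finset.sum_congr rfl fun i _ => Finset.sum_congr rfl fun l _ => ?_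
    ring

/-- the generic point of the projective space in the adapted coordinates -/
theorem gen_tp {k m N : ℕ} {M : Type} [Field M] [Algebra ℂ M]
    (σ : Fin (k + 1 + (m + 1)) ≃ Fin N) (U : Fin (k + 1) → Fin (m + 1) → ℂ) (z : Fin N → M)
    (hz : ∀ (e : ℕ) (H : MvPolynomial (Fin N) ℂ), H.IsHomogeneous e → aeval z H = 0 → H = 0)
    (e : ℕ) (H : MvPolynomial (Fin (k + 1 + (m + 1))) ℂ) (hH : H.IsHomogeneous e)
    (h : aeval (tp U fun i => z (σ i)) H = 0) : H = 0 := by
  rw [← aeval_shear_neg] at h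
  have h1 : aeval z (rename σ (shear (fun i j => -U i j) H)) = 0 := by
    rw [aeval_rename]
    exact h
  have h2 := hz e _ ((shear_hom hH _).rename_isHomogeneous) h1
  have h3 : shear (fun i j => -U i j) H = 0 :=
    rename_injective _ σ.injective (by rw [h2, map_zero])
  have h4 := shear_neg_shear U H
  rw [h3] at h4
  rw [← h4]
  unfold shear
  rw [map_zero]

/-- **A rational point of the generic fibre gives a rational section.** -/
theorem sec_of_iso {n P k m : ℕ} {F : MvPolynomial (Fin (n + 2)) ℂ} (hF : F.IsHomogeneous 3)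
    (hsm : Sm F) (A : Fin P → Fin (n + 2) → ℂ) (σ : Fin (k + 1 + (m + 1)) ≃ Fin (n + 2))
    (U : Fin (k + 1) → Fin (m + 1) → ℂ) (hW : VanW (shear U (rename σ.symm F)))
    (hU : ∀ j l, A l (σ (Fin.natAdd (k + 1) j)) =
        ∑ i, U i j * A l (σ (Fin.castAdd (m + 1) i)))
    (hsurj : ∀ u : Fin (k + 1) → ℂ, ∃ a : Fin P → ℂ,
        ∀ i, ∑ l, a l * A l (σ (Fin.castAdd (m + 1) i)) = u i)
    (hiso : Iso (shear U (rename σ.symm F))) : HasSec F A := by
  classical
  set F2 := shear U (rename σ.symm F) with hF2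
  have hF2h : F2.IsHomogeneous 3 := shear_hom hF.rename_isHomogeneous U
  have hF2s : Sm F2 := sm_shear (sm_rename σ.symm hsm) U
  obtain ⟨c, l, h | h⟩ := hiso
  swap
  · exact (Trans.alt2 evn k m _ hF2h hF2s hW c h.1 h.2).elim
  obtain ⟨hl, hx⟩ := h
  set z1 : Fin (k + 1 + (m + 1)) → Rn (n + 1) := tp U (fun i => gz (n + 1) (σ i)) with hz1
  have hgen := gen_tp σ U (gz (n + 1)) (gz_gen (n + 1))
  rw [← hz1] at hgen
  set b0 : Fin (k + 1 + (m + 1)) := Fin.natAdd (k + 1) 0 with hb0
  have hzb : z1 b0 ≠ 0 := by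
    intro h
    exact X_ne_zero b0 (hgen 1 (X b0) (isHomogeneous_X _ _) (by rw [aeval_X, h]))
  let Y : Fin m → Rn (n + 1) := fun j => z1 (Fin.natAdd (k + 1) j.succ) / z1 b0
  have hY : AlgebraicIndependent ℂ Y := by
    refine gen_ratio (r := k + 1 + m) z1 hgen b0 (fun j : Fin m => Fin.natAdd (k + 1) j.succ)
      (fun i j hij => Fin.succ_injective _ (Fin.natAdd_injective _ _ hij)) (fun i h => ?_)
    exact Fin.succ_ne_zero _ (Fin.natAdd_injective _ _ h)
  have hlY : aeval Y l ≠ 0 := fun h0 => hl (hY (h0.trans (map_zero _).symm))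
  -- the point
  let a : Fin (k + 1) → Rn (n + 1) := fun i => z1 b0 * aeval Y (c i) / aeval Y l
  have hpt : aeval (Fin.append a fun j => z1 (Fin.natAdd (k + 1) j)) F2 = 0 := by
    have h1 := comp_aeval_apply (f := Fin.append c (fun j => l * yv ℂ m j)) (aeval Y) F2
    rw [hx, map_zero] at h1
    have h2 : (Fin.append a fun j => z1 (Fin.natAdd (k + 1) j)) =
        fun i => (z1 b0 / aeval Y l) * aeval Y (Fin.append c (fun j => l * yv ℂ m j) i) := by
      funext i
      refine Fin.addCases (fun j => ?_) (fun j => ?_) i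
      · rw [Fin.append_left, Fin.append_left]
        simp only [a]
        ring
      · rw [Fin.append_right, Fin.append_right, map_mul]
        refine Fin.cases ?_ (fun j => ?_) j
        · unfold yv
          rw [Fin.cons_zero, map_one, mul_one, div_mul_cancel₀ _ hlY]
        · unfold yv
          rw [Fin.cons_succ, aeval_X, div_mul_eq_mul_div, mul_div_assoc, mul_div_cancel_left₀ _ hlY]
          simp only [Y]
          rw [mul_div_cancel₀ _ hzb]
    rw [h2, aeval_smul_form hF2h, ← h1, mul_zero]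
  -- the solution of the linear equations
  choose g hg using fun i0 : Fin (k + 1) => hsurj (Pi.single i0 1)
  let d : Fin (k + 1) → Rn (n + 1) := fun i => a i - gz (n + 1) (σ (Fin.castAdd (m + 1) i))
  refine ⟨fun l => ∑ i0, d i0 * algebraMap ℂ _ (g i0 l), ?_⟩
  have hc : ∀ i, ∑ l, (∑ i0, d i0 * algebraMap ℂ (Rn (n + 1)) (g i0 l)) *
      algebraMap ℂ (Rn (n + 1)) (A l (σ (Fin.castAdd (m + 1) i))) = d i := by
    intro i
    have h1 : ∀ i0, ∑ l, algebraMap ℂ (Rn (n + 1)) (g i0 l) *
        algebraMap ℂ (Rn (n + 1)) (A l (σ (Fin.castAdd (m + 1) i))) = if i0 = i then 1 else 0 := by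
      intro i0
      have h2 := congrArg (algebraMap ℂ (Rn (n + 1))) (hg i0 i)
      rw [map_sum] at h2
      simp only [map_mul] at h2
      rw [h2, Pi.single_apply]
      by_cases h : i = i0
      · rw [if_pos h, if_pos h.symm, map_one]
      · rw [if_neg h, if_neg (Ne.symm h), map_zero]
    simp only [Finset.sum_mul]
    rw [Finset.sum_comm]
    calc ∑ i0, ∑ l, d i0 * algebraMap ℂ (Rn (n + 1)) (g i0 l) *
          algebraMap ℂ (Rn (n + 1)) (A l (σ (Fin.castAdd (m + 1) i)))
        = ∑ i0, d i0 * (if i0 = i then 1 else 0) := by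
          refine Finset.sum_congr rfl fun i0 _ => ?_
          rw [← h1 i0, Finset.mul_sum]
          refine Finset.sum_congr rfl fun l _ => ?_
          ring
      _ = d i := by simp
  rw [hF2, aeval_shear, aeval_rename] at hpt
  rw [← hpt]
  congr 2
  funext i
  obtain ⟨i', rfl⟩ := σ.surjective i
  simp only [Function.comp_apply, Equiv.symm_apply_apply]
  refine Fin.addCases (fun j => ?_) (fun j => ?_) i'
  · rw [Fin.append_left, Fin.append_left, hc]
    simp only [d]
    ring
  · rw [Fin.append_right, Fin.append_right]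
    simp only [hU, map_sum, map_mul, Finset.mul_sum]
    rw [Finset.sum_comm]
    have h2 : ∀ i, ∑ l, (∑ i0, d i0 * algebraMap ℂ (Rn (n + 1)) (g i0 l)) *
        (algebraMap ℂ (Rn (n + 1)) (U i j) *
          algebraMap ℂ (Rn (n + 1)) (A l (σ (Fin.castAdd (m + 1) i)))) =
        algebraMap ℂ (Rn (n + 1)) (U i j) * d i := by
      intro i
      rw [← hc i, Finset.mul_sum]
      refine Finset.sum_congr rfl fun l _ => ?_
      ring
    simp only [h2, Fin.append_left]
    rw [hz1]
    unfold tp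
    rw [Fin.append_right]
    simp only [d]
    simp only [mul_sub, Finset.sum_sub_distrib]
    ring

/-- a rational section in the given coordinates gives a rational point in adapted coordinates -/
theorem iso_of_sec {n P k m : ℕ} {F : MvPolynomial (Fin (n + 2)) ℂ} (hF : F.IsHomogeneous 3)
    (A : Fin P → Fin (n + 2) → ℂ) (σ : Fin (k + 1 + (m + 1)) ≃ Fin (n + 2))
    (U : Fin (k + 1) → Fin (m + 1) → ℂ) (hW : VanW (shear U (rename σ.symm F)))
    (hU : ∀ j l, A l (σ (Fin.natAdd (k + 1) j)) =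
        ∑ i, U i j * A l (σ (Fin.castAdd (m + 1) i)))
    (h : HasSec F A) : Iso (shear U (rename σ.symm F)) := by
  classical
  obtain ⟨w, hw⟩ := h
  set F2 := shear U (rename σ.symm F) with hF2
  have hF2h : F2.IsHomogeneous 3 := shear_hom hF.rename_isHomogeneous U
  set x : Fin (n + 2) → Rn (n + 1) :=
    fun i => gz (n + 1) i + ∑ l, w l * algebraMap ℂ (Rn (n + 1)) (A l i) with hx
  have hgen := gen_tp σ U (gz (n + 1)) (gz_gen (n + 1))
  refine iso_of_odd spr desc hF2h hW (tp U fun i => x (σ i)) (tp U fun i => gz (n + 1) (σ i))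
    ?_ hgen ?_ ?_
  · rw [hF2, aeval_tp, aeval_rename, ← hw]
    congr 2
    funext i
    simp
  · intro j
    unfold tp
    rw [Fin.append_right, Fin.append_right, hx]
    simp only [hU, map_sum, map_mul, mul_add, Finset.mul_sum, Finset.sum_add_distrib]
    rw [Finset.sum_comm (s := (Finset.univ : Finset (Fin (k + 1))))]
    have h1 : ∀ l i, w l * (algebraMap ℂ (Rn (n + 1)) (U i j) *
        algebraMap ℂ (Rn (n + 1)) (A l (σ (Fin.castAdd (m + 1) i)))) =
        algebraMap ℂ (Rn (n + 1)) (U i j) * (w l *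
          algebraMap ℂ (Rn (n + 1)) (A l (σ (Fin.castAdd (m + 1) i)))) := fun l i => by ring
    simp only [h1]
    ring
  · have hx1n : ∀ i, (fun i => gz (n + 1) (σ i)) i ≠ 0 := by
      intro i h0
      exact X_ne_zero _ (gz_gen (n + 1) 1 (X (σ i)) (isHomogeneous_X _ _) (by
        rw [aeval_X]
        exact h0))
    have hx2n : ∀ i, tp U (fun i => gz (n + 1) (σ i)) i ≠ 0 := by
      intro i h0
      exact X_ne_zero i (hgen 1 (X i) (isHomogeneous_X _ _) (by rw [aeval_X, h0]))
    have h1 : ratioField (tp U fun i => gz (n + 1) (σ i)) = ratioField fun i => gz (n + 1) (σ i) :=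
      ratioField_tp U _ ⟨_, hx1n (Fin.castAdd (m + 1) 0)⟩ ⟨_, hx2n (Fin.castAdd (m + 1) 0)⟩
    have h2 : (ratioField fun i => gz (n + 1) (σ i)) = ratioField (gz (n + 1)) := by
      have h3 := ratioField_perm σ.symm (gz (n + 1))
      simpa only [Equiv.symm_symm] using h3
    rw [h1, h2]
    exact gz_odd (n + 1)

/-- the zero vectors have no section -/
theorem no_sec_zero {n P : ℕ} {F : MvPolynomial (Fin (n + 2)) ℂ} (hF : F.IsHomogeneous 3)
    (hF0 : F ≠ 0) (A : Fin P → Fin (n + 2) → ℂ) (hA : A = 0) : ¬ HasSec F A := by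
  rintro ⟨w, hw⟩
  apply hF0
  refine gz_gen (n + 1) 3 F hF ?_
  rw [← hw]
  congr 2
  funext i
  rw [hA]
  simp

/-- `F (c + t η) = t (β c + b₀ t) ^ 2` for the points `c` of the span of the vectors `A l` -/
def SpecialPt {N P : ℕ} (F : MvPolynomial (Fin N) ℂ) (A : Fin P → Fin N → ℂ)
    (η β : Fin N → ℂ) (b0 : ℂ) : Prop :=
  ∀ (a : Fin P → ℂ) (t : ℂ), eval (fun i => ∑ l, a l * A l i + t * η i) F =
    t * (∑ i, β i * (∑ l, a l * A l i) + b0 * t) ^ 2

theorem special_aeval {N P : ℕ} {F : MvPolynomial (Fin N) ℂ} {A : Fin P → Fin N → ℂ}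
    {η β : Fin N → ℂ} {b0 : ℂ} (h : SpecialPt F A η β b0)
    {E : Type} [Field E] [Algebra ℂ E] (w : Fin P → E) (t : E) :
    aeval (fun i => ∑ l, w l * algebraMap ℂ E (A l i) + t * algebraMap ℂ E (η i)) F =
      t * (∑ i, algebraMap ℂ E (β i) * (∑ l, w l * algebraMap ℂ E (A l i)) +
        algebraMap ℂ E b0 * t) ^ 2 := by
  let f : Fin N → MvPolynomial (Option (Fin P)) ℂ := fun i =>
    ∑ l, X (some l) * C (A l i) + X none * C (η i)
  have h1 : aeval f F = X none * (∑ i, C (β i) * (∑ l, X (some l) * C (A l i)) +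
      C b0 * X none) ^ 2 := by
    apply MvPolynomial.funext
    intro a
    have h2 := comp_aeval_apply (f := f) (aeval a : MvPolynomial (Option (Fin P)) ℂ →ₐ[ℂ] ℂ) F
    have h3 : ∀ (σ : Type) (b : σ → ℂ) (P : MvPolynomial σ ℂ), aeval b P = eval b P :=
      fun σ b P => by rw [aeval_def, Algebra.algebraMap_self, eval₂_id]
    rw [h3, h3] at h2
    rw [h2]
    have h4 := h (fun l => a (some l)) (a none)
    simp only [map_mul, map_pow, map_add, map_sum, eval_X, eval_C]
    rw [← h4]
    congr 2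
    funext i
    rw [h3]
    simp only [f, map_mul, map_add, map_sum, eval_X, eval_C]
  let v : Option (Fin P) → E := fun o => o.elim t w
  have h2 := comp_aeval_apply (f := f) (aeval v : MvPolynomial (Option (Fin P)) ℂ →ₐ[ℂ] E) F
  rw [h1] at h2
  have h5 : (fun i => aeval v (f i)) =
      fun i => ∑ l, w l * algebraMap ℂ E (A l i) + t * algebraMap ℂ E (η i) := by
    funext i
    simp only [f, map_mul, map_add, map_sum, aeval_X, aeval_C]
    rfl
  rw [← h5, ← h2]
  simp only [map_mul, map_pow, map_add, map_sum, aeval_X, aeval_C]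
  rfl

/-- **No section for special linear subspaces.** -/
theorem no_sec {n P : ℕ} {F : MvPolynomial (Fin (n + 2)) ℂ} (hF : F.IsHomogeneous 3)
    (hsm : Sm F) (A : Fin P → Fin (n + 2) → ℂ)
    (hA : ∀ a : Fin P → ℂ, eval (fun i => ∑ l, a l * A l i) F = 0)
    (η ψ β : Fin (n + 2) → ℂ) (b0 : ℂ) (hψ : ∑ i, ψ i * η i = 1)
    (hψA : ∀ l, ∑ i, ψ i * A l i = 0) (hsp : SpecialPt F A η β b0) : ¬ HasSec F A := by
  rintro ⟨w, hw⟩
  obtain ⟨T, hT, hFT⟩ := exists_tri F hF
  set c : Fin (n + 2) → Rn (n + 1) := fun i => ∑ l, w l * algebraMap ℂ _ (A l i) with hc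
  set η' : Fin (n + 2) → Rn (n + 1) := fun i => algebraMap ℂ _ (η i) with hη'
  have hev : ∀ {R : Type} [CommRing R] [Algebra ℂ R] (v : Fin (n + 2) → R),
      aeval v F = Bg T v v v := by
    intro R _ _ v
    conv_lhs => rw [hFT]
    exact aeval_frmG T v
  set B : Rn (n + 1) := ∑ i, algebraMap ℂ _ (β i) * c i with hB
  set b0' : Rn (n + 1) := algebraMap ℂ _ b0 with hb0'
  have hcF : Bg T c c c = 0 := by
    rw [← hev]
    exact span_aeval A hA w
  have h1 : ∀ t : Rn (n + 1), 3 * t * Bg T c c η' + 3 * t ^ 2 * Bg T c η' η' +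
      t ^ 3 * Bg T η' η' η' = t * (B + b0' * t) ^ 2 := by
    intro t
    have h2 := special_aeval hsp w t
    rw [hev] at h2
    have h3 := Bg_span3 hT c η' η' 1 t 0
    have h4 : (fun i => 1 * c i + t * η' i + 0 * η' i) = fun i => c i + t * η' i := by
      funext i
      ring
    rw [h4] at h3
    have h5 : Bg T (fun i => c i + t * η' i) (fun i => c i + t * η' i)
      (fun i => c i + t * η' i) = t * (B + b0' * t) ^ 2 := h2
    rw [← h5, h3, hcF]
    ring
  have e1 := h1 1
  have e2 := h1 (-1)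
  have e3 := h1 2
  have h20 : (2 : Rn (n + 1)) ≠ 0 := two_ne_zero
  have h60 : (6 : Rn (n + 1)) ≠ 0 := by norm_num
  have g2 : 3 * Bg T c η' η' = 2 * b0' * B := by
    have : 2 * (3 * Bg T c η' η') = 2 * (2 * b0' * B) := by linear_combination e1 + e2
    exact mul_left_cancel₀ h20 this
  have g3 : Bg T η' η' η' = b0' ^ 2 := by
    have : 6 * Bg T η' η' η' = 6 * b0' ^ 2 := by linear_combination e3 - 2 * e1 - 2 * g2
    exact mul_left_cancel₀ h60 this
  have g1 : 3 * Bg T c c η' = B ^ 2 := by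
    linear_combination e1 - g2 - g3
  refine odd1 hsm hT hFT (gz (n + 1)) (gz_gen (n + 1)) (gz_odd (n + 1)) η ψ β b0 hψ c ?_ hcF
    g1 g2 ?_ 1 ?_
  · rw [hc]
    simp only [Finset.mul_sum]
    rw [Finset.sum_comm]
    refine Finset.sum_eq_zero fun l _ => ?_
    have h4 := congrArg (algebraMap ℂ (Rn (n + 1))) (hψA l)
    rw [map_sum, map_zero] at h4
    rw [← mul_zero (w l), ← h4, Finset.mul_sum]
    refine Finset.sum_congr rfl fun i _ => ?_
    rw [map_mul]
    ring
  · have h4 := Bg_alg (R := Rn (n + 1)) T η η η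
    apply (algebraMap ℂ (Rn (n + 1))).injective
    rw [map_pow, ← g3]
    first | exact h4 | exact h4.symm
  · rw [← hw]
    congr 2
    funext i
    rw [one_mul]

end

end Pool.Agent.N122
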