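import Mathlib
import Pool.Agent.N122.Sec

/-! # Parity of the degree and rational sections -/

set_option autoImplicit false

namespace Pool.Agent.N122

open MvPolynomial Pool.Agent.TH314.PD Module Pool.Agent.Y201.C3 IntermediateField
open Pool.Agent.R845.T2 Pool.Agent.R845.E3

noncomputable section

/-- **The parity of the degree is preserved by a chord, or the generic point of the chord is a
generic point of odd degree of the projective space.** -/
theorem chord_gen {n : ℕ} {F : MvPolynomial (Fin (n + 2)) ℂ} (hF : F.IsHomogeneous 3)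
    (hsm : Sm F) {M : Type} [Field M] [Algebra ℂ M] (x c : Fin (n + 2) → M)
    (hG : Gp F x) (hodd : Odd (finrank (ratioField x) M)) (hc : c ≠ 0)
    (hcF : aeval c F = 0)
    (hdim : finrank ℂ (sp1 c) < n + 2) (s t : M) (hs : s ≠ 0)
    (hst : aeval (fun j => s * x j + t * c j) F = 0) :
    (Gp F (fun j => s * x j + t * c j) ∧
      Odd (finrank (ratioField fun j => s * x j + t * c j) M)) ∨
    ((∀ (e : ℕ) (H : MvPolynomial (Fin (n + 2)) ℂ), H.IsHomogeneous e →
        aeval (fun j => algebraMap (Polynomial M) (FractionRing (Polynomial M))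
          (Polynomial.C (x j) + Polynomial.X * Polynomial.C (c j))) H = 0 → H = 0) ∧
      Odd (finrank (ratioField fun j => algebraMap (Polynomial M)
      (FractionRing (Polynomial M)) (Polynomial.C (x j) + Polynomial.X * Polynomial.C (c j)))
      (FractionRing (Polynomial M)))) := by
  classical
  have tan : S_TAN := tan_of div (nt Pool.Agent.Y201.LI.hT1) fi fd
  obtain ⟨T, hT, hFT⟩ := exists_tri F hF
  obtain ⟨a, ha0, ha⟩ := exists_rel c hdim
  have hxc := indep hF x c hG hc hdim
  have hpn : ¬ Gp F c := fun h => ha0 (gen_li hF c h.2 a ha)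
  have hodd2 : ¬ 2 ∣ finrank (ratioField x) M := fun h =>
    (Nat.not_even_iff_odd.2 hodd) (even_iff_two_dvd.2 h)
  set A := 3 * Bg T x x c with hA
  set B := 3 * Bg T x c c with hB
  have hline := line_shape hT hFT x c hG.1 hcF
  rw [← hA, ← hB] at hline
  have hB0 : B ≠ 0 := by
    intro h0
    rw [h0, Polynomial.C_0, zero_mul, add_zero] at hline
    exact hodd2 (tan (n + 1) 3 F hF (by norm_num) hsm M x c A hxc hG.1 hG.2 hline)
  have hscale := fun v b hb h1 h2 => scale hF (M := M) v b hb h1 h2
  -- the equation of the point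
  have heq : t * (s * A + t * B) = 0 := by
    have h1 := congrArg (Polynomial.eval (t / s)) hline
    rw [Polynomial.eval_add, Polynomial.eval_mul, Polynomial.eval_mul, Polynomial.eval_pow,
      Polynomial.eval_C, Polynomial.eval_C, Polynomial.eval_X] at h1
    have h2 : Polynomial.eval (t / s) (aeval (fun j => Polynomial.C (x j) +
        Polynomial.X * Polynomial.C (c j)) F) = aeval (fun j => x j + t / s * c j) F := by
      have h3 := comp_aeval_apply (f := fun j => Polynomial.C (x j) +
        Polynomial.X * Polynomial.C (c j)) ((Polynomial.aeval (R := M) (t / s)).restrictScalars ℂ) F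
      have h4 : ((Polynomial.aeval (R := M) (t / s)).restrictScalars ℂ) (aeval (fun j =>
          Polynomial.C (x j) + Polynomial.X * Polynomial.C (c j)) F) =
          Polynomial.eval (t / s) (aeval (fun j => Polynomial.C (x j) +
            Polynomial.X * Polynomial.C (c j)) F) := by
        rw [AlgHom.restrictScalars_apply, Polynomial.coe_aeval_eq_eval]
      rw [← h4, h3]
      congr 2
      funext j
      rw [AlgHom.restrictScalars_apply, Polynomial.coe_aeval_eq_eval]
      rw [Polynomial.eval_add, Polynomial.eval_mul, Polynomial.eval_C, Polynomial.eval_C,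
        Polynomial.eval_X]
    rw [h2] at h1
    have h3 : (fun j => s * x j + t * c j) = fun j => s * (x j + t / s * c j) := by
      funext j
      field_simp
    rw [h3, aeval_smul_form hF, h1] at hst
    have h4 := (mul_eq_zero.1 hst).resolve_left (pow_ne_zero _ hs)
    field_simp at h4
    linear_combination h4
  rcases mul_eq_zero.1 heq with ht | hAB
  · have h1 : (fun j => s * x j + t * c j) = fun j => s * x j := by
      funext j
      rw [ht, zero_mul, add_zero]
    rw [h1]
    exact Or.inl (hscale x s hs hG hodd)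
  have h1 : (fun j => s * x j + t * c j) = fun j => (s / B) * (B * x j - A * c j) := by
    funext j
    field_simp
    linear_combination c j * hAB
  rw [h1]
  have hsB : s / B ≠ 0 := div_ne_zero hs hB0
  by_cases hA0 : A = 0
  · have h2 : (fun j => (s / B) * (B * x j - A * c j)) = fun j => s * x j := by
      funext j
      rw [hA0, zero_mul, sub_zero]
      field_simp
    rw [h2]
    exact Or.inl (hscale x s hs hG hodd)
  by_cases hy : Gp F (fun j => B * x j - A * c j) ∧
      Odd (finrank (ratioField fun j => B * x j - A * c j) M)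
  · exact Or.inl (hscale _ _ hsB hy.1 hy.2)
  right
  refine p3 (n + 1) F hF hsm M x c A B hxc hG hodd hpn hA0 hB0 hline
    (by
      intro h2
      by_contra h3
      apply hy
      refine ⟨h2, ?_⟩
      rw [← Nat.not_even_iff_odd, even_iff_two_dvd]
      exact h3)


/-- **No odd families of conics.** -/
theorem conics_gen {n : ℕ} {F : MvPolynomial (Fin (n + 2)) ℂ} (hF : F.IsHomogeneous 3)
    (hsm : Sm F) {M : Type} [Field M] [Algebra ℂ M] (L : IntermediateField ℂ M) (t : M)
    (ht : Transcendental L t) (α β γ : Fin (n + 2) → M) (hα : ∀ i, α i ∈ L)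
    (hβ : ∀ i, β i ∈ L) (hγ : ∀ i, γ i ∈ L)
    (hdim : finrank ℂ (sp1 α) < n + 2)
    (hG : Gp F (fun i => t ^ 2 * α i + t * β i + γ i))
    (hch : Odd (finrank (ratioField fun i => t ^ 2 * α i + t * β i + γ i) M) → α ≠ 0 →
      aeval α F = 0 → ∀ s t' : M, s ≠ 0 →
      aeval (fun i => s * (t ^ 2 * α i + t * β i + γ i) + t' * α i) F = 0 →
      Gp F (fun i => s * (t ^ 2 * α i + t * β i + γ i) + t' * α i) ∧
      Odd (finrank (ratioField fun i => s * (t ^ 2 * α i + t * β i + γ i) + t' * α i) M)) :
    Even (finrank (ratioField fun i => t ^ 2 * α i + t * β i + γ i) M) := by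
  classical
  rw [← Nat.not_odd_iff_even]
  intro hodd
  set x : Fin (n + 2) → M := fun i => t ^ 2 * α i + t * β i + γ i with hx
  have hodd2 : ¬ 2 ∣ finrank (ratioField x) M := fun h =>
    (Nat.not_even_iff_odd.2 hodd) (even_iff_two_dvd.2 h)
  have hF0 : F ≠ 0 := ne_zero_of_smooth (m := n + 1) hsm
  have hirr : Irreducible F := Pool.Agent.Y201.LI.irreducible_of_generic hF hF0 x hG.1 hG.2
  have hT1 := Pool.Agent.Y201.LI.hT1 (n + 2) 3 F hF (by norm_num) hirr hsm M L t ht
  have hane : α ≠ 0 := by
    intro h0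
    have h1 : x = fun i => t * β i + γ i := by
      funext i
      rw [hx]
      simp only
      rw [h0, Pi.zero_apply, mul_zero, zero_add]
    have h2 := hG
    rw [h1] at h2 hodd2
    exact hodd2 (hT1 β γ hβ hγ h2.1 h2.2)
  obtain ⟨l1, l2, l3, k1, k2, k3, hline⟩ := conic_shape hF L t ht α β γ hα hβ hγ hG.1
  have hev : ∀ τ : M, aeval (fun j => x j + τ * α j) F =
      -(l1 * t ^ 2 + l2 * t + l3) * τ + -l1 * τ ^ 2 := by
    intro τ
    have h1 := congrArg (Polynomial.eval τ) hline
    rw [Polynomial.eval_add, Polynomial.eval_mul, Polynomial.eval_mul, Polynomial.eval_pow,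
      Polynomial.eval_C, Polynomial.eval_C, Polynomial.eval_X] at h1
    rw [← h1]
    have h3 := comp_aeval_apply (f := fun j => Polynomial.C (t ^ 2 * α j + t * β j + γ j) +
        Polynomial.X * Polynomial.C (α j)) ((Polynomial.aeval (R := M) τ).restrictScalars ℂ) F
    have h4 : ((Polynomial.aeval (R := M) τ).restrictScalars ℂ) (aeval (fun j =>
        Polynomial.C (t ^ 2 * α j + t * β j + γ j) + Polynomial.X * Polynomial.C (α j)) F) =
        Polynomial.eval τ (aeval (fun j => Polynomial.C (t ^ 2 * α j + t * β j + γ j) +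
          Polynomial.X * Polynomial.C (α j)) F) := by
      rw [AlgHom.restrictScalars_apply, Polynomial.coe_aeval_eq_eval]
    rw [← h4, h3]
    congr 2
    funext j
    rw [AlgHom.restrictScalars_apply, Polynomial.coe_aeval_eq_eval]
    rw [Polynomial.eval_add, Polynomial.eval_mul, Polynomial.eval_C, Polynomial.eval_C,
      Polynomial.eval_X]
  have hxα := indep hF x α hG hane hdim
  have tan : S_TAN := tan_of div (nt Pool.Agent.Y201.LI.hT1) fi fd
  have hl1 : l1 ≠ 0 := by
    intro h0
    have h1 : Polynomial.C (-l1) * Polynomial.X ^ 2 = 0 := by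
      rw [h0, neg_zero, Polynomial.C_0, zero_mul]
    rw [h1, add_zero] at hline
    exact hodd2 (tan (n + 1) 3 F hF (by norm_num) hsm M x α _ hxα hG.1 hG.2 hline)
  -- the point `α` lies on the hypersurface
  have hαF : aeval α F = 0 := by
    obtain ⟨T, hT, hFT⟩ := exists_tri F hF
    have hT' : ∀ {R : Type} [CommRing R] [Algebra ℂ R] (v : Fin (n + 2) → R),
        aeval v F = Bg T v v v := by
      intro R _ _ v
      conv_lhs => rw [hFT]
      exact aeval_frmG T v
    have h1 : ∀ τ : M, aeval (fun j => x j + τ * α j) F =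
        3 * Bg T x x α * τ + 3 * Bg T x α α * τ ^ 2 + Bg T α α α * τ ^ 3 := by
      intro τ
      have h2 := Bg_span3 hT x α α 1 τ 0
      have h3 : (fun i => 1 * x i + τ * α i + 0 * α i) = fun i => x i + τ * α i := by
        funext i
        ring
      rw [h3, ← hT', ← hT' x, hG.1] at h2
      linear_combination h2
    have e1 := (h1 1).symm.trans (hev 1)
    have e2 := (h1 (-1)).symm.trans (hev (-1))
    have e3 := (h1 2).symm.trans (hev 2)
    rw [hT']
    have h6 : (6 : M) * Bg T α α α = 0 := by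
      linear_combination e3 - 3 * e1 - e2
    have h60 : (6 : M) ≠ 0 := by
      have := Algebra.algebraMap_eq_smul_one (R := ℂ) (A := M) 6
      have h7 : algebraMap ℂ M 6 ≠ 0 := by
        rw [Ne, map_eq_zero]
        norm_num
      rwa [map_ofNat] at h7
    exact (mul_eq_zero.1 h6).resolve_left h60
  have hs : -l1 ≠ 0 := neg_ne_zero.2 hl1
  have h1 := hch hodd hane hαF (-l1) (l1 * t ^ 2 + l2 * t + l3) hs (by
    have h2 : (fun j => -l1 * x j + (l1 * t ^ 2 + l2 * t + l3) * α j) =
        fun j => -l1 * (x j + (l1 * t ^ 2 + l2 * t + l3) / -l1 * α j) := by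
      funext j
      have h3 := div_mul_cancel₀ (l1 * t ^ 2 + l2 * t + l3) hs
      linear_combination -α j * h3
    rw [h2, aeval_smul_form hF, hev]
    have h3 := div_mul_cancel₀ (l1 * t ^ 2 + l2 * t + l3) hs
    generalize (l1 * t ^ 2 + l2 * t + l3) / -l1 = τ at h3
    rw [← h3]
    ring)
  have h2 : (fun j => -l1 * x j + (l1 * t ^ 2 + l2 * t + l3) * α j) =
      fun j => t * (-l1 * β j + l2 * α j) + (-l1 * γ j + l3 * α j) := by
    funext j
    rw [hx]
    ring
  rw [h2] at h1
  have h3 := hT1 _ _ (fun j => add_mem (mul_mem (neg_mem k1) (hβ j)) (mul_mem k2 (hα j)))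
      (fun j => add_mem (mul_mem (neg_mem k1) (hγ j)) (mul_mem k3 (hα j))) h1.1.1 h1.1.2
  exact (Nat.not_even_iff_odd.2 h1.2) (even_iff_two_dvd.2 h3)


/-- the size of a point of the span -/
theorem sp1_lt {n P : ℕ} {F : MvPolynomial (Fin (n + 2)) ℂ} (hF0 : F ≠ 0)
    (A : Fin P → Fin (n + 2) → ℂ)
    (hA : ∀ a : Fin P → ℂ, eval (fun i => ∑ l, a l * A l i) F = 0)
    {M : Type} [Field M] [Algebra ℂ M] (w : Fin P → M) :
    finrank ℂ (sp1 fun i => ∑ l, w l * algebraMap ℂ M (A l i)) < n + 2 := by
  classical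
  -- there is a linear form which vanishes on all `A l`
  have h1 : ∃ a : Fin (n + 2) → ℂ, a ≠ 0 ∧ ∀ l, ∑ i, a i * A l i = 0 := by
    by_contra hcon
    push Not at hcon
    have hinj : Function.Injective (Matrix.mulVecLin (Matrix.of A)) := by
      rw [injective_iff_map_eq_zero]
      intro a ha
      by_contra h0
      obtain ⟨l, hl⟩ := hcon a h0
      apply hl
      have h2 := congrFun ha l
      simp only [Matrix.mulVecLin_apply, Matrix.mulVec, dotProduct, Matrix.of_apply,
        Pi.zero_apply] at h2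
      rw [← h2]
      exact Finset.sum_congr rfl fun i _ => mul_comm _ _
    have hrank : (Matrix.of A).rank = n + 2 := by
      have h2 := LinearMap.finrank_range_of_inj hinj
      rw [Module.finrank_fin_fun] at h2
      exact h2
    have hsurj : Function.Surjective (Matrix.mulVecLin (Matrix.of A).transpose) := by
      rw [← LinearMap.range_eq_top]
      apply Submodule.eq_top_of_finrank_eq
      rw [Module.finrank_fin_fun]
      have h3 := Matrix.rank_transpose (Matrix.of A)
      rw [hrank] at h3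
      exact h3
    apply hF0
    apply MvPolynomial.funext
    intro u
    obtain ⟨a, ha⟩ := hsurj u
    rw [map_zero, ← hA a]
    congr 2
    funext i
    rw [← ha]
    simp only [Matrix.mulVecLin_apply, Matrix.mulVec, dotProduct, Matrix.transpose_apply,
      Matrix.of_apply]
    exact Finset.sum_congr rfl fun l _ => mul_comm _ _
  obtain ⟨a, ha0, ha⟩ := h1
  by_contra hcon
  push Not at hcon
  set c : Fin (n + 2) → M := fun i => ∑ l, w l * algebraMap ℂ M (A l i) with hc
  have h2 : LinearIndependent ℂ c := by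
    rw [linearIndependent_iff_card_le_finrank_span, Fintype.card_fin]
    exact hcon
  apply ha0
  have h3 := Fintype.linearIndependent_iff.1 h2 a (by
    rw [hc]
    simp only [Algebra.smul_def, Finset.mul_sum]
    rw [Finset.sum_comm]
    refine Finset.sum_eq_zero fun l _ => ?_
    have h4 := congrArg (algebraMap ℂ M) (ha l)
    rw [map_sum, map_zero] at h4
    rw [← mul_zero (w l), ← h4, Finset.mul_sum]
    refine Finset.sum_congr rfl fun i _ => ?_
    rw [map_mul]
    ring)
  funext i
  exact h3 i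

/-- **If the parity is not constant in the fibres of the projection from `W`, then the projection
has a rational section.** -/
theorem sec_of_chord {n P : ℕ} {F : MvPolynomial (Fin (n + 2)) ℂ} (hF : F.IsHomogeneous 3)
    (hsm : Sm F) (A : Fin P → Fin (n + 2) → ℂ)
    (hA : ∀ a : Fin P → ℂ, eval (fun i => ∑ l, a l * A l i) F = 0)
    {M : Type} [Field M] [Algebra ℂ M] (x y : Fin (n + 2) → M) (hyF : aeval y F = 0)
    (hG : Gp F x) (hodd : Odd (finrank (ratioField x) M)) (s : M) (w : Fin P → M) (hs : s ≠ 0)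
    (hy : ∀ i, y i = s * x i + ∑ l, w l * algebraMap ℂ M (A l i)) :
    (Gp F y ∧ Odd (finrank (ratioField y) M)) ∨ HasSec F A := by
  classical
  have hF0 : F ≠ 0 := ne_zero_of_smooth (m := n + 1) hsm
  set c : Fin (n + 2) → M := fun i => ∑ l, w l * algebraMap ℂ M (A l i) with hc
  have hy1 : y = fun i => s * x i + 1 * c i := by
    funext i
    rw [hy, one_mul]
  by_cases hc0 : c = 0
  · have hy2 : y = fun i => s * x i := by
      rw [hy1, hc0]
      funext i
      simp
    rw [hy2]
    exact Or.inl (scale hF x s hs hG hodd)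
  rw [hy1] at hyF ⊢
  rcases chord_gen hF hsm x c hG hodd hc0 (span_aeval A hA w) (sp1_lt hF0 A hA w) s 1 hs hyF with
    h | ⟨hygen, hyodd⟩
  · exact Or.inl h
  right
  have hA0 : (fun i l => A l i : Fin (n + 2) → Fin P → ℂ) ≠ 0 := by
    intro h0
    apply hc0
    funext i
    rw [hc]
    simp only [Pi.zero_apply]
    refine Finset.sum_eq_zero fun l _ => ?_
    have h1 : A l i = 0 := congrFun (congrFun h0 i) l
    rw [h1, map_zero, mul_zero]
  obtain ⟨k, m, σ, U, hW, hU, hsurj, htp⟩ := adapt2 hF0 (fun i l => A l i) hA0 hA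
  refine sec_of_iso hF hsm A σ U hW hU hsurj ?_
  set F2 := shear U (rename σ.symm F) with hF2
  have hF2h : F2.IsHomogeneous 3 := shear_hom hF.rename_isHomogeneous U
  set E := FractionRing (Polynomial M) with hE
  let f : M →ₐ[ℂ] E := (IsScalarTower.toAlgHom ℂ (Polynomial M) E).comp
    (Polynomial.CAlgHom : M →ₐ[ℂ] Polynomial M)
  set τ : E := algebraMap (Polynomial M) E Polynomial.X with hτ
  set z : Fin (n + 2) → E := fun j => algebraMap (Polynomial M) E
    (Polynomial.C (x j) + Polynomial.X * Polynomial.C (c j)) with hz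
  have hzf : z = fun i => f (x i) + ∑ l, (τ * f (w l)) * algebraMap ℂ E (A l i) := by
    funext i
    have h1 : z i = f (x i) + τ * f (c i) := by
      rw [hz]
      simp only [map_add, map_mul]
      rfl
    rw [h1, hc]
    simp only [map_sum, map_mul, AlgHom.commutes]
    congr 1
    rw [Finset.mul_sum]
    exact Finset.sum_congr rfl fun l _ => by ring
  have hgen := gen_tp σ U z hygen
  refine iso_of_odd spr desc hF2h hW (tp U fun i => f (x (σ i))) (tp U fun i => z (σ i))
    ?_ hgen ?_ ?_
  · rw [hF2, aeval_tp, aeval_rename]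
    have h1 := comp_aeval_apply (f := x) f F
    rw [hG.1, map_zero] at h1
    rw [h1]
    congr 2
    funext i
    simp
  · intro j
    have h1 : (fun i => z (σ i)) = fun i => 1 * f (x (σ i)) + 1 *
        ∑ l, (τ * f (w l)) * algebraMap ℂ E (A l (σ i)) := by
      funext i
      rw [hzf]
      ring
    have h2 := htp E (fun l => τ * f (w l)) j
    have h3 : tp U (fun i => z (σ i)) (Fin.natAdd (k + 1) j) =
        tp U (fun i => f (x (σ i))) (Fin.natAdd (k + 1) j) +
          tp U (fun i => ∑ l, (τ * f (w l)) * algebraMap ℂ E (A l (σ i)))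
            (Fin.natAdd (k + 1) j) := by
      rw [hzf]
      unfold tp
      rw [Fin.append_right, Fin.append_right, Fin.append_right]
      simp only [mul_add, Finset.sum_add_distrib]
      ring
    rw [h3, h2, add_zero]
  · have hx1n : ∀ i, (fun i => z (σ i)) i ≠ 0 := by
      intro i h0
      exact X_ne_zero _ (hygen 1 (X (σ i)) (isHomogeneous_X _ _) (by
        rw [aeval_X]
        exact h0))
    have hx2n : ∀ i, tp U (fun i => z (σ i)) i ≠ 0 := by
      intro i h0
      exact X_ne_zero i (hgen 1 (X i) (isHomogeneous_X _ _) (by rw [aeval_X, h0]))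
    have h1 : ratioField (tp U fun i => z (σ i)) = ratioField fun i => z (σ i) :=
      ratioField_tp U _ ⟨_, hx1n (Fin.castAdd (m + 1) 0)⟩ ⟨_, hx2n (Fin.castAdd (m + 1) 0)⟩
    have h2 : (ratioField fun i => z (σ i)) = ratioField z := by
      have h3 := ratioField_perm σ.symm z
      simpa only [Equiv.symm_symm] using h3
    rw [h1, h2]
    exact hyodd

/-- **An odd family of conics which start in `W` gives a rational section.** -/
theorem sec_of_conics {n P : ℕ} {F : MvPolynomial (Fin (n + 2)) ℂ} (hF : F.IsHomogeneous 3)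
    (hsm : Sm F) (A : Fin P → Fin (n + 2) → ℂ)
    (hA : ∀ a : Fin P → ℂ, eval (fun i => ∑ l, a l * A l i) F = 0)
    {M : Type} [Field M] [Algebra ℂ M] (L : IntermediateField ℂ M) (t : M)
    (ht : Transcendental L t) (w : Fin P → M) (β γ : Fin (n + 2) → M) (hw : ∀ l, w l ∈ L)
    (hβ : ∀ i, β i ∈ L) (hγ : ∀ i, γ i ∈ L)
    (hG : Gp F (fun i => t ^ 2 * (∑ l, w l * algebraMap ℂ M (A l i)) + t * β i + γ i))
    (hodd : Odd (finrank (ratioField
      fun i => t ^ 2 * (∑ l, w l * algebraMap ℂ M (A l i)) + t * β i + γ i) M)) :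
    HasSec F A := by
  classical
  have hF0 : F ≠ 0 := ne_zero_of_smooth (m := n + 1) hsm
  by_contra hcon
  have h1 := conics_gen hF hsm L t ht (fun i => ∑ l, w l * algebraMap ℂ M (A l i)) β γ
    (fun i => sum_mem fun l _ => mul_mem (hw l) (L.algebraMap_mem _)) hβ hγ
    (sp1_lt hF0 A hA w) hG (fun hodd' hne hαF s t' hs hst => by
      have h2 := sec_of_chord hF hsm A hA
        (fun i => t ^ 2 * (∑ l, w l * algebraMap ℂ M (A l i)) + t * β i + γ i) _ hst hG hodd' s
        (fun l => t' * w l) hs (fun i => by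
          congr 1
          rw [Finset.mul_sum]
          exact Finset.sum_congr rfl fun l _ => by ring)
      exact h2.resolve_right hcon)
  exact (Nat.not_even_iff_odd.2 hodd) h1

/-- **A family of curves which are projected to lines gives a rational section.** -/
theorem sec_of_lines {n P : ℕ} {F : MvPolynomial (Fin (n + 2)) ℂ} (hF : F.IsHomogeneous 3)
    (hsm : Sm F) (A : Fin P → Fin (n + 2) → ℂ)
    (hA : ∀ a : Fin P → ℂ, eval (fun i => ∑ l, a l * A l i) F = 0)
    {M : Type} [Field M] [Algebra ℂ M] (L : IntermediateField ℂ M) (t : M)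
    (ht : Transcendental L t) (hM : adjoin L {t} = ⊤) (x : Fin (n + 2) → M) (hG : Gp F x)
    (hodd : Odd (finrank (ratioField x) M)) (s : M) (w : Fin P → M) (β γ : Fin (n + 2) → M)
    (hβ : ∀ i, β i ∈ L) (hγ : ∀ i, γ i ∈ L)
    (hx : ∀ i, x i = s * (t * β i + γ i) + ∑ l, w l * algebraMap ℂ M (A l i)) :
    HasSec F A := by
  classical
  have hF0 : F ≠ 0 := ne_zero_of_smooth (m := n + 1) hsm
  by_cases hA0 : (fun i l => A l i : Fin (n + 2) → Fin P → ℂ) = 0
  · exfalso
    obtain ⟨k, m, σ, U, hW, hU, hiso⟩ := sections_iso1 spr desc hF hsm hF0 (fun i l => A l i) hA L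
      t ht hM x hG hodd s w β γ hβ hγ hx
    have h1 : ∀ i, x i = s * (t * β i + γ i) := by
      intro i
      rw [hx]
      have h2 : ∀ l, A l i = 0 := fun l => congrFun (congrFun hA0 i) l
      simp [h2]
    have hs : s ≠ 0 := by
      intro h0
      exact coord_ne_zero hF (by norm_num) x hG.2 0 (by rw [h1, h0, zero_mul])
    obtain ⟨h2, h3⟩ := gp_smul hF hs h1
    rw [h2] at hG
    rw [h3] at hodd
    have hirr : Irreducible F :=
      Pool.Agent.Y201.LI.irreducible_of_generic hF hF0 _ hG.1 hG.2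
    have h4 := Pool.Agent.Y201.LI.hT1 (n + 2) 3 F hF (by norm_num) hirr hsm M L t ht β γ
      hβ hγ hG.1 hG.2
    exact (Nat.not_even_iff_odd.2 hodd) (even_iff_two_dvd.2 h4)
  obtain ⟨k, m, σ, U, hW, hU, hsurj, htp⟩ := adapt2 hF0 (fun i l => A l i) hA0 hA
  refine sec_of_iso hF hsm A σ U hW hU hsurj ?_
  have hF1h : (rename σ.symm F).IsHomogeneous 3 := hF.rename_isHomogeneous
  set x1 : Fin (k + 1 + (m + 1)) → M := fun i => x (σ i) with hx1
  have hx1G : Gp (rename σ.symm F) x1 := by
    have h1 := gp_rename σ.symm hG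
    simpa only [Equiv.symm_symm] using h1
  have hx1r : ratioField x1 = ratioField x := by
    have h1 := ratioField_perm σ.symm x
    simpa only [Equiv.symm_symm] using h1
  have hx2G : Gp (shear U (rename σ.symm F)) (tp U x1) := gp_tp U hx1G
  have hx1n : ∀ i, x1 i ≠ 0 := coord_ne_zero hF1h (by norm_num) x1 hx1G.2
  have hx2n : ∀ i, tp U x1 i ≠ 0 := coord_ne_zero (shear_hom hF1h U) (by norm_num) _ hx2G.2
  have hx2r : ratioField (tp U x1) = ratioField x1 :=
    ratioField_tp U x1 ⟨_, hx1n (Fin.castAdd (m + 1) 0)⟩ ⟨_, hx2n (Fin.castAdd (m + 1) 0)⟩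
  refine sec_iso spr desc (shear_hom hF1h U) (sm_shear (sm_rename σ.symm hsm) U) hW L t ht hM
    (tp U x1) hx2G (by rw [hx2r, hx1r]; exact hodd) s
    (fun j => tp U (fun i => β (σ i)) (Fin.natAdd (k + 1) j))
    (fun j => tp U (fun i => γ (σ i)) (Fin.natAdd (k + 1) j))
    (fun j => tp_mem U L _ (fun i => hβ _) _) (fun j => tp_mem U L _ (fun i => hγ _) _)
    fun j => ?_
  have h1 : x1 = fun i => s * t * β (σ i) + s * γ (σ i) +
      ∑ l, w l * algebraMap ℂ M (A l (σ i)) := by
    funext i
    rw [hx1]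
    simp only
    rw [hx]
    ring
  rw [h1, tp_lin]
  simp only
  rw [htp M w j]
  ring

/-- **No section for small linear subspaces.** -/
theorem no_sec_small {n P : ℕ} {F : MvPolynomial (Fin (n + 2)) ℂ} (hF : F.IsHomogeneous 3)
    (hsm : Sm F) (A : Fin P → Fin (n + 2) → ℂ)
    (hA : ∀ a : Fin P → ℂ, eval (fun i => ∑ l, a l * A l i) F = 0)
    (hP : P + P * (P + 1) / 2 ≤ n + 1) : ¬ HasSec F A := by
  rintro ⟨w, hw⟩
  obtain ⟨T, hT, hFT⟩ := exists_tri F hF
  set c : Fin (n + 2) → Rn (n + 1) := fun i => ∑ l, w l * algebraMap ℂ _ (A l i) with hc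
  have hev : ∀ {R : Type} [CommRing R] [Algebra ℂ R] (v : Fin (n + 2) → R),
      aeval v F = Bg T v v v := by
    intro R _ _ v
    conv_lhs => rw [hFT]
    exact aeval_frmG T v
  have hsz := size_span A w
  rw [← hc] at hsz
  obtain ⟨z0, ψ, β, β0, hψ, hc0, h1, h2, h3⟩ := exists_pt hT c (by omega)
  refine odd1 hsm hT hFT (gz (n + 1)) (gz_gen (n + 1)) (gz_odd (n + 1)) z0 ψ β β0 hψ c hc0 ?_
    h1 h2 h3 1 ?_
  · rw [← hev]
    exact span_aeval A hA w
  · rw [← hw]
    congr 2
    funext i
    rw [one_mul]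

/-- **A rational section gives a birational parametrization.** -/
theorem rational_of_sec {n P : ℕ} (hn : 1 ≤ n) {F : MvPolynomial (Fin (n + 2)) ℂ}
    (hF : F.IsHomogeneous 3) (hsm : Sm F) (A : Fin P → Fin (n + 2) → ℂ)
    (hA : ∀ a : Fin P → ℂ, eval (fun i => ∑ l, a l * A l i) F = 0) (h : HasSec F A) :
    ∃ G : Fin (n + 2) → MvPolynomial (Fin n) ℂ,
      Gp F (fun i => algebraMap (MvPolynomial (Fin n) ℂ) (Rn n) (G i)) ∧
      (ratioField fun i => algebraMap (MvPolynomial (Fin n) ℂ) (Rn n) (G i)) = ⊤ := by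
  have hF0 : F ≠ 0 := ne_zero_of_smooth (m := n + 1) hsm
  by_cases hA0 : (fun i l => A l i : Fin (n + 2) → Fin P → ℂ) = 0
  · refine absurd h (no_sec_zero hF hF0 A ?_)
    funext l i
    exact congrFun (congrFun hA0 i) l
  obtain ⟨k, m, σ, U, hW, hU, hsurj, htp⟩ := adapt2 hF0 (fun i l => A l i) hA0 hA
  have hkm : k + m = n := by
    have h1 := Fintype.card_congr σ
    rw [Fintype.card_fin, Fintype.card_fin] at h1
    omega
  have hiso := iso_of_sec hF A σ U hW hU h
  exact back hkm hF σ U (rat evn k m (by omega) _ (shear_hom hF.rename_isHomogeneous U)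
    (sm_shear (sm_rename σ.symm hsm) U) hW hiso)

/-- no section for special linear subspaces, with the point outside of the span -/
theorem no_sec' {n P : ℕ} {F : MvPolynomial (Fin (n + 2)) ℂ} (hF : F.IsHomogeneous 3)
    (hsm : Sm F) (A : Fin P → Fin (n + 2) → ℂ)
    (hA : ∀ a : Fin P → ℂ, eval (fun i => ∑ l, a l * A l i) F = 0)
    (η β : Fin (n + 2) → ℂ) (b0 : ℂ) (hη : η ∉ Submodule.span ℂ (Set.range A))
    (hsp : ∀ (a : Fin P → ℂ) (t : ℂ),
      eval (fun i => ∑ l, a l * algebraMap ℂ ℂ (A l i) + t * η i) F =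
        t * (∑ i, β i * (∑ l, a l * algebraMap ℂ ℂ (A l i)) + b0 * t) ^ 2) : ¬ HasSec F A := by
  classical
  obtain ⟨f, hf1, hf2⟩ := Submodule.exists_le_ker_of_notMem hη
  have hf : ∀ v : Fin (n + 2) → ℂ, f v = ∑ i, f (Pi.single i 1) * v i := by
    intro v
    conv_lhs => rw [pi_eq_sum_univ' v]
    rw [map_sum]
    refine Finset.sum_congr rfl fun i _ => ?_
    rw [map_smul, smul_eq_mul, mul_comm]
  refine no_sec hF hsm A hA η (fun i => (f η)⁻¹ * f (Pi.single i 1)) β b0 ?_ ?_ ?_
  · have h1 : ∀ i, (f η)⁻¹ * f (Pi.single i 1) * η i = (f η)⁻¹ * (f (Pi.single i 1) * η i) :=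
      fun i => by ring
    rw [Finset.sum_congr rfl fun i _ => h1 i, ← Finset.mul_sum, ← hf, inv_mul_cancel₀ hf1]
  · intro l
    have h1 : ∀ i, (f η)⁻¹ * f (Pi.single i 1) * A l i = (f η)⁻¹ * (f (Pi.single i 1) * A l i) :=
      fun i => by ring
    have h2 : f (A l) = 0 := hf2 (Submodule.subset_span ⟨l, rfl⟩)
    rw [Finset.sum_congr rfl fun i _ => h1 i, ← Finset.mul_sum, ← hf, h2, mul_zero]
  · intro a t
    exact hsp a t

end

end Pool.Agent.N122
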