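import Mathlib
import Pool.Agent.N122.Par

/-! # Cubic maps: the derivative at a base point -/

set_option autoImplicit false

namespace Pool.Agent.N122

open MvPolynomial Pool.Agent.TH314.PD Module Pool.Agent.Y201.C3 IntermediateField
open Pool.Agent.R845.T2 Pool.Agent.R845.E3

noncomputable section

/-- the conics given by the lines through a base point, with the derivative -/
theorem con' (n : ℕ) (hn : 1 ≤ n) (F : MvPolynomial (Fin (n + 2)) ℂ) (hF : F.IsHomogeneous 3)
    (H : Fin (n + 2) → MvPolynomial (Fin (n + 1)) ℂ) (hH : ∀ i, (H i).IsHomogeneous 3)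
    (hFH : aeval H F = 0) (b : Fin (n + 1) → ℂ) (hb : b ≠ 0) (hHb : ∀ i, eval b (H i) = 0) :
    (∀ a : Fin (n + 1) → ℂ, eval (fun i => ∑ l, a l * eval b (pderiv l (H i))) F = 0) ∧
      ∃ (L : IntermediateField ℂ (Rn n)) (t s : Rn n), Transcendental L t ∧ s ≠ 0 ∧
        ∃ (w : Fin (n + 1) → Rn n) (β γ : Fin (n + 2) → Rn n),
          (∀ i, w i ∈ L) ∧ (∀ i, β i ∈ L) ∧ (∀ i, γ i ∈ L) ∧
          ∀ i, s * dh H i =
            t ^ 2 * (∑ l, w l * algebraMap ℂ (Rn n) (eval b (pderiv l (H i)))) + t * β i + γ i := by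
  classical
  choose T hT hTH using fun i => exists_tri (H i) (hH i)
  obtain rfl : H = fun i => Bg (T i) X X X := funext hTH
  obtain ⟨j0, hj0⟩ := Function.ne_iff.1 hb
  rw [Pi.zero_apply] at hj0
  have hnt : Nontrivial (Fin (n + 1)) := Fin.nontrivial_iff_two_le.2 (by omega)
  obtain ⟨j1, hj1⟩ := exists_ne j0
  have hbbb : ∀ i, Bg (T i) b b b = 0 := by
    intro i
    have h1 := hHb i
    rw [← coe_aeval_eq_eval, RingHom.coe_coe, aeval_frmG] at h1
    exact h1
  refine ⟨?_, ?_⟩
  · intro a
    rw [← con_one F hF T hT hFH b hbbb a]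
    congr 2
    funext i
    exact con_A (hT i) b a
  · set z : Fin (n + 1) → Rn n := fun l => algebraMap (MvPolynomial (Fin n) ℂ) (Rn n)
      ((Fin.cons 1 X : Fin (n + 1) → MvPolynomial (Fin n) ℂ) l) with hz
    set b' : Fin (n + 1) → Rn n := fun l => algebraMap ℂ (Rn n) (b l) with hb'
    have hb'0 : b' j0 ≠ 0 := by
      rw [hb']
      simp only
      intro h
      exact hj0 ((algebraMap ℂ (Rn n)).injective (h.trans (map_zero _).symm))
    set om : Rn n := z j1 - z j0 / b' j0 * b' j1 with hom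
    have hom0 : om ≠ 0 := by
      intro h
      apply con_lin n j0 j1 hj1 (b j1 / b j0)
      apply IsFractionRing.injective (MvPolynomial (Fin n) ℂ) (Rn n)
      rw [map_zero, map_sub, map_mul, ← h, hom]
      have h1 : algebraMap (MvPolynomial (Fin n) ℂ) (Rn n) (C (b j1 / b j0)) =
          b' j1 / b' j0 := by
        rw [hb']
        simp only
        rw [← map_div₀, IsScalarTower.algebraMap_apply ℂ (MvPolynomial (Fin n) ℂ) (Rn n)]
        rfl
      rw [h1]
      simp only [hz]
      ring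
    set t : Rn n := z j0 / b' j0 / om with ht
    set w : Fin (n + 1) → Rn n := fun l => (z l - z j0 / b' j0 * b' l) / om with hw
    have hzw : ∀ l, z l = om * (t * b' l + w l) := by
      intro l
      rw [ht, hw]
      field_simp
      ring
    have hw0 : w j0 = 0 := by
      rw [hw]
      simp only
      rw [div_mul_cancel₀ _ hb'0, sub_self, zero_div]
    have hw1 : w j1 = 1 := by
      rw [hw]
      simp only
      exact div_self hom0
    set S : Finset (Rn n) := ((Finset.univ.erase j0).erase j1).image w with hS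
    have hSc : S.card < n := by
      have h1 : S.card ≤ ((Finset.univ.erase j0).erase j1).card := Finset.card_image_le
      rw [Finset.card_erase_of_mem (Finset.mem_erase.2 ⟨hj1, Finset.mem_univ _⟩),
        Finset.card_erase_of_mem (Finset.mem_univ _), Finset.card_univ, Fintype.card_fin] at h1
      omega
    set L := IntermediateField.adjoin ℂ (S : Set (Rn n)) with hL
    have hwL : ∀ l, w l ∈ L := by
      intro l
      by_cases h0 : l = j0
      · rw [h0, hw0]; exact zero_mem _
      by_cases h1 : l = j1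
      · rw [h1, hw1]; exact one_mem _
      · apply IntermediateField.subset_adjoin
        rw [hS, Finset.coe_image]
        exact ⟨l, by simp [h0, h1], rfl⟩
    have hbL : ∀ l, b' l ∈ L := fun l => L.algebraMap_mem _
    have htr : Transcendental L t := by
      apply con_transc n S hSc t om
      intro l
      exact ⟨b' l, w l, hbL l, hwL l, hzw l⟩
    refine ⟨L, t, (om ^ 3)⁻¹, htr, inv_ne_zero (pow_ne_zero _ hom0), w,
      fun i => 3 * Bg (T i) b' w w, fun i => Bg (T i) w w w, hwL, ?_, ?_, ?_⟩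
    · intro i
      exact mul_mem (by have h3 := L.algebraMap_mem (3 : ℂ); rwa [map_ofNat] at h3) (Pool.Agent.R845.E3.Bg_mem L _ _ _ _ hbL hwL hwL)
    · intro i
      exact Pool.Agent.R845.E3.Bg_mem L _ _ _ _ hwL hwL hwL
    · intro i
      have h1 : dh (fun i => (Bg (T i) X X X : MvPolynomial (Fin (n + 1)) ℂ)) i =
          aeval z (Bg (T i) X X X : MvPolynomial (Fin (n + 1)) ℂ) := by
        unfold dh
        exact (aeval_algebraMap_apply (Rn n) (Fin.cons 1 X : Fin (n + 1) → MvPolynomial (Fin n) ℂ)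
          (Bg (T i) X X X : MvPolynomial (Fin (n + 1)) ℂ)).symm
      have h2 : z = fun l => om * (t * b' l + w l) := funext hzw
      have h3 : Bg (T i) b' b' b' = 0 := by
        have h4 := map_Bg (Algebra.ofId ℂ (Rn n)) (T i) b b b
        rw [hbbb i, map_zero] at h4
        exact h4.symm
      rw [h1, h2, aeval_smul_form (hH i), con_taylor (hT i), h3, con_A (hT i)]
      rw [inv_mul_cancel_left₀ (pow_ne_zero _ hom0)]
      ring


/-- a section for a subspace gives a section for a larger one -/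
theorem HasSec.mono {n P Q : ℕ} {F : MvPolynomial (Fin (n + 2)) ℂ} {A : Fin P → Fin (n + 2) → ℂ}
    {B : Fin Q → Fin (n + 2) → ℂ} (h : HasSec F A)
    (hAB : ∀ l, A l ∈ Submodule.span ℂ (Set.range B)) : HasSec F B := by
  classical
  obtain ⟨w, hw⟩ := h
  choose c hc using fun l => (Submodule.mem_span_range_iff_exists_fun ℂ).1 (hAB l)
  refine ⟨fun q => ∑ l, w l * algebraMap ℂ _ (c l q), ?_⟩
  rw [← hw]
  congr 2
  funext i
  congr 1
  simp only [Finset.sum_mul]
  rw [Finset.sum_comm]
  refine Finset.sum_congr rfl fun l _ => ?_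
  have h1 : A l i = ∑ q, c l q * B q i := by
    rw [← hc l, Finset.sum_apply]
    rfl
  rw [h1, map_sum, Finset.mul_sum]
  refine Finset.sum_congr rfl fun q _ => ?_
  rw [map_mul]
  ring

/-- a section bounds the dimension of the span -/
theorem sec_rank {n P : ℕ} {F : MvPolynomial (Fin (n + 2)) ℂ} (hF : F.IsHomogeneous 3)
    (hsm : Sm F) (A : Fin P → Fin (n + 2) → ℂ)
    (hA : ∀ a : Fin P → ℂ, eval (fun i => ∑ l, a l * A l i) F = 0) (h : HasSec F A) (r : ℕ)
    (hr : finrank ℂ (Submodule.span ℂ (Set.range A)) = r) : n + 1 < r + r * (r + 1) / 2 := by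
  classical
  by_contra hcon
  push Not at hcon
  have hfd : FiniteDimensional ℂ (Submodule.span ℂ (Set.range A)) :=
    FiniteDimensional.span_of_finite ℂ (Set.finite_range A)
  let b : Basis (Fin r) ℂ (Submodule.span ℂ (Set.range A)) := finBasisOfFinrankEq ℂ _ hr
  let B : Fin r → Fin (n + 2) → ℂ := fun q => (b q : Fin (n + 2) → ℂ)
  have hBs : ∀ v ∈ Submodule.span ℂ (Set.range A), v ∈ Submodule.span ℂ (Set.range B) := by
    intro v hv
    have h1 := b.sum_repr ⟨v, hv⟩
    have h2 := congrArg (Submodule.subtype _) h1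
    rw [map_sum] at h2
    have h3 : (Submodule.subtype (Submodule.span ℂ (Set.range A))) ⟨v, hv⟩ = v := rfl
    rw [← h3, ← h2]
    refine Submodule.sum_mem _ fun q _ => ?_
    rw [map_smul]
    exact Submodule.smul_mem _ _ (Submodule.subset_span ⟨q, rfl⟩)
  refine no_sec_small hF hsm B ?_ hcon (h.mono fun l => hBs _ (Submodule.subset_span ⟨l, rfl⟩))
  intro a
  have h1 : (∑ q, a q • B q) ∈ Submodule.span ℂ (Set.range A) :=
    Submodule.sum_mem _ fun q _ => Submodule.smul_mem _ _ (b q).2
  obtain ⟨c, hc⟩ := (Submodule.mem_span_range_iff_exists_fun ℂ).1 h1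
  rw [← hA c]
  congr 2
  funext i
  have h2 := congrFun hc i
  rw [Finset.sum_apply, Finset.sum_apply] at h2
  simp only [Pi.smul_apply, smul_eq_mul] at h2
  exact h2.symm

/-- **The derivative of a cubic map of odd degree at a base point.** -/
theorem base_sec {n : ℕ} (hn : 1 ≤ n) {F : MvPolynomial (Fin (n + 2)) ℂ} (hF : F.IsHomogeneous 3)
    (hsm : Sm F) (H : Fin (n + 2) → MvPolynomial (Fin (n + 1)) ℂ)
    (hH : ∀ i, (H i).IsHomogeneous 3) (hG : Gp F (dh H))
    (hodd : Odd (finrank (ratioField (dh H)) (Rn n))) (b : Fin (n + 1) → ℂ) (hb : b ≠ 0)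
    (hHb : ∀ i, eval b (H i) = 0) :
    (∀ a : Fin (n + 1) → ℂ, eval (fun i => ∑ l, a l * eval b (pderiv l (H i))) F = 0) ∧
    HasSec F (fun l i => eval b (pderiv l (H i))) := by
  classical
  have hF0 : F ≠ 0 := ne_zero_of_smooth (m := n + 1) hsm
  have hFH : aeval H F = 0 := by
    have h1 : (aeval H F).IsHomogeneous (3 * 3) := hF.aeval H hH
    refine hom_zero h1 ?_
    rw [comp_aeval_apply]
    have h2 := comp_aeval_apply (f := fun i => aeval (Fin.cons 1 X : Fin (n + 1) →
      MvPolynomial (Fin n) ℂ) (H i)) (IsScalarTower.toAlgHom ℂ (MvPolynomial (Fin n) ℂ) (Rn n)) F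
    have hinj : Function.Injective (IsScalarTower.toAlgHom ℂ (MvPolynomial (Fin n) ℂ) (Rn n)) :=
      IsFractionRing.injective (MvPolynomial (Fin n) ℂ) _
    apply hinj
    rw [map_zero, h2]
    exact hG.1
  obtain ⟨hA, L, t, s, ht, hs, w, β, γ, hw, hβ, hγ, hx⟩ := con' n hn F hF H hH hFH b hb hHb
  refine ⟨hA, ?_⟩
  have hxs : (fun i => t ^ 2 * (∑ l, w l * algebraMap ℂ (Rn n) (eval b (pderiv l (H i)))) +
      t * β i + γ i) = fun i => s * dh H i := funext fun i => (hx i).symm
  obtain ⟨h1, h2⟩ := scale hF (dh H) s hs hG hodd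
  exact sec_of_conics hF hsm (fun l i => eval b (pderiv l (H i))) hA L t ht w β γ hw hβ hγ
    (by rw [hxs]; exact h1) (by rw [hxs]; exact h2)

/-- the degree of the dehomogenization -/
theorem deh_deg {n e : ℕ} {P : MvPolynomial (Fin (n + 1)) ℂ} (hP : P.IsHomogeneous e) :
    (aeval (Fin.cons 1 X : Fin (n + 1) → MvPolynomial (Fin n) ℂ) P).totalDegree ≤ e := by
  classical
  rw [aeval_def, eval₂_eq]
  refine totalDegree_finsetSum_le fun d hd => ?_
  have hde : d.degree = e := by
    by_contra h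
    rw [MvPolynomial.mem_support_iff] at hd
    exact hd (hP.coeff_eq_zero h)
  refine (totalDegree_mul _ _).trans ?_
  rw [algebraMap_eq, totalDegree_C, zero_add]
  refine (totalDegree_finsetProd _ _).trans ?_
  rw [← hde, Finsupp.degree_eq_sum]
  calc ∑ i ∈ d.support, ((Fin.cons 1 X : Fin (n + 1) → MvPolynomial (Fin n) ℂ) i ^ d i).totalDegree
      ≤ ∑ i ∈ d.support, d i := by
        refine Finset.sum_le_sum fun i _ => ?_
        refine (totalDegree_pow _ _).trans ?_
        refine Fin.cases ?_ (fun j => ?_) i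
        · rw [Fin.cons_zero, totalDegree_one, mul_zero]
          exact Nat.zero_le _
        · rw [Fin.cons_succ, totalDegree_X, mul_one]
    _ ≤ ∑ i, d i := Finset.sum_le_sum_of_subset (Finset.subset_univ _)

/-- **A cubic map of finite degree has a base point.** -/
theorem base_exists {n : ℕ} (hn : 2 ≤ n) {F : MvPolynomial (Fin (n + 2)) ℂ}
    (hF : F.IsHomogeneous 3) (hsm : Sm F) (H : Fin (n + 2) → MvPolynomial (Fin (n + 1)) ℂ)
    (hH : ∀ i, (H i).IsHomogeneous 3) (hG : Gp F (dh H)) :
    ∃ b : Fin (n + 1) → ℂ, b ≠ 0 ∧ ∀ i, eval b (H i) = 0 := by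
  classical
  have hF0 : F ≠ 0 := ne_zero_of_smooth (m := n + 1) hsm
  set G : Fin (n + 2) → MvPolynomial (Fin n) ℂ := fun i =>
    aeval (Fin.cons 1 X : Fin (n + 1) → MvPolynomial (Fin n) ℂ) (H i) with hGd
  have hdh : dh H = fun i => algebraMap (MvPolynomial (Fin n) ℂ) (Rn n) (G i) := rfl
  let al : MvPolynomial (Fin n) ℂ →ₐ[ℂ] Rn n := IsScalarTower.toAlgHom ℂ _ _
  have hal : Function.Injective al := IsFractionRing.injective (MvPolynomial (Fin n) ℂ) _
  have halG : ∀ P : MvPolynomial (Fin (n + 2)) ℂ, aeval (dh H) P = al (aeval G P) := by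
    intro P
    rw [comp_aeval_apply]
    rfl
  have hFG : aeval G F = 0 := hal (by rw [← halG, hG.1, map_zero])
  have hdom : ∀ e (P : MvPolynomial (Fin (n + 2)) ℂ), P.IsHomogeneous e → aeval G P = 0 →
      F ∣ P := by
    intro e P hP h0
    exact hG.2 e P hP (by rw [halG, h0, map_zero])
  obtain ⟨hfin, hb⟩ := bound (k := 3) (by norm_num) F hF hsm G (fun i => deh_deg (hH i)) hFG hdom
  have hb3 : 3 * finrank (ratioField (dh H)) (Rn n) ≤ n + 1 := by
    have h1 : finrank (ratioField (dh H)) (Rn n) * (3 * 2 ^ n) ≤ (n + 1) * 2 ^ n := hb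
    rw [← mul_assoc] at h1
    have h2 := Nat.le_of_mul_le_mul_right h1 (by positivity)
    omega
  have hHF : aeval H F = 0 := by
    have h1 : (aeval H F).IsHomogeneous (3 * 3) := hF.aeval H hH
    refine hom_zero h1 ?_
    rw [comp_aeval_apply]
    exact hFG
  by_contra hcon
  push Not at hcon
  have h1 := bas n F hF hF0 H hH (fun b hb => by
    by_contra hb0
    obtain ⟨i, hi⟩ := hcon b hb0
    exact hi (hb i)) hHF hfin
  have h2 := pow_gt n (by omega)
  omega

end

end Pool.Agent.N122
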