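import Mathlib

/-!
# Degrees zero and one of the cohomology of arithmetic groups with the
congruence subgroup property

`G` is `𝐆(𝔸_f)`, `Γ` is `𝐆(ℚ)₊` (the stabiliser of a component of
`𝐆(ℝ)/A_∞°K_∞°`, which is contractible), so that
`H^i(Y(K), W) = H^i(Γ, C(K, W))`, `C(K, W) = {f : G → W | κ f(gκ) = f(g) for κ ∈ K}`,
with `Γ` acting by left translations.
-/

namespace N122.CG

open scoped BigOperators commutatorElement

/-! ## An abstract lemma on commuting operators -/

section lemmaL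

variable {G R M : Type} [Group G] [CommRing R] [AddCommGroup M] [Module R M]

/-- If `x ∉ B` and the subgroup `N`, which contains all commutators, fixes `x` modulo the stable
submodule `B`, then there is a character of `G/N` compatible with all the relations
`∑ j, a_j x = l x` modulo `B`. -/
theorem exists_char (act : G →* Module.End R M) (B : Submodule R M)
    (hB : ∀ g, ∀ m ∈ B, act g m ∈ B) (x : M) (hx : x ∉ B) (N : Subgroup G)
    (hN : commutator G ≤ N) (hNx : ∀ n ∈ N, act n x - x ∈ B) :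
    ∃ (k : Type) (_ : Field k) (i : R →+* k) (χ : G →* kˣ), (∀ n ∈ N, χ n = 1) ∧
      ∀ (J : Type) (_ : Fintype J) (a : J → G) (l : R), ∑ j, act (a j) x - l • x ∈ B →
        ∑ j, (χ (a j) : k) = i l := by
  classical
  have hNn : N.Normal := by
    constructor
    intro n hn g
    have h1 : g * n * g⁻¹ = ⁅g, n⁆ * n := by
      simp [commutatorElement_def]
    rw [h1]
    exact N.mul_mem (hN (Subgroup.commutator_mem_commutator (Subgroup.mem_top g)
      (Subgroup.mem_top n))) hn
  let A := G ⧸ N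
  have hAc : ∀ a b : A, a * b = b * a := by
    intro a b
    refine QuotientGroup.induction_on a (fun g => ?_)
    refine QuotientGroup.induction_on b (fun h => ?_)
    have : ((g * h : G) : A) = ((h * g : G) : A) := by
      rw [QuotientGroup.eq]
      apply hN
      have h2 : (g * h)⁻¹ * (h * g) = ⁅h⁻¹, g⁻¹⁆ := by
        simp [commutatorElement_def, mul_assoc]
      rw [h2]
      exact Subgroup.commutator_mem_commutator (Subgroup.mem_top _) (Subgroup.mem_top _)
    exact this
  let _ : CommGroup A := { (inferInstance : Group (G ⧸ N)) with mul_comm := hAc }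
  -- the action modulo B
  let Q := M ⧸ B
  let act' : G → Q →ₗ[R] Q := fun g => B.mapQ B (act g) (fun m hm => hB g m hm)
  have act'_mk : ∀ g m, act' g (Submodule.Quotient.mk m) = Submodule.Quotient.mk (act g m) := by
    intro g m; rfl
  -- the orbit map
  let orb : A → Q := Quotient.lift (s := QuotientGroup.leftRel N)
    (fun g : G => (Submodule.Quotient.mk (act g x) : Q)) (by
      intro g h hgh
      have h1 : g⁻¹ * h ∈ N := by
        have := QuotientGroup.leftRel_apply.mp hgh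
        exact this
      have h2 : act h x - act g x = act g (act (g⁻¹ * h) x - x) := by
        rw [map_sub, ← Module.End.mul_apply, ← map_mul]
        simp
      symm
      change (Submodule.Quotient.mk (act h x) : Q) = Submodule.Quotient.mk (act g x)
      rw [Submodule.Quotient.eq, h2]
      exact hB g _ (hNx _ h1))
  have orb_mk : ∀ g : G, orb (g : A) = Submodule.Quotient.mk (act g x) := fun g => rfl
  let ev : MonoidAlgebra R A →ₗ[R] Q :=
    (Finsupp.lsum R (fun a : A => (LinearMap.toSpanSingleton R Q (orb a)))) ∘ₗ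
      (MonoidAlgebra.coeffLinearEquiv R).toLinearMap
  have ev_single : ∀ (a : A) (r : R), ev (MonoidAlgebra.single a r) = r • orb a := by
    intro a r
    change (Finsupp.lsum R (fun a : A => (LinearMap.toSpanSingleton R Q (orb a))))
      (Finsupp.single a r) = _
    rw [Finsupp.lsum_single]
    rfl
  have ev_mul : ∀ (g : G) (r : R) (s : MonoidAlgebra R A),
      ev (MonoidAlgebra.single (g : A) r * s) = r • act' g (ev s) := by
    intro g r s
    induction s using MonoidAlgebra.induction_on with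
    | of a =>
      refine QuotientGroup.induction_on a (fun h => ?_)
      rw [MonoidAlgebra.of_apply, MonoidAlgebra.single_mul_single, ev_single, ev_single, mul_one,
        one_smul, ← QuotientGroup.mk_mul, orb_mk, orb_mk, act'_mk, map_mul, Module.End.mul_apply]
    | add s t hs ht => rw [mul_add, map_add, hs, ht, map_add, map_add, smul_add]
    | smul c s hs => rw [mul_smul_comm, map_smul, hs, map_smul, map_smul, smul_comm]
  have ker_mul : ∀ (t s : MonoidAlgebra R A), ev s = 0 → ev (t * s) = 0 := by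
    intro t s hs
    induction t using MonoidAlgebra.induction_on with
    | of a =>
      refine QuotientGroup.induction_on a (fun h => ?_)
      rw [MonoidAlgebra.of_apply, ev_mul, hs, map_zero, smul_zero]
    | add t u ht hu => rw [add_mul, map_add, ht, hu, add_zero]
    | smul c t ht => rw [smul_mul_assoc, map_smul, ht, smul_zero]
  let I : Ideal (MonoidAlgebra R A) :=
    { carrier := {r | ev r = 0}
      add_mem' := by
        intro a b ha hb
        simp only [Set.mem_ofPred_eq] at ha hb ⊢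
        rw [map_add, ha, hb, add_zero]
      zero_mem' := map_zero ev
      smul_mem' := by
        intro c s hs
        simp only [Set.mem_ofPred_eq] at hs ⊢
        rw [smul_eq_mul]
        exact ker_mul c s hs }
  have hI : I ≠ ⊤ := by
    intro h
    have h1 : (1 : MonoidAlgebra R A) ∈ I := by rw [h]; trivial
    have h2 : ev (1 : MonoidAlgebra R A) = 0 := h1
    rw [MonoidAlgebra.one_def, ev_single, one_smul] at h2
    have h3 : orb (1 : A) = Submodule.Quotient.mk (act 1 x) := orb_mk 1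
    rw [h3, Submodule.Quotient.mk_eq_zero, map_one, Module.End.one_apply] at h2
    exact hx h2
  obtain ⟨n, hn, hIn⟩ := Ideal.exists_le_maximal I hI
  let _ : Field (MonoidAlgebra R A ⧸ n) := Ideal.Quotient.field n
  let pr : MonoidAlgebra R A →+* (MonoidAlgebra R A ⧸ n) := Ideal.Quotient.mk n
  refine ⟨MonoidAlgebra R A ⧸ n, inferInstance, pr.comp (algebraMap R (MonoidAlgebra R A)),
    MonoidHom.toHomUnits ((pr : MonoidAlgebra R A →* _).comp
      ((MonoidAlgebra.of R A).comp (QuotientGroup.mk' N))), ?_, ?_⟩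
  · intro g hg
    ext
    have h1 : QuotientGroup.mk' N g = 1 := (QuotientGroup.eq_one_iff g).mpr hg
    simp only [MonoidHom.coe_toHomUnits, MonoidHom.coe_comp, Function.comp_apply,
      Units.val_one]
    rw [h1, map_one]
    exact map_one pr
  · intro J _ a l hd
    have h1 : ∑ j, MonoidAlgebra.of R A (a j : A) -
        algebraMap R (MonoidAlgebra R A) l ∈ I := by
      change ev _ = 0
      have e2 : algebraMap R (MonoidAlgebra R A) l = MonoidAlgebra.single (1 : A) l := by
        simp [MonoidAlgebra.coe_algebraMap]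
      rw [map_sub, e2, map_sum, ev_single]
      have h3 : orb (1 : A) = Submodule.Quotient.mk (act 1 x) := orb_mk 1
      rw [h3, map_one, Module.End.one_apply, ← Submodule.Quotient.mk_smul]
      have h4 : ∑ j, ev (MonoidAlgebra.of R A (a j : A)) =
          Submodule.Quotient.mk (∑ j, act (a j) x) := by
        rw [← Submodule.mkQ_apply, map_sum]
        refine Finset.sum_congr rfl fun j _ => ?_
        rw [MonoidAlgebra.of_apply, ev_single, one_smul, orb_mk, Submodule.mkQ_apply]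
      rw [h4, ← Submodule.Quotient.mk_sub, Submodule.Quotient.mk_eq_zero]
      exact hd
    have h2 := hIn h1
    have h3 : pr (∑ j, MonoidAlgebra.of R A (a j : A) -
        algebraMap R (MonoidAlgebra R A) l) = 0 := Ideal.Quotient.eq_zero_iff_mem.mpr h2
    rw [map_sub, map_sum, sub_eq_zero] at h3
    exact h3

end lemmaL

/-! ## The setting -/

/-- The adelic data: `G = 𝐆(𝔸_f)`; `Γ = 𝐆(ℚ)₊`; `G1 = 𝐆^{der}(𝔸_f)`; `opens` the compact open
subgroups. `P` is the index set of the Hecke operators `T_p` at places `v ∉ Σ`; `Gv p = 𝐆(ℚ_v)`,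
`Kv p` is its hyperspecial maximal compact subgroup, and `Kv a_p Kv = ⊔ h_{p,j} Kv`. -/
structure Adelic (G : Type) [Group G] where
  Γ : Subgroup G
  G1 : Subgroup G
  opens : Set (Subgroup G)
  P : Type
  Gv : P → Subgroup G
  Kv : P → Subgroup G
  ι : P → Type
  fin : ∀ p, Fintype (ι p)
  h : ∀ p, ι p → G
  a : P → G

attribute [instance] Adelic.fin

variable {G : Type} [Group G] (A : Adelic G)
variable {R : Type} [CommRing R] {W : Type} [AddCommGroup W] [Module R W]

/-- Elementary properties, and strong approximation `sa` for `𝐆^{der}`. -/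
structure Adelic.Known : Prop where
  inter : ∀ U ∈ A.opens, ∀ V ∈ A.opens, U ⊓ V ∈ A.opens
  conj : ∀ U ∈ A.opens, ∀ x : G, ∃ V ∈ A.opens, ∀ v ∈ V, x⁻¹ * v * x ∈ U
  comm : commutator G ≤ A.G1
  sa : ∀ U ∈ A.opens, ∀ x ∈ A.G1, ∃ γ ∈ A.Γ, γ⁻¹ * x ∈ U
  loc : ∀ p, A.Kv p ≤ A.Gv p
  almost : ∀ U ∈ A.opens, {p | ¬ A.Kv p ≤ U}.Finite
  h_mem : ∀ p j, A.h p j ∈ A.Gv p
  h_a : ∀ p j, ∃ κ ∈ A.Kv p, ∃ κ' ∈ A.Kv p, A.h p j = κ * A.a p * κ'
  perm : ∀ p, ∀ κ ∈ A.Kv p, ∃ σ : Equiv.Perm (A.ι p), ∀ j, (A.h p (σ j))⁻¹ * (κ * A.h p j) ∈ A.Kv p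

/-- `K` is a level: it contains arbitrarily small open subgroups normalised by `K`, and
`K = Kv × K^v` for the places of the Hecke operators, `K^v` commuting with `Gv`. -/
structure Adelic.IsLevel (K : Subgroup G) : Prop where
  small : ∀ U ∈ A.opens, ∃ V ∈ A.opens, V ≤ U ∧ V ≤ K ∧ ∀ κ ∈ K, ∀ u ∈ V, κ⁻¹ * u * κ ∈ V
  prod : ∀ p, ∀ κ ∈ K, ∃ κ₁ ∈ A.Kv p, ∃ κ₂, κ = κ₁ * κ₂ ∧ ∀ x ∈ A.Gv p, x * κ₂ = κ₂ * x

/-- `f ∈ C(K, W)`. -/
def IsCoef {K : Subgroup G} (ρ : Representation R K W) (f : G → W) : Prop :=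
  ∀ (κ : K) (g : G), ρ κ (f (g * κ)) = f g

/-- `f` is invariant under right translation by some open subgroup. -/
def IsSmooth (f : G → W) : Prop := ∃ U ∈ A.opens, ∀ g, ∀ u ∈ U, f (g * u) = f g

/-- the cocycle condition for the action by left translations, `(γ f)(g) = f (γ⁻¹ g)` -/
def IsCocycle (z : A.Γ → G → W) : Prop :=
  ∀ (γ γ' : A.Γ) (g : G), z (γ * γ') g = z γ g + z γ' ((γ : G)⁻¹ * g)

/-- `z` is the coboundary of a function with the property `C` -/
def IsCobdry (C : (G → W) → Prop) (z : A.Γ → G → W) : Prop :=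
  ∃ b, C b ∧ ∀ (γ : A.Γ) (g : G), z γ g = b ((γ : G)⁻¹ * g) - b g

/-- the Hecke operator `T_v`, `(T_v f)(g) = ∑_j f(g h_{v,j})` -/
def hecke (v : A.P) (f : G → W) (g : G) : W := ∑ j, f (g * A.h v j)

/-- `(T_v)` has an eigenclass in `H^0(Y(K), W)` with eigenvalues `l`. -/
def Eigen0 {K : Subgroup G} (ρ : Representation R K W) (l : A.P → R) : Prop :=
  ∃ f : G → W, IsCoef ρ f ∧ (∀ (γ : A.Γ) (g : G), f ((γ : G)⁻¹ * g) = f g) ∧ f ≠ 0 ∧
    ∀ v g, hecke A v f g = l v • f g

/-- `(T_v)` has an eigenclass in `H^1(Y(K), W)` with eigenvalues `l`. -/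
def Eigen1 {K : Subgroup G} (ρ : Representation R K W) (l : A.P → R) : Prop :=
  ∃ z : A.Γ → G → W, (∀ γ, IsCoef ρ (z γ)) ∧ IsCocycle A z ∧ ¬ IsCobdry A (IsCoef ρ) z ∧
    ∀ v, IsCobdry A (IsCoef ρ) (fun γ g => hecke A v (z γ) g - l v • z γ g)

/-- The cohomological form of the congruence subgroup property (with a congruence kernel that is
central or has no nonzero homomorphisms to `W`): `Γ` and `G1` act trivially on
`colim_U H^1(Y(U), W)`. -/
def CSP (W : Type) [AddCommGroup W] : Prop :=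
  ∀ z : A.Γ → G → W, IsCocycle A z → (∃ U ∈ A.opens, ∀ γ g, ∀ u ∈ U, z γ (g * u) = z γ g) →
    ∀ x, (x ∈ A.Γ ∨ x ∈ A.G1) → IsCobdry A (IsSmooth A) (fun γ g => z γ (g * x) - z γ g)

/-- The eigenvalues `l v` are, for all but finitely many `v`, those of a one-dimensional
automorphic representation: `deg T_v · χ(a_v)` for a character `χ` of `G` trivial on `Γ`, on `G1`
and on an open subgroup. -/
def OneDim (l : A.P → R) : Prop :=
  ∃ (k : Type) (_ : Field k) (i : R →+* k) (χ : G →* kˣ), (∀ x ∈ A.Γ, χ x = 1) ∧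
    (∀ x ∈ A.G1, χ x = 1) ∧ (∃ U ∈ A.opens, ∀ x ∈ U, χ x = 1) ∧
    {v | i (l v) ≠ (Fintype.card (A.ι v) : k) * (χ (A.a v) : k)}.Finite

/-! ## Proofs -/

/-- The Hecke data `h_v` are compatible with `U`, a normal open subgroup of `K` with the same
component at `v`. -/
def Adelic.Good (K U : Subgroup G) (v : A.P) : Prop :=
  (∀ j, ∃ κ ∈ U, ∃ κ' ∈ U, A.h v j = κ * A.a v * κ') ∧
    ∀ κ ∈ K, ∃ σ : Equiv.Perm (A.ι v), ∀ j, (A.h v (σ j) * κ)⁻¹ * (κ * A.h v j) ∈ U

theorem Adelic.Known.good {A : Adelic G} (hk : A.Known) {K : Subgroup G} (hK : A.IsLevel K)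
    (U : Subgroup G) (hU : U ∈ A.opens) : {v | ¬ A.Good K U v}.Finite := by
  refine (hk.almost U hU).subset ?_
  intro v hv hle
  apply hv
  refine ⟨fun j => ?_, fun κ hκ => ?_⟩
  · obtain ⟨κ, hκ, κ', hκ', h⟩ := hk.h_a v j
    exact ⟨κ, hle hκ, κ', hle hκ', h⟩
  obtain ⟨κ₁, hκ₁, κ₂, rfl, hc⟩ := hK.prod v κ hκ
  obtain ⟨σ, hσ⟩ := hk.perm v κ₁ hκ₁
  refine ⟨σ, fun j => ?_⟩
  apply hle
  have h1 : κ₁ * κ₂ * A.h v j = κ₁ * A.h v j * κ₂ := by
    rw [mul_assoc, ← hc _ (hk.h_mem v j), mul_assoc]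
  have h2 := (A.Kv v).mul_mem ((A.Kv v).inv_mem hκ₁) (hσ j)
  have h3 := hc _ (hk.loc v h2)
  have h4 : (A.h v (σ j) * (κ₁ * κ₂))⁻¹ * (κ₁ * κ₂ * A.h v j) =
      κ₂⁻¹ * ((κ₁⁻¹ * ((A.h v (σ j))⁻¹ * (κ₁ * A.h v j))) * κ₂) := by
    rw [h1]
    group
  rw [h4, h3, inv_mul_cancel_left]
  exact h2

/-- right translations -/
def act (G : Type) [Group G] (R : Type) [CommRing R] (X W : Type) [AddCommGroup W] [Module R W] :
    G →* Module.End R (X → G → W) where
  toFun g :=
    { toFun := fun f x h => f x (h * g)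
      map_add' := fun _ _ => rfl
      map_smul' := fun _ _ => rfl }
  map_one' := by
    ext f x h
    simp
  map_mul' g g' := by
    ext f x h
    simp [mul_assoc]

theorem act_apply {X : Type} (g : G) (f : X → G → W) (x : X) (h : G) :
    act G R X W g f x h = f x (h * g) := rfl

/-- `V_U`: left `Γ`-invariant and right `U`-invariant functions -/
def IsV (U : Subgroup G) (f : G → W) : Prop :=
  (∀ (γ : A.Γ) (g : G), f ((γ : G)⁻¹ * g) = f g) ∧ ∀ g, ∀ u ∈ U, f (g * u) = f g

variable {A}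

theorem IsV.left {U : Subgroup G} {f : G → W} (hf : IsV A U f) (γ : G) (hγ : γ ∈ A.Γ) (g : G) :
    f (γ * g) = f g := by
  have := hf.1 ⟨γ⁻¹, A.Γ.inv_mem hγ⟩ g
  simpa using this

/-- strong approximation: functions in `V_U` are invariant under `G1` -/
theorem IsV.g1 (hk : A.Known) {U : Subgroup G} (hU : U ∈ A.opens) {f : G → W} (hf : IsV A U f)
    (x : G) (hx : x ∈ A.G1) (g : G) : f (g * x) = f g := by
  obtain ⟨V, hV, hVU⟩ := hk.conj U hU g
  have hN : A.G1.Normal := by
    constructor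
    intro n hn g
    have h1 : g * n * g⁻¹ = ⁅g, n⁆ * n := by
      simp [commutatorElement_def]
    rw [h1]
    exact A.G1.mul_mem (hk.comm (Subgroup.commutator_mem_commutator (Subgroup.mem_top g)
      (Subgroup.mem_top n))) hn
  obtain ⟨γ, hγ, hγx⟩ := hk.sa V hV (g * x * g⁻¹) (hN.conj_mem x hx g)
  have h1 := hVU _ hγx
  have h2 : g * x = γ * (g * (g⁻¹ * (γ⁻¹ * (g * x * g⁻¹)) * g)) := by group
  rw [h2, hf.left γ hγ, hf.2 g _ h1]

/-- functions in `V_U` only depend on the class modulo commutators -/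
theorem IsV.comm (hk : A.Known) {U : Subgroup G} (hU : U ∈ A.opens) {f : G → W} (hf : IsV A U f)
    (x y z : G) : f (x * y * z) = f (x * z * y) := by
  have h1 : x * y * z = x * z * y * ⁅y⁻¹, z⁻¹⁆ := by
    simp [commutatorElement_def, mul_assoc]
  rw [h1]
  exact hf.g1 hk hU _ (hk.comm (Subgroup.commutator_mem_commutator (Subgroup.mem_top _)
      (Subgroup.mem_top _))) _

theorem IsV.trans (hk : A.Known) {U : Subgroup G} (hU : U ∈ A.opens) {f : G → W}
    (hf : IsV A U f) (x : G) : IsV A U (fun g => f (g * x)) := by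
  refine ⟨fun γ g => ?_, fun g u hu => ?_⟩
  · change f ((γ : G)⁻¹ * g * x) = f (g * x)
    rw [mul_assoc, hf.1]
  · change f (g * u * x) = f (g * x)
    rw [hf.comm hk hU, hf.2 _ u hu]

/-- the subgroup acting trivially -/
def NN (A : Adelic G) (U : Subgroup G) : Subgroup G := A.Γ ⊔ A.G1 ⊔ U

theorem NN_comm (hk : A.Known) (U : Subgroup G) : commutator G ≤ NN A U :=
  hk.comm.trans ((le_sup_right).trans le_sup_left)

theorem IsV.nn (hk : A.Known) {U : Subgroup G} (hU : U ∈ A.opens) {f : G → W} (hf : IsV A U f)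
    (n : G) (hn : n ∈ NN A U) (g : G) : f (g * n) = f g := by
  let S : Subgroup G :=
    { carrier := {n | ∀ g, f (g * n) = f g}
      mul_mem' := by
        intro a b ha hb g
        simp only [Set.mem_ofPred_eq] at ha hb
        rw [← mul_assoc, hb, ha]
      one_mem' := by intro g; simp
      inv_mem' := by
        intro a ha g
        have := ha (g * a⁻¹)
        rw [inv_mul_cancel_right] at this
        exact this.symm }
  have hS : NN A U ≤ S := by
    refine sup_le (sup_le ?_ ?_) ?_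
    · intro γ hγ g
      have h1 : g * γ = 1 * g * γ := by group
      rw [h1, hf.comm hk hU, one_mul, hf.left γ hγ]
    · intro x hx g
      exact hf.g1 hk hU x hx g
    · intro u hu g
      exact hf.2 g u hu
  exact hS hn g

/-- the Hecke operator on `V_U` -/
theorem IsV.hecke (hk : A.Known) {K U : Subgroup G} (hU : U ∈ A.opens) {f : G → W}
    (hf : IsV A U f) (v : A.P) (hv : A.Good K U v) (g : G) :
    hecke A v f g = Fintype.card (A.ι v) • f (g * A.a v) := by
  unfold N122.CG.hecke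
  rw [Finset.sum_congr rfl (g := fun _ => f (g * A.a v))]
  · rw [Finset.sum_const, Finset.card_univ]
  · intro j _
    obtain ⟨κ, hκ, κ', hκ', h⟩ := hv.1 j
    have h1 : g * A.h v j = g * κ * A.a v * κ' := by
      rw [h]
      group
    rw [h1, hf.2 _ _ hκ', hf.comm hk hU, hf.2 _ _ hκ]

/-- from a relation in a module with commuting operators to the character -/
theorem oneDim_of (hk : A.Known) {X : Type} (B : Submodule R (X → G → W))
    (hB : ∀ g, ∀ m ∈ B, act G R X W g m ∈ B) (x : X → G → W) (hx : x ∉ B) (K U : Subgroup G)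
    (hU : U ∈ A.opens) (hN : ∀ n, n ∈ A.Γ ∨ n ∈ A.G1 ∨ n ∈ U → act G R X W n x - x ∈ B)
    (hfin : {v | ¬ A.Good K U v}.Finite) (l : A.P → R)
    (hrel : ∀ v, A.Good K U v →
      Fintype.card (A.ι v) • act G R X W (A.a v) x - l v • x ∈ B) : OneDim A l := by
  have hN' : ∀ n ∈ NN A U, act G R X W n x - x ∈ B := by
    let S : Subgroup G :=
      { carrier := {n | act G R X W n x - x ∈ B}
        mul_mem' := by
          intro a b ha hb
          simp only [Set.mem_ofPred_eq] at ha hb ⊢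
          have h1 : act G R X W (a * b) x - x =
              act G R X W a (act G R X W b x - x) + (act G R X W a x - x) := by
            rw [map_mul, Module.End.mul_apply, map_sub]
            abel
          rw [h1]
          exact B.add_mem (hB _ _ hb) ha
        one_mem' := by
          simp only [Set.mem_ofPred_eq, map_one, Module.End.one_apply, sub_self]
          exact B.zero_mem
        inv_mem' := by
          intro a ha
          simp only [Set.mem_ofPred_eq] at ha ⊢
          have h1 : act G R X W a⁻¹ x - x = - (act G R X W a⁻¹ (act G R X W a x - x)) := by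
            rw [map_sub, ← Module.End.mul_apply, ← map_mul, inv_mul_cancel, map_one,
              Module.End.one_apply]
            abel
          rw [h1]
          exact B.neg_mem (hB _ _ ha) }
    have hS : NN A U ≤ S := by
      refine sup_le (sup_le ?_ ?_) ?_
      · intro γ hγ
        exact hN γ (Or.inl hγ)
      · intro γ hγ
        exact hN γ (Or.inr (Or.inl hγ))
      · intro γ hγ
        exact hN γ (Or.inr (Or.inr hγ))
    intro n hn
    exact hS hn
  obtain ⟨k, hkf, i, χ, hχ, hrel'⟩ := exists_char (act G R X W) B hB x hx (NN A U)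
    (NN_comm hk U) hN'
  refine ⟨k, hkf, i, χ, ?_, ?_, ⟨U, hU, ?_⟩, ?_⟩
  · intro x hx
    exact hχ x (Subgroup.mem_sup_left (Subgroup.mem_sup_left hx))
  · intro x hx
    exact hχ x (Subgroup.mem_sup_left (Subgroup.mem_sup_right hx))
  · intro x hx
    exact hχ x (Subgroup.mem_sup_right hx)
  · refine hfin.subset ?_
    intro v hv hg
    apply hv
    have h1 := hrel' (A.ι v) (A.fin v) (fun _ => A.a v) (l v) (by
      rw [Finset.sum_const, Finset.card_univ]
      exact hrel v hg)
    rw [← h1, Finset.sum_const, Finset.card_univ, nsmul_eq_mul]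

/-- smooth coefficients -/
def SmoothRep (A : Adelic G) {K : Subgroup G} (ρ : Representation R K W) : Prop :=
  ∃ U ∈ A.opens, ∀ κ : K, (κ : G) ∈ U → ρ κ = 1

theorem IsCoef.inv {K U : Subgroup G} {ρ : Representation R K W} (hUK : U ≤ K)
    (hρ : ∀ κ : K, (κ : G) ∈ U → ρ κ = 1) {f : G → W} (hf : IsCoef ρ f) (g u : G) (hu : u ∈ U) :
    f (g * u) = f g := by
  have h1 := hf ⟨u, hUK hu⟩ g
  rw [hρ ⟨u, hUK hu⟩ hu] at h1
  simpa using h1

/-- Degree zero. -/
theorem eigen0 (hk : A.Known) {K : Subgroup G} (hK : A.IsLevel K) (ρ : Representation R K W)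
    (hρ : SmoothRep A ρ) (l : A.P → R) (h : Eigen0 A ρ l) : OneDim A l := by
  obtain ⟨f, hf, hfΓ, hf0, hl⟩ := h
  obtain ⟨U0, hU0, hρ0⟩ := hρ
  obtain ⟨U, hU, hUU0, hUK, hUn⟩ := hK.small U0 hU0
  have hV : IsV A U f := ⟨hfΓ, fun g u hu => hf.inv hUK (fun κ hκ => hρ0 κ (hUU0 hκ)) g u hu⟩
  refine oneDim_of hk (X := Unit) ⊥ ?_ (fun _ => f) ?_ K U hU ?_ (hk.good hK U hU) l ?_
  · intro g m hm
    rw [Submodule.mem_bot] at hm
    rw [hm, map_zero]
    exact Submodule.zero_mem _
  · intro h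
    rw [Submodule.mem_bot] at h
    exact hf0 (congrFun h ())
  · intro n hn
    rw [Submodule.mem_bot]
    have hn' : n ∈ NN A U := by
      rcases hn with h | h | h
      · exact Subgroup.mem_sup_left (Subgroup.mem_sup_left h)
      · exact Subgroup.mem_sup_left (Subgroup.mem_sup_right h)
      · exact Subgroup.mem_sup_right h
    funext _ g
    change f (g * n) - f g = 0
    rw [hV.nn hk hU n hn' g, sub_self]
  · intro v hv
    rw [Submodule.mem_bot]
    funext _ g
    change Fintype.card (A.ι v) • f (g * A.a v) - l v • f g = 0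
    rw [← hV.hecke hk hU v hv g, hl, sub_self]

/-- the submodule of coboundaries of smooth functions -/
def cobB (A : Adelic G) (hk : A.Known) (R : Type) [CommRing R] [Module R W] (hne : A.opens.Nonempty) :
    Submodule R (A.Γ → G → W) where
  carrier := {z | IsCobdry A (IsSmooth A) z}
  add_mem' := by
    rintro z z' ⟨b, ⟨U, hU, hb⟩, hz⟩ ⟨b', ⟨U', hU', hb'⟩, hz'⟩
    refine ⟨b + b', ⟨U ⊓ U', hk.inter U hU U' hU', fun g u hu => ?_⟩, fun γ g => ?_⟩
    · rw [Pi.add_apply, Pi.add_apply, hb g u hu.1, hb' g u hu.2]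
    · rw [Pi.add_apply, Pi.add_apply, Pi.add_apply, Pi.add_apply, hz, hz']
      abel
  zero_mem' := by
    obtain ⟨U, hU⟩ := hne
    exact ⟨0, ⟨U, hU, fun g u hu => rfl⟩, fun γ g => by simp⟩
  smul_mem' := by
    rintro c z ⟨b, ⟨U, hU, hb⟩, hz⟩
    refine ⟨c • b, ⟨U, hU, fun g u hu => ?_⟩, fun γ g => ?_⟩
    · rw [Pi.smul_apply, Pi.smul_apply, hb g u hu]
    · rw [Pi.smul_apply, Pi.smul_apply, Pi.smul_apply, Pi.smul_apply, hz, smul_sub]

theorem IsSmooth.trans (hk : A.Known) {b : G → W} (hb : IsSmooth A b) (x : G) :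
    IsSmooth A (fun g => b (g * x)) := by
  obtain ⟨U, hU, h⟩ := hb
  obtain ⟨V, hV, hVU⟩ := hk.conj U hU x
  refine ⟨V, hV, fun g v hv => ?_⟩
  change b (g * v * x) = b (g * x)
  have h1 : g * v * x = g * x * (x⁻¹ * v * x) := by group
  rw [h1, h _ _ (hVU v hv)]

theorem IsCobdry.smooth_trans (hk : A.Known) {z : A.Γ → G → W}
    (hz : IsCobdry A (IsSmooth A) z) (x : G) :
    IsCobdry A (IsSmooth A) (fun γ g => z γ (g * x)) := by
  obtain ⟨b, hb, h⟩ := hz
  refine ⟨fun g => b (g * x), hb.trans hk x, fun γ g => ?_⟩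
  change z γ (g * x) = b ((γ : G)⁻¹ * g * x) - b (g * x)
  rw [h, mul_assoc]

/-- the submodule of coboundaries of elements of `V_U` as functions of `K` -/
def kobB (A : Adelic G) {K : Subgroup G} (ρ : Representation R K W) (U : Subgroup G) :
    Submodule R (K → G → W) where
  carrier := {φ | ∃ f, IsV A U f ∧ ∀ (κ : K) (g : G), φ κ g = ρ κ (f (g * κ)) - f g}
  add_mem' := by
    rintro z z' ⟨b, hb, hz⟩ ⟨b', hb', hz'⟩
    refine ⟨b + b', ⟨fun γ g => ?_, fun g u hu => ?_⟩, fun γ g => ?_⟩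
    · rw [Pi.add_apply, Pi.add_apply, hb.1, hb'.1]
    · rw [Pi.add_apply, Pi.add_apply, hb.2 g u hu, hb'.2 g u hu]
    · rw [Pi.add_apply, Pi.add_apply, Pi.add_apply, Pi.add_apply, hz, hz', map_add]
      abel
  zero_mem' := ⟨0, ⟨fun γ g => rfl, fun g u hu => rfl⟩, fun γ g => by simp⟩
  smul_mem' := by
    rintro c z ⟨b, hb, hz⟩
    refine ⟨c • b, ⟨fun γ g => ?_, fun g u hu => ?_⟩, fun γ g => ?_⟩
    · rw [Pi.smul_apply, Pi.smul_apply, hb.1]
    · rw [Pi.smul_apply, Pi.smul_apply, hb.2 g u hu]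
    · rw [Pi.smul_apply, Pi.smul_apply, Pi.smul_apply, Pi.smul_apply, hz, map_smul, smul_sub]

/-- Degree one. -/
theorem eigen1 (hk : A.Known) (hcsp : CSP A W) {K : Subgroup G} (hK : A.IsLevel K)
    (ρ : Representation R K W) (hρ : SmoothRep A ρ) (l : A.P → R) (h : Eigen1 A ρ l) :
    OneDim A l := by
  classical
  obtain ⟨z, hzK, hzc, hz0, hl⟩ := h
  obtain ⟨U0, hU0, hρ0⟩ := hρ
  obtain ⟨U1, hU1, hU1U0, hU1K, hU1n⟩ := hK.small U0 hU0
  by_cases hz : IsCobdry A (IsSmooth A) z
  · -- `z` dies at some level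
    obtain ⟨b, ⟨U2, hU2, hb2⟩, hzb⟩ := hz
    obtain ⟨U, hU, hUU, hUK, hUn⟩ := hK.small (U1 ⊓ U2) (hk.inter U1 hU1 U2 hU2)
    have hρU : ∀ κ : K, (κ : G) ∈ U → ρ κ = 1 := fun κ hκ => hρ0 κ (hU1U0 (hUU hκ).1)
    have hb : ∀ g, ∀ u ∈ U, b (g * u) = b g := fun g u hu => hb2 g u (hUU hu).2
    -- the cocycle φ
    let φ : K → G → W := fun κ g => ρ κ (b (g * κ)) - b g
    have hφV : ∀ κ, IsV A U (φ κ) := by
      intro κ
      refine ⟨fun γ g => ?_, fun g u hu => ?_⟩
      · change ρ κ (b ((γ : G)⁻¹ * g * κ)) - b ((γ : G)⁻¹ * g) = ρ κ (b (g * κ)) - b g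
        have h1 := hzK γ κ g
        rw [hzb, hzb, map_sub, ← mul_assoc] at h1
        have h2 : ρ κ (b ((γ : G)⁻¹ * g * κ)) = (b ((γ : G)⁻¹ * g) - b g) + ρ κ (b (g * κ)) := by
          rw [← h1]
          abel
        rw [h2]
        abel
      · change ρ κ (b (g * u * κ)) - b (g * u) = ρ κ (b (g * κ)) - b g
        have h1 : g * u * κ = g * κ * ((κ : G)⁻¹ * u * κ) := by group
        rw [h1, hb _ _ (hUn κ κ.2 u hu), hb g u hu]
    refine oneDim_of hk (X := K) (kobB A ρ U) ?_ φ ?_ K U hU ?_ (hk.good hK U hU) l ?_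
    · rintro g m ⟨f, hf, hm⟩
      refine ⟨fun x => f (x * g), hf.trans hk hU g, fun κ x => ?_⟩
      change m κ (x * g) = ρ κ (f (x * κ * g)) - f (x * g)
      rw [hm, hf.comm hk hU x g κ]
    · rintro ⟨f, hf, hφ⟩
      apply hz0
      refine ⟨fun g => b g - f g, fun κ g => ?_, fun γ g => ?_⟩
      · have h1 := hφ κ g
        change ρ κ (b (g * κ)) - b g = _ at h1
        change ρ κ (b (g * κ) - f (g * κ)) = b g - f g
        rw [map_sub]
        have h2 : ρ κ (b (g * κ)) = ρ κ (f (g * κ)) - f g + b g := by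
          rw [← h1]; abel
        rw [h2]
        abel
      · change z γ g = (b ((γ : G)⁻¹ * g) - f ((γ : G)⁻¹ * g)) - (b g - f g)
        rw [hzb, hf.1]
        abel
    · intro n hn
      have hn' : n ∈ NN A U := by
        rcases hn with h | h | h
        · exact Subgroup.mem_sup_left (Subgroup.mem_sup_left h)
        · exact Subgroup.mem_sup_left (Subgroup.mem_sup_right h)
        · exact Subgroup.mem_sup_right h
      have h1 : act G R K W n φ - φ = 0 := by
        funext κ g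
        change φ κ (g * n) - φ κ g = 0
        rw [(hφV κ).nn hk hU n hn' g, sub_self]
      rw [h1]
      exact Submodule.zero_mem _
    · intro v hv
      obtain ⟨β, hβ, hβl⟩ := hl v
      -- `f = T_v b - l b - β` is in `V_U`
      have key : ∀ (c : G → W) (hc : ∀ g, ∀ u ∈ U, c (g * u) = c g) (κ : K) (g : G),
          hecke A v c (g * κ) = ∑ j, c (g * A.h v j * κ) := by
        intro c hc κ g
        obtain ⟨σ, hσ⟩ := hv.2 κ κ.2
        unfold hecke
        rw [← Equiv.sum_comp σ (fun j => c (g * A.h v j * κ))]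
        refine Finset.sum_congr rfl fun j _ => ?_
        have h1 : g * κ * A.h v j = g * A.h v (σ j) * κ * ((A.h v (σ j) * κ)⁻¹ * (κ * A.h v j)) := by
          group
        rw [h1, hc _ _ (hσ j)]
      let f : G → W := fun g => hecke A v b g - l v • b g - β g
      have hβU : ∀ g, ∀ u ∈ U, β (g * u) = β g := fun g u hu => hβ.inv hUK hρU g u hu
      have hf : IsV A U f := by
        refine ⟨fun γ g => ?_, fun g u hu => ?_⟩
        · have h1 : hecke A v (z γ) g - l v • z γ g = β ((γ : G)⁻¹ * g) - β g := hβl γ g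
          have h2 : hecke A v (z γ) g = hecke A v b ((γ : G)⁻¹ * g) - hecke A v b g := by
            unfold hecke
            rw [← Finset.sum_sub_distrib]
            refine Finset.sum_congr rfl fun j _ => ?_
            rw [hzb, mul_assoc]
          rw [h2, hzb] at h1
          change hecke A v b ((γ : G)⁻¹ * g) - l v • b ((γ : G)⁻¹ * g) - β ((γ : G)⁻¹ * g) =
            hecke A v b g - l v • b g - β g
          have h3 : β ((γ : G)⁻¹ * g) = hecke A v b ((γ : G)⁻¹ * g) - hecke A v b g -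
              l v • (b ((γ : G)⁻¹ * g) - b g) + β g := by
            rw [h1]; abel
          rw [h3, smul_sub]
          abel
        · change hecke A v b (g * u) - l v • b (g * u) - β (g * u) = hecke A v b g - l v • b g - β g
          have h1 := key b hb ⟨u, hUK hu⟩ g
          have h2 : hecke A v b (g * u) = hecke A v b g := by
            refine h1.trans ?_
            unfold hecke
            refine Finset.sum_congr rfl fun j _ => ?_
            exact hb _ _ hu
          rw [h2, hb g u hu, hβU g u hu]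
      refine ⟨f, hf, fun κ g => ?_⟩
      change Fintype.card (A.ι v) • φ κ (g * A.a v) - l v • φ κ g = ρ κ (f (g * κ)) - f g
      rw [← (hφV κ).hecke hk hU v hv g]
      have h1 : hecke A v (φ κ) g = ρ κ (hecke A v b (g * κ)) - hecke A v b g := by
        rw [key b hb κ g, map_sum]
        unfold hecke
        rw [← Finset.sum_sub_distrib]
      rw [h1]
      change _ - l v • (ρ κ (b (g * κ)) - b g) =
        ρ κ (hecke A v b (g * κ) - l v • b (g * κ) - β (g * κ)) -
          (hecke A v b g - l v • b g - β g)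
      rw [map_sub, map_sub, map_smul, hβ κ g, smul_sub]
      abel
  · -- `z` survives in the limit
    have hzU : ∀ γ g, ∀ u ∈ U1, z γ (g * u) = z γ g := fun γ g u hu =>
      (hzK γ).inv hU1K (fun κ hκ => hρ0 κ (hU1U0 hκ)) g u hu
    have hne : A.opens.Nonempty := ⟨U0, hU0⟩
    have hNz : ∀ n, n ∈ A.Γ ∨ n ∈ A.G1 ∨ n ∈ U1 →
        act G R A.Γ W n z - z ∈ cobB A hk R hne := by
      intro n hn
      rcases hn with h | h | h
      · exact hcsp z hzc ⟨U1, hU1, hzU⟩ n (Or.inl h)
      · exact hcsp z hzc ⟨U1, hU1, hzU⟩ n (Or.inr h)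
      · have h1 : act G R A.Γ W n z - z = 0 := by
          funext γ g
          change z γ (g * n) - z γ g = 0
          rw [hzU γ g n h, sub_self]
        rw [h1]
        exact Submodule.zero_mem _
    have hstab : ∀ g, ∀ m ∈ cobB (W := W) A hk R hne, act G R A.Γ W g m ∈ cobB A hk R hne :=
      fun g m hm => IsCobdry.smooth_trans hk hm g
    refine oneDim_of hk (X := A.Γ) (cobB A hk R hne) hstab z hz K U1 hU1 hNz
      (hk.good hK U1 hU1) l ?_
    intro v hv
    obtain ⟨β, hβ, hβl⟩ := hl v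
    -- commutators and elements of `U1` act trivially on the class
    have hcomm : ∀ u ∈ U1, ∀ u' ∈ U1,
        act G R A.Γ W (u * A.a v * u') z - act G R A.Γ W (A.a v) z ∈ cobB A hk R hne := by
      intro u hu u' hu'
      have h1 : u * A.a v * u' = A.a v * (⁅(A.a v)⁻¹, u⁆ * (u * u')) := by
        simp [commutatorElement_def, mul_assoc]
      have hc : ⁅(A.a v)⁻¹, u⁆ ∈ A.G1 := hk.comm (Subgroup.commutator_mem_commutator
        (Subgroup.mem_top _) (Subgroup.mem_top _))
      have h2 : act G R A.Γ W (⁅(A.a v)⁻¹, u⁆ * (u * u')) z - z ∈ cobB A hk R hne := by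
        have h3 : act G R A.Γ W (⁅(A.a v)⁻¹, u⁆ * (u * u')) z - z =
            act G R A.Γ W ⁅(A.a v)⁻¹, u⁆ (act G R A.Γ W (u * u') z - z) +
              (act G R A.Γ W ⁅(A.a v)⁻¹, u⁆ z - z) := by
          rw [map_mul, Module.End.mul_apply, map_sub]
          abel
        rw [h3]
        exact Submodule.add_mem _
          (hstab _ _ (hNz (u * u') (Or.inr (Or.inr (U1.mul_mem hu hu')))))
          (hNz _ (Or.inr (Or.inl hc)))
      rw [h1, map_mul, Module.End.mul_apply, ← map_sub]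
      exact hstab _ _ h2
    have hsum : (fun γ g => hecke A v (z γ) g) - Fintype.card (A.ι v) • act G R A.Γ W (A.a v) z ∈
        cobB A hk R hne := by
      have h1 : (fun γ g => hecke A v (z γ) g) - Fintype.card (A.ι v) • act G R A.Γ W (A.a v) z =
          ∑ j : A.ι v, (act G R A.Γ W (A.h v j) z - act G R A.Γ W (A.a v) z) := by
        rw [Finset.sum_sub_distrib, Finset.sum_const, Finset.card_univ]
        congr 1
        funext γ g
        rw [Finset.sum_apply, Finset.sum_apply]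
        rfl
      rw [h1]
      refine Submodule.sum_mem _ fun j _ => ?_
      obtain ⟨κ, hκ, κ', hκ', h2⟩ := hv.1 j
      rw [h2]
      exact hcomm κ hκ κ' hκ'
    have h3 : (fun γ g => hecke A v (z γ) g) - l v • z ∈ cobB A hk R hne := by
      refine ⟨β, ⟨U1, hU1, fun g u hu =>
        hβ.inv hU1K (fun κ hκ => hρ0 κ (hU1U0 hκ)) g u hu⟩, hβl⟩
    have h4 : Fintype.card (A.ι v) • act G R A.Γ W (A.a v) z - l v • z =
        ((fun γ g => hecke A v (z γ) g) - l v • z) -
          ((fun γ g => hecke A v (z γ) g) - Fintype.card (A.ι v) • act G R A.Γ W (A.a v) z) := by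
      abel
    rw [h4]
    exact Submodule.sub_mem _ h3 hsum

/-! ## Compactly supported cohomology in degree one, rank one over `ℚ` -/

/-- `B = 𝐁(𝔸_f)`, `N = 𝐍(𝔸_f)` for a Borel subgroup `𝐁` with unipotent radical `𝐍`. -/
structure Borel (G : Type) [Group G] where
  B : Subgroup G
  N : Subgroup G

/-- Elementary properties: `B/N` is abelian; strong approximation for `N`; compactness of
`B \ G`; the Iwasawa decomposition `𝐆(ℚ_v) = 𝐁(ℚ_v) Kv`, the factor `𝐆(ℚ_v)` of `G` commuting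
with the other places; the representatives `h_{p,j}` are in `𝐁`. -/
structure Borel.Known (Bo : Borel G) (A : Adelic G) : Prop where
  le : Bo.N ≤ Bo.B
  comm : ∀ x ∈ Bo.B, ∀ y ∈ Bo.B, ⁅x, y⁆ ∈ Bo.N
  sa : ∀ U ∈ A.opens, ∀ x ∈ Bo.N, ∃ γ ∈ A.Γ, γ ∈ Bo.B ∧ γ⁻¹ * x ∈ U
  compact : ∀ U ∈ A.opens, ∃ U' ∈ A.opens, ∀ t ∈ Bo.B, t ∈ U' →
    ∀ g, ∃ n ∈ Bo.N, g⁻¹ * (n * t) * g ∈ U
  iwasawa : ∀ p, ∀ g, ∃ b ∈ Bo.B, ∃ κ ∈ A.Kv p, ∃ g', g = b * κ * g' ∧
    ∀ x ∈ A.Gv p, x * g' = g' * x
  h_mem : ∀ p j, A.h p j ∈ Bo.B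

variable (A)

/-- `(T_p)` has an eigenclass in `H^1_c(Y(K), W)` with eigenvalues `l`. The cusps are
`Γ/(Γ ∩ B)`, and `H^1_c = H^0(Γ, Map(cusps, C(K, W))/C(K, W))`: a class is given by
`u : Γ → C(K, W)`, right invariant under `Γ ∩ B`, such that `γ u - u` is constant for all `γ`, and
it is zero if `u` is constant. -/
def EigenC1 (Bo : Borel G) {K : Subgroup G} (ρ : Representation R K W) (l : A.P → R) : Prop :=
  ∃ u : A.Γ → G → W, (∀ δ, IsCoef ρ (u δ)) ∧
    (∀ (δ β : A.Γ), (β : G) ∈ Bo.B → u (δ * β) = u δ) ∧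
    (∃ z : A.Γ → G → W, ∀ (γ δ : A.Γ) (g : G), u (γ⁻¹ * δ) ((γ : G)⁻¹ * g) - u δ g = z γ g) ∧
    (¬ ∃ m : G → W, ∀ δ, u δ = m) ∧
    ∀ v, ∃ β : G → W, IsCoef ρ β ∧ ∀ δ g, hecke A v (u δ) g - l v • u δ g = β g

/-- The eigenvalues `l p` are, for all but finitely many `p`, the sums `∑_j χ(h_{p,j})` for a
character `χ` of `B = 𝐁(𝔸_f)`, trivial on `N`, on `Γ ∩ B` and on an open subgroup (a principal
series system). -/
def PrincipalSeries (Bo : Borel G) (l : A.P → R) : Prop :=
  ∃ (k : Type) (_ : Field k) (i : R →+* k) (χ : Bo.B →* kˣ), (∀ x : Bo.B, (x : G) ∈ A.Γ → χ x = 1) ∧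
    (∀ x : Bo.B, (x : G) ∈ Bo.N → χ x = 1) ∧ (∃ U ∈ A.opens, ∀ x : Bo.B, (x : G) ∈ U → χ x = 1) ∧
    ∃ hh : ∀ p j, A.h p j ∈ Bo.B, {p | i (l p) ≠ ∑ j, (χ ⟨A.h p j, hh p j⟩ : k)}.Finite

variable {A}

/-- left translations by `B` -/
def actL (Bo : Borel G) (R : Type) [CommRing R] (W : Type) [AddCommGroup W] [Module R W] :
    Bo.B →* Module.End R (G → W) where
  toFun t :=
    { toFun := fun f g => f ((t : G)⁻¹ * g)
      map_add' := fun _ _ => rfl
      map_smul' := fun _ _ => rfl }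
  map_one' := by
    ext f g
    simp
  map_mul' s t := by
    ext f g
    simp [mul_assoc]

/-- `V_U` as a submodule -/
def VV (A : Adelic G) (R : Type) [CommRing R] (W : Type) [AddCommGroup W] [Module R W]
    (U : Subgroup G) : Submodule R (G → W) where
  carrier := {f | IsV A U f}
  add_mem' := by
    rintro b b' hb hb'
    refine ⟨fun γ g => ?_, fun g u hu => ?_⟩
    · rw [Pi.add_apply, Pi.add_apply, hb.1, hb'.1]
    · rw [Pi.add_apply, Pi.add_apply, hb.2 g u hu, hb'.2 g u hu]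
  zero_mem' := ⟨fun γ g => rfl, fun g u hu => rfl⟩
  smul_mem' := by
    rintro c b hb
    refine ⟨fun γ g => ?_, fun g u hu => ?_⟩
    · rw [Pi.smul_apply, Pi.smul_apply, hb.1]
    · rw [Pi.smul_apply, Pi.smul_apply, hb.2 g u hu]

/-- eigenvalues in `H^0(∂Y)/H^0(Y)` -/
theorem boundary0 (hk : A.Known) {Bo : Borel G} (hB : Bo.Known A) (U : Subgroup G)
    (hU : U ∈ A.opens) (f : G → W) (hfB : ∀ γ ∈ A.Γ, γ ∈ Bo.B → ∀ g, f (γ * g) = f g)
    (hfU : ∀ g, ∀ u ∈ U, f (g * u) = f g) (hf : ¬ IsV A U f) (l : A.P → R)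
    (hl : ∀ v, A.Kv v ≤ U → IsV A U (fun g => hecke A v f g - l v • f g)) : PrincipalSeries A Bo l := by
  classical
  -- invariance under `N`
  have hfN : ∀ n ∈ Bo.N, ∀ g, f (n * g) = f g := by
    intro n hn g
    obtain ⟨V, hV, hVU⟩ := hk.conj U hU g
    obtain ⟨γ, hγ, hγB, hγn⟩ := hB.sa V hV n hn
    have h1 : n * g = γ * (g * (g⁻¹ * (γ⁻¹ * n) * g)) := by group
    rw [h1, hfB γ hγ hγB, hfU _ _ (hVU _ hγn)]
  have hfcomm : ∀ x ∈ Bo.B, ∀ y ∈ Bo.B, ∀ g, f (x * y * g) = f (y * x * g) := by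
    intro x hx y hy g
    have h1 : x * y * g = ⁅x, y⁆ * (y * x * g) := by
      simp [commutatorElement_def, mul_assoc]
    rw [h1, hfN _ (hB.comm x hx y hy)]
  -- the Hecke operators
  have hT : ∀ v, A.Kv v ≤ U → ∀ g, hecke A v f g = ∑ j, f (A.h v j * g) := by
    intro v hv g
    obtain ⟨b, hb, κ, hκ, g', rfl, hg'⟩ := hB.iwasawa v g
    obtain ⟨σ, hσ⟩ := hk.perm v κ hκ
    unfold hecke
    rw [← Equiv.sum_comp σ (fun j => f (A.h v j * (b * κ * g')))]
    refine Finset.sum_congr rfl fun j _ => ?_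
    have h1 : b * κ * g' * A.h v j =
        b * A.h v (σ j) * g' * ((A.h v (σ j))⁻¹ * (κ * A.h v j)) := by
      have e1 : b * κ * g' * A.h v j = b * κ * (A.h v j * g') := by
        rw [hg' _ (hk.h_mem v j)]
        group
      have e2 := hg' _ (hk.loc v (hσ j))
      rw [e1, mul_assoc (b * A.h v (σ j)) g' _, ← e2]
      group
    rw [h1, hfU _ _ (hv (hσ j)), hfcomm b hb _ (hB.h_mem v _)]
    have h2 : A.h v (σ j) * (b * κ * g') = A.h v (σ j) * b * g' * κ := by
      have e3 := hg' _ (hk.loc v hκ)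
      calc A.h v (σ j) * (b * κ * g') = A.h v (σ j) * b * (κ * g') := by group
        _ = A.h v (σ j) * b * (g' * κ) := by rw [e3]
        _ = _ := by group
    rw [h2, hfU _ _ (hv hκ)]
  obtain ⟨U', hU', hUU'⟩ := hB.compact U hU
  let S : Subgroup Bo.B :=
    { carrier := {t | ∀ g, f ((t : G) * g) = f g}
      mul_mem' := by
        intro a b ha hb g
        simp only [Set.mem_ofPred_eq] at ha hb
        rw [Subgroup.coe_mul, mul_assoc, ha, hb]
      one_mem' := by intro g; simp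
      inv_mem' := by
        intro a ha g
        have := ha ((a : G)⁻¹ * g)
        rw [mul_inv_cancel_left] at this
        exact this.symm }
  have hSc : commutator Bo.B ≤ S := by
    rw [commutator_def, Subgroup.commutator_le]
    intro x _ y _ g
    have h1 : ((⁅x, y⁆ : Bo.B) : G) = ⁅(x : G), (y : G)⁆ := rfl
    rw [h1]
    exact hfN _ (hB.comm x x.2 y y.2) g
  have hS1 : ∀ x : Bo.B, (x : G) ∈ A.Γ → x ∈ S := fun x hx g => hfB x hx x.2 g
  have hS2 : ∀ x : Bo.B, (x : G) ∈ Bo.N → x ∈ S := fun x hx g => hfN x hx g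
  have hS3 : ∀ x : Bo.B, (x : G) ∈ U' → x ∈ S := by
    intro x hx g
    obtain ⟨n, hn, hng⟩ := hUU' x x.2 hx g
    have h1 : f (n * (x * g)) = f (x * g) := hfN n hn _
    rw [← h1]
    have h2 : n * (x * g) = g * (g⁻¹ * (n * x) * g) := by group
    rw [h2, hfU _ _ hng]
  have hstab : ∀ t, ∀ m ∈ VV A R W U, actL Bo R W t m ∈ VV A R W U := by
    intro t m hm
    have hm' : IsV A U m := hm
    have h1 : actL Bo R W t m = fun g => m (g * (t : G)⁻¹) := by
      funext g
      change m ((t : G)⁻¹ * g) = m (g * (t : G)⁻¹)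
      have := hm'.comm hk hU 1 ((t : G)⁻¹) g
      simpa using this
    rw [h1]
    exact hm'.trans hk hU _
  have hSf : ∀ n ∈ S, actL Bo R W n f - f ∈ VV A R W U := by
    intro n hn
    have h1 : actL Bo R W n f - f = 0 := by
      funext g
      change f ((n : G)⁻¹ * g) - f g = 0
      have h2 : (n⁻¹ : Bo.B) ∈ S := S.inv_mem hn
      have h3 : f ((n : G)⁻¹ * g) = f g := h2 g
      rw [h3, sub_self]
    rw [h1]
    exact Submodule.zero_mem _
  obtain ⟨k, hkf, i, χ, hχ, hrel⟩ := exists_char (actL Bo R W) (VV A R W U) hstab f hf S hSc hSf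
  refine ⟨k, hkf, i, χ⁻¹, ?_, ?_, ⟨U', hU', ?_⟩, hB.h_mem, ?_⟩
  · intro x hx
    rw [MonoidHom.inv_apply, hχ x (hS1 x hx), inv_one]
  · intro x hx
    rw [MonoidHom.inv_apply, hχ x (hS2 x hx), inv_one]
  · intro x hx
    rw [MonoidHom.inv_apply, hχ x (hS3 x hx), inv_one]
  · refine (hk.almost U hU).subset ?_
    intro v hv hle
    apply hv
    have h1 := hrel (A.ι v) (A.fin v) (fun j => (⟨A.h v j, hB.h_mem v j⟩ : Bo.B)⁻¹) (l v) (by
      have h2 : ∑ j, actL Bo R W ((⟨A.h v j, hB.h_mem v j⟩ : Bo.B)⁻¹) f - l v • f =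
          fun g => hecke A v f g - l v • f g := by
        funext g
        rw [hT v hle g, Pi.sub_apply, Finset.sum_apply]
        congr 1
        refine Finset.sum_congr rfl fun j _ => ?_
        change f (((A.h v j)⁻¹)⁻¹ * g) = f (A.h v j * g)
        rw [inv_inv]
      rw [h2]
      exact hl v hle)
    rw [← h1]
    refine Finset.sum_congr rfl fun j _ => ?_
    rw [MonoidHom.inv_apply, map_inv]

/-- the Hecke operators at the good places preserve right `U`-invariance -/
theorem hecke_inv (hk : A.Known) {K : Subgroup G} (hK : A.IsLevel K) {U : Subgroup G}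
    (hUK : U ≤ K) (v : A.P) (hv : A.Kv v ≤ U) (c : G → W)
    (hc : ∀ g, ∀ u ∈ U, c (g * u) = c g) (g u : G) (hu : u ∈ U) :
    hecke A v c (g * u) = hecke A v c g := by
  obtain ⟨κ₁, hκ₁, κ₂, rfl, hc2⟩ := hK.prod v u (hUK hu)
  obtain ⟨σ, hσ⟩ := hk.perm v κ₁ hκ₁
  have hκ₂ : κ₂ ∈ U := by
    have h1 : κ₂ = κ₁⁻¹ * (κ₁ * κ₂) := by group
    rw [h1]
    exact U.mul_mem (U.inv_mem (hv hκ₁)) hu
  unfold hecke
  rw [← Equiv.sum_comp σ (fun j => c (g * A.h v j))]
  refine Finset.sum_congr rfl fun j _ => ?_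
  have h1 : g * (κ₁ * κ₂) * A.h v j =
      g * A.h v (σ j) * ((A.h v (σ j))⁻¹ * (κ₁ * A.h v j)) * κ₂ := by
    have h2 := hc2 _ (hk.h_mem v j)
    calc g * (κ₁ * κ₂) * A.h v j = g * κ₁ * (κ₂ * A.h v j) := by group
      _ = g * κ₁ * (A.h v j * κ₂) := by rw [h2]
      _ = _ := by group
  rw [h1, hc _ _ hκ₂, hc _ _ (hv (hσ j))]

/-- Degree one, compact supports. -/
theorem eigenC1 (hk : A.Known) (hcsp : CSP A W) {Bo : Borel G} (hB : Bo.Known A)
    {K : Subgroup G} (hK : A.IsLevel K)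
    (ρ : Representation R K W) (hρ : SmoothRep A ρ) (l : A.P → R) (h : EigenC1 A Bo ρ l) :
    OneDim A l ∨ PrincipalSeries A Bo l := by
  classical
  obtain ⟨u, huK, huB, ⟨z, hz⟩, hu0, hl⟩ := h
  -- the image in `H^1`
  have hzu : ∀ γ g, z γ g = u 1 ((γ : G)⁻¹ * g) - u γ g := by
    intro γ g
    have := hz γ γ g
    rw [inv_mul_cancel] at this
    exact this.symm
  have hzK : ∀ γ, IsCoef ρ (z γ) := by
    intro γ κ g
    rw [hzu, hzu, map_sub, ← mul_assoc, huK 1 κ, huK γ κ]
  have hzc : IsCocycle A z := by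
    intro γ γ' g
    rw [← hz (γ * γ') (γ * γ') g, ← hz γ (γ * γ') g, ← hz γ' γ' ((γ : G)⁻¹ * g)]
    have e1 : (γ * γ')⁻¹ * (γ * γ') = (1 : A.Γ) := inv_mul_cancel _
    have e2 : γ⁻¹ * (γ * γ') = γ' := by group
    have e3 : γ'⁻¹ * γ' = (1 : A.Γ) := inv_mul_cancel _
    have e4 : (((γ * γ' : A.Γ) : G)⁻¹ * g) = (γ' : G)⁻¹ * ((γ : G)⁻¹ * g) := by
      rw [Subgroup.coe_mul, mul_inv_rev, mul_assoc]
    rw [e1, e2, e3, e4]
    abel
  have hlz : ∀ v, IsCobdry A (IsCoef ρ) (fun γ g => hecke A v (z γ) g - l v • z γ g) := by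
    intro v
    obtain ⟨β, hβ, hβl⟩ := hl v
    refine ⟨β, hβ, fun γ g => ?_⟩
    change hecke A v (z γ) g - l v • z γ g = _
    have h1 : hecke A v (z γ) g = hecke A v (u 1) ((γ : G)⁻¹ * g) - hecke A v (u γ) g := by
      unfold hecke
      rw [← Finset.sum_sub_distrib]
      refine Finset.sum_congr rfl fun j _ => ?_
      rw [hzu, mul_assoc]
    rw [h1, hzu, smul_sub, ← hβl 1, ← hβl γ]
    abel
  by_cases hz0 : IsCobdry A (IsCoef ρ) z
  · right
    obtain ⟨m, hm, hzm⟩ := hz0
    obtain ⟨U0, hU0, hρ0⟩ := hρ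
    obtain ⟨U, hU, hUU0, hUK, hUn⟩ := hK.small U0 hU0
    have hinv : ∀ f : G → W, IsCoef ρ f → ∀ g, ∀ x ∈ U, f (g * x) = f g := fun f hf g x hx =>
      hf.inv hUK (fun κ hκ => hρ0 κ (hUU0 hκ)) g x hx
    -- `u δ - m` is the translate by `δ` of `f = u 1 - m`
    have hδ : ∀ (δ : A.Γ) g, u δ g - m g = u 1 ((δ : G)⁻¹ * g) - m ((δ : G)⁻¹ * g) := by
      intro δ g
      have h1 := hzu δ g
      rw [hzm] at h1
      have h2 : u δ g = u 1 ((δ : G)⁻¹ * g) - (m ((δ : G)⁻¹ * g) - m g) := by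
        rw [h1]; abel
      rw [h2]
      abel
    refine boundary0 hk hB U hU (fun g => u 1 g - m g) ?_ ?_ ?_ l ?_
    · intro γ hγ hγB g
      change u 1 (γ * g) - m (γ * g) = u 1 g - m g
      have h1 := hδ (⟨γ, hγ⟩⁻¹) g
      have h2 : u (⟨γ, hγ⟩⁻¹ : A.Γ) = u 1 := by
        have := huB 1 (⟨γ, hγ⟩⁻¹) (Bo.B.inv_mem hγB)
        rw [one_mul] at this
        exact this
      rw [h2] at h1
      have h3 : (((⟨γ, hγ⟩⁻¹ : A.Γ) : G)⁻¹ * g) = γ * g := by
        simp
      rw [h3] at h1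
      exact h1.symm
    · intro g x hx
      change u 1 (g * x) - m (g * x) = u 1 g - m g
      rw [hinv _ (huK 1) g x hx, hinv _ hm g x hx]
    · intro hV
      apply hu0
      refine ⟨fun g => u 1 g, fun δ => ?_⟩
      funext g
      have h1 := hδ δ g
      have h2 := hV.1 δ g
      change u 1 ((δ : G)⁻¹ * g) - m ((δ : G)⁻¹ * g) = u 1 g - m g at h2
      rw [h2] at h1
      exact sub_left_injective h1
    · intro v hv
      obtain ⟨β, hβ, hβl⟩ := hl v
      have hform : ∀ (δ : A.Γ) g, hecke A v (fun g => u 1 g - m g) ((δ : G)⁻¹ * g) -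
          l v • (u 1 ((δ : G)⁻¹ * g) - m ((δ : G)⁻¹ * g)) =
          β g - (hecke A v m g - l v • m g) := by
        intro δ g
        have h1 : hecke A v (fun g => u 1 g - m g) ((δ : G)⁻¹ * g) =
            hecke A v (u δ) g - hecke A v m g := by
          unfold hecke
          rw [← Finset.sum_sub_distrib]
          refine Finset.sum_congr rfl fun j _ => ?_
          change u 1 ((δ : G)⁻¹ * g * A.h v j) - m ((δ : G)⁻¹ * g * A.h v j) = _
          rw [mul_assoc, ← hδ δ (g * A.h v j)]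
        rw [h1, ← hδ δ g, ← hβl δ g, smul_sub]
        abel
      have hform1 : ∀ g, hecke A v (fun g => u 1 g - m g) g - l v • (u 1 g - m g) =
          β g - (hecke A v m g - l v • m g) := by
        intro g
        have := hform 1 g
        simpa using this
      refine ⟨fun γ g => ?_, fun g x hx => ?_⟩
      · change hecke A v (fun g => u 1 g - m g) ((γ : G)⁻¹ * g) -
          l v • (u 1 ((γ : G)⁻¹ * g) - m ((γ : G)⁻¹ * g)) =
          hecke A v (fun g => u 1 g - m g) g - l v • (u 1 g - m g)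
        rw [hform γ g, hform1 g]
      · have hcU : ∀ g, ∀ y ∈ U, (fun g => u 1 g - m g) (g * y) = (fun g => u 1 g - m g) g := by
          intro g y hy
          change u 1 (g * y) - m (g * y) = u 1 g - m g
          rw [hinv _ (huK 1) g y hy, hinv _ hm g y hy]
        change hecke A v (fun g => u 1 g - m g) (g * x) - l v • (u 1 (g * x) - m (g * x)) =
          hecke A v (fun g => u 1 g - m g) g - l v • (u 1 g - m g)
        rw [hecke_inv hk hK hUK v hv _ hcU g x hx, hinv _ (huK 1) g x hx, hinv _ hm g x hx]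
  · left
    exact eigen1 hk hcsp hK ρ hρ l ⟨z, hzK, hzc, hz0, hlz⟩

end N122.CG
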