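import Pool.Agent.N122.CG

/-!
# Hecke polynomials for `GL_n` and `GL_2`
-/

namespace N122.CG

open scoped BigOperators
open Polynomial

/-- Gaussian binomial coefficients: the number of `i`-dimensional subspaces of `𝔽_q^n`. -/
def gauss (q : ℕ) : ℕ → ℕ → ℕ
  | _, 0 => 1
  | 0, _ + 1 => 0
  | n + 1, i + 1 => gauss q n (i + 1) + q ^ (n - i) * gauss q n i

theorem gauss_zero (q n : ℕ) : gauss q n 0 = 1 := by
  cases n <;> rfl

theorem gauss_gt (q : ℕ) : ∀ n i : ℕ, n < i → gauss q n i = 0
  | 0, 0, h => absurd h (lt_irrefl _)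
  | 0, _ + 1, _ => rfl
  | n + 1, 0, h => absurd h (by omega)
  | n + 1, i + 1, h => by
    rw [gauss, gauss_gt q n (i + 1) (by omega), gauss_gt q n i (by omega)]
    simp

/-- `∏_{j < n} (X - q^j c) = ∑_i (-1)^i q^{i(i-1)/2} [n, i]_q c^i X^{n-i}` -/
theorem q_binomial {k : Type} [Field k] (q : ℕ) (c : k) (n : ℕ) :
    ∏ j ∈ Finset.range n, (X - C ((q : k) ^ j * c)) =
      ∑ i ∈ Finset.range (n + 1),
        C ((-1) ^ i * (q : k) ^ (i * (i - 1) / 2) * ((gauss q n i : ℕ) : k) * c ^ i) *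
          (X : k[X]) ^ (n - i) := by
  induction n with
  | zero => simp [gauss_zero]
  | succ n ih =>
    rw [Finset.prod_range_succ, ih, Finset.sum_mul]
    have h1 : ∀ i ∈ Finset.range (n + 1),
        C ((-1) ^ i * (q : k) ^ (i * (i - 1) / 2) * ((gauss q n i : ℕ) : k) * c ^ i) *
          (X : k[X]) ^ (n - i) * (X - C ((q : k) ^ n * c)) =
        C ((-1) ^ i * (q : k) ^ (i * (i - 1) / 2) * ((gauss q n i : ℕ) : k) * c ^ i) *
          (X : k[X]) ^ (n + 1 - i) +
        C ((-1) ^ (i + 1) * (q : k) ^ ((i + 1) * i / 2) *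
          (((q ^ (n - i) * gauss q n i : ℕ) : ℕ) : k) * c ^ (i + 1)) *
          (X : k[X]) ^ (n + 1 - (i + 1)) := by
      intro i hi
      have hi' : i ≤ n := by
        have := Finset.mem_range.mp hi
        omega
      have e1 : n + 1 - i = (n - i) + 1 := by omega
      have e2 : n + 1 - (i + 1) = n - i := by omega
      have e3 : (i + 1) * i / 2 = i * (i - 1) / 2 + i := by
        rcases Nat.even_or_odd' i with ⟨m, rfl | rfl⟩
        · rcases m with _ | m
          · simp
          · have : (2 * (m + 1) + 1) * (2 * (m + 1)) / 2 = (2 * (m + 1) + 1) * (m + 1) := by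
              rw [show (2 * (m + 1) + 1) * (2 * (m + 1)) = ((2 * (m + 1) + 1) * (m + 1)) * 2 by ring]
              simp
            rw [this]
            have h2 : 2 * (m + 1) * (2 * (m + 1) - 1) / 2 = (m + 1) * (2 * m + 1) := by
              rw [show 2 * (m + 1) - 1 = 2 * m + 1 by omega,
                show 2 * (m + 1) * (2 * m + 1) = ((m + 1) * (2 * m + 1)) * 2 by ring]
              simp
            rw [h2]
            ring
        · have : (2 * m + 1 + 1) * (2 * m + 1) / 2 = (m + 1) * (2 * m + 1) := by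
            rw [show (2 * m + 1 + 1) * (2 * m + 1) = ((m + 1) * (2 * m + 1)) * 2 by ring]
            simp
          rw [this]
          have h2 : (2 * m + 1) * (2 * m + 1 - 1) / 2 = (2 * m + 1) * m := by
            rw [show 2 * m + 1 - 1 = 2 * m by omega,
              show (2 * m + 1) * (2 * m) = ((2 * m + 1) * m) * 2 by ring]
            simp
          rw [h2]
          ring
      rw [e1, e2, e3]
      have e4 : (q : k) ^ n = (q : k) ^ (n - i) * (q : k) ^ i := by
        rw [← pow_add]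
        congr 1
        omega
      rw [mul_sub, mul_assoc _ (X ^ (n - i)) X, ← pow_succ, sub_eq_add_neg]
      congr 1
      rw [e4, mul_right_comm, ← C_mul, ← neg_mul, ← C_neg]
      congr 2
      push_cast
      ring
    rw [Finset.sum_congr rfl h1, Finset.sum_add_distrib]
    rw [Finset.sum_range_succ' (fun i => C ((-1) ^ i * (q : k) ^ (i * (i - 1) / 2) *
      ((gauss q (n + 1) i : ℕ) : k) * c ^ i) * (X : k[X]) ^ (n + 1 - i)) (n + 1)]
    rw [Finset.sum_range_succ' (fun i => C ((-1) ^ i * (q : k) ^ (i * (i - 1) / 2) *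
      ((gauss q n i : ℕ) : k) * c ^ i) * (X : k[X]) ^ (n + 1 - i)) n]
    have h2 : ∑ i ∈ Finset.range (n + 1), C ((-1) ^ (i + 1) * (q : k) ^ ((i + 1) * (i + 1 - 1) / 2) *
        ((gauss q (n + 1) (i + 1) : ℕ) : k) * c ^ (i + 1)) * (X : k[X]) ^ (n + 1 - (i + 1)) =
        ∑ i ∈ Finset.range (n + 1), C ((-1) ^ (i + 1) * (q : k) ^ ((i + 1) * (i + 1 - 1) / 2) *
        ((gauss q n (i + 1) : ℕ) : k) * c ^ (i + 1)) * (X : k[X]) ^ (n + 1 - (i + 1)) +
        ∑ i ∈ Finset.range (n + 1), C ((-1) ^ (i + 1) * (q : k) ^ ((i + 1) * i / 2) *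
          (((q ^ (n - i) * gauss q n i : ℕ) : ℕ) : k) * c ^ (i + 1)) *
          (X : k[X]) ^ (n + 1 - (i + 1)) := by
      rw [← Finset.sum_add_distrib]
      refine Finset.sum_congr rfl fun i _ => ?_
      rw [← add_mul, ← C_add]
      congr 2
      rw [gauss, Nat.add_sub_cancel]
      push_cast
      ring
    rw [h2]
    rw [Finset.sum_range_succ (fun i => C ((-1) ^ (i + 1) * (q : k) ^ ((i + 1) * (i + 1 - 1) / 2) *
        ((gauss q n (i + 1) : ℕ) : k) * c ^ (i + 1)) * (X : k[X]) ^ (n + 1 - (i + 1))) n]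
    rw [gauss_gt q n (n + 1) (Nat.lt_succ_self n)]
    simp only [gauss_zero]
    simp
    ring

end N122.CG
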