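import Pool.Agent.N122.CGn

/-!
# Hecke polynomials and Galois representations for the systems in low degrees
-/

namespace N122.CG

open scoped BigOperators
open Polynomial

variable {G : Type} [Group G]

/-- The Hecke operators of `GL_n` over a number field `F`: `V` the finite places `v ∉ S`, `q v` the
size of the residue field, `T v i` the index of `T_{v,i+1}`, `t v = diag(ϖ_v, 1, …, 1)`. -/
structure GLn (A : Adelic G) (n : ℕ) where
  V : Type
  q : V → ℕ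
  T : V → Fin n → A.P
  t : V → G

/-- Elementary facts: `T_{v,i}` determines `v`; `T_{v,i}` has `[n, i]_{q_v}` single cosets and
`diag(ϖ_v, …, ϖ_v, 1, …, 1)` is congruent to `t_v^i` modulo `SL_n`. -/
structure GLn.Known {A : Adelic G} {n : ℕ} (D : GLn A n) : Prop where
  inj : ∀ p, {v | ∃ i, D.T v i = p}.Finite
  card : ∀ v (i : Fin n), Fintype.card (A.ι (D.T v i)) = gauss (D.q v) n ((i : ℕ) + 1)
  a_mem : ∀ v (i : Fin n), (D.t v ^ ((i : ℕ) + 1))⁻¹ * A.a (D.T v i) ∈ A.G1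

variable {A : Adelic G} {n : ℕ} {R : Type} [CommRing R] {W : Type} [AddCommGroup W] [Module R W]

/-- The Hecke polynomial `P_v(X) = ∑_{i=0}^n (-1)^i q_v^{i(i-1)/2} T_{v,i} X^{n-i}` at the system of
eigenvalues `l`, under `f : R → k`. -/
noncomputable def GLn.P (D : GLn A n) {k : Type} [Field k] (f : R →+* k) (l : A.P → R) (v : D.V) :
    k[X] :=
  X ^ n + ∑ i : Fin n, C ((-1) ^ ((i : ℕ) + 1) * (D.q v : k) ^ (((i : ℕ) + 1) * i / 2) *
    f (l (D.T v i))) * X ^ (n - ((i : ℕ) + 1))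

theorem GLn.finite (D : GLn A n) (hD : D.Known) (s : Set A.P) (hs : s.Finite) :
    {v | ∃ i, D.T v i ∈ s}.Finite := by
  have h1 : {v | ∃ i, D.T v i ∈ s} = ⋃ p ∈ s, {v | ∃ i, D.T v i = p} := by
    ext v
    simp only [Set.mem_ofPred_eq, Set.mem_iUnion, exists_prop]
    constructor
    · rintro ⟨i, hi⟩
      exact ⟨_, hi, i, rfl⟩
    · rintro ⟨p, hp, i, rfl⟩
      exact ⟨i, hp⟩
  rw [h1]
  exact hs.biUnion fun p _ => hD.inj p

/-- A one-dimensional automorphic system has the Hecke polynomials `∏_{j<n} (X - q_v^j χ(t_v))`. -/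
def GLn.OneDimPoly (D : GLn A n) (l : A.P → R) : Prop :=
  ∃ (k : Type) (_ : Field k) (f : R →+* k) (χ : G →* kˣ), (∀ x ∈ A.Γ, χ x = 1) ∧
    (∀ x ∈ A.G1, χ x = 1) ∧ (∃ U ∈ A.opens, ∀ x ∈ U, χ x = 1) ∧
    {v | D.P f l v ≠ ∏ j ∈ Finset.range n, (X - C ((D.q v : k) ^ j * (χ (D.t v) : k)))}.Finite

theorem GLn.oneDimPoly (D : GLn A n) (hD : D.Known) (l : A.P → R) (h : OneDim A l) :
    D.OneDimPoly l := by
  obtain ⟨k, hk, f, χ, h1, h2, h3, h4⟩ := h
  refine ⟨k, hk, f, χ, h1, h2, h3, (D.finite hD _ h4).subset ?_⟩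
  intro v hv
  by_contra hcon
  apply hv
  have h5 : ∀ i, f (l (D.T v i)) = (gauss (D.q v) n ((i : ℕ) + 1) : k) * (χ (D.t v) : k) ^ ((i : ℕ) + 1) := by
    intro i
    have h6 : ¬ f (l (D.T v i)) ≠ (Fintype.card (A.ι (D.T v i)) : k) * (χ (A.a (D.T v i)) : k) := by
      intro h7
      exact hcon ⟨i, h7⟩
    rw [not_not] at h6
    rw [h6, hD.card v i]
    have h8 := h2 _ (hD.a_mem v i)
    rw [map_mul, map_inv, inv_mul_eq_one, map_pow] at h8
    rw [← h8, Units.val_pow_eq_pow_val]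
  rw [q_binomial, Finset.sum_range_succ']
  unfold GLn.P
  rw [gauss_zero, add_comm]
  congr 1
  · rw [Finset.sum_range (fun i => C ((-1) ^ (i + 1) * (D.q v : k) ^ ((i + 1) * (i + 1 - 1) / 2) *
      ((gauss (D.q v) n (i + 1) : ℕ) : k) * (χ (D.t v) : k) ^ (i + 1)) * (X : k[X]) ^ (n - (i + 1)))]
    refine Finset.sum_congr rfl fun i _ => ?_
    rw [h5 i, Nat.add_sub_cancel, mul_assoc ((-1) ^ ((i : ℕ) + 1) * _)]
  · simp

/-- The torus elements `t_v = diag(ϖ_v, 1)`, `t'_v = diag(1, ϖ_v)` in the Borel subgroup of `GL_2`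
and the representatives: `q_v` of those of `T_{v,1}` are in `N t_v`, one is in `N t'_v`, and that of
`T_{v,2}` is `t_v t'_v`. -/
structure GL2Borel (D : GLn A 2) (Bo : Borel G) where
  t : D.V → Bo.B
  t' : D.V → Bo.B

structure GL2Borel.Known {D : GLn A 2} {Bo : Borel G} (E : GL2Borel D Bo) : Prop where
  t_eq : ∀ v, (E.t v : G) = D.t v
  t'_eq : ∀ v, (E.t v : G)⁻¹ * E.t' v ∈ A.G1
  h1 : ∀ v, ∃ j₀, A.h (D.T v 0) j₀ * (E.t' v : G)⁻¹ ∈ Bo.N ∧
    ∀ j, j ≠ j₀ → A.h (D.T v 0) j * (E.t v : G)⁻¹ ∈ Bo.N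
  h2 : ∀ v j, A.h (D.T v 1) j * (E.t v * E.t' v : G)⁻¹ ∈ Bo.N

/-- The Hecke polynomials are `(X - q_v χ(t_v)) (X - χ(t'_v))` for a character `χ` of the Borel
subgroup over `𝔸_f`, trivial on `N`, on `Γ ∩ B` and on an open subgroup, i.e. for a pair of Hecke
characters `x ↦ χ(diag(x, 1))`, `x ↦ χ(diag(1, x))`. -/
def GL2Borel.Reducible {D : GLn A 2} {Bo : Borel G} (E : GL2Borel D Bo) (l : A.P → R) : Prop :=
  ∃ (k : Type) (_ : Field k) (f : R →+* k) (χ : Bo.B →* kˣ),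
    (∀ x : Bo.B, (x : G) ∈ A.Γ → χ x = 1) ∧
    (∀ x : Bo.B, (x : G) ∈ Bo.N → χ x = 1) ∧ (∃ U ∈ A.opens, ∀ x : Bo.B, (x : G) ∈ U → χ x = 1) ∧
    {v | D.P f l v ≠ (X - C ((D.q v : k) * (χ (E.t v) : k))) * (X - C (χ (E.t' v) : k))}.Finite

theorem GL2Borel.reducible_of_oneDim {D : GLn A 2} (hD : D.Known) {Bo : Borel G}
    (hN : Bo.N ≤ A.G1) (E : GL2Borel D Bo) (hE : E.Known) (l : A.P → R)
    (h : OneDim A l) : E.Reducible l := by
  obtain ⟨k, hk, f, χ, h1, h2, ⟨U, hU, h3⟩, h4⟩ := D.oneDimPoly hD l h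
  refine ⟨k, hk, f, χ.comp Bo.B.subtype, fun x hx => h1 _ hx, fun x hx => h2 _ (hN hx),
    ⟨U, hU, fun x hx => h3 _ hx⟩, h4.subset ?_⟩
  intro v hv hP
  apply hv
  rw [hP]
  have e1 : (χ.comp Bo.B.subtype) (E.t v) = χ (D.t v) := by
    rw [← hE.t_eq]
    rfl
  have e2 : (χ.comp Bo.B.subtype) (E.t' v) = χ (D.t v) := by
    have h5 := h2 _ (hE.t'_eq v)
    rw [map_mul, map_inv, inv_mul_eq_one] at h5
    rw [← hE.t_eq, h5]
    rfl
  rw [e1, e2, Finset.prod_range_succ, Finset.prod_range_one, pow_zero, one_mul, pow_one, mul_comm]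

theorem GL2Borel.reducible_of_ps {D : GLn A 2} (hD : D.Known) {Bo : Borel G}
    (E : GL2Borel D Bo) (hE : E.Known) (l : A.P → R)
    (h : PrincipalSeries A Bo l) : E.Reducible l := by
  obtain ⟨k, hk, f, χ, h1, h2, h3, hh, h4⟩ := h
  refine ⟨k, hk, f, χ, h1, h2, h3, (D.finite hD _ h4).subset ?_⟩
  intro v hv
  by_contra hcon
  apply hv
  have key : ∀ i, f (l (D.T v i)) = ∑ j, (χ ⟨A.h (D.T v i) j, hh _ j⟩ : k) := by
    intro i
    by_contra h7
    exact hcon ⟨i, h7⟩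
  have hχ : ∀ (x y : Bo.B), (x : G) * (y : G)⁻¹ ∈ Bo.N → χ x = χ y := by
    intro x y hxy
    have h5 := h2 (x * y⁻¹) hxy
    rw [map_mul, map_inv, mul_inv_eq_one] at h5
    exact h5
  obtain ⟨j₀, hj₀, hj⟩ := hE.h1 v
  have e1 : f (l (D.T v 0)) = (D.q v : k) * (χ (E.t v) : k) + (χ (E.t' v) : k) := by
    classical
    rw [key 0, ← Finset.add_sum_erase _ _ (Finset.mem_univ j₀), add_comm]
    congr 1
    · rw [Finset.sum_congr rfl (g := fun _ => (χ (E.t v) : k))]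
      · rw [Finset.sum_const, nsmul_eq_mul]
        congr 1
        have hc := hD.card v 0
        have hg : gauss (D.q v) 2 1 = D.q v + 1 := by
          simp [gauss]
          ring
        rw [Finset.card_erase_of_mem (Finset.mem_univ _), Finset.card_univ, hc]
        change ((gauss (D.q v) 2 (0 + 1) - 1 : ℕ) : k) = _
        rw [hg]
        simp
      · intro j hjj
        rw [hχ _ (E.t v) (hj j (Finset.ne_of_mem_erase hjj))]
    · rw [hχ _ (E.t' v) hj₀]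
  have e2 : f (l (D.T v 1)) = (χ (E.t v) : k) * (χ (E.t' v) : k) := by
    rw [key 1, Finset.sum_congr rfl (g := fun _ => (χ (E.t v) : k) * (χ (E.t' v) : k))]
    · rw [Finset.sum_const, Finset.card_univ, hD.card v 1]
      have hg : gauss (D.q v) 2 (((1 : Fin 2) : ℕ) + 1) = 1 := by
        simp [gauss]
      rw [hg, one_smul]
    · intro j _
      rw [hχ _ (E.t v * E.t' v) (hE.h2 v j), map_mul, Units.val_mul]
  unfold GLn.P
  rw [Fin.sum_univ_two]
  rw [e1, e2]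
  norm_num
  ring

end N122.CG
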