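import Mathlib
import Pool.Agent.N122.Chord
import Pool.Agent.H552R3.Tsen.C1

/-! # Linear spaces on a smooth cubic over any field -/

set_option autoImplicit false

namespace Pool.Agent.N122

open MvPolynomial Pool.Agent.TH314.PD Module IntermediateField Pool.Agent.Y201.C3
open Pool.Agent.R845.T2 Pool.Agent.R845.E3

noncomputable section

section

variable {N : ℕ} {F : MvPolynomial (Fin N) ℂ} {T : Fin N → Fin N → Fin N → ℂ}

/-- a smooth cubic has no singular point over any field -/
theorem smK (hF : F.IsHomogeneous 3) (hsm : Sm F) (hT : SymG T) (hFT : F = Bg T X X X)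
    {Ω : Type} [Field Ω] [Algebra ℂ Ω] (q : Fin N → Ω) (h : ∀ i, Bg T (Rat.ev Ω i) q q = 0) :
    q = 0 := by
  refine Pool.Agent.Y394.LI.bpf N F hsm 3 hF Ω (algebraMap ℂ Ω) q (by simp) fun i => ?_
  have h1 := Rat.pd_ev (R := Ω) hT i q
  rw [← aeval_def, hFT, h1, Bg_swap23 hT, Bg_swap12 hT, h, mul_zero]

/-- the values of the trilinear form at a vector written in the standard basis -/
theorem Bg_ev1 (T : Fin N → Fin N → Fin N → ℂ) {R : Type} [CommRing R] [Algebra ℂ R]
    (x y z : Fin N → R) : Bg T x y z = ∑ i, x i * Bg T (Rat.ev R i) y z := by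
  conv_lhs => rw [← sum_ev x]
  rw [Bg_sum1]
  refine Finset.sum_congr rfl fun i _ => ?_
  rw [Bg_smul1]

theorem smK' (hF : F.IsHomogeneous 3) (hsm : Sm F) (hT : SymG T) (hFT : F = Bg T X X X)
    {Ω : Type} [Field Ω] [Algebra ℂ Ω] (q : Fin N → Ω) (hq : q ≠ 0) :
    ∃ i, Bg T (Rat.ev Ω i) q q ≠ 0 := by
  by_contra hcon
  push Not at hcon
  exact hq (smK hF hsm hT hFT q hcon)

/-- change of the base field -/
theorem Bg_map {K Ω : Type} [Field K] [Field Ω] [Algebra ℂ K] [Algebra ℂ Ω] [Algebra K Ω]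
    [IsScalarTower ℂ K Ω] (x y z : Fin N → K) :
    Bg T (fun i => algebraMap K Ω (x i)) (fun i => algebraMap K Ω (y i))
      (fun i => algebraMap K Ω (z i)) = algebraMap K Ω (Bg T x y z) :=
  (map_Bg (IsScalarTower.toAlgHom ℂ K Ω) T x y z).symm

/-- **Linear subspaces**: if the cubic is tangent along `L` to `L'` then
`dim L + dim L' ≤ N`. -/
theorem nl (hF : F.IsHomogeneous 3) (hsm : Sm F) (hT : SymG T) (hFT : F = Bg T X X X)
    {K : Type} [Field K] [Algebra ℂ K] (L L' : Submodule K (Fin N → K))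
    (h : ∀ a ∈ L, ∀ b ∈ L, ∀ d ∈ L', Bg T a b d = 0) :
    finrank K L + finrank K L' ≤ N := by
  classical
  by_contra hcon
  push Not at hcon
  let Ω := AlgebraicClosure K
  obtain ⟨Q, hQ⟩ := Submodule.exists_isCompl L'
  set p := finrank K L with hp
  let a := finBasis K L
  let e := finBasis K Q
  have hdim : finrank K L' + finrank K Q = N := by
    rw [Submodule.finrank_add_eq_of_isCompl hQ, finrank_fin_fun]
  -- quadrics
  let av : Fin (finrank K L) → Fin N → Ω := fun i m => algebraMap K Ω ((a i : Fin N → K) m)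
  let ev' : Fin (finrank K Q) → Fin N → Ω := fun j m => algebraMap K Ω ((e j : Fin N → K) m)
  let P : Fin (finrank K Q) → MvPolynomial (Fin (finrank K L)) Ω := fun j =>
    ∑ i, ∑ i', C (Bg T (av i) (av i') (ev' j)) * X i * X i'
  obtain ⟨l, hl, hlP⟩ := Pool.Agent.H552R3.Tsen.exists_common_zero P (by
    intro j
    simp only [P, map_sum, map_mul, eval_X, Pi.zero_apply, mul_zero, Finset.sum_const_zero]) (by
    rw [Fintype.card_fin, Fintype.card_fin]
    omega)
  set v : Fin N → Ω := fun m => ∑ i, l i * av i m with hv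
  have hBv : ∀ y : Fin N → Ω, Bg T v v y = ∑ i, ∑ i', Bg T (av i) (av i') y * l i * l i' := by
    intro y
    rw [hv, Bg_sum1]
    refine Finset.sum_congr rfl fun i _ => ?_
    rw [Bg_smul1, Bg_sum2 hT, Finset.mul_sum]
    refine Finset.sum_congr rfl fun i' _ => ?_
    rw [Bg_smul2]
    ring
  have h1 : ∀ j, Bg T v v (ev' j) = 0 := by
    intro j
    rw [hBv, ← hlP j]
    simp only [P, map_sum, map_mul, eval_X, eval_C]
  have h2 : ∀ d ∈ L', Bg T v v (fun m => algebraMap K Ω (d m)) = 0 := by
    intro d hd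
    rw [hBv]
    refine Finset.sum_eq_zero fun i _ => Finset.sum_eq_zero fun i' _ => ?_
    have h3 : Bg T (av i) (av i') (fun m => algebraMap K Ω (d m)) = 0 := by
      have h4 := Bg_map (T := T) (Ω := Ω) (a i : Fin N → K) (a i' : Fin N → K) d
      rw [h _ (a i).2 _ (a i').2 d hd, map_zero] at h4
      exact h4
    rw [h3, zero_mul, zero_mul]
  have h3 : ∀ m, Bg T v v (Rat.ev Ω m) = 0 := by
    intro m
    have h4 : (Rat.ev K m : Fin N → K) ∈ L' ⊔ Q := by
      rw [hQ.sup_eq_top]
      trivial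
    obtain ⟨d, hd, q, hq, hdq⟩ := Submodule.mem_sup.1 h4
    have h5 : Rat.ev Ω m = fun i => (fun m => algebraMap K Ω (d m)) i +
        ∑ j, algebraMap K Ω (e.repr ⟨q, hq⟩ j) * ev' j i := by
      funext i
      have h6 : q = ∑ j, e.repr ⟨q, hq⟩ j • (e j : Fin N → K) := by
        have h9 := congrArg Q.subtype (e.sum_repr ⟨q, hq⟩)
        have h10 : Q.subtype (∑ j, e.repr ⟨q, hq⟩ j • e j) =
            ∑ j, e.repr ⟨q, hq⟩ j • (e j : Fin N → K) := by
          rw [map_sum]
          exact Finset.sum_congr rfl fun j _ => Q.subtype.map_smul _ _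
        exact (h10.symm.trans h9).symm
      have h7 : Rat.ev Ω m i = algebraMap K Ω (Rat.ev K m i) := by
        unfold Rat.ev
        split_ifs
        · rw [map_one]
        · rw [map_zero]
      have h8 : q i = ∑ j, e.repr ⟨q, hq⟩ j * (e j : Fin N → K) i := by
        conv_lhs => rw [h6]
        simp
      rw [h7, ← hdq, Pi.add_apply, map_add, h8, map_sum]
      congr 1
      refine Finset.sum_congr rfl fun j _ => ?_
      rw [map_mul]
    rw [h5, Bg_add3, h2 d hd, zero_add, Bg_sum3 hT]
    refine Finset.sum_eq_zero fun j _ => ?_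
    rw [Bg_smul3, h1, mul_zero]
  have h4 : v = 0 := by
    apply smK hF hsm hT hFT
    intro i
    rw [Bg_swap12 hT, Bg_swap23 hT]
    exact h3 i
  -- the coefficients vanish
  apply hl
  let f : (Fin (finrank K L) → K) →ₗ[K] (Fin N → K) :=
    L.subtype ∘ₗ (a.equivFun.symm : (Fin (finrank K L) → K) ≃ₗ[K] L).toLinearMap
  have hf : LinearMap.ker f = ⊥ := by
    rw [LinearMap.ker_eq_bot]
    intro x y hxy
    exact a.equivFun.symm.injective (Subtype.ext hxy)
  obtain ⟨g, hg⟩ := LinearMap.exists_leftInverse_of_injective f hf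
  have hga : ∀ j, g (a j : Fin N → K) = Pi.single j 1 := by
    intro j
    have h5 : f (Pi.single j 1) = (a j : Fin N → K) := by
      simp [f]
    rw [← h5, ← LinearMap.comp_apply, hg, LinearMap.id_apply]
  have hgm : ∀ (x : Fin N → K) i, g x i = ∑ m, x m * g (Rat.ev K m) i := by
    intro x i
    have h5 : x = ∑ m, x m • Rat.ev K m := by
      funext j
      rw [← congrFun (sum_ev x) j]
      simp
    conv_lhs => rw [h5]
    simp
  funext i
  have h5 : ∑ m, v m * algebraMap K Ω (g (Rat.ev K m) i) = l i := by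
    have h11 : ∑ m, v m * algebraMap K Ω (g (Rat.ev K m) i) =
        ∑ j, ∑ m, l j * av j m * algebraMap K Ω (g (Rat.ev K m) i) := by
      rw [Finset.sum_comm]
      refine Finset.sum_congr rfl fun m _ => ?_
      rw [← Finset.sum_mul]
    rw [h11]
    have h6 : ∀ j, ∑ m, l j * av j m * algebraMap K Ω (g (Rat.ev K m) i) =
        l j * algebraMap K Ω (if i = j then 1 else 0) := by
      intro j
      have h7 := hgm (a j : Fin N → K) i
      rw [hga j, Pi.single_apply] at h7
      rw [h7, map_sum, Finset.mul_sum]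
      refine Finset.sum_congr rfl fun m _ => ?_
      rw [map_mul]
      simp only [av]
      ring
    rw [Finset.sum_congr rfl fun j _ => h6 j, Finset.sum_eq_single i]
    · rw [if_pos rfl, map_one, mul_one]
    · intro j _ hj
      rw [if_neg (Ne.symm hj), map_zero, mul_zero]
    · intro hh
      exact absurd (Finset.mem_univ i) hh
  rw [← h5, h4]
  simp

end

end

end Pool.Agent.N122
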