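import Mathlib
import Pool.Agent.N122.Nl

/-! # Flex lines of a smooth cubic over a field with Tsen's property -/

set_option autoImplicit false

namespace Pool.Agent.N122

open MvPolynomial Pool.Agent.TH314.PD Module IntermediateField Pool.Agent.Y201.C3
open Pool.Agent.R845.T2 Pool.Agent.R845.E3

noncomputable section

section

variable {N : ℕ} {F : MvPolynomial (Fin N) ℂ} {T : Fin N → Fin N → Fin N → ℂ}
  {K : Type} [Field K] [Algebra ℂ K]

theorem numK (n : ℕ) (hn : n ≠ 0) : (n : K) ≠ 0 := by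
  have h7 : algebraMap ℂ K n ≠ 0 := by
    rw [Ne, map_eq_zero]
    exact_mod_cast hn
  rwa [map_natCast] at h7

/-- polarization -/
theorem pol (hT : SymG T) (L : Submodule K (Fin N → K)) (h : ∀ a ∈ L, Bg T a a a = 0) :
    ∀ a ∈ L, ∀ b ∈ L, ∀ d ∈ L, Bg T a b d = 0 := by
  intro a ha b hb d hd
  have hv : ∀ x y z : K, Bg T (fun i => x * a i + y * b i + z * d i)
      (fun i => x * a i + y * b i + z * d i) (fun i => x * a i + y * b i + z * d i) = 0 := by
    intro x y z
    have h1 : (fun i => x * a i + y * b i + z * d i) = x • a + y • b + z • d := by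
      funext i
      simp
    rw [h1]
    exact h _ (L.add_mem (L.add_mem (L.smul_mem _ ha) (L.smul_mem _ hb)) (L.smul_mem _ hd))
  have e1 := (Bg_span3 hT a b d 1 1 1).symm.trans (hv 1 1 1)
  have e2 := (Bg_span3 hT a b d 1 1 0).symm.trans (hv 1 1 0)
  have e3 := (Bg_span3 hT a b d 1 0 1).symm.trans (hv 1 0 1)
  have e4 := (Bg_span3 hT a b d 0 1 1).symm.trans (hv 0 1 1)
  have e5 := h a ha
  have e6 := h b hb
  have e7 := h d hd
  have h6 : (6 : K) * Bg T a b d = 0 := by
    linear_combination e1 - e2 - e3 - e4 + e5 + e6 + e7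
  have h60 : (6 : K) ≠ 0 := by exact_mod_cast numK (K := K) 6 (by norm_num)
  exact (mul_eq_zero.1 h6).resolve_left h60

/-- a polynomial of degree at most six which vanishes everywhere -/
theorem coef6 (c : Fin 7 → K) (h : ∀ l : K, ∑ i, c i * l ^ (i : ℕ) = 0) : ∀ i, c i = 0 := by
  have hch : CharZero K := charZero_of_injective_algebraMap (algebraMap ℂ K).injective
  have h1 : (∑ i : Fin 7, Polynomial.C (c i) * Polynomial.X ^ (i : ℕ) : Polynomial K) = 0 := by
    apply Polynomial.funext
    intro l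
    rw [Polynomial.eval_zero, ← h l, Polynomial.eval_finsetSum]
    refine Finset.sum_congr rfl fun i _ => ?_
    rw [Polynomial.eval_mul, Polynomial.eval_C, Polynomial.eval_pow, Polynomial.eval_X]
  intro i
  have h2 := congrArg (fun p => Polynomial.coeff p (i : ℕ)) h1
  simp only [Polynomial.finsetSum_coeff, Polynomial.coeff_C_mul, Polynomial.coeff_X_pow,
    Polynomial.coeff_zero] at h2
  rw [Finset.sum_eq_single i] at h2
  · simpa using h2
  · intro j _ hj
    rw [if_neg, mul_zero]
    intro h3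
    exact hj (Fin.ext h3.symm)
  · intro hh
    exact absurd (Finset.mem_univ i) hh

/-- the linear form `Bg x y -` -/
def bl (T : Fin N → Fin N → Fin N → ℂ) (x y : Fin N → K) : (Fin N → K) →ₗ[K] K where
  toFun z := Bg T x y z
  map_add' a b := Bg_add3 T x y a b
  map_smul' a b := Bg_smul3 T a x y b

theorem bl_apply (x y z : Fin N → K) : bl T x y z = Bg T x y z := rfl

/-- one isotropic vector outside the radical is impossible -/
theorem flx1 (hF : F.IsHomogeneous 3) (hsm : Sm F) (hT : SymG T) (hFT : F = Bg T X X X)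
    (hN : 4 < N) (c : Fin N → K)
    (H : ∀ v, Bg T c c v = 0 → Bg T c v v = 0 → Bg T v v v = 0) (v0 w : Fin N → K)
    (hv1 : Bg T c c v0 = 0) (hv2 : Bg T c v0 v0 = 0) (hw1 : Bg T c c w = 0)
    (hw2 : Bg T c v0 w ≠ 0) : False := by
  classical
  have h2K : (2 : K) ≠ 0 := by exact_mod_cast numK (K := K) 2 (by norm_num)
  have h3K : (3 : K) ≠ 0 := by exact_mod_cast numK (K := K) 3 (by norm_num)
  -- the hyperbolic partner
  obtain ⟨w0, hw01, hw02, hw03⟩ : ∃ w0 : Fin N → K, Bg T c c w0 = 0 ∧ Bg T c w0 w0 = 0 ∧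
      2 * Bg T c v0 w0 = 1 := by
    set κ : K := Bg T c w w / (2 * Bg T c v0 w) with hκ
    set μ : K := 1 / (2 * Bg T c v0 w) with hμ
    have hκ' : κ * (2 * Bg T c v0 w) = Bg T c w w := div_mul_cancel₀ _ (mul_ne_zero h2K hw2)
    have hμ' : μ * (2 * Bg T c v0 w) = 1 := div_mul_cancel₀ _ (mul_ne_zero h2K hw2)
    refine ⟨fun i => μ * (w i + (-κ) * v0 i), ?_, ?_, ?_⟩
    · rw [Bg_smul3, Bg_add3, Bg_smul3, hw1, hv1]
      ring
    · rw [Bg_smul3, Bg_smul2, Bg_add3, Bg_smul3, Bg_add2, Bg_smul2, Bg_add2, Bg_smul2, hv2,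
        Bg_swap23 hT c w v0]
      linear_combination -μ ^ 2 * hκ'
    · rw [Bg_smul3, Bg_add3, Bg_smul3, hv2]
      linear_combination hμ'
  -- the key computation
  have key : ∀ p q : Fin N → K, Bg T c c p = 0 → Bg T c p p = 0 → Bg T c c q = 0 →
      Bg T c q q = 0 → 2 * Bg T c p q = 1 → ∀ a, Bg T c c a = 0 → Bg T c p a = 0 →
      Bg T c q a = 0 → Bg T p p a = 0 ∧ Bg T p a a = Bg T c a a * Bg T p p q ∧
        Bg T a a a = 6 * Bg T c a a * Bg T p a q := by
    intro p q hp1 hp2 hq1 hq2 hpq a ha1 ha2 ha3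
    set b := Bg T c a a with hb
    have hl : ∀ l : K, Bg T (fun i => 1 * p i + l * a i + (-l ^ 2 * b) * q i)
        (fun i => 1 * p i + l * a i + (-l ^ 2 * b) * q i)
        (fun i => 1 * p i + l * a i + (-l ^ 2 * b) * q i) = 0 := by
      intro l
      apply H
      · rw [Bg_add3, Bg_add3, Bg_smul3, Bg_smul3, Bg_smul3, hp1, ha1, hq1]
        ring
      · rw [Bg_add3, Bg_add3, Bg_smul3, Bg_smul3, Bg_smul3, Bg_add2, Bg_add2, Bg_smul2, Bg_smul2,
          Bg_smul2, Bg_add2, Bg_add2, Bg_smul2, Bg_smul2, Bg_smul2, Bg_add2, Bg_add2, Bg_smul2,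
          Bg_smul2, Bg_smul2, hp2, hq2, Bg_swap23 hT c a p, ha2, Bg_swap23 hT c a q, ha3,
          Bg_swap23 hT c q p, ← hb]
        linear_combination -l ^ 2 * b * hpq
    have h0 := coef6 ![Bg T p p p, 3 * Bg T p p a, 3 * Bg T p a a - 3 * b * Bg T p p q,
      Bg T a a a - 6 * b * Bg T p a q, 3 * b ^ 2 * Bg T p q q - 3 * b * Bg T a a q,
      3 * b ^ 2 * Bg T a q q, -b ^ 3 * Bg T q q q] (by
        intro l
        rw [← hl l, Bg_span3 hT p a q 1 l (-l ^ 2 * b)]
        simp [Fin.sum_univ_succ]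
        ring)
    have e1 := h0 1
    have e2 := h0 2
    have e3 := h0 3
    simp only [Matrix.cons_val] at e1 e2 e3
    refine ⟨(mul_eq_zero.1 e1).resolve_left h3K, ?_, ?_⟩
    · apply mul_left_cancel₀ h3K
      linear_combination e2
    · linear_combination e3
  set W := Bg T w0 w0 v0 with hW
  set V := Bg T w0 v0 v0 with hV
  -- the linear space
  let f : (Fin N → K) →ₗ[K] K × K := LinearMap.prod (bl T c c)
    (bl T w0 v0 - W • bl T c v0 - V • bl T c w0)
  have hfd : finrank K (LinearMap.range f) ≤ 2 := by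
    refine (Submodule.finrank_le _).trans ?_
    rw [finrank_prod, finrank_self]
  have hfk := f.finrank_range_add_finrank_ker
  rw [finrank_fin_fun] at hfk
  have hL : ∀ y ∈ LinearMap.ker f, Bg T y y y = 0 := by
    intro y hy
    rw [LinearMap.mem_ker] at hy
    have hy1 : Bg T c c y = 0 := congrArg Prod.fst hy
    have hy2 : Bg T w0 v0 y - W * Bg T c v0 y - V * Bg T c w0 y = 0 := congrArg Prod.snd hy
    set x := 2 * Bg T c v0 y with hx
    set z := 2 * Bg T c w0 y with hz
    set a : Fin N → K := fun i => y i + (-x) * w0 i + (-z) * v0 i with ha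
    have ha1 : Bg T c c a = 0 := by
      rw [ha, Bg_add3, Bg_add3, Bg_smul3, Bg_smul3, hy1, hw01, hv1]
      ring
    have ha2 : Bg T c w0 a = 0 := by
      rw [ha, Bg_add3, Bg_add3, Bg_smul3, Bg_smul3, hw02, Bg_swap23 hT c w0 v0]
      linear_combination -Bg T c w0 y * hw03
    have ha3 : Bg T c v0 a = 0 := by
      rw [ha, Bg_add3, Bg_add3, Bg_smul3, Bg_smul3, hv2]
      linear_combination -Bg T c v0 y * hw03
    have hwv : 2 * Bg T c w0 v0 = 1 := by rw [Bg_swap23 hT]; exact hw03
    obtain ⟨k1, k2, k3⟩ := key w0 v0 hw01 hw02 hv1 hv2 hwv a ha1 ha2 ha3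
    obtain ⟨k4, k5, -⟩ := key v0 w0 hv1 hv2 hw01 hw02 hw03 a ha1 ha3 ha2
    have hw3 : Bg T w0 w0 w0 = 0 := H _ hw01 hw02
    have hv3 : Bg T v0 v0 v0 = 0 := H _ hv1 hv2
    have hyd : (fun i => x * w0 i + 1 * a i + z * v0 i) = y := by
      funext i
      simp only [ha]
      ring
    have h1 := Bg_span3 hT w0 a v0 x 1 z
    rw [hyd] at h1
    have hM : Bg T w0 a v0 = Bg T w0 v0 y - x * W - z * V := by
      rw [Bg_swap23 hT, ha, Bg_add3, Bg_add3, Bg_smul3, Bg_smul3, Bg_swap23 hT w0 v0 w0]
      ring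
    have hM2 : 6 * Bg T w0 a v0 = -(3 * x * W + 3 * z * V) := by
      rw [hM]
      linear_combination 6 * hy2
    rw [h1, hw3, hv3, k1, Bg_swap12 hT a v0 v0, Bg_swap23 hT v0 a v0, k4, k2, k3,
      Bg_swap23 hT a a v0, Bg_swap12 hT a v0 a, k5, Bg_swap23 hT v0 v0 w0, Bg_swap12 hT v0 w0 v0,
      ← hW, ← hV]
    linear_combination (Bg T c a a + x * z) * hM2
  have h2 := nl hF hsm hT hFT (LinearMap.ker f) (LinearMap.ker f) (pol hT _ hL)
  omega

/-- the derivative of the trilinear form -/
theorem der_Bg (D : Derivation ℂ K K) (x y z : Fin N → K) :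
    D (Bg T x y z) = Bg T (fun i => D (x i)) y z + Bg T x (fun i => D (y i)) z +
      Bg T x y (fun i => D (z i)) := by
  unfold Bg
  rw [map_sum]
  simp only [← Finset.sum_add_distrib]
  refine Finset.sum_congr rfl fun i _ => ?_
  rw [map_sum]
  refine Finset.sum_congr rfl fun j _ => ?_
  rw [map_sum]
  refine Finset.sum_congr rfl fun k _ => ?_
  rw [D.leibniz, D.leibniz, D.leibniz, D.map_algebraMap]
  simp only [smul_eq_mul, mul_zero, add_zero]
  ring

/-- an element which is killed by all derivations is a constant -/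
theorem const_of_der (a : K) (h : ∀ D : Derivation ℂ K K, D a = 0) :
    ∃ b : ℂ, algebraMap ℂ K b = a := by
  have hch : CharZero K := charZero_of_injective_algebraMap (algebraMap ℂ K).injective
  by_contra hcon
  have htr : Transcendental ℂ a := by
    intro halg
    apply hcon
    have hi : IsIntegral ℂ a := halg.isIntegral
    have h1 : (minpoly ℂ a).degree = 1 :=
      IsAlgClosed.degree_eq_one_of_irreducible ℂ (minpoly.irreducible hi)
    exact minpoly.mem_range_of_degree_eq_one ℂ a h1
  have hai : AlgebraicIndependent ℂ (fun _ : Fin 1 => a) :=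
    algebraicIndependent_unique_type_iff.2 htr
  obtain ⟨δ, hδ⟩ := exists_dual (fun _ : Fin 1 => a) hai
  have h1 := hδ 0 0
  rw [if_pos rfl, h (δ 0)] at h1
  exact zero_ne_one h1

/-- **Existence of a flex line through a point with moving tangent hyperplane.** -/
theorem flx2 (hF : F.IsHomogeneous 3) (hsm : Sm F) (hT : SymG T) (hFT : F = Bg T X X X)
    (hN : 5 < N) (hTs : ∀ Ψ : MvPolynomial (Fin 3) K, Ψ.totalDegree ≤ 2 → eval 0 Ψ = 0 →
      ∃ a : Fin 3 → K, a ≠ 0 ∧ eval a Ψ = 0)
    (c : Fin N → K) (hc : c ≠ 0) (hcF : Bg T c c c = 0) :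
    (∃ v, Bg T c c v = 0 ∧ Bg T c v v = 0 ∧ Bg T v v v ≠ 0) ∨
    (∃ (γ : Fin N → ℂ) (k : K), k ≠ 0 ∧ ∀ i, Bg T c c (Rat.ev K i) = k * algebraMap ℂ K (γ i)) := by
  classical
  by_cases H : ∀ v, Bg T c c v = 0 → Bg T c v v = 0 → Bg T v v v = 0
  swap
  · push Not at H
    obtain ⟨v, h1, h2, h3⟩ := H
    exact Or.inl ⟨v, h1, h2, h3⟩
  right
  have h2K : (2 : K) ≠ 0 := by exact_mod_cast numK (K := K) 2 (by norm_num)
  -- isotropic vectors are in the radical
  have hrad : ∀ v, Bg T c c v = 0 → Bg T c v v = 0 → ∀ w, Bg T c c w = 0 → Bg T c v w = 0 := by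
    intro v h1 h2 w h3
    by_contra h4
    exact flx1 hF hsm hT hFT (by omega) c H v w h1 h2 h3 h4
  let Tt : Submodule K (Fin N → K) := LinearMap.ker (bl T c c)
  have hTt : ∀ v, v ∈ Tt ↔ Bg T c c v = 0 := fun v => LinearMap.mem_ker
  let R : Submodule K (Fin N → K) :=
    { carrier := {v | Bg T c c v = 0 ∧ ∀ w, Bg T c c w = 0 → Bg T c v w = 0}
      zero_mem' := by
        refine ⟨(bl T c c).map_zero, fun w _ => ?_⟩
        rw [Bg_swap12 hT]
        exact Bg_zero1 T c w
      add_mem' := by
        intro a b ha hb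
        refine ⟨?_, fun w hw => ?_⟩
        · have := Bg_add3 T c c a b
          rw [ha.1, hb.1, add_zero] at this
          exact this
        · have := Bg_add2 T c a b w
          rw [ha.2 w hw, hb.2 w hw, add_zero] at this
          exact this
      smul_mem' := by
        intro l a ha
        refine ⟨?_, fun w hw => ?_⟩
        · have := Bg_smul3 T l c c a
          rw [ha.1, mul_zero] at this
          exact this
        · have := Bg_smul2 T l c a w
          rw [ha.2 w hw, mul_zero] at this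
          exact this }
  have hRm : ∀ v, v ∈ R ↔ Bg T c c v = 0 ∧ ∀ w, Bg T c c w = 0 → Bg T c v w = 0 :=
    fun v => Iff.rfl
  have hRF : ∀ a ∈ R, Bg T a a a = 0 := fun a ha => H a ha.1 (ha.2 a ha.1)
  have hRp := pol hT R hRF
  have hcR : c ∈ R := ⟨hcF, fun w hw => hw⟩
  have hdT : N ≤ finrank K Tt + 1 := by
    have h1 := (bl T c c).finrank_range_add_finrank_ker
    rw [finrank_fin_fun] at h1
    have h2 : finrank K (LinearMap.range (bl T c c)) ≤ 1 := by
      refine (Submodule.finrank_le _).trans ?_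
      rw [finrank_self]
    have h3 : finrank K Tt = finrank K (LinearMap.ker (bl T c c)) := rfl
    omega
  -- the dimension of the radical
  have hdR : N ≤ finrank K R + 3 := by
    by_contra hcon
    push Not at hcon
    have hRT : R ≤ Tt := fun v hv => hv.1
    let R' : Submodule K Tt := R.submoduleOf Tt
    have h1 : finrank K R' = finrank K R :=
      LinearEquiv.finrank_eq (Submodule.submoduleOfEquivOfLe hRT)
    have h2 := R'.finrank_quotient_add_finrank
    let b := finBasis K (Tt ⧸ R')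
    have h3 : 3 ≤ finrank K (Tt ⧸ R') := by omega
    let e : Fin 3 → Tt := fun i => Classical.choose
      (Submodule.mkQ_surjective R' (b (Fin.castLE h3 i)))
    have he : ∀ i, R'.mkQ (e i) = b (Fin.castLE h3 i) := fun i => Classical.choose_spec
      (Submodule.mkQ_surjective R' (b (Fin.castLE h3 i)))
    let ev' : Fin 3 → Fin N → K := fun i => (e i : Fin N → K)
    obtain ⟨x, hx, hx0⟩ := hTs (∑ i, ∑ j, C (Bg T c (ev' i) (ev' j)) * X i * X j) (by
      refine totalDegree_finsetSum_le fun i _ => totalDegree_finsetSum_le fun j _ => ?_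
      refine (totalDegree_mul _ _).trans ?_
      have h4 := totalDegree_mul (C (Bg T c (ev' i) (ev' j)) : MvPolynomial (Fin 3) K) (X i)
      rw [totalDegree_C, totalDegree_X] at h4
      rw [totalDegree_X]
      omega) (by
      simp only [map_sum, map_mul, eval_X, Pi.zero_apply, mul_zero, Finset.sum_const_zero])
    set v : Fin N → K := fun m => ∑ i, x i * ev' i m with hv
    have hv1 : Bg T c v v = 0 := by
      rw [← hx0, hv, Bg_sum2 hT, map_sum]
      refine Finset.sum_congr rfl fun i _ => ?_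
      rw [Bg_smul2, Bg_sum3 hT, map_sum, Finset.mul_sum]
      refine Finset.sum_congr rfl fun j _ => ?_
      rw [Bg_smul3, map_mul, map_mul, eval_C, eval_X, eval_X]
      ring
    have hvT : v ∈ Tt := by
      have h4 : v = ∑ i, x i • ev' i := by
        funext m
        simp [hv]
      rw [h4]
      exact Tt.sum_mem fun i _ => Tt.smul_mem _ (e i).2
    have hvR : v ∈ R := ⟨hvT, hrad v hvT hv1⟩
    have h4 : R'.mkQ (∑ i, x i • e i) = 0 := by
      rw [Submodule.mkQ_apply, Submodule.Quotient.mk_eq_zero]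
      change ((∑ i, x i • e i : Tt) : Fin N → K) ∈ R
      have h5 : ((∑ i, x i • e i : Tt) : Fin N → K) = v := by
        rw [Submodule.coe_sum]
        funext m
        simp [hv, ev']
      rw [h5]
      exact hvR
    rw [map_sum] at h4
    have h5 : ∑ i, x i • b (Fin.castLE h3 i) = 0 := by
      rw [← h4]
      refine Finset.sum_congr rfl fun i _ => ?_
      rw [map_smul, he]
    have h6 : LinearIndependent K (fun i => b (Fin.castLE h3 i)) :=
      b.linearIndependent.comp _ (Fin.castLE_injective h3)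
    exact hx (funext ((Fintype.linearIndependent_iff.1 h6) x h5))
  -- derivatives of the point
  have hDc : ∀ D : Derivation ℂ K K, (fun i => D (c i)) ∈ R := by
    intro D
    set d : (Fin N → K) → (Fin N → K) := fun x i => D (x i) with hd
    have hDB : ∀ x y z : Fin N → K, D (Bg T x y z) =
        Bg T (d x) y z + Bg T x (d y) z + Bg T x y (d z) := fun x y z => der_Bg D x y z
    -- the derivative of the point is in the tangent hyperplane
    have e1 : Bg T c c (d c) = 0 := by
      have h1 := hDB c c c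
      rw [hcF, map_zero, Bg_swap12 hT (d c) c c, Bg_swap23 hT c (d c) c] at h1
      have h3 : (3 : K) ≠ 0 := by exact_mod_cast numK (K := K) 3 (by norm_num)
      have h4 : (3 : K) * Bg T c c (d c) = 0 := by linear_combination -h1
      exact (mul_eq_zero.1 h4).resolve_left h3
    have e2 : ∀ b ∈ R, Bg T c c (d b) = 0 := by
      intro b hb
      have h1 := hDB c c b
      rw [hb.1, map_zero, Bg_swap12 hT (d c) c b, Bg_swap23 hT c (d c) b, hb.2 _ e1] at h1
      linear_combination -h1
    have e3 : ∀ a ∈ R, ∀ b ∈ R, Bg T a b (d c) = 0 := by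
      intro a ha b hb
      have h1 := hDB c a b
      rw [hRp c hcR a ha b hb, map_zero, Bg_swap23 hT c (d a) b, hb.2 _ (e2 a ha),
        ha.2 _ (e2 b hb), Bg_swap12 hT (d c) a b, Bg_swap23 hT a (d c) b] at h1
      linear_combination -h1
    by_contra hcon
    have hlt : finrank K R < finrank K (R ⊔ Submodule.span K {d c} : Submodule K (Fin N → K)) := by
      apply Submodule.finrank_lt_finrank_of_lt
      refine lt_of_le_of_ne le_sup_left fun h => hcon ?_
      rw [h]
      exact (le_sup_right : Submodule.span K {d c} ≤ _) (Submodule.mem_span_singleton_self _)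
    have h1 := nl hF hsm hT hFT R (R ⊔ Submodule.span K {d c}) (by
      intro a ha b hb x hx
      obtain ⟨y, hy, z, hz, rfl⟩ := Submodule.mem_sup.1 hx
      obtain ⟨l, rfl⟩ := Submodule.mem_span_singleton.1 hz
      have h2 : Bg T a b (y + l • d c) = Bg T a b y + l * Bg T a b (d c) := by
        have h3 := Bg_add3 T a b y (l • d c)
        have h4 := Bg_smul3 T l a b (d c)
        exact h3.trans (congrArg (Bg T a b y + ·) h4)
      rw [h2, hRp a ha b hb y hy, e3 a ha b hb]
      ring)
    omega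
  -- the ratios of the tangent form are constant
  obtain ⟨i0, hi0⟩ := smK' hF hsm hT hFT c hc
  have hi0' : Bg T c c (Rat.ev K i0) ≠ 0 := by
    rw [Bg_swap23 hT, Bg_swap12 hT]
    exact hi0
  have hconst : ∀ i, ∃ γ : ℂ, algebraMap ℂ K γ = Bg T c c (Rat.ev K i) / Bg T c c (Rat.ev K i0) := by
    intro i
    apply const_of_der
    intro D
    have hev : ∀ j : Fin N, (fun i => D (Rat.ev K j i)) = fun _ => 0 := by
      intro j
      funext i
      unfold Rat.ev
      split_ifs
      · exact D.map_one_eq_zero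
      · exact D.map_zero
    have hDg : ∀ j, D (Bg T c c (Rat.ev K j)) = 2 * Bg T c (fun i => D (c i)) (Rat.ev K j) := by
      intro j
      rw [der_Bg, hev j, Bg_swap12 hT (fun i => D (c i)) c (Rat.ev K j)]
      have h1 : Bg T c c (fun _ : Fin N => (0 : K)) = 0 := (bl T c c).map_zero
      rw [h1]
      ring
    have h1 := (hDc D).2 (fun m => Rat.ev K i m + (-(Bg T c c (Rat.ev K i) /
        Bg T c c (Rat.ev K i0))) * Rat.ev K i0 m) (by
      rw [Bg_add3, Bg_smul3]
      field_simp
      ring)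
    rw [Bg_add3, Bg_smul3] at h1
    rw [Derivation.leibniz_div, hDg, hDg]
    simp only [smul_eq_mul]
    have h2 : Bg T c c (Rat.ev K i0) * (2 * Bg T c (fun i => D (c i)) (Rat.ev K i)) -
        Bg T c c (Rat.ev K i) * (2 * Bg T c (fun i => D (c i)) (Rat.ev K i0)) = 0 := by
      field_simp at h1
      linear_combination 2 * h1
    rw [h2, mul_zero]
  choose γ hγ using hconst
  refine ⟨γ, Bg T c c (Rat.ev K i0), hi0', fun i => ?_⟩
  rw [hγ, mul_div_cancel₀ _ hi0']

end

end

end Pool.Agent.N122
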