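import Mathlib
import Pool.Agent.N122.Chord

/-! # The local analysis of a flex line through a point of a curve -/

set_option autoImplicit false

namespace Pool.Agent.N122

open MvPolynomial Pool.Agent.TH314.PD Module FF IntermediateField Pool.Agent.Y201.C3
open Pool.Agent.R845.T2 Pool.Agent.R845.E3

noncomputable section

/-- **A generic point of odd degree has no point of `X` on its join with a point of small size.** -/
theorem gl {r : ℕ} {F : MvPolynomial (Fin (r + 2)) ℂ} (hsm : Sm F)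
    {T : Fin (r + 2) → Fin (r + 2) → Fin (r + 2) → ℂ} (hT : SymG T) (hFT : F = Bg T X X X)
    {E : Type} [Field E] [Algebra ℂ E] (z : Fin (r + 2) → E)
    (hz : ∀ (e : ℕ) (H : MvPolynomial (Fin (r + 2)) ℂ), H.IsHomogeneous e → aeval z H = 0 → H = 0)
    (hodd : Odd (finrank (ratioField z) E)) (c : Fin (r + 2) → E) (hc : Bg T c c c = 0)
    (hdim : finrank ℂ (sp1 c) + finrank ℂ (sp2 c) < r + 2)
    (h0 : Bg T (fun i => z i + c i) (fun i => z i + c i) (fun i => z i + c i) = 0) : False := by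
  obtain ⟨z0, ψ, β, β0, h1, h2, h3, h4, h5⟩ := exists_pt hT c hdim
  refine odd1 hsm hT hFT z hz hodd z0 ψ β β0 h1 c h2 hc h3 h4 h5 1 ?_
  have h6 : ∀ {R : Type} [CommRing R] [Algebra ℂ R] (v : Fin (r + 2) → R),
      aeval v F = Bg T v v v := by
    intro R _ _ v
    conv_lhs => rw [hFT]
    exact aeval_frmG T v
  rw [h6]
  simp only [one_mul]
  exact h0

/-- the quadratic form of a point on a line of `X` is nondegenerate for some point -/
theorem nondeg {N : ℕ} {F : MvPolynomial (Fin N) ℂ} (hsm : Sm F)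
    {T : Fin N → Fin N → Fin N → ℂ} (hT : SymG T) (hFT : F = Bg T X X X)
    (c0 v0 : Fin N → ℂ) (hli : LinearIndependent ℂ ![c0, v0])
    (h : ∀ y : Fin N → ℂ, Bg T y c0 c0 * Bg T y v0 v0 = Bg T y v0 c0 ^ 2) : False := by
  classical
  -- a singular point
  have hsing : ∀ q : Fin N → ℂ, (∀ y : Fin N → ℂ, Bg T y q q = 0) → q = 0 := by
    intro q hq
    apply hsm
    intro i
    have h1 := Rat.pd_ev (R := ℂ) hT i q
    rw [← aeval_eq_eval, hFT, h1, Bg_swap23 hT, Bg_swap12 hT, hq, mul_zero]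
  have hadd : ∀ y y' p q : Fin N → ℂ, Bg T (fun i => y i + y' i) p q = Bg T y p q + Bg T y' p q :=
    fun y y' p q => Bg_add1 T y y' p q
  have hc00 : c0 ≠ 0 := by
    have := hli.ne_zero 0
    simpa using this
  obtain ⟨y0, hy0⟩ : ∃ y0 : Fin N → ℂ, Bg T y0 c0 c0 ≠ 0 := by
    by_contra hcon
    push Not at hcon
    exact hc00 (hsing c0 hcon)
  set l : ℂ := Bg T y0 v0 c0 / Bg T y0 c0 c0 with hl
  -- on the kernel of the first form the second vanishes
  have hk : ∀ y : Fin N → ℂ, Bg T y c0 c0 = 0 → Bg T y v0 c0 = 0 := by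
    intro y hy
    have h1 := h y
    rw [hy, zero_mul] at h1
    exact pow_eq_zero_iff (two_ne_zero) |>.1 h1.symm
  have hdec : ∀ y : Fin N → ℂ, Bg T y v0 c0 = l * Bg T y c0 c0 := by
    intro y
    have h1 := hk (fun i => y i + (-(Bg T y c0 c0 / Bg T y0 c0 c0)) * y0 i) (by
      rw [hadd, Bg_smul1]
      field_simp
      ring)
    rw [hadd, Bg_smul1] at h1
    rw [hl]
    field_simp at h1 ⊢
    linear_combination h1
  have hd2 : ∀ y : Fin N → ℂ, Bg T y c0 c0 ≠ 0 → Bg T y v0 v0 = l ^ 2 * Bg T y c0 c0 := by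
    intro y hy
    have h1 := h y
    rw [hdec] at h1
    apply mul_left_cancel₀ hy
    rw [h1]
    ring
  have hd3 : ∀ y : Fin N → ℂ, Bg T y v0 v0 = l ^ 2 * Bg T y c0 c0 := by
    intro y
    by_cases hy : Bg T y c0 c0 = 0
    · have h1 := hd2 (fun i => y i + y0 i) (by rw [hadd, hy, zero_add]; exact hy0)
      rw [hadd, hadd, hd2 y0 hy0, hy, zero_add] at h1
      rw [hy, mul_zero]
      linear_combination h1
    · exact hd2 y hy
  -- the singular point `v0 - l c0`
  have h5 := hsing (fun i => v0 i + (-l) * c0 i) (by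
    intro y
    rw [Bg_add2, Bg_add3, Bg_add3, Bg_smul2, Bg_smul3, Bg_smul3, Bg_smul2, hd3, hdec,
      Bg_swap23 hT y c0 v0, hdec]
    ring)
  rw [LinearIndependent.pair_iff] at hli
  have h6 := hli (-l) 1 (by
    funext i
    have := congrFun h5 i
    simp only [Pi.zero_apply] at this
    simp only [Pi.add_apply, Pi.smul_apply, smul_eq_mul, Pi.zero_apply, one_mul]
    linear_combination this)
  exact one_ne_zero h6.2

section line

variable {r : ℕ} {F : MvPolynomial (Fin (r + 2)) ℂ}
  {T : Fin (r + 2) → Fin (r + 2) → Fin (r + 2) → ℂ}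
  {E : Type} [Field E] [Algebra ℂ E]

/-- the point `x c0 + y v0` -/
def pt2 (c0 v0 : Fin (r + 2) → ℂ) (x y : E) : Fin (r + 2) → E :=
  fun i => x * algebraMap ℂ E (c0 i) + y * algebraMap ℂ E (v0 i)

theorem pt2_F (hT : SymG T) (c0 v0 : Fin (r + 2) → ℂ) (h1 : Bg T c0 c0 c0 = 0)
    (h2 : Bg T c0 c0 v0 = 0) (h3 : Bg T c0 v0 v0 = 0) (x y : E) :
    Bg T (pt2 c0 v0 x y) (pt2 c0 v0 x y) (pt2 c0 v0 x y) =
      y ^ 3 * algebraMap ℂ E (Bg T v0 v0 v0) := by
  have e1 := Bg_span3 hT (fun i => algebraMap ℂ E (c0 i)) (fun i => algebraMap ℂ E (v0 i))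
    (fun i => algebraMap ℂ E (c0 i)) x y 0
  have e2 : (fun i => x * algebraMap ℂ E (c0 i) + y * algebraMap ℂ E (v0 i) +
      0 * algebraMap ℂ E (c0 i)) = pt2 c0 v0 x y := by
    funext i
    unfold pt2
    ring
  have f1 : Bg T (fun i => algebraMap ℂ E (c0 i)) (fun i => algebraMap ℂ E (c0 i))
      (fun i => algebraMap ℂ E (c0 i)) = 0 := by rw [Bg_alg, h1, map_zero]
  have f2 : Bg T (fun i => algebraMap ℂ E (c0 i)) (fun i => algebraMap ℂ E (c0 i))
      (fun i => algebraMap ℂ E (v0 i)) = 0 := by rw [Bg_alg, h2, map_zero]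
  have f3 : Bg T (fun i => algebraMap ℂ E (c0 i)) (fun i => algebraMap ℂ E (v0 i))
      (fun i => algebraMap ℂ E (v0 i)) = 0 := by rw [Bg_alg, h3, map_zero]
  rw [e2, f1, f2, f3] at e1
  rw [e1, ← Bg_alg]
  ring

/-- the join of a generic point of odd degree with a line of `X` -/
theorem gl2 (hr : 4 ≤ r) (hsm : Sm F) (hT : SymG T) (hFT : F = Bg T X X X) (z : Fin (r + 2) → E)
    (hz : ∀ (e : ℕ) (H : MvPolynomial (Fin (r + 2)) ℂ), H.IsHomogeneous e → aeval z H = 0 → H = 0)
    (hodd : Odd (finrank (ratioField z) E)) (c0 v0 : Fin (r + 2) → ℂ) (h1 : Bg T c0 c0 c0 = 0)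
    (h2 : Bg T c0 c0 v0 = 0) (h3 : Bg T c0 v0 v0 = 0) (x y : E)
    (h4 : y = 0 ∨ Bg T v0 v0 v0 = 0)
    (h0 : Bg T (fun i => z i + pt2 c0 v0 x y i) (fun i => z i + pt2 c0 v0 x y i)
      (fun i => z i + pt2 c0 v0 x y i) = 0) : False := by
  classical
  refine gl hsm hT hFT z hz hodd (pt2 c0 v0 x y) ?_ ?_ h0
  · rw [pt2_F hT c0 v0 h1 h2 h3]
    rcases h4 with h4 | h4
    · rw [h4]
      ring
    · rw [h4, map_zero, mul_zero]
  · have e1 := size_span (r := 2) (![c0, v0]) (![x, y] : Fin 2 → E)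
    have e2 : (fun i => ∑ l : Fin 2, (![x, y] : Fin 2 → E) l *
        algebraMap ℂ E ((![c0, v0] : Fin 2 → Fin (r + 2) → ℂ) l i)) = pt2 c0 v0 x y := by
      funext i
      rw [Fin.sum_univ_two]
      rfl
    rw [e2] at e1
    omega

/-- a linear form -/
theorem lin_form (z : Fin (r + 2) → E) (p q : Fin (r + 2) → ℂ) :
    ∃ P : MvPolynomial (Fin (r + 2)) ℂ,
      P.IsHomogeneous 1 ∧ (∀ y : Fin (r + 2) → ℂ, eval y P = Bg T y p q) ∧
      aeval z P = Bg T z (fun i => algebraMap ℂ E (p i)) (fun i => algebraMap ℂ E (q i)) := by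
  refine ⟨Bg T X (fun i => C (p i)) (fun i => C (q i)), ?_, fun y => ?_, ?_⟩
  · unfold Bg
    refine IsHomogeneous.sum _ _ _ fun i _ => IsHomogeneous.sum _ _ _ fun j _ =>
      IsHomogeneous.sum _ _ _ fun k _ => ?_
    have h1 := (((isHomogeneous_C (Fin (r + 2)) (T i j k)).mul (isHomogeneous_X ℂ i)).mul
      (isHomogeneous_C (Fin (r + 2)) (p j))).mul (isHomogeneous_C (Fin (r + 2)) (q k))
    exact h1
  · rw [← aeval_eq_eval, map_Bg]
    simp only [aeval_X, aeval_C, Algebra.algebraMap_self, RingHom.id_apply]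
  · rw [map_Bg]
    simp only [aeval_X, aeval_C]

/-- the quadratic form of a generic point of odd degree on a line of `X` has no zero -/
theorem iso2 (hr : 4 ≤ r) (hsm : Sm F) (hT : SymG T) (hFT : F = Bg T X X X) (z : Fin (r + 2) → E)
    (hz : ∀ (e : ℕ) (H : MvPolynomial (Fin (r + 2)) ℂ), H.IsHomogeneous e → aeval z H = 0 → H = 0)
    (hodd : Odd (finrank (ratioField z) E)) (c0 v0 : Fin (r + 2) → ℂ)
    (hli : LinearIndependent ℂ ![c0, v0]) (h1 : Bg T c0 c0 c0 = 0)
    (h2 : Bg T c0 c0 v0 = 0) (h3 : Bg T c0 v0 v0 = 0) (h4 : Bg T v0 v0 v0 = 0) (l : E)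
    (h0 : Bg T z (pt2 c0 v0 l 1) (pt2 c0 v0 l 1) = 0) : False := by
  classical
  set c : Fin (r + 2) → E := fun i => algebraMap ℂ E (c0 i) with hc
  set v : Fin (r + 2) → E := fun i => algebraMap ℂ E (v0 i) with hv
  have e0 : Bg T z v v + 2 * l * Bg T z v c + l ^ 2 * Bg T z c c = 0 := by
    rw [← h0]
    have e1 : pt2 c0 v0 l 1 = fun i => l * c i + 1 * v i := rfl
    rw [e1, Bg_add2, Bg_add3, Bg_add3, Bg_smul2, Bg_smul3, Bg_smul2, Bg_smul3, Bg_smul2,
      Bg_smul2, Bg_smul3, Bg_smul3, Bg_swap23 hT z c v]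
    ring
  -- values on the plane spanned
  have hval : ∀ x y : E, Bg T (fun i => z i + pt2 c0 v0 x y i) (fun i => z i + pt2 c0 v0 x y i)
      (fun i => z i + pt2 c0 v0 x y i) = Bg T z z z + 3 * x * Bg T z z c + 3 * y * Bg T z z v +
        3 * (x ^ 2 * Bg T z c c + 2 * x * y * Bg T z v c + y ^ 2 * Bg T z v v) := by
    intro x y
    have e1 := Bg_span3 hT z c v 1 x y
    have e2 : (fun i => 1 * z i + x * c i + y * v i) = fun i => z i + pt2 c0 v0 x y i := by
      funext i
      unfold pt2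
      simp only [hc, hv]
      ring
    have f1 : Bg T c c c = 0 := by rw [hc, Bg_alg, h1, map_zero]
    have f2 : Bg T c c v = 0 := by rw [hc, hv, Bg_alg, h2, map_zero]
    have f3 : Bg T c v v = 0 := by rw [hc, hv, Bg_alg, h3, map_zero]
    have f4 : Bg T v v v = 0 := by rw [hv, Bg_alg, h4, map_zero]
    rw [e2, f1, f2, f3, f4, Bg_swap23 hT z c v] at e1
    rw [e1]
    ring
  have hno : ∀ x y : E, Bg T z z z + 3 * x * Bg T z z c + 3 * y * Bg T z z v +
        3 * (x ^ 2 * Bg T z c c + 2 * x * y * Bg T z v c + y ^ 2 * Bg T z v v) ≠ 0 := by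
    intro x y h
    rw [← hval] at h
    exact gl2 hr hsm hT hFT z hz hodd c0 v0 h1 h2 h3 x y (Or.inr h4) h
  have h30 : (3 : E) ≠ 0 := by
    have h7 : algebraMap ℂ E 3 ≠ 0 := by
      rw [Ne, map_eq_zero]
      norm_num
    rwa [map_ofNat] at h7
  have h20 : (2 : E) ≠ 0 := by
    have h7 : algebraMap ℂ E 2 ≠ 0 := by
      rw [Ne, map_eq_zero]
      norm_num
    rwa [map_ofNat] at h7
  set β : E := Bg T z v c + l * Bg T z c c with hβ
  by_cases hβ0 : β = 0
  · -- the form is degenerate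
    apply nondeg hsm hT hFT c0 v0 hli
    have e1 : Bg T z c c * Bg T z v v = Bg T z v c ^ 2 := by
      linear_combination Bg T z c c * e0 - (Bg T z v c + l * Bg T z c c) * hβ0
    obtain ⟨P1, hP1, hP1e, hP1z⟩ := lin_form z c0 c0
    obtain ⟨P2, hP2, hP2e, hP2z⟩ := lin_form z v0 v0
    obtain ⟨P3, hP3, hP3e, hP3z⟩ := lin_form z v0 c0
    have e2 := hz 2 (P1 * P2 - P3 ^ 2) ((hP1.mul hP2).sub (hP3.pow 2)) (by
      rw [map_sub, map_mul, map_pow, hP1z, hP2z, hP3z]
      linear_combination e1)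
    intro y
    have e3 := congrArg (eval y) e2
    rw [map_sub, map_mul, map_pow, hP1e, hP2e, hP3e, map_zero] at e3
    linear_combination e3
  · -- a zero on the plane
    -- `x = l t + m`, `y = t` : the value is linear in `t`
    have hkey : ∀ m t : E, Bg T z z z + 3 * (l * t + m) * Bg T z z c + 3 * t * Bg T z z v +
        3 * ((l * t + m) ^ 2 * Bg T z c c + 2 * (l * t + m) * t * Bg T z v c +
          t ^ 2 * Bg T z v v) =
        (Bg T z z z + 3 * m * Bg T z z c + 3 * m ^ 2 * Bg T z c c) +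
          3 * t * (l * Bg T z z c + Bg T z z v + 2 * m * β) := by
      intro m t
      rw [hβ]
      linear_combination 3 * t ^ 2 * e0
    have hsol : ∀ m : E, l * Bg T z z c + Bg T z z v + 2 * m * β = 0 := by
      intro m
      by_contra hne
      obtain ⟨t, ht⟩ : ∃ t : E, t * (3 * (l * Bg T z z c + Bg T z z v + 2 * m * β)) =
          -(Bg T z z z + 3 * m * Bg T z z c + 3 * m ^ 2 * Bg T z c c) :=
        ⟨_, div_mul_cancel₀ _ (mul_ne_zero h30 hne)⟩
      apply hno (l * t + m) t
      rw [hkey]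
      linear_combination ht
    have e1 := hsol 0
    have e2 := hsol 1
    have e3 : 2 * β = 0 := by linear_combination e2 - e1
    rcases mul_eq_zero.1 e3 with h | h
    · exact h20 h
    · exact hβ0 h

/-- **The local lemma.** -/
theorem ll (hr : 4 ≤ r) (hsm : Sm F) (hT : SymG T) (hFT : F = Bg T X X X) (w : Place ℂ E)
    (u c v : Fin (r + 2) → E) (hu : ∀ i, w.Reg (u i))
    (hug : ∀ (e : ℕ) (H : MvPolynomial (Fin (r + 2)) ℂ), H.IsHomogeneous e →
      aeval (fun i => w.red (u i)) H = 0 → H = 0)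
    (hodd : Odd (finrank (ratioField fun i => w.red (u i)) w.RF)) (c0 v0 : Fin (r + 2) → ℂ)
    (hc : ∀ i, w.Reg (c i) ∧ w.red (c i) = algebraMap ℂ w.RF (c0 i))
    (hv : ∀ i, w.Reg (v i) ∧ w.red (v i) = algebraMap ℂ w.RF (v0 i))
    (hli : LinearIndependent ℂ ![c0, v0]) (hc1 : Bg T c c c = 0) (hcv : Bg T c c v = 0)
    (hcv2 : Bg T c v v = 0) (s p θ : E) (hs : s ≠ 0) (hp : p ≠ 0) (hFv : Bg T v v v ≠ 0)
    (heq : Bg T (fun i => s * u i + p * v i + θ * c i) (fun i => s * u i + p * v i + θ * c i)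
      (fun i => s * u i + p * v i + θ * c i) = 0)
    (hpar : Even (w.ord p + w.ord (Bg T v v v))) : Even (w.ord s) := by
  classical
  set ub : Fin (r + 2) → w.RF := fun i => w.red (u i) with hub
  have hcr : (fun i => w.red (c i)) = fun i => algebraMap ℂ w.RF (c0 i) :=
    funext fun i => (hc i).2
  have hvr : (fun i => w.red (v i)) = fun i => algebraMap ℂ w.RF (v0 i) :=
    funext fun i => (hv i).2
  have hcR : ∀ i, w.Reg (c i) := fun i => (hc i).1
  have hvR : ∀ i, w.Reg (v i) := fun i => (hv i).1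
  have hinj : Function.Injective (algebraMap ℂ w.RF) := (algebraMap ℂ w.RF).injective
  -- the line modulo the place
  have h1 : Bg T c0 c0 c0 = 0 := by
    have e1 := (red_Bg w T c c c hcR hcR hcR).2
    rw [hc1, w.red_zero, hcr, Bg_alg] at e1
    exact hinj (e1.symm.trans (map_zero _).symm)
  have h2 : Bg T c0 c0 v0 = 0 := by
    have e1 := (red_Bg w T c c v hcR hcR hvR).2
    rw [hcv, w.red_zero, hcr, hvr, Bg_alg] at e1
    exact hinj (e1.symm.trans (map_zero _).symm)
  have h3 : Bg T c0 v0 v0 = 0 := by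
    have e1 := (red_Bg w T c v v hcR hvR hvR).2
    rw [hcv2, w.red_zero, hcr, hvr, Bg_alg] at e1
    exact hinj (e1.symm.trans (map_zero _).symm)
  obtain ⟨r1, e1⟩ := red_Bg w T u u u hu hu hu
  obtain ⟨r2, e2⟩ := red_Bg w T u u v hu hu hvR
  obtain ⟨r3, e3⟩ := red_Bg w T u u c hu hu hcR
  obtain ⟨r4, e4⟩ := red_Bg w T u v v hu hvR hvR
  obtain ⟨r5, e5⟩ := red_Bg w T u v c hu hvR hcR
  obtain ⟨r6, e6⟩ := red_Bg w T u c c hu hcR hcR
  obtain ⟨r7, e7⟩ := red_Bg w T v v v hvR hvR hvR
  rw [hvr, Bg_alg] at e7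
  rw [hcr] at e3 e5 e6
  rw [hvr] at e2 e4 e5
  rw [← hub] at e1 e2 e3 e4 e5 e6
  -- the tangent form is not zero
  have h6 : w.red (Bg T u c c) ≠ 0 := by
    rw [e6]
    intro h0
    obtain ⟨P, hP, hPe, hPz⟩ := lin_form (T := T) ub c0 c0
    have f1 := hug 1 P hP (hPz.trans h0)
    have f2 : c0 = 0 := by
      apply hsm
      intro i
      have f3 := Rat.pd_ev (R := ℂ) hT i c0
      rw [← aeval_eq_eval, hFT, f3, Bg_swap23 hT, Bg_swap12 hT, ← hPe, f1, map_zero, mul_zero]
    exact hli.ne_zero 0 (by simpa using f2)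
  have h30 : ∀ {K : Type} [Field K] [Algebra ℂ K], (3 : K) ≠ 0 := by
    intro K _ _
    have h7 : algebraMap ℂ K 3 ≠ 0 := by
      rw [Ne, map_eq_zero]
      norm_num
    rwa [map_ofNat] at h7
  -- the equation
  have hstar : s ^ 3 * Bg T u u u + 3 * s ^ 2 * p * Bg T u u v + 3 * s ^ 2 * θ * Bg T u u c +
      3 * s * p ^ 2 * Bg T u v v + 6 * s * p * θ * Bg T u v c + 3 * s * θ ^ 2 * Bg T u c c +
      p ^ 3 * Bg T v v v = 0 := by
    have f1 := Bg_span3 hT u v c s p θ
    rw [heq, Bg_swap23 hT v v c, Bg_swap12 hT v c v, hcv2, Bg_swap12 hT v c c,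
      Bg_swap23 hT c v c, hcv, hc1] at f1
    linear_combination -f1
  have hsreg : ∀ a b : E, b ≠ 0 → (a = 0 ∨ w.ord b ≤ w.ord a) → w.Reg (a / b) := by
    intro a b hb h
    by_cases ha : a = 0
    · left
      rw [ha, zero_div]
    · right
      rw [w.ord_div ha hb]
      have := h.resolve_left ha
      omega
  have hsred : ∀ a b : E, a ≠ 0 → b ≠ 0 → w.ord b < w.ord a → w.Reg (a / b) ∧ w.red (a / b) = 0 := by
    intro a b ha hb h
    have f1 := hsreg a b hb (Or.inr h.le)
    refine ⟨f1, (w.red_eq_zero_iff f1).2 (Or.inr ?_)⟩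
    rw [w.ord_div ha hb]
    omega
  by_cases hcase : θ ≠ 0 ∧ w.ord θ < w.ord s ∧ w.ord θ < w.ord p
  · -- `θ` dominates
    obtain ⟨hθ, hθs, hθp⟩ := hcase
    obtain ⟨f1, f2⟩ := hsred s θ hs hθ hθs
    obtain ⟨f3, f4⟩ := hsred p θ hp hθ hθp
    set q : E := p ^ 3 * Bg T v v v / (s * θ ^ 2) with hq
    have hq1 : q = -(3 * Bg T u c c + ((s / θ) * ((s / θ) * Bg T u u u + 3 * (p / θ) * Bg T u u v +
        3 * Bg T u u c) + (p / θ) * (3 * (p / θ) * Bg T u v v + 6 * Bg T u v c))) := by
      rw [hq]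
      field_simp
      linear_combination hstar
    have r30 : w.Reg (3 : E) := by
      have := w.reg_const (3 : ℂ)
      rwa [map_ofNat] at this
    have r60 : w.Reg (6 : E) := by
      have := w.reg_const (6 : ℂ)
      rwa [map_ofNat] at this
    have g1 : w.Reg ((s / θ) * Bg T u u u + 3 * (p / θ) * Bg T u u v + 3 * Bg T u u c) :=
      w.reg_add (w.reg_add (w.reg_mul f1 r1) (w.reg_mul (w.reg_mul r30 f3) r2)) (w.reg_mul r30 r3)
    have g2 : w.Reg (3 * (p / θ) * Bg T u v v + 6 * Bg T u v c) :=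
      w.reg_add (w.reg_mul (w.reg_mul r30 f3) r4) (w.reg_mul r60 r5)
    have g3 : w.Reg q := by
      rw [hq1]
      exact w.reg_neg (w.reg_add (w.reg_mul r30 r6) (w.reg_add (w.reg_mul f1 g1)
        (w.reg_mul f3 g2)))
    have g4 : w.red q ≠ 0 := by
      rw [hq1, w.red_neg (w.reg_add (w.reg_mul r30 r6) (w.reg_add (w.reg_mul f1 g1)
        (w.reg_mul f3 g2))), w.red_add (w.reg_mul r30 r6) (w.reg_add (w.reg_mul f1 g1)
        (w.reg_mul f3 g2)), w.red_add (w.reg_mul f1 g1) (w.reg_mul f3 g2), w.red_mul f1 g1,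
        w.red_mul f3 g2, f2, f4, zero_mul, zero_mul, add_zero, add_zero, w.red_mul r30 r6,
        neg_ne_zero]
      refine mul_ne_zero ?_ h6
      have : w.red (3 : E) = 3 := by
        have f5 := w.algebraMap_RF (3 : ℂ)
        rw [map_ofNat, map_ofNat] at f5
        exact f5.symm
      rw [this]
      exact h30
    have hq0 : q ≠ 0 := by
      intro h
      rw [h, w.red_zero] at g4
      exact g4 rfl
    have g5 : w.ord q = 0 := by
      rw [Ne, w.red_eq_zero_iff g3] at g4
      push Not at g4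
      have := (w.reg_iff hq0).1 g3
      have := g4.2
      omega
    rw [hq, w.ord_div (mul_ne_zero (pow_ne_zero _ hp) hFv) (mul_ne_zero hs (pow_ne_zero _ hθ)),
      w.ord_mul (pow_ne_zero _ hp) hFv, w.ord_mul hs (pow_ne_zero _ hθ), w.ord_pow, w.ord_pow] at g5
    obtain ⟨k, hk⟩ := hpar
    push_cast at g5
    exact ⟨w.ord p + k - w.ord θ, by omega⟩
  · have hθ' : θ = 0 ∨ w.ord s ≤ w.ord θ ∨ w.ord p ≤ w.ord θ := by
      by_contra hcon
      push Not at hcon
      exact hcase ⟨hcon.1, by omega, by omega⟩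
    rcases le_or_gt (w.ord s) (w.ord p) with hsp | hsp
    · -- `s` dominates
      have f1 : w.Reg (θ / s) := hsreg θ s hs (by
        rcases hθ' with h | h | h
        · exact Or.inl h
        · exact Or.inr h
        · exact Or.inr (hsp.trans h))
      have f2 : w.Reg (p / s) := hsreg p s hs (Or.inr hsp)
      -- the reduced equation
      have f3 : Bg T (fun i => u i + (θ / s * c i + p / s * v i))
          (fun i => u i + (θ / s * c i + p / s * v i))
          (fun i => u i + (θ / s * c i + p / s * v i)) = 0 := by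
        have f4 : (fun i => s * u i + p * v i + θ * c i) =
            fun i => s * (u i + (θ / s * c i + p / s * v i)) := by
          funext i
          field_simp
          ring
        rw [f4, Bg_smul1, Bg_smul2, Bg_smul3] at heq
        rcases mul_eq_zero.1 heq with h | h
        · exact absurd h hs
        rcases mul_eq_zero.1 h with h | h
        · exact absurd h hs
        rcases mul_eq_zero.1 h with h | h
        · exact absurd h hs
        exact h
      have f4 : ∀ i, w.Reg (u i + (θ / s * c i + p / s * v i)) ∧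
          w.red (u i + (θ / s * c i + p / s * v i)) =
            ub i + pt2 c0 v0 (w.red (θ / s)) (w.red (p / s)) i := by
        intro i
        have k1 := w.reg_mul f1 (hcR i)
        have k2 := w.reg_mul f2 (hvR i)
        refine ⟨w.reg_add (hu i) (w.reg_add k1 k2), ?_⟩
        rw [w.red_add (hu i) (w.reg_add k1 k2), w.red_add k1 k2, w.red_mul f1 (hcR i),
          w.red_mul f2 (hvR i), (hc i).2, (hv i).2]
        rfl
      have f5 := (red_Bg w T _ _ _ (fun i => (f4 i).1) (fun i => (f4 i).1) (fun i => (f4 i).1)).2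
      rw [f3, w.red_zero, funext fun i => (f4 i).2] at f5
      by_cases hF0 : Bg T v0 v0 v0 = 0
      · exact (gl2 hr hsm hT hFT ub hug hodd c0 v0 h1 h2 h3 _ _ (Or.inr hF0) f5.symm).elim
      · have g1 : w.red (Bg T v v v) ≠ 0 := by
          rw [e7]
          intro h
          exact hF0 (hinj (h.trans (map_zero _).symm))
        have g2 : w.ord (Bg T v v v) = 0 := by
          rw [Ne, w.red_eq_zero_iff r7] at g1
          push Not at g1
          have := (w.reg_iff hFv).1 r7
          have := g1.2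
          omega
        rw [g2, add_zero] at hpar
        rcases hsp.eq_or_lt with h | h
        · rw [h]
          exact hpar
        · have g3 := (hsred p s hp hs h).2
          exact (gl2 hr hsm hT hFT ub hug hodd c0 v0 h1 h2 h3 _ _ (Or.inl g3) f5.symm).elim
    · -- `p` dominates
      have f1 : w.Reg (θ / p) := hsreg θ p hp (by
        rcases hθ' with h | h | h
        · exact Or.inl h
        · exact Or.inr (hsp.le.trans h)
        · exact Or.inr h)
      obtain ⟨f2, f2'⟩ := hsred s p hs hp hsp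
      have r30 : w.Reg (3 : E) := by
        have := w.reg_const (3 : ℂ)
        rwa [map_ofNat] at this
      -- the point `v + (θ / p) c`
      have f3 : ∀ i, w.Reg (θ / p * c i + 1 * v i) ∧
          w.red (θ / p * c i + 1 * v i) = pt2 c0 v0 (w.red (θ / p)) 1 i := by
        intro i
        have k1 := w.reg_mul f1 (hcR i)
        have k2 := w.reg_mul w.reg_one (hvR i)
        refine ⟨w.reg_add k1 k2, ?_⟩
        rw [w.red_add k1 k2, w.red_mul f1 (hcR i), w.red_mul w.reg_one (hvR i), w.red_one,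
          (hc i).2, (hv i).2]
        rfl
      set a : Fin (r + 2) → E := fun i => θ / p * c i + 1 * v i with ha
      have haR : ∀ i, w.Reg (a i) := fun i => (f3 i).1
      have har : (fun i => w.red (a i)) = pt2 c0 v0 (w.red (θ / p)) 1 := funext fun i => (f3 i).2
      obtain ⟨k1, k1'⟩ := red_Bg w T u a a hu haR haR
      obtain ⟨k2, k2'⟩ := red_Bg w T u u a hu hu haR
      rw [har, ← hub] at k1'
      have hFa : Bg T a a a = Bg T v v v := by
        have g1 := Bg_span3 hT c v c (θ / p) 1 0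
        have g2 : (fun i => θ / p * c i + 1 * v i + 0 * c i) = a := by
          funext i
          rw [ha]
          ring
        rw [g2, hc1, hcv, hcv2] at g1
        rw [g1]
        ring
      set B : E := 3 * Bg T u a a + s / p * (3 * Bg T u u a + s / p * Bg T u u u) with hB
      have hBreg : w.Reg (3 * Bg T u u a + s / p * Bg T u u u) :=
        w.reg_add (w.reg_mul r30 k2) (w.reg_mul f2 r1)
      have hB1 : w.Reg B := w.reg_add (w.reg_mul r30 k1) (w.reg_mul f2 hBreg)
      have heqB : Bg T v v v = -(s / p) * B := by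
        have g1 := Bg_span3 hT u a a s p 0
        have g2 : (fun i => s * u i + p * a i + 0 * a i) = fun i => s * u i + p * v i + θ * c i := by
          funext i
          rw [ha]
          field_simp
          ring
        rw [g2, heq, hFa] at g1
        rw [hB]
        field_simp
        linear_combination -g1
      have hFv0 : Bg T v0 v0 v0 = 0 := by
        have g1 : w.red (Bg T v v v) = 0 := by
          rw [heqB, w.red_mul (w.reg_neg f2) hB1, w.red_neg f2, f2']
          ring
        rw [e7] at g1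
        exact hinj (g1.trans (map_zero _).symm)
      have hBr : w.red B ≠ 0 := by
        rw [hB, w.red_add (w.reg_mul r30 k1) (w.reg_mul f2 hBreg), w.red_mul f2 hBreg, f2',
          zero_mul, add_zero, w.red_mul r30 k1, k1']
        refine mul_ne_zero ?_ ?_
        · have : w.red (3 : E) = 3 := by
            have f5 := w.algebraMap_RF (3 : ℂ)
            rw [map_ofNat, map_ofNat] at f5
            exact f5.symm
          rw [this]
          exact h30
        · intro h
          exact iso2 hr hsm hT hFT ub hug hodd c0 v0 hli h1 h2 h3 hFv0 _ h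
      have hB0 : B ≠ 0 := by
        intro h
        rw [h, w.red_zero] at hBr
        exact hBr rfl
      have hBo : w.ord B = 0 := by
        rw [Ne, w.red_eq_zero_iff hB1] at hBr
        push Not at hBr
        have := (w.reg_iff hB0).1 hB1
        have := hBr.2
        omega
      have hord : w.ord (Bg T v v v) = w.ord s - w.ord p := by
        rw [heqB, w.ord_mul (neg_ne_zero.2 (div_ne_zero hs hp)) hB0, w.ord_neg, w.ord_div hs hp, hBo]
        ring
      rw [hord] at hpar
      obtain ⟨k, hk⟩ := hpar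
      exact ⟨k, by omega⟩

end line

end

end Pool.Agent.N122
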