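import Mathlib
import Pool.Agent.N122.Loc

/-! # Places and the field of a curve -/

set_option autoImplicit false

namespace Pool.Agent.N122

open MvPolynomial Pool.Agent.TH314.PD Module FF IntermediateField Pool.Agent.Y201.C3
open Pool.Agent.R845.T2 Pool.Agent.R845.E3

noncomputable section

section

variable {r : ℕ} {F : MvPolynomial (Fin (r + 2)) ℂ}
  {T : Fin (r + 2) → Fin (r + 2) → Fin (r + 2) → ℂ}
  {E : Type} [Field E] [Algebra ℂ E]

/-- an entry of least order -/
theorem prim {N : ℕ} (w : Place ℂ E) (x : Fin N → E) (hx : x ≠ 0) :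
    ∃ i0, x i0 ≠ 0 ∧ ∀ i, w.Reg (x i / x i0) := by
  classical
  obtain ⟨j, hj⟩ := Function.ne_iff.1 hx
  obtain ⟨i0, hi0, hmin⟩ := Finset.exists_min_image
    (Finset.univ.filter fun i => x i ≠ 0) (fun i => w.ord (x i)) ⟨j, by simpa using hj⟩
  have h0 : x i0 ≠ 0 := by simpa using hi0
  refine ⟨i0, h0, fun i => ?_⟩
  by_cases hi : x i = 0
  · left
    rw [hi, zero_div]
  · right
    rw [w.ord_div hi h0]
    have := hmin i (by simpa using hi)
    omega

/-- **The parity at a place which is not trivial on the field of the curve.** -/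
theorem locK (hr : 4 ≤ r) (hsm : Sm F) (hT : SymG T) (hFT : F = Bg T X X X) (w : Place ℂ E)
    (K : IntermediateField ℂ E)
    (hK : ∀ k ∈ K, w.Reg k → ∃ a : ℂ, w.red k = algebraMap ℂ w.RF a)
    (u c v : Fin (r + 2) → E) (hu : ∀ i, w.Reg (u i))
    (hug : ∀ (e : ℕ) (H : MvPolynomial (Fin (r + 2)) ℂ), H.IsHomogeneous e →
      aeval (fun i => w.red (u i)) H = 0 → H = 0)
    (hodd : Odd (finrank (ratioField fun i => w.red (u i)) w.RF))
    (hcK : ∀ i, c i ∈ K) (hvK : ∀ i, v i ∈ K) (hc0 : c ≠ 0) (hc1 : Bg T c c c = 0)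
    (hcv : Bg T c c v = 0) (hcv2 : Bg T c v v = 0) (q : E) (hq : q ≠ 0)
    (hFv : Bg T v v v = q ^ 2) (s θ : E) (hs : s ≠ 0)
    (heq : Bg T (fun i => s * u i + v i + θ * c i) (fun i => s * u i + v i + θ * c i)
      (fun i => s * u i + v i + θ * c i) = 0) : Even (w.ord s) := by
  classical
  obtain ⟨i0, hi0, hci⟩ := prim w c hc0
  have hcon := fun i => hK _ (div_mem (hcK i) (hcK i0)) (hci i)
  choose c0 hc0' using hcon
  set c' : Fin (r + 2) → E := fun i => c i / c i0 with hc'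
  -- the reduced vector
  set v' : Fin (r + 2) → E := fun i => v i + (-v i0) * c' i with hv'
  have e1 : (fun i => (1 / c i0) * c i) = c' := by
    funext i
    rw [hc']
    ring
  have f1 : Bg T c' c' c' = 0 := by
    rw [← e1, Bg_smul1, Bg_smul2, Bg_smul3, hc1]
    ring
  have f2 : Bg T c' c' v = 0 := by
    rw [← e1, Bg_smul1, Bg_smul2, hcv]
    ring
  have f3 : Bg T c' v v = 0 := by
    rw [← e1, Bg_smul1, hcv2]
    ring
  have f4 : Bg T c' c' v' = 0 := by
    rw [hv', Bg_add3, Bg_smul3, f1, f2]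
    ring
  have f5 : Bg T c' v' v' = 0 := by
    rw [hv', Bg_add3, Bg_smul3, Bg_add2, Bg_smul2, f3, Bg_swap23 hT c' c' v, Bg_add2, Bg_smul2,
      Bg_swap23 hT c' v c', f2, f1]
    ring
  have f6 : Bg T v' v' v' = q ^ 2 := by
    have g1 := Bg_span3 hT c' v c' (-v i0) 1 0
    have g2 : (fun i => -v i0 * c' i + 1 * v i + 0 * c' i) = v' := by
      funext i
      rw [hv']
      ring
    rw [g2, f1, f2, f3, hFv] at g1
    rw [g1]
    ring
  have hv'0 : v' ≠ 0 := by
    intro h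
    rw [h] at f6
    have : Bg T (0 : Fin (r + 2) → E) 0 0 = 0 := Bg_zero1 T _ _
    rw [this] at f6
    exact pow_ne_zero 2 hq f6.symm
  have hv'K : ∀ i, v' i ∈ K := fun i =>
    add_mem (hvK i) (mul_mem (neg_mem (hvK i0)) (div_mem (hcK i) (hcK i0)))
  obtain ⟨i1, hi1, hvi⟩ := prim w v' hv'0
  have hcon2 := fun i => hK _ (div_mem (hv'K i) (hv'K i1)) (hvi i)
  choose v0 hv0' using hcon2
  set p : E := v' i1 with hp
  set v1 : Fin (r + 2) → E := fun i => v' i / p with hv1
  have e2 : (fun i => (1 / p) * v' i) = v1 := by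
    funext i
    rw [hv1]
    ring
  have g4 : Bg T c' c' v1 = 0 := by
    rw [← e2, Bg_smul3, f4, mul_zero]
  have g5 : Bg T c' v1 v1 = 0 := by
    rw [← e2, Bg_smul3, Bg_smul2, f5, mul_zero, mul_zero]
  have g6 : p ^ 3 * Bg T v1 v1 v1 = q ^ 2 := by
    rw [← f6, ← e2, Bg_smul1, Bg_smul2, Bg_smul3]
    field_simp
  have g7 : Bg T v1 v1 v1 ≠ 0 := by
    intro h
    rw [h, mul_zero] at g6
    exact pow_ne_zero 2 hq g6.symm
  have hci0 : c' i0 = 1 := div_self hi0
  have hvi0 : v' i0 = 0 := by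
    have : v' i0 = v i0 + (-v i0) * c' i0 := rfl
    rw [this, hci0]
    ring
  have hinj : Function.Injective (algebraMap ℂ w.RF) := (algebraMap ℂ w.RF).injective
  have hli : LinearIndependent ℂ ![c0, v0] := by
    rw [LinearIndependent.pair_iff]
    intro x y hxy
    have k1 : c0 i0 = 1 := by
      apply hinj
      rw [← hc0', map_one]
      have : c i0 / c i0 = 1 := div_self hi0
      rw [this, w.red_one]
    have k2 : v0 i0 = 0 := by
      apply hinj
      rw [← hv0', map_zero, hvi0, zero_div, w.red_zero]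
    have k3 : v0 i1 = 1 := by
      apply hinj
      rw [← hv0', map_one, ← hp, div_self hi1, w.red_one]
    have k4 : x = 0 := by
      have := congrFun hxy i0
      simp only [Pi.add_apply, Pi.smul_apply, smul_eq_mul, Pi.zero_apply, k1, k2] at this
      linear_combination this
    have k5 := congrFun hxy i1
    simp only [Pi.add_apply, Pi.smul_apply, smul_eq_mul, Pi.zero_apply, k3, k4] at k5
    exact ⟨k4, by linear_combination k5⟩
  refine ll hr hsm hT hFT w u c' v1 hu hug hodd c0 v0 (fun i => ⟨hci i, hc0' i⟩)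
    (fun i => ⟨hvi i, hv0' i⟩) hli f1 g4 g5 s p (v i0 + θ * c i0) hs hi1 g7 ?_ ?_
  · have k1 : (fun i => s * u i + p * v1 i + (v i0 + θ * c i0) * c' i) =
        fun i => s * u i + v i + θ * c i := by
      funext i
      have k2 : p * v1 i = v' i := by
        rw [hv1]
        simp only
        rw [mul_comm, div_mul_cancel₀ _ hi1]
      have k3 : c i0 * c' i = c i := by
        rw [hc']
        simp only
        rw [mul_comm, div_mul_cancel₀ _ hi0]
      have k4 : v' i = v i + (-v i0) * c' i := rfl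
      rw [k2, k4]
      linear_combination θ * k3
    rw [k1]
    exact heq
  · have k1 := congrArg w.ord g6
    rw [w.ord_mul (pow_ne_zero _ hi1) g7, w.ord_pow, w.ord_pow] at k1
    push_cast at k1
    exact ⟨w.ord q - w.ord p, by omega⟩

/-- **The parity at a place which is trivial on the field of the curve.** -/
theorem trivK (hT : SymG T) (w : Place ℂ E)
    (u c v : Fin (r + 2) → E) (hu : ∀ i, w.Reg (u i)) (hc : ∀ i, w.Reg (c i))
    (hv : ∀ i, w.Reg (v i)) (hc1 : Bg T c c c = 0)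
    (hcv : Bg T c c v = 0) (hcv2 : Bg T c v v = 0) (hFv : w.red (Bg T v v v) ≠ 0)
    (hcu : w.red (Bg T u c c) ≠ 0) (s θ : E) (hs : 0 < w.ord s)
    (heq : Bg T (fun i => s * u i + v i + θ * c i) (fun i => s * u i + v i + θ * c i)
      (fun i => s * u i + v i + θ * c i) = 0) : Even (w.ord s) := by
  classical
  have hs0 : s ≠ 0 := by
    intro h
    rw [h, w.ord_zero] at hs
    exact lt_irrefl _ hs
  obtain ⟨r1, e1⟩ := red_Bg w T u u u hu hu hu
  obtain ⟨r2, e2⟩ := red_Bg w T u u v hu hu hv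
  obtain ⟨r3, e3⟩ := red_Bg w T u u c hu hu hc
  obtain ⟨r4, e4⟩ := red_Bg w T u v v hu hv hv
  obtain ⟨r5, e5⟩ := red_Bg w T u v c hu hv hc
  obtain ⟨r6, e6⟩ := red_Bg w T u c c hu hc hc
  obtain ⟨r7, e7⟩ := red_Bg w T v v v hv hv hv
  set a1 := Bg T u u u with ha1
  set a2 := Bg T u u v with ha2
  set a3 := Bg T u u c with ha3
  set a4 := Bg T u v v with ha4
  set a5 := Bg T u v c with ha5
  set a6 := Bg T u c c with ha6
  set a7 := Bg T v v v with ha7
  have hsR : w.Reg s := Or.inr hs.le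
  have hsr : w.red s = 0 := (w.red_eq_zero_iff hsR).2 (Or.inr hs)
  have hnum : ∀ n : ℕ, w.Reg (n : E) ∧ w.red (n : E) = n := by
    intro n
    have f5 := w.algebraMap_RF (n : ℂ)
    have f6 := w.reg_const (n : ℂ)
    rw [map_natCast] at f6
    rw [map_natCast, map_natCast] at f5
    exact ⟨f6, f5.symm⟩
  have hstar : s ^ 3 * a1 + 3 * s ^ 2 * a2 + 3 * s ^ 2 * θ * a3 +
      3 * s * a4 + 6 * s * θ * a5 + 3 * s * θ ^ 2 * a6 + a7 = 0 := by
    have f1 := Bg_span3 hT u v c s 1 θ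
    have f2 : (fun i => s * u i + 1 * v i + θ * c i) = fun i => s * u i + v i + θ * c i := by
      funext i
      ring
    rw [f2, heq, Bg_swap23 hT v v c, Bg_swap12 hT v c v, hcv2, Bg_swap12 hT v c c,
      Bg_swap23 hT c v c, hcv, hc1] at f1
    linear_combination -f1
  -- the square
  have hsq : (2 * (3 * s * a6) * θ + (3 * s ^ 2 * a3 + 6 * s * a5)) ^ 2 =
      s * (s * (3 * s * a3 + 6 * a5) ^ 2 + -(12 * (a6 * (a7 + s * (s ^ 2 * a1 + 3 * s * a2 +
        3 * a4))))) := by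
    linear_combination 12 * s * a6 * hstar
  have k3 := hnum 3
  have k6 := hnum 6
  have k12 := hnum 12
  have k2 := hnum 2
  norm_num at k3 k6 k12 k2
  set Y := s * (3 * s * a3 + 6 * a5) ^ 2 + -(12 * (a6 * (a7 + s * (s ^ 2 * a1 + 3 * s * a2 +
        3 * a4)))) with hY
  have m1 : w.Reg (3 * s * a3 + 6 * a5) :=
    w.reg_add (w.reg_mul (w.reg_mul k3.1 hsR) r3) (w.reg_mul k6.1 r5)
  have m2 : w.Reg ((3 * s * a3 + 6 * a5) ^ 2) := by
    rw [pow_two]
    exact w.reg_mul m1 m1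
  have m3 : w.Reg (s ^ 2 * a1 + 3 * s * a2 + 3 * a4) := by
    rw [pow_two]
    exact w.reg_add (w.reg_add (w.reg_mul (w.reg_mul hsR hsR) r1)
      (w.reg_mul (w.reg_mul k3.1 hsR) r2)) (w.reg_mul k3.1 r4)
  have m4 : w.Reg (a7 + s * (s ^ 2 * a1 + 3 * s * a2 + 3 * a4)) :=
    w.reg_add r7 (w.reg_mul hsR m3)
  have m5 : w.Reg (12 * (a6 * (a7 + s * (s ^ 2 * a1 + 3 * s * a2 + 3 * a4)))) :=
    w.reg_mul k12.1 (w.reg_mul r6 m4)
  have hYR : w.Reg Y := w.reg_add (w.reg_mul hsR m2) (w.reg_neg m5)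
  have hYr : w.red Y ≠ 0 := by
    rw [hY, w.red_add (w.reg_mul hsR m2) (w.reg_neg m5), w.red_mul hsR m2, hsr, zero_mul, zero_add,
      w.red_neg m5, w.red_mul k12.1 (w.reg_mul r6 m4), w.red_mul r6 m4, w.red_add r7
        (w.reg_mul hsR m3), w.red_mul hsR m3, hsr, zero_mul, add_zero, neg_ne_zero]
    refine mul_ne_zero ?_ (mul_ne_zero hcu hFv)
    rw [k12.2]
    have h7 : algebraMap ℂ w.RF 12 ≠ 0 := by
      rw [Ne, map_eq_zero]
      norm_num
    rwa [map_ofNat] at h7
  have hY0 : Y ≠ 0 := by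
    intro h
    rw [h, w.red_zero] at hYr
    exact hYr rfl
  have hYo : w.ord Y = 0 := by
    rw [Ne, w.red_eq_zero_iff hYR] at hYr
    push Not at hYr
    have := (w.reg_iff hY0).1 hYR
    have := hYr.2
    omega
  have h1 := congrArg w.ord hsq
  rw [w.ord_pow, w.ord_mul hs0 hY0, hYo, add_zero] at h1
  push_cast at h1
  exact ⟨_, by rw [← h1]; ring⟩

end

end

end Pool.Agent.N122
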