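import Mathlib
import Pool.Agent.N122.Blow

/-! # The fundamental identity for a transcendental element -/

set_option autoImplicit false

namespace Pool.Agent.N122

open MvPolynomial Pool.Agent.TH314.PD Module FF IntermediateField
open Pool.Agent.R845.T2 Pool.Agent.R845.E3

noncomputable section

/-- a regular rational function at `0` takes regular values at a place where the variable is
positive, and its residue is a constant -/
theorem reg_of {E : Type} [Field E] [Algebra ℂ E] [Algebra (LF ℂ) E] [IsScalarTower ℂ (LF ℂ) E]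
    (w : Place ℂ E) (s : E)
    (hs : algebraMap (LF ℂ) E (algebraMap (Polynomial ℂ) (LF ℂ) Polynomial.X) = s)
    (hw : 0 < w.ord s) (a : LF ℂ) (ha : (wc (0 : ℂ)).Reg a) :
    w.Reg (algebraMap (LF ℂ) E a) ∧ ∀ c : ℂ, (wc (0 : ℂ)).red a = algebraMap ℂ _ c →
      w.red (algebraMap (LF ℂ) E a) = algebraMap ℂ w.RF c := by
  classical
  have hp : ∀ p : Polynomial ℂ, w.Reg (algebraMap (LF ℂ) E (algebraMap (Polynomial ℂ) (LF ℂ) p)) ∧
      w.red (algebraMap (LF ℂ) E (algebraMap (Polynomial ℂ) (LF ℂ) p)) =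
        algebraMap ℂ w.RF (p.eval 0) := by
    intro p
    have hsreg : w.Reg s := Or.inr hw.le
    have hs0 : w.red s = 0 := (w.red_eq_zero_iff hsreg).2 (Or.inr hw)
    induction p using Polynomial.induction_on with
    | C c =>
      have h1 : algebraMap (LF ℂ) E (algebraMap (Polynomial ℂ) (LF ℂ) (Polynomial.C c)) =
          algebraMap ℂ E c := by
        have h2 : algebraMap (Polynomial ℂ) (LF ℂ) (Polynomial.C c) = algebraMap ℂ (LF ℂ) c := by
          rw [IsScalarTower.algebraMap_apply ℂ (Polynomial ℂ) (LF ℂ)]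
          rfl
        rw [h2, ← IsScalarTower.algebraMap_apply]
      rw [h1, Polynomial.eval_C]
      exact ⟨w.reg_const c, rfl⟩
    | add p q hp hq =>
      rw [map_add, map_add, Polynomial.eval_add, map_add]
      exact ⟨w.reg_add hp.1 hq.1, by rw [w.red_add hp.1 hq.1, hp.2, hq.2]⟩
    | monomial n c h =>
      rw [pow_succ, ← mul_assoc, map_mul, map_mul, Polynomial.eval_mul, Polynomial.eval_X, mul_zero,
        map_zero, hs]
      exact ⟨w.reg_mul h.1 hsreg, by rw [w.red_mul h.1 hsreg, hs0, mul_zero]⟩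
  by_cases ha0 : a = 0
  · rw [ha0, map_zero]
    refine ⟨w.reg_zero, fun c hc => ?_⟩
    rw [Place.red_zero] at hc
    have h1 : c = 0 := by
      apply (algebraMap ℂ ((wc (0 : ℂ)).RF)).injective
      rw [map_zero, ← hc]
    rw [Place.red_zero, h1, map_zero]
  -- write `a = p / q` with `q (0) ≠ 0`
  obtain ⟨p, q, hq, rfl⟩ := IsFractionRing.div_surjective (A := Polynomial ℂ) a
  have hq0 : q ≠ 0 := nonZeroDivisors.ne_zero hq
  have hp0 : p ≠ 0 := by
    rintro rfl
    apply ha0
    rw [map_zero, zero_div]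
  obtain ⟨q1, hq1, hq1e⟩ := Polynomial.exists_eq_pow_rootMultiplicity_mul_and_not_dvd q hq0 0
  obtain ⟨p1, hp1, hp1e⟩ := Polynomial.exists_eq_pow_rootMultiplicity_mul_and_not_dvd p hp0 0
  set iq := q.rootMultiplicity 0 with hiq
  set ip := p.rootMultiplicity 0 with hip
  have hval : ∀ b : Polynomial ℂ, ¬ (Polynomial.X - Polynomial.C (0 : ℂ)) ∣ b → b.eval 0 ≠ 0 := by
    intro b hb h
    exact hb (Polynomial.dvd_iff_isRoot.2 h)
  have hq1v := hval q1 hq1e
  have hp1v := hval p1 hp1e
  have hinj : Function.Injective (algebraMap (Polynomial ℂ) (LF ℂ)) := inj_LF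
  have hne : ∀ b : Polynomial ℂ, b ≠ 0 → algebraMap (Polynomial ℂ) (LF ℂ) b ≠ 0 := by
    intro b hb h
    exact hb (hinj (h.trans (map_zero _).symm))
  have hX0 : (Polynomial.X - Polynomial.C (0 : ℂ)) ≠ 0 := Polynomial.X_sub_C_ne_zero 0
  have hq10 : q1 ≠ 0 := fun h => hq1v (by rw [h, Polynomial.eval_zero])
  have hp10 : p1 ≠ 0 := fun h => hp1v (by rw [h, Polynomial.eval_zero])
  have hord : ∀ (i : ℕ) (b : Polynomial ℂ), b.eval 0 ≠ 0 → (wc (0 : ℂ)).ord
      (algebraMap (Polynomial ℂ) (LF ℂ) ((Polynomial.X - Polynomial.C (0 : ℂ)) ^ i * b)) = i := by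
    intro i b hb
    have hb0 : b ≠ 0 := fun h => hb (by rw [h, Polynomial.eval_zero])
    rw [map_mul, map_pow, Place.ord_mul _ (pow_ne_zero _ (hne _ hX0)) (hne _ hb0), Place.ord_pow,
      wc_ord_X, wc_ord_of_eval hb]
    ring
  have hle : iq ≤ ip := by
    rcases ha with ha | ha
    · exact absurd ha ha0
    · rw [Place.ord_div _ (hne p hp0) (hne q hq0), hq1, hp1, hord _ _ hq1v, hord _ _ hp1v] at ha
      omega
  -- the reduced fraction
  have heq : algebraMap (Polynomial ℂ) (LF ℂ) p / algebraMap (Polynomial ℂ) (LF ℂ) q =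
      algebraMap (Polynomial ℂ) (LF ℂ) ((Polynomial.X - Polynomial.C (0 : ℂ)) ^ (ip - iq) * p1) /
        algebraMap (Polynomial ℂ) (LF ℂ) q1 := by
    rw [div_eq_div_iff (hne q hq0) (hne q1 hq10), ← map_mul, ← map_mul]
    congr 1
    conv_lhs => rw [hp1]
    conv_rhs => rw [hq1]
    have h1 : (Polynomial.X - Polynomial.C (0 : ℂ)) ^ ip =
        (Polynomial.X - Polynomial.C (0 : ℂ)) ^ (ip - iq) *
          (Polynomial.X - Polynomial.C (0 : ℂ)) ^ iq := by
      rw [← pow_add]
      congr 1
      omega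
    rw [h1]
    ring
  rw [heq, map_div₀]
  set P := (Polynomial.X - Polynomial.C (0 : ℂ)) ^ (ip - iq) * p1 with hP
  obtain ⟨h1, h2⟩ := hp P
  obtain ⟨h3, h4⟩ := hp q1
  have h5 : w.red (algebraMap (LF ℂ) E (algebraMap (Polynomial ℂ) (LF ℂ) q1)) ≠ 0 := by
    rw [h4]
    intro h
    exact hq1v ((algebraMap ℂ w.RF).injective (h.trans (map_zero _).symm))
  have h6 : algebraMap (LF ℂ) E (algebraMap (Polynomial ℂ) (LF ℂ) q1) ≠ 0 := by
    intro h
    rw [h, w.red_zero] at h5
    exact h5 rfl
  have h7 : w.ord (algebraMap (LF ℂ) E (algebraMap (Polynomial ℂ) (LF ℂ) q1)) = 0 := by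
    rw [Ne, w.red_eq_zero_iff h3] at h5
    push Not at h5
    have := (w.reg_iff h6).1 h3
    omega
  have h8 : w.Reg (algebraMap (LF ℂ) E (algebraMap (Polynomial ℂ) (LF ℂ) q1))⁻¹ :=
    Or.inr (by rw [w.ord_inv, h7]; simp)
  have h9 : w.Reg (algebraMap (LF ℂ) E (algebraMap (Polynomial ℂ) (LF ℂ) P) /
      algebraMap (LF ℂ) E (algebraMap (Polynomial ℂ) (LF ℂ) q1)) := by
    rw [div_eq_mul_inv]
    exact w.reg_mul h1 h8
  refine ⟨h9, fun c hc => ?_⟩
  -- the residue
  have hwv : ∀ b : Polynomial ℂ, (wc (0 : ℂ)).red (algebraMap (Polynomial ℂ) (LF ℂ) b) =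
      algebraMap ℂ _ (b.eval 0) := by
    intro b
    have e1 : (wc (0 : ℂ)).red (algebraMap (Polynomial ℂ) (LF ℂ) (b - Polynomial.C (b.eval 0))) =
        0 := by
      rw [wc_red_eq_zero]
      simp
    rw [map_sub, Place.red_sub _ (wc_reg _ _) (wc_reg _ _), sub_eq_zero] at e1
    rw [e1, Place.algebraMap_RF]
    congr 1
  have e2 : (wc (0 : ℂ)).red (algebraMap (Polynomial ℂ) (LF ℂ) P /
      algebraMap (Polynomial ℂ) (LF ℂ) q1) * (wc (0 : ℂ)).red
        (algebraMap (Polynomial ℂ) (LF ℂ) q1) =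
      (wc (0 : ℂ)).red (algebraMap (Polynomial ℂ) (LF ℂ) P) := by
    rw [← Place.red_mul _ (by rw [← heq]; exact ha) (wc_reg _ _),
      div_mul_cancel₀ _ (hne q1 hq10)]
  rw [hc, hwv, hwv, ← map_mul] at e2
  have e3 : c * q1.eval 0 = P.eval 0 := (algebraMap ℂ ((wc (0 : ℂ)).RF)).injective e2
  have e4 : w.red (algebraMap (LF ℂ) E (algebraMap (Polynomial ℂ) (LF ℂ) P) /
      algebraMap (LF ℂ) E (algebraMap (Polynomial ℂ) (LF ℂ) q1)) *
        w.red (algebraMap (LF ℂ) E (algebraMap (Polynomial ℂ) (LF ℂ) q1)) =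
      w.red (algebraMap (LF ℂ) E (algebraMap (Polynomial ℂ) (LF ℂ) P)) := by
    rw [← w.red_mul h9 h3, div_mul_cancel₀ _ h6]
  apply mul_right_cancel₀ h5
  rw [e4, h2, h4, ← e3, map_mul]

/-- **The fundamental identity for a transcendental element `s`.** -/
theorem sum0 {m : ℕ} {E : Type} [Field E] [Algebra ℂ E] (s : E) (y : Fin m → E)
    (hind : AlgebraicIndependent ℂ (Sum.elim y (fun _ : Unit => s)))
    (hfd : FiniteDimensional (adjoin ℂ (insert s (Set.range y))) E) :
    ∃ S : Finset (Place ℂ E),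
      (∀ w, w ∈ S ↔ 0 < w.ord s ∧ (∀ j, w.Reg (y j)) ∧
        AlgebraicIndependent ℂ (fun j => w.red (y j))) ∧
      ∑ w ∈ S, (w.ord s).toNat * finrank (adjoin ℂ (Set.range fun j => w.red (y j))) w.RF =
        finrank (adjoin ℂ (insert s (Set.range y))) E := by
  classical
  obtain ⟨hi0, hiy⟩ := AlgebraicIndependent.sumElim_iff.1 hind
  have htr : Transcendental ℂ s := (algebraicIndependent_unique_type_iff).1 hi0
  have hinj : Function.Injective (Polynomial.aeval s : Polynomial ℂ →ₐ[ℂ] E) :=
    transcendental_iff_injective.1 htr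
  let lft : LF ℂ →ₐ[ℂ] E := IsFractionRing.liftAlgHom (K := LF ℂ) hinj
  let aK : Algebra (LF ℂ) E := lft.toRingHom.toAlgebra
  have ha : ∀ a : LF ℂ, algebraMap (LF ℂ) E a = lft a := fun _ => rfl
  have tK : IsScalarTower ℂ (LF ℂ) E := IsScalarTower.of_algebraMap_eq fun c => by
    rw [ha]
    exact (lft.commutes c).symm
  have hlX : ∀ p : Polynomial ℂ, algebraMap (LF ℂ) E (algebraMap (Polynomial ℂ) (LF ℂ) p) =
      Polynomial.aeval s p := by
    intro p
    rw [ha]
    exact IsFractionRing.lift_algebraMap hinj p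
  have hsX : algebraMap (LF ℂ) E (algebraMap (Polynomial ℂ) (LF ℂ) Polynomial.X) = s := by
    rw [hlX, Polynomial.aeval_X]
  -- the image of the field of rational functions
  set K1 : IntermediateField ℂ E := adjoin ℂ (Set.range fun _ : Unit => s) with hK1
  have hsK1 : s ∈ K1 := subset_adjoin ℂ _ ⟨(), rfl⟩
  have hpoly : ∀ (L : IntermediateField ℂ E), s ∈ L → ∀ p : Polynomial ℂ,
      Polynomial.aeval s p ∈ L := by
    intro L hL p
    have h5 : Algebra.adjoin ℂ {s} ≤ L.toSubalgebra :=
      Algebra.adjoin_le (Set.singleton_subset_iff.2 hL)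
    exact h5 (Polynomial.aeval_mem_adjoin_singleton ℂ s)
  have hfrac : ∀ (L : IntermediateField ℂ E), s ∈ L → ∀ a : LF ℂ, algebraMap (LF ℂ) E a ∈ L := by
    intro L hL a
    obtain ⟨p, q, -, rfl⟩ := IsFractionRing.div_surjective (A := Polynomial ℂ) a
    rw [map_div₀, hlX, hlX]
    exact div_mem (hpoly L hL p) (hpoly L hL q)
  have hyK : AlgebraicIndependent (LF ℂ) y := by
    have h1 : AlgebraicIndependent K1 y := algebraicIndependent_adjoin_iff.2 hiy
    let f : LF ℂ →+* K1 := (algebraMap (LF ℂ) E).codRestrict K1.toSubfield.toSubring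
      (hfrac K1 hsK1)
    refine AlgebraicIndependent.of_ringHom_of_comp_eq (S := K1) (B := E) f (RingHom.id E) ?_
      f.injective ?_
    · exact h1
    · ext a
      rfl
  -- the field generated by the elements
  have hrat : ∀ x : E, x ∈ Set.range (algebraMap (adjoin (LF ℂ) (Set.range y)) E) ↔
      x ∈ Set.range (algebraMap (adjoin ℂ (insert s (Set.range y))) E) := by
    intro x
    have hr1 : x ∈ Set.range (algebraMap (adjoin (LF ℂ) (Set.range y)) E) ↔
        x ∈ adjoin (LF ℂ) (Set.range y) := by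
      constructor
      · rintro ⟨x, rfl⟩
        exact x.2
      · intro h
        exact ⟨⟨x, h⟩, rfl⟩
    have hr2 : x ∈ Set.range (algebraMap (adjoin ℂ (insert s (Set.range y))) E) ↔
        x ∈ adjoin ℂ (insert s (Set.range y)) := by
      constructor
      · rintro ⟨x, rfl⟩
        exact x.2
      · intro h
        exact ⟨⟨x, h⟩, rfl⟩
    rw [hr1, hr2]
    clear hr1 hr2
    have hsr : s ∈ adjoin ℂ (insert s (Set.range y)) :=
      subset_adjoin ℂ _ (Set.mem_insert _ _)
    constructor
    · intro hx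
      induction hx using IntermediateField.adjoin_induction with
      | mem x hx => exact subset_adjoin ℂ _ (Set.mem_insert_of_mem _ hx)
      | algebraMap c => exact hfrac _ hsr c
      | add a b _ _ ha hb => exact add_mem ha hb
      | inv a _ ha => exact inv_mem ha
      | mul a b _ _ ha hb => exact mul_mem ha hb
    · intro hx
      have hsm : s ∈ adjoin (LF ℂ) (Set.range y) := by
        have h1 := (adjoin (LF ℂ) (Set.range y)).algebraMap_mem
          (algebraMap (Polynomial ℂ) (LF ℂ) Polynomial.X)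
        rwa [hlX, Polynomial.aeval_X] at h1
      have h1 : adjoin ℂ (insert s (Set.range y)) ≤
          (adjoin (LF ℂ) (Set.range y)).restrictScalars ℂ := by
        rw [adjoin_le_iff]
        rintro a (rfl | ha)
        · exact hsm
        · rw [SetLike.mem_coe, mem_restrictScalars]
          exact subset_adjoin _ _ ha
      exact h1 hx
  obtain ⟨hfd', hfr⟩ := Pool.Agent.Y201.LI.finrank_same hrat
  have hfdK : FiniteDimensional (adjoin (LF ℂ) (Set.range y)) E := hfd'.2 hfd
  -- the fundamental identity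
  set ϖ : LF ℂ := algebraMap (Polynomial ℂ) (LF ℂ) (Polynomial.X - Polynomial.C 0) with hϖ
  have hϖ0 : ϖ ≠ 0 := by
    intro h
    exact Polynomial.X_sub_C_ne_zero (0 : ℂ) (inj_LF (h.trans (map_zero _).symm))
  have hϖ1 : (wc (0 : ℂ)).ord ϖ = 1 := wc_ord_X 0
  have hϖE : algebraMap (LF ℂ) E ϖ = s := by
    rw [hϖ, hlX]
    simp
  obtain ⟨S, hS, hsum⟩ := gfi ℂ (LF ℂ) E m (wc (0 : ℂ)) ϖ y hϖ0 hϖ1 hyK hfdK
  rw [hfr, hϖE] at hsum
  rw [hϖE] at hS
  refine ⟨S, fun w => ?_, ?_⟩
  · rw [hS]
    constructor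
    · rintro ⟨hKr, hw, hyr, hG⟩
      refine ⟨hw, hyr, ?_⟩
      rw [algebraicIndependent_iff]
      intro p hp
      by_contra hp0
      obtain ⟨α, hα⟩ := MvPolynomial.ne_zero_iff.1 hp0
      have h1 := hG (map (algebraMap ℂ (LF ℂ)) p) (fun β => by
        rw [coeff_map]
        exact (wc (0 : ℂ)).reg_const _) ⟨α, by
          rw [coeff_map]
          refine ⟨?_, (wc (0 : ℂ)).ord_const hα⟩
          rw [Ne, map_eq_zero]
          exact hα⟩
      apply h1
      rw [aeval_map_algebraMap, (Pool.Agent.R845.T2.red_aeval w y hyr p).2]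
      exact hp
    · rintro ⟨hw, hyr, hyi⟩
      refine ⟨fun a ha => (reg_of w s hsX hw a ha).1, hw, hyr, ?_⟩
      intro p hp ⟨α, hα0, hα⟩ h0
      have hc : ∀ β, ∃ c : ℂ, (wc (0 : ℂ)).red (coeff β p) = algebraMap ℂ _ c := by
        intro β
        obtain ⟨c, hc⟩ := (evc_bij (0 : ℂ)).2 ((wc (0 : ℂ)).red (coeff β p))
        exact ⟨c, hc.symm⟩
      choose c hc using hc
      set p' : MvPolynomial (Fin m) ℂ := ∑ β ∈ p.support, monomial β (c β) with hp'
      have hreg : ∀ (β : Fin m →₀ ℕ), w.Reg (∏ j, y j ^ β j) ∧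
          w.red (∏ j, y j ^ β j) = ∏ j, w.red (y j) ^ β j := by
        intro β
        have h1 := Pool.Agent.R845.T2.red_aeval w y hyr (monomial β 1)
        rw [aeval_monomial, aeval_monomial, map_one, map_one, one_mul, one_mul,
          Finsupp.prod_fintype _ _ (fun i => pow_zero _),
          Finsupp.prod_fintype _ _ (fun i => pow_zero _)] at h1
        exact h1
      have h1 : w.Reg (aeval y p) ∧ w.red (aeval y p) = aeval (fun j => w.red (y j)) p' := by
        have h2 : aeval y p = ∑ β ∈ p.support, algebraMap (LF ℂ) E (coeff β p) *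
            ∏ j, y j ^ β j := by
          conv_lhs => rw [p.as_sum, map_sum]
          refine Finset.sum_congr rfl fun β _ => ?_
          rw [aeval_monomial, Finsupp.prod_fintype _ _ (fun i => pow_zero _)]
        rw [h2, hp', map_sum]
        have h3 : ∀ T : Finset (Fin m →₀ ℕ), w.Reg (∑ β ∈ T, algebraMap (LF ℂ) E (coeff β p) *
            ∏ j, y j ^ β j) ∧ w.red (∑ β ∈ T, algebraMap (LF ℂ) E (coeff β p) *
            ∏ j, y j ^ β j) = ∑ β ∈ T, aeval (fun j => w.red (y j)) (monomial β (c β)) := by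
          intro T
          induction T using Finset.induction_on with
          | empty =>
            rw [Finset.sum_empty, Finset.sum_empty]
            exact ⟨w.reg_zero, w.red_zero⟩
          | insert β T hβ ih =>
            rw [Finset.sum_insert hβ, Finset.sum_insert hβ]
            obtain ⟨h5, h6⟩ := reg_of w s hsX hw (coeff β p) (hp β)
            have h7 := h6 (c β) (hc β)
            refine ⟨w.reg_add (w.reg_mul h5 (hreg β).1) ih.1, ?_⟩
            rw [w.red_add (w.reg_mul h5 (hreg β).1) ih.1, w.red_mul h5 (hreg β).1, ih.2, h7,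
              (hreg β).2, aeval_monomial, Finsupp.prod_fintype _ _ (fun i => pow_zero _)]
        exact h3 p.support
      rw [h1.2] at h0
      have h2 : p' = 0 := (algebraicIndependent_iff.1 hyi) p' h0
      have h3 : c α = 0 := by
        have h4 : coeff α p' = c α := by
          rw [hp', coeff_sum, Finset.sum_eq_single α]
          · rw [coeff_monomial, if_pos rfl]
          · intro β _ hβ
            rw [coeff_monomial, if_neg hβ]
          · intro h
            exact absurd (MvPolynomial.notMem_support_iff.1 h) hα0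
        rw [← h4, h2, coeff_zero]
      have h4 := hc α
      rw [h3, map_zero] at h4
      exact Place.red_ne_zero _ hα0 hα h4
  · rw [← hsum]
    refine Finset.sum_congr rfl fun w hwS => ?_
    congr 1
    obtain ⟨hKr, hϖw, hyr, hG⟩ := (hS w).1 hwS
    have h3 : ∀ x : w.RF, x ∈ Set.range (algebraMap (Subfield.closure ({c : w.RF | ∃ a : LF ℂ,
        (wc (0 : ℂ)).Reg a ∧ w.red (algebraMap (LF ℂ) E a) = c} ∪
          Set.range fun j => w.red (y j))) w.RF) ↔
        x ∈ Set.range (algebraMap (IntermediateField.adjoin ℂ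
          (Set.range fun j : Fin m => w.red (y j))) w.RF) := by
      intro x
      have hr1 : x ∈ Set.range (algebraMap (Subfield.closure ({c : w.RF | ∃ a : LF ℂ,
          (wc (0 : ℂ)).Reg a ∧ w.red (algebraMap (LF ℂ) E a) = c} ∪
          Set.range fun j => w.red (y j))) w.RF) ↔
          x ∈ Subfield.closure ({c : w.RF | ∃ a : LF ℂ,
          (wc (0 : ℂ)).Reg a ∧ w.red (algebraMap (LF ℂ) E a) = c} ∪
          Set.range fun j => w.red (y j)) := by
        constructor
        · rintro ⟨x, rfl⟩
          exact x.2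
        · intro h
          exact ⟨⟨x, h⟩, rfl⟩
      have hr2 : x ∈ Set.range (algebraMap (IntermediateField.adjoin ℂ
          (Set.range fun j : Fin m => w.red (y j))) w.RF) ↔
          x ∈ IntermediateField.adjoin ℂ (Set.range fun j : Fin m => w.red (y j)) := by
        constructor
        · rintro ⟨x, rfl⟩
          exact x.2
        · intro h
          exact ⟨⟨x, h⟩, rfl⟩
      rw [hr1, hr2]
      clear hr1 hr2
      constructor
      · intro hx
        induction hx using Subfield.closure_induction with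
        | mem x hx =>
          rcases hx with ⟨a, ha, rfl⟩ | hx
          · obtain ⟨c, hc⟩ := (evc_bij (0 : ℂ)).2 ((wc (0 : ℂ)).red a)
            rw [(reg_of w s hsX hϖw a ha).2 c hc.symm]
            exact IntermediateField.algebraMap_mem _ c
          · exact subset_adjoin _ _ hx
        | one => exact one_mem _
        | add a b _ _ ha hb => exact add_mem ha hb
        | neg a _ ha => exact neg_mem ha
        | inv a _ ha => exact inv_mem ha
        | mul a b _ _ ha hb => exact mul_mem ha hb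
      · intro hx
        induction hx using IntermediateField.adjoin_induction with
        | mem x hx => exact Subfield.subset_closure (Or.inr hx)
        | algebraMap c =>
          refine Subfield.subset_closure (Or.inl ⟨algebraMap ℂ (LF ℂ) c,
            (wc (0 : ℂ)).reg_const c, ?_⟩)
          rw [← IsScalarTower.algebraMap_apply]
          rfl
        | add a b _ _ ha hb => exact add_mem ha hb
        | inv a _ ha => exact inv_mem ha
        | mul a b _ _ ha hb => exact mul_mem ha hb
    exact (Pool.Agent.Y201.LI.finrank_same h3).2.symm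

end

end Pool.Agent.N122
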