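import Mathlib
import Pool.Agent.N122.Flx
import Pool.Agent.N122.Sum0
import Pool.Agent.N122.Kpl

/-! # Function fields of curves and their places -/

set_option autoImplicit false

namespace Pool.Agent.N122

open MvPolynomial Pool.Agent.TH314.PD Module FF IntermediateField Pool.Agent.Y201.C3
open Pool.Agent.R845.T2 Pool.Agent.R845.E3

noncomputable section

theorem alg_dep {K : Type} [Field K] [Algebra ℂ K] (x y : K) (hx : Transcendental ℂ x)
    (h : ¬ AlgebraicIndependent ℂ ![x, y]) :
    IsAlgebraic (IntermediateField.adjoin ℂ {x}) y := by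
  by_contra hy
  apply h
  have hx1 : AlgebraicIndependent ℂ (fun _ : Unit => x) := algebraicIndependent_unique_type_iff.2 hx
  have hle : Algebra.adjoin ℂ (Set.range fun _ : Unit => x) ≤
      (IntermediateField.adjoin ℂ {x}).toSubalgebra := by
    rw [Algebra.adjoin_le_iff]
    rintro _ ⟨_, rfl⟩
    exact IntermediateField.mem_adjoin_simple_self ℂ x
  have h2 : Transcendental (Algebra.adjoin ℂ (Set.range fun _ : Unit => x)) y := by
    rintro ⟨p, hp, hpy⟩
    apply hy
    let inc : Algebra.adjoin ℂ (Set.range fun _ : Unit => x) →+* IntermediateField.adjoin ℂ {x} :=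
      (Subalgebra.inclusion hle).toRingHom
    have hinc : Function.Injective inc := Subalgebra.inclusion_injective hle
    refine ⟨p.map inc, (Polynomial.map_ne_zero_iff hinc).2 hp, ?_⟩
    rw [Polynomial.aeval_def, Polynomial.eval₂_map]
    rw [Polynomial.aeval_def] at hpy
    exact hpy
  have h3 := (hx1.option_iff_transcendental y).2 h2
  have h4 := h3.comp (![some (), none] : Fin 2 → Option Unit) (by
    intro i j hij
    fin_cases i <;> fin_cases j <;> simp_all)
  convert h4 using 1
  funext i
  fin_cases i <;> rfl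

theorem range_of_alg {K : Type} [Field K] [Algebra ℂ K] (x : K) (hx : IsAlgebraic ℂ x) :
    ∃ c : ℂ, algebraMap ℂ K c = x := by
  have hi : IsIntegral ℂ x := hx.isIntegral
  have h1 : (minpoly ℂ x).degree = 1 :=
    IsAlgClosed.degree_eq_one_of_irreducible ℂ (minpoly.irreducible hi)
  exact minpoly.mem_range_of_degree_eq_one ℂ x h1

section field

variable {L : Type} [Field L] [Algebra ℂ L]

/-- a finitely generated field of transcendence degree one is finite over `ℂ (x)` -/
theorem fin_of (hL : ∀ a b : L, ¬ AlgebraicIndependent ℂ ![a, b]) (hfg : Algebra.EssFiniteType ℂ L)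
    (x : L) (hx : Transcendental ℂ x) :
    FiniteDimensional (IntermediateField.adjoin ℂ {x}) L := by
  have h1 : Algebra.IsAlgebraic (IntermediateField.adjoin ℂ {x}) L :=
    ⟨fun y => alg_dep x y hx (hL x y)⟩
  have h2 : Algebra.EssFiniteType (IntermediateField.adjoin ℂ {x}) L :=
    Algebra.EssFiniteType.of_comp ℂ _ L
  exact Algebra.finite_of_essFiniteType_of_isAlgebraic

/-- Tsen's theorem for quadratic forms in three variables -/
theorem tsenL (hL : ∀ a b : L, ¬ AlgebraicIndependent ℂ ![a, b])
    (hfg : Algebra.EssFiniteType ℂ L) (x : L) (hx : Transcendental ℂ x)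
    (Ψ : MvPolynomial (Fin 3) L) (hΨ : Ψ.totalDegree ≤ 2) (h0 : eval 0 Ψ = 0) :
    ∃ a : Fin 3 → L, a ≠ 0 ∧ eval a Ψ = 0 := by
  classical
  let E := IntermediateField.adjoin ℂ {x}
  have hfd : FiniteDimensional E L := fin_of hL hfg x hx
  let ω := finBasis E L
  let x' : E := ⟨x, mem_adjoin_simple_self ℂ x⟩
  have hxx : algebraMap E L x' = x := rfl
  have hE : ∀ c : E, ∃ p q : Polynomial ℂ, Polynomial.aeval x' q ≠ 0 ∧
      c * Polynomial.aeval x' q = Polynomial.aeval x' p := by
    intro c
    obtain ⟨p, q, hpq⟩ := (mem_adjoin_simple_iff ℂ (c : L)).1 c.2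
    have hcoe : ∀ g : Polynomial ℂ, algebraMap E L (Polynomial.aeval x' g) =
        Polynomial.aeval x g := by
      intro g
      rw [← Polynomial.aeval_algebraMap_apply]
      rfl
    by_cases hq : Polynomial.aeval x q = 0
    · rw [hq, div_zero] at hpq
      refine ⟨0, 1, ?_, ?_⟩
      · rw [map_one]
        exact one_ne_zero
      · rw [map_one, mul_one, map_zero]
        exact Subtype.ext hpq
    · refine ⟨p, q, fun h => hq ?_, ?_⟩
      · rw [← hcoe, h, map_zero]
      · apply (algebraMap E L).injective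
        rw [map_mul, hcoe, hcoe]
        have h5 : algebraMap E L c = Polynomial.aeval x p / Polynomial.aeval x q := hpq
        rw [h5, div_mul_cancel₀ _ hq]
  have hcd : ∀ (c : Fin (finrank E L) → E), ∃ h : Polynomial ℂ, Polynomial.aeval x' h ≠ 0 ∧
      ∃ p : Fin (finrank E L) → Polynomial ℂ, ∀ j, Polynomial.aeval x' h * c j =
        Polynomial.aeval x' (p j) := by
    intro c
    choose p q hq hpq using fun j => hE (c j)
    refine ⟨∏ j, q j, ?_, fun j => p j * ∏ i ∈ Finset.univ.erase j, q i, ?_⟩
    · rw [map_prod]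
      exact Finset.prod_ne_zero_iff.2 fun j _ => hq j
    · intro j
      rw [map_mul, ← hpq j, ← Finset.mul_prod_erase Finset.univ q (Finset.mem_univ j), map_mul]
      ring
  have hxE : Transcendental ℂ x' := by
    intro h
    exact hx (h.algebraMap (A := L))
  have hX : Transcendental ℂ (algebraMap E L x') := hx
  have hspan : ∀ z : L, ∃ h : Polynomial ℂ, h ≠ 0 ∧ ∃ p : Fin (finrank E L) → Polynomial ℂ,
      Polynomial.aeval (algebraMap E L x') h * z =
        ∑ j, Polynomial.aeval (algebraMap E L x') (p j) * ω j := by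
    intro z
    obtain ⟨h, hh, p, hp⟩ := hcd (fun j => ω.repr z j)
    refine ⟨h, ?_, p, ?_⟩
    · rintro rfl
      exact hh (map_zero _)
    · conv_lhs => rw [← ω.sum_repr z]
      rw [Finset.mul_sum]
      refine Finset.sum_congr rfl fun j _ => ?_
      rw [Polynomial.aeval_algebraMap_apply, Polynomial.aeval_algebraMap_apply, ← hp, map_mul,
        Algebra.smul_def, mul_assoc]
  have hlin : ∀ p : Fin (finrank E L) → Polynomial ℂ,
      ∑ j, Polynomial.aeval (algebraMap E L x') (p j) * ω j = 0 → ∀ j, p j = 0 := by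
    intro p hp j
    have h1 : ∑ j, (Polynomial.aeval x' (p j)) • ω j = 0 := by
      rw [← hp]
      refine Finset.sum_congr rfl fun j _ => ?_
      rw [Polynomial.aeval_algebraMap_apply, Algebra.smul_def]
    have h2 := (Fintype.linearIndependent_iff.1 ω.linearIndependent) _ h1 j
    by_contra h0
    exact hxE ⟨p j, h0, h2⟩
  exact Pool.Agent.H552R3.Tsen.exists_zero (algebraMap E L x') ω hX hspan hlin Ψ 2 hΨ h0 (by
    rw [Fintype.card_fin]
    norm_num)

/-- a transcendental element has a pole -/
theorem exists_pole (hL : ∀ a b : L, ¬ AlgebraicIndependent ℂ ![a, b])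
    (hfg : Algebra.EssFiniteType ℂ L) (f : L) (hf : Transcendental ℂ f) :
    ∃ w : Place ℂ L, w.ord f < 0 := by
  classical
  have hf' : Transcendental ℂ f⁻¹ := fun h => hf (by simpa using h.inv)
  have hfd := fin_of hL hfg f⁻¹ hf'
  let y : Fin 0 → L := Fin.elim0
  have hr : insert f⁻¹ (Set.range y) = {f⁻¹} := by
    rw [Set.range_eq_empty]
    simp
  obtain ⟨S, hS, hsum⟩ := sum0 f⁻¹ y (by
    have h1 : AlgebraicIndependent ℂ (fun _ : Unit => f⁻¹) :=
      algebraicIndependent_unique_type_iff.2 hf'
    have h2 := h1.comp (Sum.elim Fin.elim0 (fun _ : Unit => ()) : Fin 0 ⊕ Unit → Unit) (by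
      rintro (i | i) (j | j) _
      · exact i.elim0
      · exact i.elim0
      · exact j.elim0
      · rfl)
    convert h2 using 1
    funext i
    rcases i with i | i
    · exact i.elim0
    · rfl) (by rw [hr]; exact hfd)
  have hpos : 0 < finrank (IntermediateField.adjoin ℂ (insert f⁻¹ (Set.range y))) L := by
    rw [hr]
    exact finrank_pos
  rw [← hsum] at hpos
  obtain ⟨w, hw, -⟩ := Finset.exists_ne_zero_of_sum_ne_zero hpos.ne'
  refine ⟨w, ?_⟩
  have h1 := ((hS w).1 hw).1
  rw [w.ord_inv] at h1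
  omega

/-- a point with constant tangent hyperplane is constant -/
theorem const_pt {N : ℕ} {F : MvPolynomial (Fin N) ℂ} {T : Fin N → Fin N → Fin N → ℂ}
    (hF : F.IsHomogeneous 3) (hsm : Sm F) (hT : SymG T) (hFT : F = Bg T X X X)
    (hL : ∀ a b : L, ¬ AlgebraicIndependent ℂ ![a, b]) (hfg : Algebra.EssFiniteType ℂ L)
    (c : Fin N → L) (k : L) (hk : k ≠ 0) (γ : Fin N → ℂ)
    (h : ∀ i, Bg T c c (Rat.ev L i) = k * algebraMap ℂ L (γ i)) (i j : Fin N) (hj : c j ≠ 0) :
    ∃ b : ℂ, c i = algebraMap ℂ L b * c j := by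
  classical
  have key : ∀ i j, ∃ b : ℂ, c i * c j = k * algebraMap ℂ L b := by
    intro i j
    have h1 : IsAlgebraic ℂ (c i * c j / k) := by
      by_contra htr
      obtain ⟨w, hw⟩ := exists_pole hL hfg _ htr
      have hc0 : c ≠ 0 := by
        intro h0
        rw [h0] at hw
        simp only [Pi.zero_apply, zero_mul, zero_div, w.ord_zero] at hw
        exact lt_irrefl _ hw
      obtain ⟨i0, hi0, hreg⟩ := prim w c hc0
      have hcb : (fun i => w.red (c i / c i0)) ≠ 0 := by
        intro h0
        have h2 := congrFun h0 i0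
        simp only [div_self hi0, w.red_one, Pi.zero_apply] at h2
        exact one_ne_zero h2
      obtain ⟨m, hm⟩ := smK' hF hsm hT hFT _ hcb
      have hev : ∀ i, w.Reg (Rat.ev L m i) ∧ w.red (Rat.ev L m i) = Rat.ev w.RF m i := by
        intro i
        unfold Rat.ev
        split_ifs
        · exact ⟨w.reg_one, w.red_one⟩
        · exact ⟨w.reg_zero, w.red_zero⟩
      obtain ⟨r1, e1⟩ := red_Bg w T (Rat.ev L m) (fun i => c i / c i0) (fun i => c i / c i0)
        (fun i => (hev i).1) hreg hreg
      rw [funext fun i => (hev i).2] at e1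
      have e2 : Bg T (Rat.ev L m) (fun i => c i / c i0) (fun i => c i / c i0) =
          k * algebraMap ℂ L (γ m) / (c i0) ^ 2 := by
        have h3 : (fun i => c i / c i0) = fun i => (1 / c i0) * c i := by
          funext i
          ring
        rw [h3, Bg_smul2, Bg_smul3, Bg_swap12 hT, Bg_swap23 hT, h m]
        field_simp
      rw [← e1, e2] at hm
      have hγ : γ m ≠ 0 := by
        intro h0
        rw [h0, map_zero, mul_zero, zero_div, w.red_zero] at hm
        exact hm rfl
      have hγ' : algebraMap ℂ L (γ m) ≠ 0 := by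
        rw [Ne, map_eq_zero]
        exact hγ
      have hne : k * algebraMap ℂ L (γ m) / (c i0) ^ 2 ≠ 0 :=
        div_ne_zero (mul_ne_zero hk hγ') (pow_ne_zero _ hi0)
      rw [e2] at r1
      have ho : w.ord (k * algebraMap ℂ L (γ m) / (c i0) ^ 2) = 0 := by
        rw [Ne, w.red_eq_zero_iff r1] at hm
        push Not at hm
        have := (w.reg_iff hne).1 r1
        have := hm.2
        omega
      rw [w.ord_div (mul_ne_zero hk hγ') (pow_ne_zero _ hi0), w.ord_mul hk hγ', w.ord_const hγ,
        w.ord_pow] at ho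
      by_cases hij : c i = 0 ∨ c j = 0
      · have h0 : c i * c j / k = 0 := by
          rcases hij with h0 | h0
          · rw [h0, zero_mul, zero_div]
          · rw [h0, mul_zero, zero_div]
        rw [h0, w.ord_zero] at hw
        exact lt_irrefl _ hw
      push Not at hij
      rw [w.ord_div (mul_ne_zero hij.1 hij.2) hk, w.ord_mul hij.1 hij.2] at hw
      have h5 := (w.reg_iff (div_ne_zero hij.1 hi0)).1 (hreg i)
      have h6 := (w.reg_iff (div_ne_zero hij.2 hi0)).1 (hreg j)
      rw [w.ord_div hij.1 hi0] at h5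
      rw [w.ord_div hij.2 hi0] at h6
      push_cast at ho
      omega
    obtain ⟨b, hb⟩ := range_of_alg _ h1
    refine ⟨b, ?_⟩
    rw [hb, mul_div_cancel₀ _ hk]
  obtain ⟨b1, hb1⟩ := key i j
  obtain ⟨b2, hb2⟩ := key j j
  have hb20 : b2 ≠ 0 := by
    intro h0
    rw [h0, map_zero, mul_zero] at hb2
    exact mul_self_ne_zero.2 hj hb2
  refine ⟨b1 / b2, ?_⟩
  apply mul_right_cancel₀ hj
  rw [hb1, map_div₀]
  have hb2' : algebraMap ℂ L b2 ≠ 0 := by
    rw [Ne, map_eq_zero]
    exact hb20
  rw [mul_assoc, hb2]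
  field_simp

end field

section places

variable {E : Type} [Field E] [Algebra ℂ E] (w : Place ℂ E)

/-- a place is trivial on the field generated by elements with independent residues -/
theorem triv_adj {ι : Type} (U : ι → E) (hU : ∀ j, w.Reg (U j))
    (hAI : AlgebraicIndependent ℂ fun j => w.red (U j)) :
    ∀ k ∈ IntermediateField.adjoin ℂ (Set.range U), k ≠ 0 → w.ord k = 0 := by
  intro k hk hk0
  obtain ⟨p, q, rfl⟩ := (mem_adjoin_range_iff ℂ U k).1 hk
  have h1 : ∀ p : MvPolynomial ι ℂ, aeval U p ≠ 0 → w.ord (aeval U p) = 0 := by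
    intro p hp
    obtain ⟨h2, h3⟩ := NT.red_aeval w U hU p
    have h4 : p ≠ 0 := by
      rintro rfl
      exact hp (map_zero _)
    have h5 : w.red (aeval U p) ≠ 0 := by
      rw [h3]
      exact fun h => h4 ((algebraicIndependent_iff.1 hAI) p h)
    rw [Ne, w.red_eq_zero_iff h2] at h5
    push Not at h5
    have := (w.reg_iff hp).1 h2
    have := h5.2
    omega
  have hp : aeval U p ≠ 0 := fun h => hk0 (by rw [h, zero_div])
  have hq : aeval U q ≠ 0 := fun h => hk0 (by rw [h, div_zero])
  rw [w.ord_div hp hq, h1 p hp, h1 q hq, sub_zero]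

theorem triv_alg0 (K0 : IntermediateField ℂ E) (h0 : ∀ k ∈ K0, k ≠ 0 → w.ord k = 0) (b : E)
    (hb : IsAlgebraic K0 b) (hb0 : b ≠ 0) : ¬ 0 < w.ord b := by
  intro hpos
  have hi : IsIntegral K0 b := hb.isIntegral
  have h1 : (minpoly K0 b).coeff 0 ≠ 0 := minpoly.coeff_zero_ne_zero hi hb0
  have h2 := minpoly.aeval K0 b
  have hKreg : ∀ k : K0, w.Reg (k : E) := by
    intro k
    by_cases hk : (k : E) = 0
    · exact Or.inl hk
    · exact Or.inr (h0 _ k.2 hk).ge
  have hbreg : w.Reg b := Or.inr hpos.le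
  have h3 : ∀ p : Polynomial K0, w.Reg (Polynomial.aeval b p) := by
    intro p
    induction p using Polynomial.induction_on' with
    | add p q hp hq =>
      rw [map_add]
      exact w.reg_add hp hq
    | monomial n a =>
      rw [Polynomial.aeval_monomial]
      refine w.reg_mul (hKreg a) ?_
      induction n with
      | zero => rw [pow_zero]; exact w.reg_one
      | succ n ih => rw [pow_succ]; exact w.reg_mul ih hbreg
  have h4 := Polynomial.divX_mul_X_add (minpoly K0 b)
  have h5 := congrArg (Polynomial.aeval b) h4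
  rw [h2, map_add, map_mul, Polynomial.aeval_X, Polynomial.aeval_C] at h5
  have h6 := congrArg w.red h5
  have hb' : w.red b = 0 := (w.red_eq_zero_iff hbreg).2 (Or.inr hpos)
  have h7 : w.Reg (algebraMap K0 E ((minpoly K0 b).coeff 0)) := hKreg _
  rw [w.red_add (w.reg_mul (h3 _) hbreg) h7, w.red_mul (h3 _) hbreg, hb', mul_zero, zero_add,
    w.red_zero, w.red_eq_zero_iff h7] at h6
  rcases h6 with h6 | h6
  · exact h1 (Subtype.ext h6)
  · have h8 := h0 _ ((minpoly K0 b).coeff 0).2 (fun h => h1 (Subtype.ext h))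
    have h9 : algebraMap K0 E ((minpoly K0 b).coeff 0) = ((minpoly K0 b).coeff 0 : E) := rfl
    rw [h9, h8] at h6
    exact lt_irrefl _ h6

/-- a place which is trivial on a field is trivial on its algebraic elements -/
theorem triv_alg (K0 : IntermediateField ℂ E) (h0 : ∀ k ∈ K0, k ≠ 0 → w.ord k = 0) (b : E)
    (hb : IsAlgebraic K0 b) (hb0 : b ≠ 0) : w.ord b = 0 := by
  have h1 := triv_alg0 w K0 h0 b hb hb0
  have h2 := triv_alg0 w K0 h0 b⁻¹ hb.inv (inv_ne_zero hb0)
  rw [w.ord_inv] at h2
  omega

/-- independence from residues -/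
theorem ai_of_place {m : ℕ} (s : E) (U : Fin m → E) (hs : 0 < w.ord s) (hU : ∀ j, w.Reg (U j))
    (hAI : AlgebraicIndependent ℂ fun j => w.red (U j)) :
    AlgebraicIndependent ℂ (Sum.elim U (fun _ : Unit => s)) := by
  have hs0 : s ≠ 0 := by
    intro h
    rw [h, w.ord_zero] at hs
    exact lt_irrefl _ hs
  have h1 : AlgebraicIndependent ℂ U := by
    rw [algebraicIndependent_iff]
    intro p hp
    obtain ⟨h2, h3⟩ := NT.red_aeval w U hU p
    rw [hp, w.red_zero] at h3
    exact (algebraicIndependent_iff.1 hAI) p h3.symm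
  have h2 : Transcendental (IntermediateField.adjoin ℂ (Set.range U)) s := by
    intro h
    have h3 := triv_alg w _ (triv_adj w U hU hAI) s h hs0
    omega
  have h3 : AlgebraicIndependent (Algebra.adjoin ℂ (Set.range U)) (fun _ : Unit => s) := by
    rw [algebraicIndependent_unique_type_iff]
    exact transcendental_adjoin_iff.1 h2
  have h4 := AlgebraicIndependent.sumElim_iff.2 ⟨h1, h3⟩
  have h5 := h4.comp _ (Equiv.sumComm (Fin m) Unit).injective
  convert h5 using 1
  funext i
  rcases i with i | i <;> rfl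

/-- the residues of the elements of the function field of a curve are constants at a place which
is not trivial on it -/
theorem const_res (K : IntermediateField ℂ E)
    (hK : ∀ a ∈ K, ∀ b ∈ K, ¬ AlgebraicIndependent ℂ ![a, b])
    (hnt : ∃ k ∈ K, k ≠ 0 ∧ w.ord k ≠ 0) :
    ∀ k ∈ K, w.Reg k → ∃ a : ℂ, w.red k = algebraMap ℂ w.RF a := by
  intro k hk hreg
  by_contra hcon
  have htr : Transcendental ℂ (w.red k) := by
    intro h
    obtain ⟨a, ha⟩ := range_of_alg _ h
    exact hcon ⟨a, ha.symm⟩
  have hktr : Transcendental ℂ k := by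
    intro h
    obtain ⟨a, ha⟩ := range_of_alg _ h
    apply hcon
    refine ⟨a, ?_⟩
    rw [← ha]
    rfl
  obtain ⟨b, hb, hb0, hb1⟩ := hnt
  have h1 := triv_adj w (fun _ : Unit => k) (fun _ => hreg)
    (algebraicIndependent_unique_type_iff.2 htr)
  have h2 : (Set.range fun _ : Unit => k) = {k} := Set.range_const
  rw [h2] at h1
  exact hb1 (triv_alg w _ h1 b (alg_dep k b hktr (hK k hk b hb)) hb0)

end places

end

end Pool.Agent.N122
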