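import Mathlib

/-! # Cyclic covers which are unirational over the algebraic closure are potentially dense -/

set_option autoImplicit false

namespace Pool.Agent.N122.Dens

open MvPolynomial

noncomputable section

/-! ## Homogenization -/

section hom

variable {σ R A : Type*} [Fintype σ] [CommRing R] [CommRing A] [Algebra R A]

/-- the polynomial `q ^ N g(p / q)` -/
def hmg (g : MvPolynomial σ R) (N : ℕ) (p : σ → A) (q : A) : A :=
  ∑ β ∈ g.support, algebraMap R A (coeff β g) * (∏ i, p i ^ β i) * q ^ (N - ∑ i, β i)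

theorem map_hmg {B : Type*} [Field B] [Algebra R B] (φ : A →ₐ[R] B) (g : MvPolynomial σ R) (N : ℕ)
    (p : σ → A) (q : A) (hN : ∀ β ∈ g.support, ∑ i, β i ≤ N) (hq : φ q ≠ 0) :
    φ (hmg g N p q) = φ q ^ N * aeval (fun i => φ (p i) / φ q) g := by
  have h1 : aeval (fun i => φ (p i) / φ q) g = ∑ β ∈ g.support, algebraMap R B (coeff β g) *
      ∏ i, (φ (p i) / φ q) ^ β i := by
    rw [aeval_def, eval₂_eq']
  rw [h1, hmg, map_sum, Finset.mul_sum]
  refine Finset.sum_congr rfl fun β hβ => ?_
  rw [map_mul, map_mul, φ.commutes, map_pow, map_prod]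
  have h2 : ∏ i, (φ (p i) / φ q) ^ β i = (∏ i, φ (p i) ^ β i) / φ q ^ (∑ i, β i) := by
    rw [← Finset.prod_pow_eq_pow_sum, ← Finset.prod_div_distrib]
    exact Finset.prod_congr rfl fun i _ => div_pow _ _ _
  have h3 : φ q ^ N = φ q ^ (∑ i, β i) * φ q ^ (N - ∑ i, β i) := by
    rw [← pow_add]
    congr 1
    have := hN β hβ
    omega
  rw [h2, h3]
  have h4 : ∏ i, φ (p i ^ β i) = ∏ i, φ (p i) ^ β i :=
    Finset.prod_congr rfl fun i _ => map_pow _ _ _
  rw [h4]
  field_simp

end hom

/-! ## The kernel -/

section ker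

variable {k : Type} [Field k] {n : ℕ}

/-- the equation of the cyclic cover -/
def eqn {L : Type} [Field L] (e : ℕ) (f : MvPolynomial (Fin n) L) : MvPolynomial (Fin (n + 1)) L :=
  X 0 ^ e - rename Fin.succ f

theorem fse_rename (f : MvPolynomial (Fin n) k) :
    finSuccEquiv k n (rename Fin.succ f) = Polynomial.C f := by
  have h1 : ((finSuccEquiv k n).toAlgHom).comp (rename Fin.succ) =
      (Algebra.ofId (MvPolynomial (Fin n) k) (Polynomial (MvPolynomial (Fin n) k))).restrictScalars
        k := by
    apply algHom_ext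
    intro i
    rw [AlgHom.comp_apply, rename_X]
    exact finSuccEquiv_X_succ
  exact congrArg (fun φ => φ f) h1

theorem irr_cover {e : ℕ} (he : 1 ≤ e) {f : MvPolynomial (Fin n) k} (hf : Irreducible f) :
    Irreducible (Polynomial.X ^ e - Polynomial.C f : Polynomial (MvPolynomial (Fin n) k)) := by
  have hp : Prime f := UniqueFactorizationMonoid.irreducible_iff_prime.1 hf
  have hdeg : (Polynomial.X ^ e - Polynomial.C f : Polynomial (MvPolynomial (Fin n) k)).degree =
      (e : WithBot ℕ) := Polynomial.degree_X_pow_sub_C (by omega) f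
  have hmon : (Polynomial.X ^ e - Polynomial.C f :
      Polynomial (MvPolynomial (Fin n) k)).Monic := Polynomial.monic_X_pow_sub_C f (by omega)
  refine Polynomial.irreducible_of_eisenstein_criterion (P := Ideal.span {f})
    ((Ideal.span_singleton_prime hp.ne_zero).2 hp) ?_ ?_ ?_ ?_ hmon.isPrimitive
  · rw [hmon.leadingCoeff, Ideal.mem_span_singleton]
    exact fun h => hp.not_isUnit (isUnit_of_dvd_one h)
  · intro m hm
    rw [hdeg] at hm
    have hm' : m < e := by exact_mod_cast hm
    rw [Polynomial.coeff_sub, Polynomial.coeff_X_pow, if_neg (by omega), zero_sub,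
      Polynomial.coeff_C, Ideal.mem_span_singleton]
    split_ifs
    · exact (dvd_neg).2 dvd_rfl
    · simp
  · rw [hdeg]
    exact_mod_cast (by omega : 0 < e)
  · rw [Polynomial.coeff_sub, Polynomial.coeff_X_pow, if_neg (by omega), zero_sub,
      Polynomial.coeff_C_zero, Ideal.span_singleton_pow, Ideal.mem_span_singleton, dvd_neg]
    rintro ⟨c, hc⟩
    have h1 : f * (1 - f * c) = 0 := by linear_combination hc
    have h2 := (mul_eq_zero.1 h1).resolve_left hp.ne_zero
    exact hp.not_isUnit (isUnit_of_dvd_one ⟨c, by linear_combination h2⟩)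

/-- the relations of the generic point of a cyclic cover -/
theorem dvd_of_zero {Ω : Type} [Field Ω] [Algebra k Ω] {e : ℕ} (he : 1 ≤ e)
    {f : MvPolynomial (Fin n) k} (hf : Irreducible f) (P : Fin n → Ω) (hP : AlgebraicIndependent k P)
    (W : Ω) (hW : W ^ e = aeval P f) (g : MvPolynomial (Fin (n + 1)) k)
    (hg : aeval (Fin.cons W P : Fin (n + 1) → Ω) g = 0) : eqn e f ∣ g := by
  let _ : Algebra (MvPolynomial (Fin n) k) Ω := (aeval P).toRingHom.toAlgebra
  have halg : ∀ a : MvPolynomial (Fin n) k, algebraMap (MvPolynomial (Fin n) k) Ω a = aeval P a :=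
    fun a => rfl
  have hinj : Function.Injective (algebraMap (MvPolynomial (Fin n) k) Ω) := hP
  have hfs : FaithfulSMul (MvPolynomial (Fin n) k) Ω :=
    (faithfulSMul_iff_algebraMap_injective _ _).2 hinj
  have hst : IsScalarTower k (MvPolynomial (Fin n) k) Ω := by
    refine IsScalarTower.of_algebraMap_eq' ?_
    ext c
    rw [RingHom.comp_apply, halg, algebraMap_eq, aeval_C]
  set p : Polynomial (MvPolynomial (Fin n) k) := Polynomial.X ^ e - Polynomial.C f with hp
  have hmon : p.Monic := Polynomial.monic_X_pow_sub_C f (by omega)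
  have hp0 : Polynomial.aeval W p = 0 := by
    rw [hp, map_sub, map_pow, Polynomial.aeval_X, Polynomial.aeval_C, halg, hW, sub_self]
  have hint : IsIntegral (MvPolynomial (Fin n) k) W := ⟨p, hmon, hp0⟩
  have hmin : minpoly (MvPolynomial (Fin n) k) W = p := by
    have h1 := minpoly.isIntegrallyClosed_dvd hint hp0
    obtain ⟨c, hc⟩ := h1
    have h2 := (irr_cover he hf).isUnit_or_isUnit hc
    have h3 : ¬ IsUnit (minpoly (MvPolynomial (Fin n) k) W) := minpoly.not_isUnit _ _
    have h4 := h2.resolve_left h3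
    refine Polynomial.eq_of_monic_of_associated (minpoly.monic hint) hmon ?_
    exact ⟨h4.unit, hc.symm⟩
  -- the polynomial in `w`
  have hG : Polynomial.aeval W (finSuccEquiv k n g) = 0 := by
    have h1 : ((Polynomial.aeval (R := MvPolynomial (Fin n) k) W).restrictScalars k).comp
        (finSuccEquiv k n).toAlgHom =
        (aeval (Fin.cons W P : Fin (n + 1) → Ω) : MvPolynomial (Fin (n + 1)) k →ₐ[k] Ω) := by
      apply algHom_ext
      intro i
      refine Fin.cases ?_ (fun j => ?_) i
      · rw [AlgHom.comp_apply, aeval_X, Fin.cons_zero]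
        change Polynomial.aeval W (finSuccEquiv k n (X 0)) = W
        rw [finSuccEquiv_X_zero, Polynomial.aeval_X]
      · rw [AlgHom.comp_apply, aeval_X, Fin.cons_succ]
        change Polynomial.aeval W (finSuccEquiv k n (X j.succ)) = P j
        rw [finSuccEquiv_X_succ, Polynomial.aeval_C, halg, aeval_X]
    have h2 := congrArg (fun φ => φ g) h1
    simp only [AlgHom.comp_apply] at h2
    rw [hg] at h2
    exact h2
  have h5 := minpoly.isIntegrallyClosed_dvd hint hG
  rw [hmin] at h5
  have h6 : finSuccEquiv k n (eqn e f) = p := by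
    rw [eqn, map_sub, map_pow, finSuccEquiv_X_zero, fse_rename]
  rw [← h6] at h5
  obtain ⟨c, hc⟩ := h5
  refine ⟨(finSuccEquiv k n).symm c, ?_⟩
  apply (finSuccEquiv k n).injective
  rw [map_mul, AlgEquiv.apply_symm_apply]
  exact hc

end ker

/-! ## Density -/

theorem irr_of_map {L k : Type} [Field L] [Field k] (ι : L →+* k) {n : ℕ} {f : MvPolynomial (Fin n) L}
    (hf : Irreducible (map ι f)) : Irreducible f := by
  have hunit : ∀ a : MvPolynomial (Fin n) L, IsUnit (map ι a) → IsUnit a := by
    intro a ha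
    rw [MvPolynomial.isUnit_iff_eq_C_of_isReduced] at ha ⊢
    obtain ⟨r, hr, h⟩ := ha
    have h1 : a = C (coeff 0 a) := by
      apply map_injective ι ι.injective
      rw [h, map_C]
      congr 1
      have h2 := congrArg (coeff 0) h
      rw [coeff_map, coeff_C, if_pos rfl] at h2
      exact h2.symm
    refine ⟨coeff 0 a, ?_, h1⟩
    rw [isUnit_iff_ne_zero]
    intro h0
    rw [h0, C_0] at h1
    rw [h1, map_zero] at h
    have h3 := C_injective (Fin n) k (h.symm.trans C_0.symm)
    exact hr.ne_zero h3
  refine ⟨fun h => hf.not_isUnit (h.map (map ι)), fun a b hab => ?_⟩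
  have h1 : map ι f = map ι a * map ι b := by rw [hab, map_mul]
  exact (hf.isUnit_or_isUnit h1).imp (hunit a) (hunit b)

theorem sum_le {σ R : Type*} [Fintype σ] [CommRing R] (g : MvPolynomial σ R) :
    ∀ β ∈ g.support, ∑ i, β i ≤ g.totalDegree := by
  intro β hβ
  have h1 := le_totalDegree hβ
  rwa [Finsupp.sum_fintype _ _ (fun _ => rfl)] at h1

/-- density of the rational points over the field of definition of a parametrization -/
theorem core {L : Type} [Field L] [Infinite L] {n m e : ℕ} (he : 1 ≤ e)
    (f : MvPolynomial (Fin n) L) (hf : Irreducible f) {Ω : Type} [Field Ω] [Algebra L Ω]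
    (φ : MvPolynomial (Fin m) L →ₐ[L] Ω) (hφinj : Function.Injective φ)
    (p' : Fin (n + 1) → MvPolynomial (Fin m) L) (q' : MvPolynomial (Fin m) L) (hφq : φ q' ≠ 0)
    (P : Fin n → Ω) (hP : AlgebraicIndependent L P) (W : Ω) (hW : W ^ e = aeval P f)
    (hz : (Fin.cons W P : Fin (n + 1) → Ω) = fun i => φ (p' i) / φ q')
    (g : MvPolynomial (Fin (n + 1)) L)
    (hg : ∀ z : Fin (n + 1) → L, z 0 ^ e = eval (fun i => z i.succ) f → eval z g = 0) :
    eqn e f ∣ g := by
  classical
  have hzf : aeval (Fin.cons W P : Fin (n + 1) → Ω) (eqn e f) = 0 := by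
    rw [eqn, map_sub, map_pow, aeval_X, aeval_rename]
    have h1 : ((Fin.cons W P : Fin (n + 1) → Ω) ∘ Fin.succ) = P := rfl
    rw [h1, Fin.cons_zero, hW, sub_self]
  refine dvd_of_zero (Ω := Ω) he hf P hP W hW g ?_
  by_contra hgz
  have h1 := map_hmg φ g g.totalDegree p' q' (sum_le g) hφq
  rw [← hz] at h1
  have hG : hmg g g.totalDegree p' q' ≠ 0 := by
    intro h0
    rw [h0, map_zero] at h1
    exact (mul_ne_zero (pow_ne_zero _ hφq) hgz) h1.symm
  have hq'0 : q' ≠ 0 := by
    rintro h0
    rw [h0, map_zero] at hφq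
    exact hφq rfl
  obtain ⟨t, ht⟩ : ∃ t : Fin m → L, eval t (hmg g g.totalDegree p' q' * q') ≠ 0 := by
    by_contra hcon
    push Not at hcon
    exact mul_ne_zero hG hq'0 (MvPolynomial.funext fun t => by rw [hcon, map_zero])
  rw [map_mul] at ht
  obtain ⟨ε, hε⟩ : ∃ ε : MvPolynomial (Fin m) L →ₐ[L] L, ∀ a, ε a = eval t a :=
    ⟨aeval t, fun a => congrArg (fun ψ => ψ a) (coe_aeval_eq_eval t)⟩
  have hεq : ε q' ≠ 0 := by
    rw [hε]
    exact right_ne_zero_of_mul ht
  have h2 := map_hmg ε g g.totalDegree p' q' (sum_le g) hεq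
  have h3 := map_hmg φ (eqn e f) (eqn e f).totalDegree p' q' (sum_le _) hφq
  rw [← hz, hzf, mul_zero] at h3
  have h4 : hmg (eqn e f) (eqn e f).totalDegree p' q' = 0 := hφinj (h3.trans (map_zero _).symm)
  have h5 := map_hmg ε (eqn e f) (eqn e f).totalDegree p' q' (sum_le _) hεq
  rw [h4, map_zero] at h5
  have h6 := (mul_eq_zero.1 h5.symm).resolve_left (pow_ne_zero _ hεq)
  have h7 : (ε (p' 0) / ε q') ^ e = eval (fun i : Fin n => ε (p' i.succ) / ε q') f := by
    rw [eqn, map_sub, map_pow, aeval_X, aeval_rename, sub_eq_zero] at h6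
    rw [h6]
    exact congrArg (fun ψ => ψ f) (coe_aeval_eq_eval _)
  have h8 := hg (fun i => ε (p' i) / ε q') h7
  have h8' : aeval (fun i => ε (p' i) / ε q') g = 0 := by
    rw [← h8]
    exact congrArg (fun ψ => ψ g) (coe_aeval_eq_eval _)
  rw [h8', mul_zero, hε] at h2
  exact left_ne_zero_of_mul ht h2

/-- **Potential density of cyclic covers which are unirational over the algebraic closure.** -/
theorem dense {K : Type} [Field K] [NumberField K] {n : ℕ} {e : ℕ} (he : 1 ≤ e)
    (f : MvPolynomial (Fin n) K)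
    (hf : Irreducible (map (algebraMap K (AlgebraicClosure K)) f)) (m : ℕ)
    (P : Fin n → FractionRing (MvPolynomial (Fin m) (AlgebraicClosure K)))
    (W : FractionRing (MvPolynomial (Fin m) (AlgebraicClosure K)))
    (hP : AlgebraicIndependent (AlgebraicClosure K) P)
    (hW : W ^ e = aeval P (map (algebraMap K (AlgebraicClosure K)) f)) :
    ∃ (L : Type) (_ : Field L) (_ : NumberField L) (_ : Algebra K L),
      ∀ g : MvPolynomial (Fin (n + 1)) L,
        (∀ z : Fin (n + 1) → L, z 0 ^ e = eval (fun i => z i.succ) (map (algebraMap K L) f) →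
          eval z g = 0) → eqn e (map (algebraMap K L) f) ∣ g := by
  classical
  let k := AlgebraicClosure K
  let A := MvPolynomial (Fin m) k
  let Ω := FractionRing A
  obtain ⟨⟨q, hq⟩, hqi⟩ := IsLocalization.exist_integer_multiples_of_finite (nonZeroDivisors A)
    (Fin.cons W P : Fin (n + 1) → Ω)
  choose p hp using hqi
  have hq0 : q ≠ 0 := nonZeroDivisors.ne_zero hq
  have hqΩ : algebraMap A Ω q ≠ 0 := by
    intro h
    exact hq0 ((IsFractionRing.injective A Ω) (h.trans (map_zero _).symm))
  let S : Set k := (q.coeffs : Set k) ∪ ⋃ i, ((p i).coeffs : Set k)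
  have hSfin : Finite S := by
    have : S.Finite := (Finset.finite_toSet _).union (Set.finite_iUnion fun i =>
      Finset.finite_toSet _)
    exact this
  let L : IntermediateField K k := IntermediateField.adjoin K S
  have hfin : FiniteDimensional K L := IntermediateField.finiteDimensional_adjoin fun x _ =>
    Algebra.IsIntegral.isIntegral x
  have hfinQ : FiniteDimensional ℚ L := FiniteDimensional.trans ℚ K L
  have hnf : NumberField L := { to_charZero := inferInstance, to_finiteDimensional := hfinQ }
  have hrange : ∀ a : A, (a.coeffs : Set k) ⊆ S → ∃ a' : MvPolynomial (Fin m) L,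
      map (algebraMap L k) a' = a := by
    intro a ha
    refine mem_range_map_iff_coeffs_subset.2 fun y hy => ?_
    exact ⟨⟨y, IntermediateField.subset_adjoin K S (ha hy)⟩, rfl⟩
  obtain ⟨q', hq'⟩ := hrange q Set.subset_union_left
  choose p' hp' using fun i => hrange (p i) ((Set.subset_iUnion (fun i => ((p i).coeffs : Set k)) i).trans
    Set.subset_union_right)
  let φ : MvPolynomial (Fin m) L →ₐ[L] Ω := aeval fun j => algebraMap A Ω (X j)
  have hφ : ∀ a, φ a = algebraMap A Ω (map (algebraMap L k) a) := by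
    intro a
    have h1 : (φ : MvPolynomial (Fin m) L →+* Ω) = (algebraMap A Ω).comp (map (algebraMap L k)) := by
      apply MvPolynomial.ringHom_ext
      · intro c
        rw [RingHom.comp_apply, map_C]
        change φ (C c) = _
        rw [← algebraMap_eq, φ.commutes]
        rfl
      · intro j
        rw [RingHom.comp_apply, map_X]
        change φ (X j) = _
        exact aeval_X _ _
    exact congrArg (fun ψ => ψ a) h1
  have hφinj : Function.Injective φ := by
    intro a b hab
    rw [hφ, hφ] at hab
    exact map_injective _ (algebraMap L k).injective (IsFractionRing.injective A Ω hab)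
  have hφq : φ q' ≠ 0 := by
    rw [hφ, hq']
    exact hqΩ
  let z : Fin (n + 1) → Ω := Fin.cons W P
  have hz : z = fun i => φ (p' i) / φ q' := by
    funext i
    rw [hφ, hφ, hq', hp', hp, eq_div_iff hqΩ]
    change z i * _ = q • z i
    rw [Algebra.smul_def, mul_comm]
  have hst : IsScalarTower L k Ω := inferInstance
  have hmapmap : map (algebraMap L k) (map (algebraMap K L) f) = map (algebraMap K k) f := by
    rw [map_map]
    rfl
  have hWL : W ^ e = aeval P (map (algebraMap K L) f) := by
    rw [hW]
    have h1 : ∀ a : MvPolynomial (Fin n) L, aeval P (map (algebraMap L k) a) = aeval P a := by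
      intro a
      exact aeval_map_algebraMap k P a
    rw [← h1, hmapmap]
  refine ⟨L, inferInstance, hnf, inferInstance, fun g hg => ?_⟩
  exact core he (map (algebraMap K L) f) (irr_of_map (algebraMap L k) (by rw [hmapmap]; exact hf))
    φ hφinj p' q' hφq P (hP.restrictScalars (algebraMap L k).injective) W hWL hz g hg

end

end Pool.Agent.N122.Dens
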