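import Mathlib
import Pool.Agent.N122.Crv
import Pool.Agent.R845.T2.Fd
import Pool.Agent.Y220.LI.Ext

/-! # Preparations for the degeneration -/

set_option autoImplicit false

namespace Pool.Agent.N122

open MvPolynomial Pool.Agent.TH314.PD Module FF IntermediateField Pool.Agent.Y201.C3
open Pool.Agent.R845.T2 Pool.Agent.R845.E3

noncomputable section

/-- transport of algebraic elements -/
theorem alg_map {E E' : Type} [Field E] [Algebra ℂ E] [Field E'] [Algebra ℂ E'] (f : E →ₐ[ℂ] E')
    (K0 : IntermediateField ℂ E) (K1 : IntermediateField ℂ E') (h : ∀ k ∈ K0, f k ∈ K1) (a : E)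
    (ha : IsAlgebraic K0 a) : IsAlgebraic K1 (f a) := by
  obtain ⟨p, hp, hpa⟩ := ha
  let j : K0 →+* K1 := (f.toRingHom.comp (algebraMap K0 E)).codRestrict K1.toSubfield.toSubring
    (fun k => h _ k.2)
  have hj : Function.Injective j := j.injective
  refine ⟨p.map j, (Polynomial.map_ne_zero_iff hj).2 hp, ?_⟩
  rw [Polynomial.aeval_def, Polynomial.eval₂_map]
  have h1 := congrArg f hpa
  rw [map_zero, Polynomial.aeval_def] at h1
  have h2 := Polynomial.hom_eval₂ p (algebraMap K0 E) f.toRingHom a
  have h3 : f.toRingHom (Polynomial.eval₂ (algebraMap K0 E) a p) = 0 := h1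
  rw [h3] at h2
  exact h2.symm

/-- a point with first coordinate one -/
theorem gen_of_ai {m : ℕ} {κ : Type} [Field κ] [Algebra ℂ κ] (u : Fin (m + 1) → κ) (h0 : u 0 = 1)
    (hAI : AlgebraicIndependent ℂ fun j : Fin m => u j.succ) :
    (∀ (e : ℕ) (H : MvPolynomial (Fin (m + 1)) ℂ), H.IsHomogeneous e → aeval u H = 0 → H = 0) ∧
    ratioField u = IntermediateField.adjoin ℂ (Set.range fun j : Fin m => u j.succ) := by
  have hne : u 0 ≠ 0 := by
    rw [h0]
    exact one_ne_zero
  have h1 : (fun l : Fin m => u ((0 : Fin (m + 1)).succAbove l) / u 0) = fun j => u j.succ := by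
    funext l
    rw [h0, div_one, Fin.zero_succAbove]
  refine ⟨fun e H hH h => Fd.eq_zero_of_indep hH u hne (by rw [h1]; exact hAI) h, ?_⟩
  rw [Fd.ratioField_eq u hne, h1]

/-- finiteness over another transcendence basis -/
theorem fin_of_ai {m : ℕ} {E : Type} [Field E] [Algebra ℂ E] (Z U : Fin m → E) (s s' : E)
    (hf : FiniteDimensional (IntermediateField.adjoin ℂ (insert s (Set.range Z))) E)
    (hU : AlgebraicIndependent ℂ (Sum.elim U (fun _ : Unit => s'))) :
    FiniteDimensional (IntermediateField.adjoin ℂ (insert s' (Set.range U))) E := by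
  classical
  have hr : ∀ (Y : Fin m → E) (a : E), Set.range (Sum.elim Y (fun _ : Unit => a)) =
      insert a (Set.range Y) := by
    intro Y a
    rw [Set.Sum.elim_range, Set.range_const, Set.union_comm]
    rfl
  have h1 : Algebra.trdeg ℂ E ≤ Cardinal.mk (Fin m ⊕ Unit) := by
    have halg : Algebra.IsAlgebraic (IntermediateField.adjoin ℂ (insert s (Set.range Z))) E :=
      inferInstance
    rw [← hr] at halg
    have h2 := IntermediateField.isAlgebraic_adjoin_iff_top.1 halg
    refine (Algebra.IsAlgebraic.trdeg_le_cardinalMk ℂ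
      (Set.range (Sum.elim Z (fun _ : Unit => s)))).trans ?_
    exact Cardinal.mk_range_le
  have h2 := hU.isTranscendenceBasis_of_trdeg_le_of_finite h1
  have h3 : Algebra.IsAlgebraic (IntermediateField.adjoin ℂ (insert s' (Set.range U))) E := by
    rw [← hr]
    exact h2.isAlgebraic_field
  have g1 : Algebra.EssFiniteType ℂ (IntermediateField.adjoin ℂ (insert s (Set.range Z))) := by
    rw [IntermediateField.essFiniteType_iff]
    exact IntermediateField.fg_adjoin_of_finite ((Set.finite_range _).insert _)
  have g2 : Algebra.EssFiniteType (IntermediateField.adjoin ℂ (insert s (Set.range Z))) E :=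
    inferInstance
  have g3 : Algebra.EssFiniteType ℂ E := Algebra.EssFiniteType.comp ℂ
    (IntermediateField.adjoin ℂ (insert s (Set.range Z))) E
  have g6 : Algebra.EssFiniteType (IntermediateField.adjoin ℂ (insert s' (Set.range U))) E :=
    Algebra.EssFiniteType.of_comp ℂ _ E
  exact Algebra.finite_of_essFiniteType_of_isAlgebraic

/-- the field `E (s)` -/
theorem big_field {m : ℕ} {E : Type} [Field E] [Algebra ℂ E] (z : Fin (m + 1) → E)
    (hz : ∀ (e : ℕ) (H : MvPolynomial (Fin (m + 1)) ℂ), H.IsHomogeneous e → aeval z H = 0 → H = 0)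
    (hfd : FiniteDimensional (ratioField z) E) (s : LF E)
    (hs : s = algebraMap (Polynomial E) (LF E) Polynomial.X) :
    AlgebraicIndependent ℂ (Sum.elim (fun j : Fin m => algebraMap E (LF E) (z j.succ / z 0))
      (fun _ : Unit => s⁻¹)) ∧
    FiniteDimensional (IntermediateField.adjoin ℂ (insert s⁻¹
      (Set.range fun j : Fin m => algebraMap E (LF E) (z j.succ / z 0)))) (LF E) ∧
    finrank (IntermediateField.adjoin ℂ (insert s⁻¹
      (Set.range fun j : Fin m => algebraMap E (LF E) (z j.succ / z 0)))) (LF E) =
      finrank (ratioField z) E := by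
  classical
  have hne : z 0 ≠ 0 := by
    intro h
    exact X_ne_zero (0 : Fin (m + 1)) (hz 1 (X 0) (isHomogeneous_X _ _) (by rw [aeval_X, h]))
  let ι : E →ₐ[ℂ] LF E := IsScalarTower.toAlgHom ℂ E (LF E)
  have hι : ∀ a, ι a = algebraMap E (LF E) a := fun _ => rfl
  set Z : Fin m → LF E := fun j => algebraMap E (LF E) (z j.succ / z 0) with hZ
  have hstr : Transcendental E s := by
    intro h
    rw [hs] at h
    have h1 : IsAlgebraic E (Polynomial.X : Polynomial E) :=
      (isAlgebraic_algHom_iff (IsScalarTower.toAlgHom E (Polynomial E) (LF E))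
        (IsFractionRing.injective (Polynomial E) (LF E))).1 h
    exact Polynomial.transcendental_X E h1
  have hs0 : s ≠ 0 := by
    rintro rfl
    exact hstr (isAlgebraic_zero)
  have hstr' : Transcendental E s⁻¹ := fun h => hstr (by simpa using h.inv)
  let τ : Unit → LF E := fun _ => s⁻¹
  have hτ : AlgebraicIndependent E τ := algebraicIndependent_unique_type_iff.2 hstr'
  have htop : IntermediateField.adjoin E (Set.range τ) = ⊤ := by
    rw [eq_top_iff]
    rintro x -
    have hsm : s ∈ IntermediateField.adjoin E (Set.range τ) := by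
      have h1 : s⁻¹ ∈ IntermediateField.adjoin E (Set.range τ) := subset_adjoin _ _ ⟨(), rfl⟩
      have h2 := inv_mem h1
      rwa [inv_inv] at h2
    have hP : ∀ q : Polynomial E, algebraMap (Polynomial E) (LF E) q ∈
        IntermediateField.adjoin E (Set.range τ) := by
      intro q
      induction q using Polynomial.induction_on' with
      | add f g hf hg =>
        rw [map_add]
        exact add_mem hf hg
      | monomial n a =>
        rw [← Polynomial.C_mul_X_pow_eq_monomial, map_mul, map_pow, ← hs]
        have h3 : algebraMap (Polynomial E) (LF E) (Polynomial.C a) = algebraMap E (LF E) a := by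
          rw [IsScalarTower.algebraMap_apply E (Polynomial E) (LF E)]
          rfl
        rw [h3]
        exact mul_mem (IntermediateField.algebraMap_mem _ _) (pow_mem hsm n)
    obtain ⟨a, b, -, hab⟩ := IsFractionRing.div_surjective (A := Polynomial E) x
    rw [← hab]
    exact div_mem (hP a) (hP b)
  obtain ⟨hE1, hE2⟩ := Pool.Agent.Y220.LI.ext (ratioField z) E (LF E) _ τ hτ htop
  -- the same field
  have hsame : ∀ x : LF E, x ∈ Set.range (algebraMap (IntermediateField.adjoin (ratioField z)
      (Set.range τ)) (LF E)) ↔ x ∈ Set.range (algebraMap (IntermediateField.adjoin ℂ (insert s⁻¹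
      (Set.range Z))) (LF E)) := by
    intro x
    have hr1 : x ∈ Set.range (algebraMap (IntermediateField.adjoin (ratioField z)
        (Set.range τ)) (LF E)) ↔ x ∈ IntermediateField.adjoin (ratioField z) (Set.range τ) := by
      constructor
      · rintro ⟨x, rfl⟩
        exact x.2
      · intro h
        exact ⟨⟨x, h⟩, rfl⟩
    have hr2 : x ∈ Set.range (algebraMap (IntermediateField.adjoin ℂ (insert s⁻¹
        (Set.range Z))) (LF E)) ↔ x ∈ IntermediateField.adjoin ℂ (insert s⁻¹ (Set.range Z)) := by
      constructor
      · rintro ⟨x, rfl⟩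
        exact x.2
      · intro h
        exact ⟨⟨x, h⟩, rfl⟩
    rw [hr1, hr2]
    clear hr1 hr2
    constructor
    · intro hx
      have hrat : ratioField z ≤ (IntermediateField.adjoin ℂ (insert s⁻¹ (Set.range Z))).comap ι := by
        unfold ratioField
        rw [adjoin_le_iff]
        rintro _ ⟨i, j, rfl⟩
        change ι (z i / z j) ∈ IntermediateField.adjoin ℂ (insert s⁻¹ (Set.range Z))
        have hm : ∀ i, ι (z i / z 0) ∈ IntermediateField.adjoin ℂ (insert s⁻¹ (Set.range Z)) := by
          intro i
          refine Fin.cases ?_ (fun l => ?_) i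
          · rw [div_self hne, map_one]
            exact one_mem _
          · exact subset_adjoin ℂ _ (Set.mem_insert_of_mem _ ⟨l, rfl⟩)
        have h2 : z i / z j = (z i / z 0) / (z j / z 0) := by
          rw [div_div_div_cancel_right₀ hne]
        rw [h2, map_div₀]
        exact div_mem (hm i) (hm j)
      induction hx using IntermediateField.adjoin_induction with
      | mem x hx =>
        obtain ⟨-, rfl⟩ := hx
        exact subset_adjoin ℂ _ (Set.mem_insert _ _)
      | algebraMap k =>
        have h9 : algebraMap (ratioField z) (LF E) k = ι (k : E) :=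
          IsScalarTower.algebraMap_apply (ratioField z) E (LF E) k
        rw [h9]
        exact hrat k.2
      | add a b _ _ ha hb => exact add_mem ha hb
      | inv a _ ha => exact inv_mem ha
      | mul a b _ _ ha hb => exact mul_mem ha hb
    · intro hx
      have hs1 : s⁻¹ ∈ IntermediateField.adjoin (ratioField z) (Set.range τ) :=
        subset_adjoin (ratioField z) (Set.range τ) (Set.mem_range_self ())
      have hZ1 : ∀ j, Z j ∈ IntermediateField.adjoin (ratioField z) (Set.range τ) := by
        intro j
        have hmem : z j.succ / z 0 ∈ ratioField z := subset_adjoin ℂ _ ⟨_, _, rfl⟩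
        have h9 : algebraMap (ratioField z) (LF E) ⟨z j.succ / z 0, hmem⟩ = Z j :=
          IsScalarTower.algebraMap_apply (ratioField z) E (LF E) ⟨_, hmem⟩
        rw [← h9]
        exact (IntermediateField.adjoin (ratioField z) (Set.range τ)).algebraMap_mem
          ⟨z j.succ / z 0, hmem⟩
      have hC1 : ∀ c : ℂ, algebraMap ℂ (LF E) c ∈
          IntermediateField.adjoin (ratioField z) (Set.range τ) := by
        intro c
        have h9 : algebraMap (ratioField z) (LF E) (algebraMap ℂ (ratioField z) c) =
            algebraMap ℂ (LF E) c := by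
          rw [IsScalarTower.algebraMap_apply (ratioField z) E (LF E),
            ← IsScalarTower.algebraMap_apply ℂ (ratioField z) E,
            ← IsScalarTower.algebraMap_apply ℂ E (LF E)]
        rw [← h9]
        exact (IntermediateField.adjoin (ratioField z) (Set.range τ)).algebraMap_mem _
      induction hx using IntermediateField.adjoin_induction with
      | mem x hx =>
        rcases hx with rfl | ⟨j, rfl⟩
        · exact hs1
        · exact hZ1 j
      | algebraMap c => exact hC1 c
      | add a b _ _ ha hb => exact add_mem ha hb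
      | inv a _ ha => exact inv_mem ha
      | mul a b _ _ ha hb => exact mul_mem ha hb
  obtain ⟨h1, h2⟩ := Pool.Agent.Y201.LI.finrank_same hsame
  refine ⟨?_, h1.1 hE1, h2.symm.trans hE2⟩
  -- algebraic independence
  have h3 := gen_ratio (r := m) z hz 0 (fun j : Fin m => j.succ) (Fin.succ_injective m)
    (fun j => Fin.succ_ne_zero j)
  have h4 : AlgebraicIndependent ℂ Z := h3.map' (f := ι) (RingHom.injective _)
  have h5 := h4.sumElim_of_tower (S := E) (y := τ) (by
    rintro _ ⟨j, rfl⟩
    exact ⟨_, rfl⟩) hτ
  have h6 := h5.comp _ (Equiv.sumComm (Fin m) Unit).injective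
  convert h6 using 1
  funext i
  rcases i with i | i <;> rfl

end

end Pool.Agent.N122
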