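import Mathlib
import Pool.Agent.N122.Mn0

/-! # The degeneration of a generic point along a vector -/

set_option autoImplicit false

namespace Pool.Agent.N122

open MvPolynomial Pool.Agent.TH314.PD Module FF IntermediateField Pool.Agent.Y201.C3
open Pool.Agent.R845.T2 Pool.Agent.R845.E3

noncomputable section

/-- **Degeneration of an odd generic point along a vector.** -/
theorem degen {r : ℕ} {E : Type} [Field E] [Algebra ℂ E]
    (z : Fin (r + 2) → E)
    (hz : ∀ (e : ℕ) (H : MvPolynomial (Fin (r + 2)) ℂ), H.IsHomogeneous e → aeval z H = 0 → H = 0)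
    (hodd : Odd (finrank (ratioField z) E)) (K : IntermediateField ℂ E)
    (v : Fin (r + 2) → E) (hvK : ∀ i, v i ∈ K) :
    ∃ (s ρ : LF E) (u : Fin (r + 2) → LF E) (w : Place ℂ (LF E)),
      (∀ i, s * u i + algebraMap E (LF E) (v i) = ρ * algebraMap E (LF E) (z i)) ∧
      (∀ i, w.Reg (u i)) ∧
      (∀ (e : ℕ) (H : MvPolynomial (Fin (r + 2)) ℂ), H.IsHomogeneous e →
        aeval (fun i => w.red (u i)) H = 0 → H = 0) ∧
      Odd (finrank (ratioField fun i => w.red (u i)) w.RF) ∧ Odd (w.ord s) ∧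
      (0 < w.ord s ∨ ∃ k ∈ K, k ≠ 0 ∧ w.ord (algebraMap E (LF E) k) ≠ 0) := by
  classical
  by_contra hcon
  push Not at hcon
  have hfdz : FiniteDimensional (ratioField z) E := FiniteDimensional.of_finrank_pos hodd.pos
  have hzne : ∀ i, z i ≠ 0 := by
    intro i h
    exact X_ne_zero i (hz 1 (X i) (isHomogeneous_X _ _) (by rw [aeval_X, h]))
  let ι : E →ₐ[ℂ] LF E := IsScalarTower.toAlgHom ℂ E (LF E)
  have hι : ∀ a, ι a = algebraMap E (LF E) a := fun _ => rfl
  have hιinj : Function.Injective ι := RingHom.injective _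
  obtain ⟨s, hs⟩ : ∃ s : LF E, s = algebraMap (Polynomial E) (LF E) Polynomial.X := ⟨_, rfl⟩
  obtain ⟨hZ1, hZ2, hZ3⟩ := big_field z hz hfdz s hs
  set Z : Fin (r + 1) → LF E := fun j => algebraMap E (LF E) (z j.succ / z 0) with hZ
  have hs0 : s ≠ 0 := by
    rw [hs]
    intro h
    exact Polynomial.X_ne_zero (inj_LF (h.trans (map_zero _).symm))
  -- the image of the field of the curve
  let K' : IntermediateField ℂ (LF E) := K.map ι
  set v' : Fin (r + 2) → LF E := fun i => ι (v i) with hv'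
  set z' : Fin (r + 2) → LF E := fun i => ι (z i) with hz'
  have hvK' : ∀ i, v' i ∈ K' := fun i => ⟨v i, hvK i, rfl⟩
  have hz'ne : ∀ i, z' i ≠ 0 := fun i h => hzne i (hιinj (h.trans (map_zero ι).symm))
  -- the coordinates
  set ρ : LF E := (v' 0 + s) / z' 0 with hρ
  set u : Fin (r + 2) → LF E := fun i => (ρ * z' i - v' i) / s with hu
  have hu0 : u 0 = 1 := by
    simp only [hu, hρ]
    rw [div_mul_cancel₀ _ (hz'ne 0), add_sub_cancel_left, div_self hs0]
  have hurel : ∀ i, u i = (1 + v' 0 * s⁻¹) * (z' i / z' 0) + (-v' i) * s⁻¹ := by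
    intro i
    simp only [hu, hρ]
    have := hz'ne 0
    field_simp
    ring
  set U : Fin (r + 1) → LF E := fun j => u j.succ with hU
  -- regularity
  have hclA : ∀ w : Place ℂ (LF E), 0 < w.ord s⁻¹ → (∀ i, w.Reg (v' i)) → (∀ j, w.Reg (Z j)) →
      ∀ j, w.Reg (U j) ∧ w.red (U j) = w.red (Z j) := by
    intro w hw hv hz1 j
    have hsR : w.Reg s⁻¹ := Or.inr hw.le
    have hsr : w.red s⁻¹ = 0 := (w.red_eq_zero_iff hsR).2 (Or.inr hw)
    have h1 : z' j.succ / z' 0 = Z j := by
      simp only [hz', hZ]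
      rw [← map_div₀]
      exact hι _
    have h2 : w.Reg (v' 0 * s⁻¹) := w.reg_mul (hv 0) hsR
    have h3 : w.Reg (1 + v' 0 * s⁻¹) := w.reg_add w.reg_one h2
    have h4 : w.Reg (-v' j.succ) := w.reg_neg (hv _)
    simp only [hU]
    rw [hurel, h1]
    refine ⟨w.reg_add (w.reg_mul h3 (hz1 j)) (w.reg_mul h4 hsR), ?_⟩
    rw [w.red_add (w.reg_mul h3 (hz1 j)) (w.reg_mul h4 hsR), w.red_mul h3 (hz1 j),
      w.red_mul h4 hsR, hsr, mul_zero, add_zero, w.red_add w.reg_one h2, w.red_mul (hv 0) hsR, hsr,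
      mul_zero, add_zero, w.red_one, one_mul]
  have hclB : ∀ w : Place ℂ (LF E), 0 < w.ord s⁻¹ → (∀ i, w.Reg (v' i)) → (∀ j, w.Reg (U j)) →
      ∀ j, w.Reg (Z j) ∧ w.red (U j) = w.red (Z j) := by
    intro w hw hv hu1 j
    have hsR : w.Reg s⁻¹ := Or.inr hw.le
    have hsr : w.red s⁻¹ = 0 := (w.red_eq_zero_iff hsR).2 (Or.inr hw)
    have h1 : z' j.succ / z' 0 = Z j := by
      simp only [hz', hZ]
      rw [← map_div₀]
      exact hι _
    have h2 : w.Reg (v' 0 * s⁻¹) := w.reg_mul (hv 0) hsR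
    have h3 : w.Reg (1 + v' 0 * s⁻¹) := w.reg_add w.reg_one h2
    have h3r : w.red (1 + v' 0 * s⁻¹) = 1 := by
      rw [w.red_add w.reg_one h2, w.red_mul (hv 0) hsR, hsr, mul_zero, add_zero, w.red_one]
    have h3n : 1 + v' 0 * s⁻¹ ≠ 0 := by
      intro h
      rw [h, w.red_zero] at h3r
      exact zero_ne_one h3r
    have h3o : w.ord (1 + v' 0 * s⁻¹) = 0 := by
      have h5 : w.red (1 + v' 0 * s⁻¹) ≠ 0 := by
        rw [h3r]
        exact one_ne_zero
      rw [Ne, w.red_eq_zero_iff h3] at h5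
      push Not at h5
      have := (w.reg_iff h3n).1 h3
      have := h5.2
      omega
    have h3i : w.Reg (1 + v' 0 * s⁻¹)⁻¹ := Or.inr (by rw [w.ord_inv, h3o]; simp)
    have h4 : w.Reg (v' j.succ * s⁻¹) := w.reg_mul (hv _) hsR
    have h6 : Z j = (U j + v' j.succ * s⁻¹) * (1 + v' 0 * s⁻¹)⁻¹ := by
      rw [eq_mul_inv_iff_mul_eq₀ h3n]
      simp only [hU]
      rw [hurel, h1]
      ring
    have h7 : w.Reg (U j + v' j.succ * s⁻¹) := w.reg_add (hu1 j) h4
    have h8 : w.Reg (Z j) := by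
      rw [h6]
      exact w.reg_mul h7 h3i
    refine ⟨h8, ?_⟩
    have h9 : U j + v' j.succ * s⁻¹ = Z j * (1 + v' 0 * s⁻¹) := by
      rw [h6, inv_mul_cancel_right₀ h3n]
    have h10 := congrArg w.red h9
    rw [w.red_add (hu1 j) h4, w.red_mul (hv _) hsR, hsr, mul_zero, add_zero, w.red_mul h8 h3, h3r,
      mul_one] at h10
    exact h10
  -- the places at infinity for `z`
  obtain ⟨SZ, hSZ, hsumZ⟩ := sum0 s⁻¹ Z hZ1 hZ2
  rw [hZ3] at hsumZ
  -- they are trivial on `E`
  have hSZtriv : ∀ w ∈ SZ, ∀ a : E, a ≠ 0 → w.ord (ι a) = 0 := by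
    intro w hw a ha
    obtain ⟨h1, h2, h3⟩ := (hSZ w).1 hw
    refine triv_alg w _ (triv_adj w Z h2 h3) (ι a) ?_ (fun h => ha (hιinj (h.trans
      (map_zero ι).symm)))
    refine alg_map ι (ratioField z) _ ?_ a (Algebra.IsAlgebraic.isAlgebraic a)
    intro k hk
    have hrat : ratioField z ≤ (IntermediateField.adjoin ℂ (Set.range Z)).comap ι := by
      unfold ratioField
      rw [adjoin_le_iff]
      rintro _ ⟨i, j, rfl⟩
      have hm : ∀ i, ι (z i / z 0) ∈ IntermediateField.adjoin ℂ (Set.range Z) := by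
        intro i
        refine Fin.cases ?_ (fun l => ?_) i
        · rw [div_self (hzne 0), map_one]
          exact one_mem _
        · exact subset_adjoin ℂ _ ⟨l, rfl⟩
      change ι (z i / z j) ∈ IntermediateField.adjoin ℂ (Set.range Z)
      have h2 : z i / z j = (z i / z 0) / (z j / z 0) := by
        rw [div_div_div_cancel_right₀ (hzne 0)]
      rw [h2, map_div₀]
      exact div_mem (hm i) (hm j)
    exact hrat hk
  have hSZv : ∀ w ∈ SZ, ∀ i, w.Reg (v' i) := by
    intro w hw i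
    by_cases hi : v i = 0
    · left
      simp only [hv']
      rw [hi, map_zero]
    · right
      exact (hSZtriv w hw _ hi).ge
  -- there is one
  obtain ⟨w0, hw0⟩ : SZ.Nonempty := by
    rw [Finset.nonempty_iff_ne_empty]
    rintro rfl
    rw [Finset.sum_empty] at hsumZ
    rw [← hsumZ] at hodd
    simp at hodd
  -- independence of `s` and `U`
  have hAI1 : AlgebraicIndependent ℂ (Sum.elim U (fun _ : Unit => s⁻¹)) := by
    obtain ⟨h1, h2, h3⟩ := (hSZ w0).1 hw0
    have h4 := hclA w0 h1 (hSZv w0 hw0) h2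
    refine ai_of_place w0 s⁻¹ U h1 (fun j => (h4 j).1) ?_
    have h5 : (fun j => w0.red (U j)) = fun j => w0.red (Z j) := funext fun j => (h4 j).2
    rw [h5]
    exact h3
  have hAI0 : AlgebraicIndependent ℂ (Sum.elim U (fun _ : Unit => s)) := by
    have h1 := hAI1.comp _ (Equiv.sumComm Unit (Fin (r + 1))).injective
    have h2 : (Sum.elim U (fun _ : Unit => s⁻¹)) ∘ (Equiv.sumComm Unit (Fin (r + 1))) =
        Sum.elim (fun _ : Unit => s⁻¹) U := by
      funext i
      rcases i with i | i <;> rfl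
    rw [h2] at h1
    obtain ⟨h3, h4⟩ := AlgebraicIndependent.sumElim_iff.1 h1
    have h5 := algebraicIndependent_unique_type_iff.1 h4
    have h6 : AlgebraicIndependent (Algebra.adjoin ℂ (Set.range U)) (fun _ : Unit => s) := by
      rw [algebraicIndependent_unique_type_iff]
      intro h7
      exact h5 h7.inv
    have h7 := (AlgebraicIndependent.sumElim_iff.2 ⟨h3, h6⟩).comp _
      (Equiv.sumComm (Fin (r + 1)) Unit).injective
    convert h7 using 1
    funext i
    rcases i with i | i <;> rfl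
  have hfd1 := fin_of_ai Z U s⁻¹ s⁻¹ hZ2 hAI1
  have hfd0 := fin_of_ai Z U s⁻¹ s hZ2 hAI0
  have hfields : IntermediateField.adjoin ℂ (insert s⁻¹ (Set.range U)) =
      IntermediateField.adjoin ℂ (insert s (Set.range U)) := by
    apply le_antisymm
    · rw [adjoin_le_iff]
      rintro a (rfl | ha)
      · exact inv_mem (subset_adjoin ℂ _ (Set.mem_insert _ _))
      · exact subset_adjoin ℂ _ (Set.mem_insert_of_mem _ ha)
    · rw [adjoin_le_iff]
      rintro a (rfl | ha)
      · have h1 : a⁻¹ ∈ IntermediateField.adjoin ℂ (insert a⁻¹ (Set.range U)) :=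
          subset_adjoin ℂ _ (Set.mem_insert _ _)
        have h2 := inv_mem h1
        rwa [inv_inv] at h2
      · exact subset_adjoin ℂ _ (Set.mem_insert_of_mem _ ha)
  obtain ⟨S1, hS1, hsum1⟩ := sum0 s⁻¹ U hAI1 hfd1
  obtain ⟨S0, hS0, hsum0⟩ := sum0 s U hAI0 hfd0
  rw [hfields, ← hsum0] at hsum1
  -- the generic point at a place
  have hgen : ∀ w : Place ℂ (LF E), AlgebraicIndependent ℂ (fun j => w.red (U j)) →
      (∀ (e : ℕ) (H : MvPolynomial (Fin (r + 2)) ℂ), H.IsHomogeneous e →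
        aeval (fun i => w.red (u i)) H = 0 → H = 0) ∧
      finrank (ratioField fun i => w.red (u i)) w.RF =
        finrank (IntermediateField.adjoin ℂ (Set.range fun j => w.red (U j))) w.RF := by
    intro w hw
    obtain ⟨h1, h2⟩ := gen_of_ai (fun i => w.red (u i)) (by simp only [hu0, w.red_one]) hw
    refine ⟨h1, ?_⟩
    rw [h2]
  have hureg : ∀ w : Place ℂ (LF E), (∀ j, w.Reg (U j)) → ∀ i, w.Reg (u i) := by
    intro w hw i
    refine Fin.cases ?_ (fun j => ?_) i
    · rw [hu0]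
      exact w.reg_one
    · exact hw j
  -- the parity at the places
  have hrel : ∀ i, s * u i + algebraMap E (LF E) (v i) = ρ * algebraMap E (LF E) (z i) := by
    intro i
    have h2 : s * u i = ρ * z' i - v' i := by
      simp only [hu]
      rw [mul_comm, div_mul_cancel₀ _ hs0]
    rw [h2]
    change ρ * z' i - v' i + v' i = ρ * z' i
    ring
  have hev1 : ∀ w : Place ℂ (LF E), (∀ j, w.Reg (U j)) →
      AlgebraicIndependent ℂ (fun j => w.red (U j)) →
      Odd (finrank (IntermediateField.adjoin ℂ (Set.range fun j => w.red (U j))) w.RF) →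
      (0 < w.ord s ∨ ∃ k ∈ K', k ≠ 0 ∧ w.ord k ≠ 0) → Even (w.ord s) := by
    intro w h1 h2 h4 h3
    obtain ⟨h5, h6⟩ := hgen w h2
    rw [← h6] at h4
    by_contra h7
    rw [Int.not_even_iff_odd] at h7
    obtain ⟨h8, h9⟩ := hcon s ρ u w hrel (hureg w h1) h5 h4 h7
    rcases h3 with h3 | ⟨_, ⟨k, hk, rfl⟩, h10, h11⟩
    · omega
    · have hk0 : k ≠ 0 := by
        rintro rfl
        exact h10 (map_zero _)
      exact h11 (h9 k hk hk0)
  -- the terms at `s = 0`
  have hS0even : ∀ w ∈ S0, 2 ∣ (w.ord s).toNat *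
      finrank (IntermediateField.adjoin ℂ (Set.range fun j => w.red (U j))) w.RF := by
    intro w hw
    obtain ⟨h1, h2, h3⟩ := (hS0 w).1 hw
    by_cases h4 : Odd (finrank (IntermediateField.adjoin ℂ
        (Set.range fun j => w.red (U j))) w.RF)
    swap
    · rw [Nat.not_odd_iff_even, even_iff_two_dvd] at h4
      exact h4.mul_left _
    have hev := hev1 w h2 h3 h4 (Or.inl h1)
    have h5 : ((w.ord s).toNat : ℤ) = w.ord s := Int.toNat_of_nonneg h1.le
    have h6 : Even ((w.ord s).toNat) := by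
      rw [← h5] at hev
      exact_mod_cast hev
    exact (even_iff_two_dvd.1 h6).mul_right _
  have hD : 2 ∣ ∑ w ∈ S1, (w.ord s⁻¹).toNat *
      finrank (IntermediateField.adjoin ℂ (Set.range fun j => w.red (U j))) w.RF := by
    rw [hsum1]
    exact Finset.dvd_sum hS0even
  -- comparison at infinity
  have hsub : SZ ⊆ S1 := by
    intro w hw
    obtain ⟨h1, h2, h3⟩ := (hSZ w).1 hw
    have h4 := hclA w h1 (hSZv w hw) h2
    refine (hS1 w).2 ⟨h1, fun j => (h4 j).1, ?_⟩
    have h5 : (fun j => w.red (U j)) = fun j => w.red (Z j) := funext fun j => (h4 j).2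
    rw [h5]
    exact h3
  rw [← Finset.sum_sdiff hsub] at hD
  have hD1 : 2 ∣ ∑ w ∈ S1 \ SZ, (w.ord s⁻¹).toNat *
      finrank (IntermediateField.adjoin ℂ (Set.range fun j => w.red (U j))) w.RF := by
    refine Finset.dvd_sum fun w hw => ?_
    obtain ⟨hw1, hw2⟩ := Finset.mem_sdiff.1 hw
    obtain ⟨h1, h2, h3⟩ := (hS1 w).1 hw1
    by_cases h4 : Odd (finrank (IntermediateField.adjoin ℂ
        (Set.range fun j => w.red (U j))) w.RF)
    swap
    · rw [Nat.not_odd_iff_even, even_iff_two_dvd] at h4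
      exact h4.mul_left _
    have hev : Even (w.ord s) := by
      apply hev1 w h2 h3 h4
      right
      by_contra h5
      push Not at h5
      apply hw2
      have hvR : ∀ i, w.Reg (v' i) := by
        intro i
        by_cases hk0 : v' i = 0
        · exact Or.inl hk0
        · exact Or.inr (h5 _ (hvK' i) hk0).ge
      have h6 := hclB w h1 hvR h2
      refine (hSZ w).2 ⟨h1, fun j => (h6 j).1, ?_⟩
      have h7 : (fun j => w.red (U j)) = fun j => w.red (Z j) := funext fun j => (h6 j).2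
      rw [← h7]
      exact h3
    have h5 : ((w.ord s⁻¹).toNat : ℤ) = w.ord s⁻¹ := Int.toNat_of_nonneg h1.le
    have h6 : Even ((w.ord s⁻¹).toNat) := by
      rw [← Int.even_coe_nat, h5, w.ord_inv]
      exact hev.neg
    exact (even_iff_two_dvd.1 h6).mul_right _
  have hD2 := (Nat.dvd_add_right hD1).1 hD
  have hD3 : ∑ w ∈ SZ, (w.ord s⁻¹).toNat *
      finrank (IntermediateField.adjoin ℂ (Set.range fun j => w.red (U j))) w.RF =
      finrank (ratioField z) E := by
    rw [← hsumZ]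
    refine Finset.sum_congr rfl fun w hw => ?_
    obtain ⟨h1, h2, h3⟩ := (hSZ w).1 hw
    have h4 := hclA w h1 (hSZv w hw) h2
    have h5 : (fun j => w.red (U j)) = fun j => w.red (Z j) := funext fun j => (h4 j).2
    rw [h5]
  rw [hD3] at hD2
  exact (Nat.not_even_iff_odd.2 hodd) (even_iff_two_dvd.2 hD2)

end

end Pool.Agent.N122
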