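import Mathlib
import Pool.Agent.H552R3.Tsen.Count
import Pool.Agent.TH314.PD.UB

/-! # Weighted systems of equations over a field of transcendence degree `m` (Lang, Nagata) -/

set_option autoImplicit false

namespace Pool.Agent.N122.Lang

open MvPolynomial Pool.Agent.H552R3.Tsen Pool.Agent.TH314.PD

noncomputable section

theorem cS_prod' {k L : Type} [Field k] [Field L] [Algebra k L] {T : Type} {I : Type}
    (s : Finset I) (S : I → Submodule k L) (p : I → MvPolynomial T L) (hp : ∀ i, p i ∈ cS (S i))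
    (d : I → ℕ) : (∏ i ∈ s, p i ^ d i) ∈ cS (∏ i ∈ s, S i ^ d i) := by
  classical
  induction s using Finset.induction_on with
  | empty => rw [Finset.prod_empty, Finset.prod_empty]; exact cS_one
  | insert a s ha ih =>
    rw [Finset.prod_insert ha, Finset.prod_insert ha]
    exact cS_mul (cS_pow (hp a) _) ih

section main

variable {k L : Type} [Field k] [Field L] [Algebra k L] {m : ℕ} (t : Fin m → L)

/-- values of the monomials of degree at most `s` -/
def PD (s : ℕ) : Submodule k L :=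
  Submodule.span k {z | ∃ α : Fin m →₀ ℕ, ∑ i, α i ≤ s ∧ z = ∏ i, t i ^ α i}

theorem PD_mul (s r : ℕ) : PD (k := k) t s * PD t r ≤ PD t (s + r) := by
  unfold PD
  rw [Submodule.span_mul_span, Submodule.span_le]
  rintro _ ⟨_, ⟨α, hα, rfl⟩, _, ⟨β, hβ, rfl⟩, rfl⟩
  refine Submodule.subset_span ⟨α + β, ?_, ?_⟩
  · simp only [Finsupp.add_apply, Finset.sum_add_distrib]
    omega
  · simp only [Finsupp.add_apply, pow_add, Finset.prod_mul_distrib]

theorem PD_mono {s r : ℕ} (h : s ≤ r) : PD (k := k) t s ≤ PD t r := by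
  unfold PD
  refine Submodule.span_mono ?_
  rintro _ ⟨α, hα, rfl⟩
  exact ⟨α, hα.trans h, rfl⟩

theorem one_PD : (1 : Submodule k L) ≤ PD t 0 := by
  rw [Submodule.one_le]
  exact Submodule.subset_span ⟨0, by simp, by simp⟩

theorem PD_pow (s j : ℕ) : (PD (k := k) t s) ^ j ≤ PD t (j * s) := by
  induction j with
  | zero => rw [pow_zero, zero_mul]; exact one_PD t
  | succ j ih =>
    rw [pow_succ]
    refine (mul_le_mul' ih le_rfl).trans ((PD_mul t _ _).trans (PD_mono t ?_))
    rw [Nat.succ_mul]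

theorem aeval_mem_PD (p : MvPolynomial (Fin m) k) : aeval t p ∈ PD (k := k) t p.totalDegree := by
  rw [aeval_def, eval₂_eq']
  refine Submodule.sum_mem _ fun α hα => ?_
  rw [← Algebra.smul_def]
  refine Submodule.smul_mem _ _ (Submodule.subset_span ⟨α, ?_, rfl⟩)
  have h1 := le_totalDegree hα
  rwa [Finsupp.sum_fintype _ _ (fun _ => rfl)] at h1

variable {J : Type} [Fintype J] (ω : J → L)

theorem fin_WD (s : ℕ) : Module.Finite k (PD t s * OO ω : Submodule k L) ∧
    Module.finrank k (PD t s * OO ω : Submodule k L) ≤ (bd (Fin m) s).card * Fintype.card J := by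
  classical
  have h : (PD t s * OO ω : Submodule k L) =
      Submodule.span k ((Finset.univ : Finset (bd (Fin m) s × J)).image
        (fun ij => (∏ i, t i ^ (ij.1 : Fin m →₀ ℕ) i) * ω ij.2) : Finset L) := by
    unfold PD OO
    rw [Submodule.span_mul_span]
    congr 1
    ext z
    simp only [Finset.coe_image, Finset.coe_univ, Set.image_univ, Set.mem_range, Prod.exists]
    constructor
    · rintro ⟨_, ⟨α, hα, rfl⟩, _, ⟨j, rfl⟩, rfl⟩
      exact ⟨⟨α, mem_bd.2 hα⟩, j, rfl⟩
    · rintro ⟨α, j, rfl⟩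
      exact ⟨_, ⟨α, mem_bd.1 α.2, rfl⟩, _, ⟨j, rfl⟩, rfl⟩
  rw [h]
  constructor
  · exact Module.Finite.span_finset k _
  · refine (finrank_span_finset_le_card _).trans (Finset.card_image_le.trans ?_)
    rw [Finset.card_univ, Fintype.card_prod, Fintype.card_coe]

/-- clearing denominators -/
theorem clear_fgD (ht : AlgebraicIndependent k t)
    (hspan : ∀ z : L, ∃ h : MvPolynomial (Fin m) k, h ≠ 0 ∧ ∃ p : J → MvPolynomial (Fin m) k,
      aeval t h * z = ∑ j, aeval t (p j) * ω j)
    (S : Submodule k L) (hS : S.FG) :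
    ∃ h : L, h ≠ 0 ∧ ∃ δ : ℕ, ∀ z ∈ S, h * z ∈ (PD t δ * OO ω : Submodule k L) := by
  classical
  have haev : ∀ h : MvPolynomial (Fin m) k, h ≠ 0 → aeval t h ≠ 0 := fun h hh h0 =>
    hh ((algebraicIndependent_iff.1 ht) h h0)
  have hone : ∀ z : L, ∃ h : MvPolynomial (Fin m) k, h ≠ 0 ∧ ∃ δ : ℕ,
      aeval t h * z ∈ (PD t δ * OO ω : Submodule k L) := by
    intro z
    obtain ⟨h, hh, p, hp⟩ := hspan z
    refine ⟨h, hh, (Finset.univ.sup fun j => (p j).totalDegree), ?_⟩
    rw [hp]
    refine Submodule.sum_mem _ fun j _ => Submodule.mul_mem_mul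
      (PD_mono t (Finset.le_sup (f := fun j => (p j).totalDegree) (Finset.mem_univ j))
        (aeval_mem_PD t (p j))) (Submodule.subset_span ⟨j, rfl⟩)
  obtain ⟨Z, rfl⟩ := hS
  have hfin : ∃ h : MvPolynomial (Fin m) k, h ≠ 0 ∧ ∃ δ : ℕ, ∀ z ∈ Z,
      aeval t h * z ∈ (PD t δ * OO ω : Submodule k L) := by
    induction Z using Finset.induction_on with
    | empty => exact ⟨1, one_ne_zero, 0, by simp⟩
    | insert a Z ha ih =>
      obtain ⟨h1, hh1, δ1, h1'⟩ := ih
      obtain ⟨h2, hh2, δ2, h2'⟩ := hone a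
      refine ⟨h1 * h2, mul_ne_zero hh1 hh2, h1.totalDegree + δ2 + (h2.totalDegree + δ1), ?_⟩
      intro z hz
      rcases Finset.mem_insert.1 hz with rfl | hz
      · rw [map_mul, mul_assoc]
        have h3 := Submodule.mul_mem_mul (aeval_mem_PD t h1) h2'
        rw [← mul_assoc] at h3
        exact mul_le_mul' ((PD_mul t _ _).trans (PD_mono t (by omega))) le_rfl h3
      · rw [map_mul, mul_comm (aeval t h1), mul_assoc]
        have h3 := Submodule.mul_mem_mul (aeval_mem_PD t h2) (h1' z hz)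
        rw [← mul_assoc] at h3
        exact mul_le_mul' ((PD_mul t _ _).trans (PD_mono t (by omega))) le_rfl h3
  obtain ⟨h, hh, δ, hz⟩ := hfin
  refine ⟨aeval t h, haev h hh, δ, ?_⟩
  intro z hzS
  induction hzS using Submodule.span_induction with
  | mem z hz' => exact hz z hz'
  | zero => rw [mul_zero]; exact Submodule.zero_mem _
  | add a b _ _ ha hb => rw [mul_add]; exact Submodule.add_mem _ ha hb
  | smul c a _ ha => rw [mul_smul_comm]; exact Submodule.smul_mem _ _ ha

end main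

/-- the count -/
theorem count {m : ℕ} {I Q : Type} [Fintype I] [Fintype Q] (d : I → ℕ) (e : Q → ℕ)
    (h : ∑ q, e q ^ m < ∑ i, d i ^ m) (δ : ℕ) :
    ∃ s : ℕ, ∑ q, (bd (Fin m) (e q * s + δ)).card < ∑ i, (bd (Fin m) (d i * s)).card := by
  classical
  by_contra hcon
  push Not at hcon
  -- bounds for the binomial coefficients
  have hlow : ∀ D : ℕ, D ^ m ≤ m.factorial * (D + m).choose m := by
    intro D
    have h1 : (D + m).descFactorial m = m.factorial * (D + m).choose m :=
      Nat.descFactorial_eq_factorial_mul_choose _ _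
    rw [← h1]
    have h2 := Nat.pow_sub_le_descFactorial (D + m) m
    refine le_trans (Nat.pow_le_pow_left ?_ m) h2
    omega
  have hup : ∀ D : ℕ, m.factorial * (D + m).choose m ≤ (D + m) ^ m := by
    intro D
    rw [← Nat.descFactorial_eq_factorial_mul_choose]
    exact Nat.descFactorial_le_pow _ _
  have h1 : ∀ s : ℕ, ∑ i, (d i * s) ^ m ≤ ∑ q, (e q * s + δ + m) ^ m := by
    intro s
    have h2 := Nat.mul_le_mul_left m.factorial (hcon s)
    rw [Finset.mul_sum, Finset.mul_sum] at h2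
    simp only [card_bd, Fintype.card_fin] at h2
    calc ∑ i, (d i * s) ^ m ≤ ∑ i, m.factorial * (d i * s + m).choose m :=
          Finset.sum_le_sum fun i _ => hlow _
      _ ≤ ∑ q, m.factorial * (e q * s + δ + m).choose m := h2
      _ ≤ ∑ q, (e q * s + δ + m) ^ m := Finset.sum_le_sum fun q _ => hup _
  -- the limit
  have h2 : ∀ l : ℕ, ∑ i, (d i : ℝ) ^ m ≤
      ∑ q, ((e q : ℝ) + (δ + m) * (1 / ((l : ℝ) + 1))) ^ m := by
    intro l
    have hL : (0 : ℝ) < (l : ℝ) + 1 := by positivity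
    have h3 : ∑ i, ((d i : ℝ) * (l + 1)) ^ m ≤ ∑ q, ((e q : ℝ) * (l + 1) + δ + m) ^ m := by
      exact_mod_cast h1 (l + 1)
    have h4 : ∀ q, ((e q : ℝ) * (l + 1) + δ + m) ^ m =
        ((e q : ℝ) + (δ + m) * (1 / ((l : ℝ) + 1))) ^ m * ((l : ℝ) + 1) ^ m := by
      intro q
      rw [← mul_pow]
      congr 1
      field_simp
      ring
    have h5 : ∀ i, ((d i : ℝ) * (l + 1)) ^ m = (d i : ℝ) ^ m * ((l : ℝ) + 1) ^ m := by
      intro i
      rw [mul_pow]
    rw [Finset.sum_congr rfl fun i _ => h5 i, Finset.sum_congr rfl fun q _ => h4 q,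
      ← Finset.sum_mul, ← Finset.sum_mul] at h3
    exact le_of_mul_le_mul_right h3 (by positivity)
  have h5 : Filter.Tendsto (fun l : ℕ => ∑ q, ((e q : ℝ) + (δ + m) * (1 / ((l : ℝ) + 1))) ^ m)
      Filter.atTop (nhds (∑ q, ((e q : ℝ) + (δ + m) * 0) ^ m)) :=
    tendsto_finsetSum _ fun q _ => ((tendsto_const_nhds.add (tendsto_const_nhds.mul
      (tendsto_one_div_add_atTop_nhds_zero_nat (𝕜 := ℝ)))).pow m)
  have h6 := ge_of_tendsto' h5 h2
  simp only [mul_zero, add_zero] at h6
  have h7 : ∑ i, d i ^ m ≤ ∑ q, e q ^ m := by exact_mod_cast h6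
  omega

section lang

variable {k L : Type} [Field k] [Field L] [Algebra k L] {m : ℕ} (t : Fin m → L)
variable {J : Type} [Fintype J] (ω : J → L)

/-- **Lang's theorem for weighted homogeneous systems.** -/
theorem lang [IsAlgClosed k] (ht : AlgebraicIndependent k t)
    (hspan : ∀ z : L, ∃ h : MvPolynomial (Fin m) k, h ≠ 0 ∧ ∃ p : J → MvPolynomial (Fin m) k,
      aeval t h * z = ∑ j, aeval t (p j) * ω j)
    (hlin : ∀ p : J → MvPolynomial (Fin m) k, ∑ j, aeval t (p j) * ω j = 0 → ∀ j, p j = 0)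
    {I Q : Type} [Fintype I] [Fintype Q] (d : I → ℕ) (hd : ∀ i, 1 ≤ d i) (e : Q → ℕ)
    (he : ∀ q, 1 ≤ e q) (Ψ : Q → MvPolynomial I L)
    (hΨ : ∀ q, IsWeightedHomogeneous d (Ψ q) (e q))
    (hcard : ∑ q, e q ^ m < ∑ i, d i ^ m) :
    ∃ a : I → L, a ≠ 0 ∧ ∀ q, eval a (Ψ q) = 0 := by
  classical
  have hJ : 0 < Fintype.card J := by
    by_contra hJ
    have hJ' : IsEmpty J := Fintype.card_eq_zero_iff.1 (by omega)
    obtain ⟨h, hh, p, hp⟩ := hspan 1
    rw [mul_one, Finset.univ_eq_empty, Finset.sum_empty] at hp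
    exact hh ((algebraicIndependent_iff.1 ht) h hp)
  let Cc : Q → Submodule k L := fun q =>
    Submodule.span k ((Ψ q).support.image (fun d => coeff d (Ψ q)) : Finset L)
  let O' : Submodule k L := 1 ⊔ OO ω
  have hO'fg : O'.FG := by
    refine Submodule.FG.sup ?_ ?_
    · rw [Submodule.one_eq_span]; exact Submodule.fg_span_singleton _
    · exact Submodule.fg_span (Set.finite_range ω)
  have hCfg : ∀ q, (Cc q).FG := fun q => ⟨_, rfl⟩
  have hSfg : ∀ q, (Cc q * O' ^ e q).FG := fun q => (hCfg q).mul (hO'fg.pow _)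
  choose h hh δ0 hS0 using fun q => clear_fgD t ω ht hspan _ (hSfg q)
  obtain ⟨δ, hδ⟩ : ∃ δ, ∀ q, δ0 q ≤ δ :=
    ⟨Finset.univ.sup δ0, fun q => Finset.le_sup (f := δ0) (Finset.mem_univ q)⟩
  have hS : ∀ q, ∀ z ∈ Cc q * O' ^ e q, h q * z ∈ (PD t δ * OO ω : Submodule k L) := fun q z hz =>
    mul_le_mul' (PD_mono t (hδ q)) le_rfl (hS0 q z hz)
  obtain ⟨s, hs⟩ := count d e hcard δ
  let W : Q → Submodule k L := fun q => PD t (e q * s + δ) * OO ω
  have hW := fun q => fin_WD (k := k) t ω (e q * s + δ)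
  let T : Type := (Σ i : I, bd (Fin m) (d i * s)) × J
  let ℓ : I → MvPolynomial T L := fun i => ∑ α : bd (Fin m) (d i * s), ∑ j : J,
    C ((∏ l, t l ^ (α : Fin m →₀ ℕ) l) * ω j) * X (⟨i, α⟩, j)
  have hℓ : ∀ i, ℓ i ∈ cS (PD (k := k) t (d i * s) * O') := by
    intro i
    refine cS_sum _ _ fun α _ => cS_sum _ _ fun j _ => cS_mono_X ?_ _
    refine Submodule.mul_mem_mul (Submodule.subset_span ⟨α, mem_bd.1 α.2, rfl⟩) ?_
    exact (le_sup_right : OO ω ≤ O') (Submodule.subset_span ⟨j, rfl⟩)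
  let Ψ' : Q → MvPolynomial T L := fun q => aeval ℓ (Ψ q)
  -- coefficients
  have hprod : ∀ (β : I →₀ ℕ) (s' : Finset I),
      (∏ i ∈ s', (PD (k := k) t (d i * s) * O') ^ β i) ≤
        PD t ((∑ i ∈ s', β i * d i) * s) * O' ^ (∑ i ∈ s', β i * d i) := by
    intro β s'
    induction s' using Finset.induction_on with
    | empty =>
      rw [Finset.prod_empty, Finset.sum_empty, zero_mul, pow_zero, mul_one]
      exact one_PD t
    | insert a s' ha ih =>
      rw [Finset.prod_insert ha, Finset.sum_insert ha, mul_pow, pow_add]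
      have h1 : (PD (k := k) t (d a * s)) ^ β a ≤ PD t (β a * d a * s) :=
        (PD_pow t _ _).trans (PD_mono t (by rw [mul_assoc]))
      have h2 : O' ^ β a ≤ O' ^ (β a * d a) :=
        pow_le_pow_right' (le_sup_left : (1 : Submodule k L) ≤ O')
          (Nat.le_mul_of_pos_right _ (hd a))
      calc PD t (d a * s) ^ β a * O' ^ β a * ∏ i ∈ s', (PD (k := k) t (d i * s) * O') ^ β i
          ≤ (PD t (β a * d a * s) * O' ^ (β a * d a)) *
            (PD t ((∑ i ∈ s', β i * d i) * s) * O' ^ (∑ i ∈ s', β i * d i)) :=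
            mul_le_mul' (mul_le_mul' h1 h2) ih
        _ = (PD t (β a * d a * s) * PD t ((∑ i ∈ s', β i * d i) * s)) *
            (O' ^ (β a * d a) * O' ^ (∑ i ∈ s', β i * d i)) := by
            rw [mul_mul_mul_comm]
        _ ≤ _ := mul_le_mul' ((PD_mul t _ _).trans (PD_mono t (by rw [add_mul]))) le_rfl
  have hcoef : ∀ q, Ψ' q ∈ cS (Cc q * (PD (k := k) t (e q * s) * O' ^ e q)) := by
    intro q
    have h1 : Ψ' q = ∑ d ∈ (Ψ q).support, C (coeff d (Ψ q)) * ∏ i, ℓ i ^ d i := by
      change aeval ℓ (Ψ q) = _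
      rw [aeval_def, eval₂_eq']
      rfl
    rw [h1]
    refine cS_sum _ _ fun β hβ => cS_mul (cS_C (Submodule.subset_span ?_)) ?_
    · exact Finset.mem_coe.2 (Finset.mem_image_of_mem _ hβ)
    · refine cS_mono ?_ (cS_prod' Finset.univ _ ℓ hℓ β)
      have h2 : (∑ i, β i * d i) = e q := by
        have h3 := hΨ q (mem_support_iff.1 hβ)
        rw [Finsupp.weight_apply, Finsupp.sum_fintype _ _ (fun i => zero_smul ℕ (d i))] at h3
        exact h3
      have h4 := hprod β Finset.univ
      rw [h2] at h4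
      exact h4
  have hmem : ∀ q, ∀ c ∈ (Cc q * (PD (k := k) t (e q * s) * O' ^ e q)), h q * c ∈ W q := by
    intro q c hc
    rw [mul_left_comm] at hc
    refine Submodule.mul_induction_on hc ?_ ?_
    · intro p hp z hz
      rw [mul_left_comm]
      have h2 := Submodule.mul_mem_mul hp (hS q z hz)
      rw [← mul_assoc] at h2
      exact mul_le_mul' (PD_mul t _ _) le_rfl h2
    · intro a b ha hb
      rw [mul_add]
      exact Submodule.add_mem _ ha hb
  -- coordinates on `W`
  have : ∀ q, Module.Finite k (W q) := fun q => (hW q).1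
  let D : Q → ℕ := fun q => Module.finrank k (W q)
  let b := fun q => Module.finBasis k (W q)
  choose φ hφ using fun q => LinearMap.exists_extend
    ((b q).equivFun : W q →ₗ[k] (Fin (D q) → k))
  have hφ0 : ∀ q, ∀ w ∈ W q, φ q w = 0 → w = 0 := by
    intro q w hw h1
    have h2 := congrArg (fun g => g ⟨w, hw⟩) (congrArg DFunLike.coe (hφ q))
    simp only [LinearMap.coe_comp, Function.comp_apply, Submodule.subtype_apply] at h2
    rw [h1] at h2
    have h3 : (⟨w, hw⟩ : W q) = 0 := by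
      apply (b q).equivFun.injective
      rw [map_zero]
      exact h2.symm
    exact congrArg Subtype.val h3
  let P : (Σ q : Q, Fin (D q)) → MvPolynomial T k := fun x =>
    ∑ τ ∈ (Ψ' x.1).support, monomial τ (φ x.1 (h x.1 * coeff τ (Ψ' x.1)) x.2)
  have hexp : ∀ q, ∀ v : T → k, h q * eval (fun t => algebraMap k L (v t)) (Ψ' q) =
      ∑ τ ∈ (Ψ' q).support, (∏ t, v t ^ τ t) • (h q * coeff τ (Ψ' q)) := by
    intro q v
    rw [eval_eq', Finset.mul_sum]
    refine Finset.sum_congr rfl fun τ _ => ?_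
    rw [Algebra.smul_def, map_prod]
    simp only [map_pow]
    ring
  have hPev : ∀ (v : T → k) (x : Σ q : Q, Fin (D q)), eval v (P x) =
      φ x.1 (h x.1 * eval (fun t => algebraMap k L (v t)) (Ψ' x.1)) x.2 := by
    rintro v ⟨q, i⟩
    have e1 : φ q (∑ τ ∈ (Ψ' q).support, (∏ t, v t ^ τ t) • (h q * coeff τ (Ψ' q))) i =
        ∑ τ ∈ (Ψ' q).support, φ q ((∏ t, v t ^ τ t) • (h q * coeff τ (Ψ' q))) i := by
      rw [map_sum, Finset.sum_apply]
    simp only
    rw [hexp, e1]
    simp only [P]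
    rw [map_sum]
    refine Finset.sum_congr rfl fun τ _ => ?_
    rw [map_smul, Pi.smul_apply, smul_eq_mul, eval_monomial,
      Finsupp.prod_fintype _ _ (fun _ => pow_zero _), mul_comm]
  have hev : ∀ q, ∀ w : T → L, eval w (Ψ' q) = eval (fun i => eval w (ℓ i)) (Ψ q) := by
    intro q w
    have h1 : (aeval w : MvPolynomial T L →ₐ[L] L).comp (aeval ℓ) =
        aeval (fun i => aeval w (ℓ i)) := by
      apply MvPolynomial.algHom_ext
      intro i
      simp
    have h2 := congrArg (fun g => g (Ψ q)) (congrArg DFunLike.coe h1)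
    simp only [AlgHom.coe_comp, Function.comp_apply] at h2
    rw [← MvPolynomial.coe_aeval_eq_eval, ← MvPolynomial.coe_aeval_eq_eval]
    exact h2
  have hΨ0 : ∀ q, eval 0 (Ψ q) = 0 := by
    intro q
    rw [eval_zero]
    by_contra h0
    have h3 := hΨ q h0
    rw [map_zero] at h3
    have := he q
    omega
  have hP0 : ∀ x, eval 0 (P x) = 0 := by
    intro x
    rw [hPev, hev]
    have h1 : (fun i => eval (fun t => algebraMap k L ((0 : T → k) t)) (ℓ i)) = 0 := by
      funext i
      simp [ℓ]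
    rw [h1, hΨ0, mul_zero, map_zero]
    rfl
  obtain ⟨v, hv0, hv⟩ := exists_common_zero P hP0 (by
    rw [Fintype.card_sigma, Fintype.card_prod, Fintype.card_sigma]
    simp only [Fintype.card_fin, Fintype.card_coe]
    calc ∑ q, D q ≤ ∑ q, (bd (Fin m) (e q * s + δ)).card * Fintype.card J :=
          Finset.sum_le_sum fun q _ => (hW q).2
      _ = (∑ q, (bd (Fin m) (e q * s + δ)).card) * Fintype.card J := by rw [Finset.sum_mul]
      _ < _ := Nat.mul_lt_mul_of_pos_right hs hJ)
  refine ⟨fun i => eval (fun t => algebraMap k L (v t)) (ℓ i), ?_, ?_⟩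
  · intro ha
    apply hv0
    funext x
    obtain ⟨⟨i, α⟩, j⟩ := x
    have h1 := congrFun ha i
    have h2 : eval (fun t => algebraMap k L (v t)) (ℓ i) =
        ∑ j, aeval t (∑ α : bd (Fin m) (d i * s), monomial (α : Fin m →₀ ℕ) (v (⟨i, α⟩, j))) *
          ω j := by
      simp only [ℓ, map_sum, map_mul, eval_C, eval_X, Finset.sum_mul]
      rw [Finset.sum_comm]
      refine Finset.sum_congr rfl fun j _ => Finset.sum_congr rfl fun α _ => ?_
      rw [aeval_monomial, Finsupp.prod_fintype _ _ (fun _ => pow_zero _)]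
      ring
    rw [h2] at h1
    have h3 := hlin _ h1 j
    have h4 := congrArg (coeff (α : Fin m →₀ ℕ)) h3
    rw [coeff_sum, coeff_zero, Finset.sum_eq_single α] at h4
    · rw [coeff_monomial, if_pos rfl] at h4
      exact h4
    · intro β _ hβ
      rw [coeff_monomial, if_neg]
      intro h5
      exact hβ (Subtype.ext h5)
    · intro h5
      exact absurd (Finset.mem_univ α) h5
  · intro q
    rw [← hev]
    have h1 : h q * eval (fun t => algebraMap k L (v t)) (Ψ' q) = 0 := by
      apply hφ0 q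
      · rw [hexp]
        exact Submodule.sum_mem _ fun τ _ => Submodule.smul_mem _ _ (hmem q _ (hcoef q τ))
      · funext i
        have h2 := hPev v ⟨q, i⟩
        rw [hv] at h2
        exact h2.symm
    exact (mul_eq_zero.1 h1).resolve_left (hh q)

end lang

end

end Pool.Agent.N122.Lang
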