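import Mathlib
import Pool.Agent.N122.Lang
import Pool.Agent.N122.Crv

/-! # Weighted systems over a finitely generated field -/

set_option autoImplicit false

namespace Pool.Agent.N122

open MvPolynomial Pool.Agent.TH314.PD Module IntermediateField

noncomputable section

section

variable {L : Type} [Field L] [Algebra ℂ L]

/-- a transcendence basis -/
theorem exists_tb (m : ℕ) (hL : ∀ y : Fin (m + 1) → L, ¬ AlgebraicIndependent ℂ y) :
    ∃ m' ≤ m, ∃ t : Fin m' → L, AlgebraicIndependent ℂ t ∧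
      ∀ y : L, IsAlgebraic (IntermediateField.adjoin ℂ (Set.range t)) y := by
  classical
  let P : ℕ → Prop := fun j => ∃ t : Fin j → L, AlgebraicIndependent ℂ t
  have hP0 : P 0 := ⟨Fin.elim0, algebraicIndependent_empty_type_iff.2 (algebraMap ℂ L).injective⟩
  obtain ⟨j, hj⟩ : ∃ j, j = Nat.findGreatest P m := ⟨_, rfl⟩
  have hjP : P j := by
    rw [hj]
    exact Nat.findGreatest_spec (Nat.zero_le m) hP0
  have hjm : j ≤ m := by
    rw [hj]
    exact Nat.findGreatest_le m
  have hno : ∀ y : Fin (j + 1) → L, ¬ AlgebraicIndependent ℂ y := by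
    intro y hy
    rcases hjm.eq_or_lt with h | h
    · subst h
      exact hL y hy
    · have h1 : j + 1 ≤ Nat.findGreatest P m := Nat.le_findGreatest h ⟨y, hy⟩
      omega
  obtain ⟨t, ht⟩ := hjP
  refine ⟨j, hjm, t, ht, fun y => ?_⟩
  by_contra hy
  have h3 : AlgebraicIndependent (Algebra.adjoin ℂ (Set.range t)) (fun _ : Unit => y) := by
    rw [algebraicIndependent_unique_type_iff]
    exact transcendental_adjoin_iff.1 hy
  have h4 := AlgebraicIndependent.sumElim_iff.2 ⟨ht, h3⟩
  have e : Fin (j + 1) ≃ Unit ⊕ Fin j := Fintype.equivOfCardEq (by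
    rw [Fintype.card_sum, Fintype.card_fin, Fintype.card_fin, Fintype.card_unit, add_comm])
  exact hno _ (h4.comp e e.injective)

/-- **Lang's theorem.** -/
theorem langL (hfg : Algebra.EssFiniteType ℂ L) {m : ℕ} (t : Fin m → L)
    (ht : AlgebraicIndependent ℂ t)
    (halg : ∀ y : L, IsAlgebraic (IntermediateField.adjoin ℂ (Set.range t)) y)
    {I Q : Type} [Fintype I] [Fintype Q] (d : I → ℕ) (hd : ∀ i, 1 ≤ d i) (e : Q → ℕ)
    (he : ∀ q, 1 ≤ e q) (Ψ : Q → MvPolynomial I L)
    (hΨ : ∀ q, IsWeightedHomogeneous d (Ψ q) (e q))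
    (hcard : ∑ q, e q ^ m < ∑ i, d i ^ m) :
    ∃ a : I → L, a ≠ 0 ∧ ∀ q, eval a (Ψ q) = 0 := by
  classical
  let E := IntermediateField.adjoin ℂ (Set.range t)
  have h1 : Algebra.IsAlgebraic E L := ⟨fun y => halg y⟩
  have h2 : Algebra.EssFiniteType E L := Algebra.EssFiniteType.of_comp ℂ _ L
  have hfd : FiniteDimensional E L := Algebra.finite_of_essFiniteType_of_isAlgebraic
  let ω := finBasis E L
  have hE : ∀ c : E, ∃ p q : MvPolynomial (Fin m) ℂ, aeval t q ≠ 0 ∧
      (c : L) * aeval t q = aeval t p := by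
    intro c
    obtain ⟨p, q, hpq⟩ := (mem_adjoin_range_iff ℂ t (c : L)).1 c.2
    by_cases hq : aeval t q = 0
    · rw [hq, div_zero] at hpq
      refine ⟨0, 1, ?_, ?_⟩
      · rw [map_one]
        exact one_ne_zero
      · rw [map_one, mul_one, map_zero, hpq]
    · exact ⟨p, q, hq, by rw [hpq, div_mul_cancel₀ _ hq]⟩
  have hcd : ∀ (c : Fin (finrank E L) → E), ∃ h : MvPolynomial (Fin m) ℂ, aeval t h ≠ 0 ∧
      ∃ p : Fin (finrank E L) → MvPolynomial (Fin m) ℂ, ∀ j, aeval t h * (c j : L) =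
        aeval t (p j) := by
    intro c
    choose p q hq hpq using fun j => hE (c j)
    refine ⟨∏ j, q j, ?_, fun j => p j * ∏ i ∈ Finset.univ.erase j, q i, ?_⟩
    · rw [map_prod]
      exact Finset.prod_ne_zero_iff.2 fun j _ => hq j
    · intro j
      rw [map_mul, ← hpq j, ← Finset.mul_prod_erase Finset.univ q (Finset.mem_univ j), map_mul]
      ring
  have hspan : ∀ z : L, ∃ h : MvPolynomial (Fin m) ℂ, h ≠ 0 ∧
      ∃ p : Fin (finrank E L) → MvPolynomial (Fin m) ℂ,
      aeval t h * z = ∑ j, aeval t (p j) * ω j := by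
    intro z
    obtain ⟨h, hh, p, hp⟩ := hcd (fun j => ω.repr z j)
    refine ⟨h, ?_, p, ?_⟩
    · rintro rfl
      exact hh (map_zero _)
    · conv_lhs => rw [← ω.sum_repr z]
      rw [Finset.mul_sum]
      refine Finset.sum_congr rfl fun j _ => ?_
      rw [← hp, Algebra.smul_def, mul_assoc]
      rfl
  have hlin : ∀ p : Fin (finrank E L) → MvPolynomial (Fin m) ℂ,
      ∑ j, aeval t (p j) * ω j = 0 → ∀ j, p j = 0 := by
    intro p hp j
    have hmem : ∀ g : MvPolynomial (Fin m) ℂ, aeval t g ∈ E := fun g =>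
      (mem_adjoin_range_iff ℂ t _).2 ⟨g, 1, by rw [map_one, div_one]⟩
    have h1 : ∑ j, (⟨aeval t (p j), hmem _⟩ : E) • ω j = 0 := by
      rw [← hp]
      refine Finset.sum_congr rfl fun j _ => ?_
      rw [Algebra.smul_def]
      rfl
    have h2 := (Fintype.linearIndependent_iff.1 ω.linearIndependent) _ h1 j
    exact (algebraicIndependent_iff.1 ht) _ (congrArg Subtype.val h2)
  exact Lang.lang t ω ht hspan hlin d hd e he Ψ hΨ hcard

end

end

end Pool.Agent.N122
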