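import Mathlib
import Pool.Agent.N122.LangL

/-! # Special vectors for a linear space on a cubic over a field of transcendence degree `m` -/

set_option autoImplicit false

namespace Pool.Agent.N122

open MvPolynomial Pool.Agent.TH314.PD Module IntermediateField Pool.Agent.Y201.C3

noncomputable section

/-- the numerical condition -/
def Cnd (N m P : ℕ) : Prop :=
  2 ^ m * (P * (P + 3)) + 2 * (4 ^ m * P) + 2 * 6 ^ m < 2 * (2 ^ m * N) + 2 * P + 2 * 3 ^ m

theorem wh_Bg {N : ℕ} (T : Fin N → Fin N → Fin N → ℂ) {L I : Type} [Field L] [Algebra ℂ L]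
    (d : I → ℕ) (x y z : Fin N → MvPolynomial I L) (p q r : ℕ)
    (hx : ∀ i, IsWeightedHomogeneous d (x i) p) (hy : ∀ i, IsWeightedHomogeneous d (y i) q)
    (hz : ∀ i, IsWeightedHomogeneous d (z i) r) :
    IsWeightedHomogeneous d (Bg T x y z) (p + q + r) := by
  unfold Bg
  refine IsWeightedHomogeneous.sum _ _ _ fun i _ => ?_
  refine IsWeightedHomogeneous.sum _ _ _ fun j _ => ?_
  refine IsWeightedHomogeneous.sum _ _ _ fun k _ => ?_
  have h1 : IsWeightedHomogeneous d (algebraMap ℂ (MvPolynomial I L) (T i j k)) 0 := by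
    have h2 : algebraMap ℂ (MvPolynomial I L) (T i j k) = C (algebraMap ℂ L (T i j k)) := rfl
    rw [h2]
    exact isWeightedHomogeneous_C _ _
  have h3 := ((h1.mul (hx i)).mul (hy j)).mul (hz k)
  rwa [zero_add] at h3

/-- the number of the equations of weight two -/
theorem card_tri (P : ℕ) : 2 * Fintype.card (Σ i : Fin P, Fin ((i : ℕ) + 1)) = P * (P + 1) := by
  rw [Fintype.card_sigma]
  simp only [Fintype.card_fin]
  rw [Fin.sum_univ_eq_sum_range (fun i => i + 1) P]
  induction P with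
  | zero => simp
  | succ P ih =>
    rw [Finset.sum_range_succ, mul_add, ih]
    ring

/-- **Special vectors.** -/
theorem special {N m P : ℕ} {T : Fin N → Fin N → Fin N → ℂ} (hT : SymG T) (hC : Cnd N m P)
    {L : Type} [Field L] [Algebra ℂ L] (hfg : Algebra.EssFiniteType ℂ L) (t : Fin m → L)
    (ht : AlgebraicIndependent ℂ t)
    (halg : ∀ y : L, IsAlgebraic (IntermediateField.adjoin ℂ (Set.range t)) y)
    (l : Fin P → Fin N → L) (hl : LinearIndependent L l) :
    ∃ (v : Fin N → L) (β : Fin P → L) (β0 : L), v ∉ Submodule.span L (Set.range l) ∧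
      (∀ i j, 3 * Bg T v (l i) (l j) = β i * β j) ∧
      (∀ i, 3 * Bg T v v (l i) = 2 * β0 * β i) ∧ Bg T v v v = β0 ^ 2 := by
  classical
  set S := Submodule.span L (Set.range l) with hS
  have hSr : finrank L S = P := by
    rw [hS, finrank_span_eq_card hl, Fintype.card_fin]
  obtain ⟨Qc, hQ⟩ := Submodule.exists_isCompl S
  have hQr : P + finrank L Qc = N := by
    have h1 := Submodule.finrank_add_eq_of_isCompl hQ
    rwa [hSr, finrank_fin_fun] at h1
  let e := finBasis L Qc
  let I : Type := Fin (finrank L Qc) ⊕ (Fin P ⊕ Unit)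
  let Q : Type := (Σ i : Fin P, Fin ((i : ℕ) + 1)) ⊕ (Fin P ⊕ Unit)
  let d : I → ℕ := Sum.elim (fun _ => 2) (Sum.elim (fun _ => 1) (fun _ => 3))
  let w : Q → ℕ := Sum.elim (fun _ => 2) (Sum.elim (fun _ => 4) (fun _ => 6))
  let V : Fin N → MvPolynomial I L := fun a => ∑ k, C ((e k : Fin N → L) a) * X (Sum.inl k)
  let Lc : Fin P → Fin N → MvPolynomial I L := fun i a => C (l i a)
  let Xb : Fin P → MvPolynomial I L := fun i => X (Sum.inr (Sum.inl i))
  let X0 : MvPolynomial I L := X (Sum.inr (Sum.inr ()))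
  let Ψ1 : (Σ i : Fin P, Fin ((i : ℕ) + 1)) → MvPolynomial I L := fun x =>
    C 3 * Bg T V (Lc x.1) (Lc ⟨x.2, by have := x.1.2; have := x.2.2; omega⟩) -
      Xb x.1 * Xb ⟨x.2, by have := x.1.2; have := x.2.2; omega⟩
  let Ψ2 : Fin P → MvPolynomial I L := fun i => C 3 * Bg T V V (Lc i) - C 2 * X0 * Xb i
  let Ψ3 : Unit → MvPolynomial I L := fun _ => Bg T V V V - X0 ^ 2
  let Ψ : Q → MvPolynomial I L := Sum.elim Ψ1 (Sum.elim Ψ2 Ψ3)
  have hVw : ∀ a, IsWeightedHomogeneous d (V a) 2 := by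
    intro a
    refine IsWeightedHomogeneous.sum _ _ _ fun k _ => ?_
    have h1 := (isWeightedHomogeneous_C d ((e k : Fin N → L) a)).mul
      (isWeightedHomogeneous_X L d (Sum.inl k : I))
    rwa [zero_add] at h1
  have hLw : ∀ i a, IsWeightedHomogeneous d (Lc i a) 0 := fun i a => isWeightedHomogeneous_C d _
  have hXw : ∀ i, IsWeightedHomogeneous d (Xb i) 1 := fun i => isWeightedHomogeneous_X L d _
  have hX0w : IsWeightedHomogeneous d X0 3 := isWeightedHomogeneous_X L d _
  have hsub : ∀ (p q : MvPolynomial I L) (n : ℕ), IsWeightedHomogeneous d p n →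
      IsWeightedHomogeneous d q n → IsWeightedHomogeneous d (p - q) n := fun p q n hp hq =>
    (weightedHomogeneousSubmodule L d n).sub_mem hp hq
  have hCm : ∀ (c : L) (p : MvPolynomial I L) (n : ℕ), IsWeightedHomogeneous d p n →
      IsWeightedHomogeneous d (C c * p) n := by
    intro c p n hp
    have h1 := (isWeightedHomogeneous_C d c).mul hp
    rwa [zero_add] at h1
  have hΨ : ∀ q, IsWeightedHomogeneous d (Ψ q) (w q) := by
    rintro (x | i | u)
    · refine hsub _ _ _ (hCm _ _ _ ?_) ?_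
      · exact wh_Bg T d _ _ _ 2 0 0 hVw (hLw _) (hLw _)
      · exact (hXw _).mul (hXw _)
    · refine hsub _ _ _ (hCm _ _ _ ?_) ?_
      · exact wh_Bg T d _ _ _ 2 2 0 hVw hVw (hLw _)
      · exact (hCm _ _ _ hX0w).mul (hXw _)
    · refine hsub _ _ _ ?_ ?_
      · exact wh_Bg T d _ _ _ 2 2 2 hVw hVw hVw
      · exact hX0w.pow 2
  obtain ⟨a, ha0, ha⟩ := langL hfg t ht halg d (by
      rintro (x | i | u)
      · exact (by norm_num : 1 ≤ 2)
      · exact le_refl 1
      · exact (by norm_num : 1 ≤ 3)) w (by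
      rintro (x | i | u)
      · exact (by norm_num : 1 ≤ 2)
      · exact (by norm_num : 1 ≤ 4)
      · exact (by norm_num : 1 ≤ 6)) Ψ hΨ (by
      have h1 : ∑ q, w q ^ m = Fintype.card (Σ i : Fin P, Fin ((i : ℕ) + 1)) * 2 ^ m +
          (P * 4 ^ m + 6 ^ m) := by
        rw [Fintype.sum_sum_type, Fintype.sum_sum_type]
        simp [w]
      have h2 : ∑ i, d i ^ m = finrank L Qc * 2 ^ m + (P + 3 ^ m) := by
        rw [Fintype.sum_sum_type, Fintype.sum_sum_type]
        simp [d]
      rw [h1, h2]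
      have h3 := card_tri P
      unfold Cnd at hC
      rw [← hQr] at hC
      have h4 : 2 ^ m * (P * (P + 3)) =
          2 * (Fintype.card (Σ i : Fin P, Fin ((i : ℕ) + 1)) * 2 ^ m) + 2 * (2 ^ m * P) := by
        rw [show P * (P + 3) = P * (P + 1) + 2 * P by ring, ← h3]
        ring
      rw [h4] at hC
      linarith)
  -- the vector
  set v : Fin N → L := fun b => ∑ k, (e k : Fin N → L) b * a (Sum.inl k) with hv
  let ev : MvPolynomial I L →ₐ[ℂ] L := (aeval a : MvPolynomial I L →ₐ[L] L).restrictScalars ℂ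
  have hevd : ∀ p, ev p = eval a p := fun p => by
    rw [← coe_aeval_eq_eval]
    rfl
  have hev : ∀ x y z : Fin N → MvPolynomial I L, eval a (Bg T x y z) =
      Bg T (fun i => eval a (x i)) (fun i => eval a (y i)) (fun i => eval a (z i)) := by
    intro x y z
    have h1 := map_Bg ev T x y z
    simp only [hevd] at h1
    exact h1
  have hVe : (fun b => eval a (V b)) = v := by
    funext b
    simp only [V, map_sum, map_mul, eval_C, eval_X, hv]
  have hLe : ∀ i, (fun b => eval a (Lc i b)) = l i := by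
    intro i
    funext b
    simp only [Lc, eval_C]
  have h1 : ∀ x : (Σ i : Fin P, Fin ((i : ℕ) + 1)), 3 * Bg T v (l x.1)
      (l ⟨x.2, by have := x.1.2; have := x.2.2; omega⟩) = a (Sum.inr (Sum.inl x.1)) *
        a (Sum.inr (Sum.inl ⟨x.2, by have := x.1.2; have := x.2.2; omega⟩)) := by
    intro x
    have h2 := ha (Sum.inl x)
    simp only [Ψ, Sum.elim_inl, Ψ1, Xb, map_sub, map_mul, eval_C, eval_X] at h2
    rw [hev, hVe, hLe, hLe] at h2
    exact sub_eq_zero.1 h2
  have h2 : ∀ i, 3 * Bg T v v (l i) = 2 * a (Sum.inr (Sum.inr ())) * a (Sum.inr (Sum.inl i)) := by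
    intro i
    have h2 := ha (Sum.inr (Sum.inl i))
    simp only [Ψ, Sum.elim_inl, Sum.elim_inr, Ψ2, X0, Xb, map_sub, map_mul, eval_C, eval_X] at h2
    rw [hev, hVe, hLe] at h2
    exact sub_eq_zero.1 h2
  have h3 : Bg T v v v = a (Sum.inr (Sum.inr ())) ^ 2 := by
    have h2 := ha (Sum.inr (Sum.inr ()))
    simp only [Ψ, Sum.elim_inr, Ψ3, X0, map_sub, map_pow, eval_X] at h2
    rw [hev, hVe] at h2
    exact sub_eq_zero.1 h2
  have hle : ∀ i j : Fin P, (j : ℕ) ≤ i → 3 * Bg T v (l i) (l j) =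
      a (Sum.inr (Sum.inl i)) * a (Sum.inr (Sum.inl j)) := fun i j hij =>
    h1 ⟨i, ⟨j, by omega⟩⟩
  refine ⟨v, fun i => a (Sum.inr (Sum.inl i)), a (Sum.inr (Sum.inr ())), ?_, ?_, h2, h3⟩
  swap
  · intro i j
    rcases le_total (j : ℕ) i with h | h
    · exact hle i j h
    · rw [Bg_swap23 hT, hle j i h, mul_comm]
  -- it is not in the span
  intro hvS
  have hvQ : v ∈ Qc := by
    have h4 : v = ∑ k, a (Sum.inl k) • (e k : Fin N → L) := by
      funext b
      simp only [hv, Finset.sum_apply, Pi.smul_apply, smul_eq_mul]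
      exact Finset.sum_congr rfl fun k _ => mul_comm _ _
    rw [h4]
    exact Submodule.sum_mem _ fun k _ => Submodule.smul_mem _ _ (e k).2
  have hv0 : v = 0 := by
    have h4 := Submodule.disjoint_def.1 hQ.disjoint v hvS hvQ
    exact h4
  have ha1 : ∀ k, a (Sum.inl k) = 0 := by
    intro k
    have h4 : ∑ k, a (Sum.inl k) • e k = 0 := by
      apply Subtype.ext
      rw [Submodule.coe_zero, ← hv0]
      funext b
      simp only [hv, AddSubmonoidClass.coe_finsetSum, Submodule.coe_smul, Finset.sum_apply,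
        Pi.smul_apply, smul_eq_mul]
      exact Finset.sum_congr rfl fun k _ => mul_comm _ _
    exact (Fintype.linearIndependent_iff.1 e.linearIndependent) _ h4 k
  have hB0 : ∀ y z : Fin N → L, Bg T v y z = 0 := by
    intro y z
    rw [hv0]
    exact Bg_zero1 T y z
  have ha2 : ∀ i, a (Sum.inr (Sum.inl i)) = 0 := by
    intro i
    have h4 := hle i i le_rfl
    rw [hB0, mul_zero] at h4
    exact mul_self_eq_zero.1 h4.symm
  have ha3 : a (Sum.inr (Sum.inr ())) = 0 := by
    rw [hB0] at h3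
    exact (pow_eq_zero_iff two_ne_zero).1 h3.symm
  apply ha0
  funext x
  rcases x with k | i | u
  · exact ha1 k
  · exact ha2 i
  · exact ha3

end

end Pool.Agent.N122
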