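import Mathlib
import Pool.Agent.N122.Spec
import Pool.Agent.N122.Kpl

/-! # Reduced bases at a place -/

set_option autoImplicit false

namespace Pool.Agent.N122

open MvPolynomial Pool.Agent.TH314.PD Module FF IntermediateField Pool.Agent.Y201.C3
open Pool.Agent.R845.T2 Pool.Agent.R845.E3

noncomputable section

theorem minor_of_li {K : Type} [Field K] {P N : ℕ} (l : Fin P → Fin N → K)
    (h : LinearIndependent K l) :
    ∃ ι : Fin P → Fin N, (Matrix.of fun i k => l i (ι k)).det ≠ 0 := by
  classical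
  have h1 : (Matrix.of l : Matrix (Fin P) (Fin N) K).rank = P := by
    have h2 := LinearIndependent.rank_matrix (M := Matrix.of l) h
    rwa [Fintype.card_fin] at h2
  rw [Matrix.rank_eq_finrank_span_cols] at h1
  obtain ⟨f, hf1, -, hf3⟩ := Submodule.exists_fun_fin_finrank_span_eq K (Set.range (Matrix.of l).col)
  choose ι hι using hf1
  refine ⟨fun k => ι (Fin.cast h1.symm k), ?_⟩
  have h3 : LinearIndependent K (Matrix.of fun i k => l i (ι (Fin.cast h1.symm k))).col := by
    have h4 := hf3.comp (Fin.cast h1.symm) (Fin.cast_injective h1.symm)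
    have h5 : f ∘ Fin.cast h1.symm =
        (Matrix.of fun i k => l i (ι (Fin.cast h1.symm k))).col := by
      funext k
      exact (hι _).symm
    rw [h5] at h4
    exact h4
  have h4 := Matrix.linearIndependent_cols_iff_isUnit.1 h3
  exact ((Matrix.isUnit_iff_isUnit_det _).1 h4).ne_zero

theorem li_of_minor {K : Type} [Field K] {P N : ℕ} (l : Fin P → Fin N → K)
    (ι : Fin P → Fin N) (h : (Matrix.of fun i k => l i (ι k)).det ≠ 0) :
    LinearIndependent K l := by
  classical
  have h1 : IsUnit (Matrix.of fun i k => l i (ι k)) :=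
    (Matrix.isUnit_iff_isUnit_det _).2 (isUnit_iff_ne_zero.2 h)
  have h2 := Matrix.linearIndependent_rows_iff_isUnit.2 h1
  exact LinearIndependent.of_comp (LinearMap.funLeft K K ι) h2

/-- linear independence over an extension -/
theorem li_map {K E : Type} [Field K] [Field E] [Algebra K E] {P N : ℕ} (l : Fin P → Fin N → K)
    (h : LinearIndependent K l) :
    LinearIndependent E (fun i a => algebraMap K E (l i a)) := by
  obtain ⟨ι, hι⟩ := minor_of_li l h
  refine li_of_minor _ ι ?_
  have h1 := RingHom.map_det (algebraMap K E) (Matrix.of fun i k => l i (ι k))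
  have h2 : (algebraMap K E).mapMatrix (Matrix.of fun i k => l i (ι k)) =
      Matrix.of fun i k => algebraMap K E (l i (ι k)) := by
    ext i k
    rfl
  rw [h2] at h1
  rw [← h1]
  exact fun h3 => hι ((algebraMap K E).injective (h3.trans (map_zero _).symm))

/-- **A reduced basis at a place.** -/
theorem ech {L E : Type} [Field L] [Field E] [Algebra ℂ E] [Algebra L E] (w : Place ℂ E)
    {P N : ℕ} (l : Fin P → Fin N → L) (h : LinearIndependent L l) :
    ∃ (ι : Fin P → Fin N) (B A : Fin P → Fin P → L),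
      (∀ j k, ∑ i, B j i * l i (ι k) = if j = k then 1 else 0) ∧
      (∀ j a, w.Reg (algebraMap L E (∑ i, B j i * l i a))) ∧
      (∀ i a, l i a = ∑ j, A i j * ∑ i', B j i' * l i' a) := by
  classical
  obtain ⟨ι0, hι0⟩ := minor_of_li l h
  obtain ⟨ι, hι, hmin⟩ := Finset.exists_min_image
    (Finset.univ.filter fun ι : Fin P → Fin N => (Matrix.of fun i k => l i (ι k)).det ≠ 0)
    (fun ι => w.ord (algebraMap L E (Matrix.of fun i k => l i (ι k)).det))
    ⟨ι0, by simpa using hι0⟩
  rw [Finset.mem_filter] at hι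
  obtain ⟨-, hι⟩ := hι
  set A : Matrix (Fin P) (Fin P) L := Matrix.of fun i k => l i (ι k) with hA
  have hu : IsUnit A.det := isUnit_iff_ne_zero.2 hι
  refine ⟨ι, fun j i => A⁻¹ j i, fun i j => A i j, ?_, ?_, ?_⟩
  · intro j k
    have h1 : (A⁻¹ * A) j k = (1 : Matrix (Fin P) (Fin P) L) j k := by
      rw [Matrix.nonsing_inv_mul A hu]
    rw [Matrix.mul_apply, Matrix.one_apply] at h1
    exact h1
  · intro j a
    have h1 : ∑ i, A⁻¹ j i * l i a = (A.det)⁻¹ * (A.updateCol j fun i => l i a).det := by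
      have h2 := Matrix.mulVec_cramer A (fun i => l i a)
      have h3 := congrArg (fun x => Matrix.mulVec A⁻¹ x) h2
      simp only [Matrix.mulVec_mulVec, Matrix.nonsing_inv_mul A hu, Matrix.one_mulVec,
        Matrix.mulVec_smul] at h3
      have h4 := congrFun h3 j
      rw [Matrix.cramer_apply, Pi.smul_apply, smul_eq_mul] at h4
      rw [h4, ← mul_assoc, inv_mul_cancel₀ hι, one_mul]
      rfl
    have h2 : A.updateCol j (fun i => l i a) =
        Matrix.of fun i k => l i (Function.update ι j a k) := by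
      ext i k
      by_cases hk : k = j
      · subst hk
        simp
      · simp [Matrix.updateCol_ne hk, Function.update_of_ne hk, hA]
    rw [h1, h2, map_mul, map_inv₀]
    by_cases h0 : (Matrix.of fun i k => l i (Function.update ι j a k)).det = 0
    · left
      rw [h0, map_zero, mul_zero]
    · right
      have h3 := hmin (Function.update ι j a) (by
        rw [Finset.mem_filter]
        exact ⟨Finset.mem_univ _, h0⟩)
      have h4 : algebraMap L E A.det ≠ 0 := by
        rw [Ne, map_eq_zero]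
        exact hι
      have h5 : algebraMap L E (Matrix.of fun i k => l i (Function.update ι j a k)).det ≠ 0 := by
        rw [Ne, map_eq_zero]
        exact h0
      rw [w.ord_mul (inv_ne_zero h4) h5, w.ord_inv]
      omega
  · intro i a
    have h1 : A * (A⁻¹ * Matrix.of l) = Matrix.of l := by
      rw [← Matrix.mul_assoc, Matrix.mul_nonsing_inv A hu, Matrix.one_mul]
    have h2 := congrFun (congrFun h1 i) a
    rw [Matrix.mul_apply] at h2
    simp only [Matrix.mul_apply, Matrix.of_apply] at h2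
    exact h2.symm

/-- special data: `p F (τ v + λ) = τ (τ β₀ + β (λ))²` -/
structure Spc {N P : ℕ} (T : Fin N → Fin N → Fin N → ℂ) {R : Type} [Field R] [Algebra ℂ R]
    (l : Fin P → Fin N → R) (v : Fin N → R) (β : Fin P → R) (β0 p : R) : Prop where
  iso : ∀ i j k, Bg T (l i) (l j) (l k) = 0
  h2 : ∀ i j, 3 * p * Bg T v (l i) (l j) = β i * β j
  h1 : ∀ i, 3 * p * Bg T v v (l i) = 2 * β0 * β i
  h0 : p * Bg T v v v = β0 ^ 2

section spc

variable {N P : ℕ} {T : Fin N → Fin N → Fin N → ℂ} {R : Type} [Field R] [Algebra ℂ R]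
  {l : Fin P → Fin N → R} {v : Fin N → R} {β : Fin P → R} {β0 p : R}

/-- a combination -/
def lam (l : Fin P → Fin N → R) (θ : Fin P → R) : Fin N → R := fun a => ∑ i, θ i * l i a

theorem Bg_lam3 (hT : SymG T) (x y : Fin N → R) (θ : Fin P → R) :
    Bg T x y (lam l θ) = ∑ i, θ i * Bg T x y (l i) := by
  unfold lam
  rw [Bg_sum3 hT]
  exact Finset.sum_congr rfl fun i _ => Bg_smul3 T _ _ _ _

theorem Bg_lam2 (hT : SymG T) (x y : Fin N → R) (θ : Fin P → R) :
    Bg T x (lam l θ) y = ∑ i, θ i * Bg T x (l i) y := by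
  rw [Bg_swap23 hT, Bg_lam3 hT]
  exact Finset.sum_congr rfl fun i _ => by rw [Bg_swap23 hT]

theorem Bg_lam1 (hT : SymG T) (x y : Fin N → R) (θ : Fin P → R) :
    Bg T (lam l θ) x y = ∑ i, θ i * Bg T (l i) x y := by
  rw [Bg_swap12 hT, Bg_lam2 hT]
  exact Finset.sum_congr rfl fun i _ => by rw [Bg_swap12 hT]

theorem iso_lam (hT : SymG T) (h : ∀ i j k, Bg T (l i) (l j) (l k) = 0) (θ θ' θ'' : Fin P → R) :
    Bg T (lam l θ) (lam l θ') (lam l θ'') = 0 := by
  rw [Bg_lam1 hT]
  refine Finset.sum_eq_zero fun i _ => ?_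
  rw [Bg_lam2 hT, Finset.sum_eq_zero, mul_zero]
  intro j _
  rw [Bg_lam3 hT, Finset.sum_eq_zero, mul_zero]
  intro k _
  rw [h, mul_zero]

theorem Spc.l2 (hT : SymG T) (h : Spc T l v β β0 p) (θ θ' : Fin P → R) :
    3 * p * Bg T v (lam l θ) (lam l θ') = (∑ i, θ i * β i) * (∑ i, θ' i * β i) := by
  rw [Bg_lam2 hT, Finset.mul_sum, Finset.sum_mul]
  refine Finset.sum_congr rfl fun i _ => ?_
  rw [Bg_lam3 hT, Finset.mul_sum, Finset.mul_sum, Finset.mul_sum]
  refine Finset.sum_congr rfl fun j _ => ?_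
  have := h.h2 i j
  linear_combination θ i * θ' j * this

theorem Spc.l1 (hT : SymG T) (h : Spc T l v β β0 p) (θ : Fin P → R) :
    3 * p * Bg T v v (lam l θ) = 2 * β0 * ∑ i, θ i * β i := by
  rw [Bg_lam3 hT, Finset.mul_sum, Finset.mul_sum]
  refine Finset.sum_congr rfl fun i _ => ?_
  have := h.h1 i
  linear_combination θ i * this

/-- change of the basis -/
theorem Spc.change (hT : SymG T) (h : Spc T l v β β0 p) (B : Fin P → Fin P → R) :
    Spc T (fun j => lam l (B j)) v (fun j => ∑ i, B j i * β i) β0 p where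
  iso _ _ _ := iso_lam hT h.iso _ _ _
  h2 _ _ := h.l2 hT _ _
  h1 _ := h.l1 hT _
  h0 := h.h0

/-- translation of the vector -/
theorem Spc.trans (hT : SymG T) (h : Spc T l v β β0 p) (c : Fin P → R) :
    Spc T l (fun a => v a + lam l c a) β (β0 + ∑ i, c i * β i) p where
  iso := h.iso
  h2 i j := by
    have e1 : Bg T (lam l c) (l i) (l j) = 0 := by
      rw [Bg_lam1 hT]
      exact Finset.sum_eq_zero fun k _ => by rw [h.iso, mul_zero]
    rw [Bg_add1, e1, add_zero, h.h2]
  h1 i := by
    have e1 : Bg T (lam l c) (lam l c) (l i) = 0 := by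
      rw [Bg_lam1 hT]
      refine Finset.sum_eq_zero fun k _ => ?_
      rw [Bg_lam2 hT, Finset.sum_eq_zero, mul_zero]
      intro j _
      rw [h.iso, mul_zero]
    have e2 : 3 * p * Bg T v (lam l c) (l i) = (∑ i, c i * β i) * β i := by
      rw [Bg_lam2 hT, Finset.mul_sum, Finset.sum_mul]
      refine Finset.sum_congr rfl fun k _ => ?_
      have := h.h2 k i
      linear_combination c k * this
    have e3 := h.h1 i
    rw [Bg_add1, Bg_add2, Bg_add2, e1, Bg_swap12 hT (lam l c) v]
    linear_combination e3 + 2 * e2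
  h0 := by
    have e1 := iso_lam hT h.iso c c c
    have e2 := h.l2 hT c c
    have e3 := h.l1 hT c
    have e4 := h.h0
    rw [Bg_add1, Bg_add2, Bg_add2, Bg_add3, Bg_add3, Bg_add3, Bg_add3, e1,
      Bg_swap12 hT (lam l c) v, Bg_swap12 hT (lam l c) v, Bg_swap23 hT v (lam l c) v]
    have e7 : Bg T (lam l c) (lam l c) v = Bg T v (lam l c) (lam l c) := by
      rw [Bg_swap23 hT, Bg_swap12 hT]
    linear_combination e4 + e3 + e2 + p * e7

/-- scaling of the vector -/
theorem Spc.scale (h : Spc T l v β β0 1) (hp : p ≠ 0) :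
    Spc T l (fun a => (1 / p) * v a) β (β0 / p) p where
  iso := h.iso
  h2 i j := by
    have e1 := h.h2 i j
    rw [Bg_smul1]
    field_simp
    linear_combination e1
  h1 i := by
    have e1 := h.h1 i
    rw [Bg_smul1, Bg_smul2]
    field_simp
    linear_combination e1
  h0 := by
    have e1 := h.h0
    rw [Bg_smul1, Bg_smul2, Bg_smul3]
    field_simp
    linear_combination e1

/-- the values -/
theorem Spc.value (hT : SymG T) (h : Spc T l v β β0 p) (θ : Fin P → R) :
    Bg T (fun a => p * v a + lam l θ a) (fun a => p * v a + lam l θ a)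
      (fun a => p * v a + lam l θ a) = (p * β0 + ∑ i, θ i * β i) ^ 2 := by
  have e1 := iso_lam hT h.iso θ θ θ
  have e2 := h.l2 hT θ θ
  have e3 := h.l1 hT θ
  have e4 := h.h0
  have e5 := Bg_span3 hT v (lam l θ) (lam l θ) p 1 0
  have e6 : (fun i => p * v i + 1 * lam l θ i + 0 * lam l θ i) = fun a => p * v a + lam l θ a := by
    funext i
    ring
  rw [e6, e1] at e5
  rw [e5]
  linear_combination p ^ 2 * e4 + p * e3 + e2

/-- change of the field -/
theorem Spc.map {R' : Type} [Field R'] [Algebra ℂ R'] (f : R →ₐ[ℂ] R') (h : Spc T l v β β0 p) :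
    Spc T (fun i a => f (l i a)) (fun a => f (v a)) (fun i => f (β i)) (f β0) (f p) where
  iso i j k := by rw [← map_Bg, h.iso, map_zero]
  h2 i j := by
    rw [← map_Bg, ← map_mul, ← h.h2, map_mul, map_mul, map_ofNat]
  h1 i := by
    have e1 := congrArg f (h.h1 i)
    rw [map_mul, map_mul, map_mul, map_mul, map_ofNat, map_ofNat] at e1
    rw [← map_Bg, e1]
  h0 := by
    rw [← map_Bg, ← map_mul, h.h0, map_pow]

end spc

end

end Pool.Agent.N122
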