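import Mathlib
import Pool.Agent.N122.Ech

/-! # The local lemma for special data -/

set_option autoImplicit false

namespace Pool.Agent.N122

open MvPolynomial Pool.Agent.TH314.PD Module FF IntermediateField Pool.Agent.Y201.C3
open Pool.Agent.R845.T2 Pool.Agent.R845.E3

noncomputable section

/-- an odd generic point is not conjugate to a square -/
theorem div2 {r : ℕ} {F : MvPolynomial (Fin (r + 2)) ℂ} (hF : F.IsHomogeneous 3) (hsm : Sm F)
    {T : Fin (r + 2) → Fin (r + 2) → Fin (r + 2) → ℂ} (hT : SymG T) (hFT : F = Bg T X X X)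
    {E : Type} [Field E] [Algebra ℂ E] (z : Fin (r + 2) → E)
    (hz : ∀ (e : ℕ) (H : MvPolynomial (Fin (r + 2)) ℂ), H.IsHomogeneous e → aeval z H = 0 → H = 0)
    (hodd : Odd (finrank (ratioField z) E)) (b : Fin (r + 2) → E) (hb : b ≠ 0) :
    Bg T z b b ≠ 0 := by
  intro h8
  have hfd2 : FiniteDimensional (ratioField z) E := FiniteDimensional.of_finrank_pos hodd.pos
  have h9 := div (r + 2) 3 F hF (by norm_num) hsm E z hz hfd2 b hb (by
      have h10 : ∀ i, aeval b (pderiv i F) = 3 * Bg T (Rat.ev E i) b b := by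
        intro i
        rw [hFT, Rat.pd_ev hT, Bg_swap23 hT, Bg_swap12 hT]
      have h11 : ∑ i, z i * aeval b (pderiv i F) = 3 * Bg T z b b := by
        rw [Bg_ev1 T z, Finset.mul_sum]
        refine Finset.sum_congr rfl fun i _ => ?_
        rw [h10]
        ring
      rw [h11, h8, mul_zero])
  have h12 : (3 - 1 : ℕ) = 2 := rfl
  rw [h12] at h9
  exact (Nat.not_even_iff_odd.2 hodd) (even_iff_two_dvd.2 h9)

section

variable {E : Type} [Field E] [Algebra ℂ E] (w : Place ℂ E)

theorem ord_zero_of {x : E} (hx : w.Reg x) (h : w.red x ≠ 0) : x ≠ 0 ∧ w.ord x = 0 := by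
  have hx0 : x ≠ 0 := by
    intro h0
    rw [h0, w.red_zero] at h
    exact h rfl
  refine ⟨hx0, ?_⟩
  rw [Ne, w.red_eq_zero_iff hx] at h
  push Not at h
  have := (w.reg_iff hx0).1 hx
  have := h.2
  omega

theorem reg_sum {ι : Type} (s : Finset ι) (f : ι → E) (h : ∀ i ∈ s, w.Reg (f i)) :
    w.Reg (∑ i ∈ s, f i) ∧ w.red (∑ i ∈ s, f i) = ∑ i ∈ s, w.red (f i) := by
  classical
  induction s using Finset.induction_on with
  | empty =>
    rw [Finset.sum_empty, Finset.sum_empty]
    exact ⟨w.reg_zero, w.red_zero⟩
  | insert a s ha ih =>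
    rw [Finset.sum_insert ha, Finset.sum_insert ha]
    have h1 := h a (Finset.mem_insert_self _ _)
    have h2 := ih fun i hi => h i (Finset.mem_insert_of_mem hi)
    exact ⟨w.reg_add h1 h2.1, by rw [w.red_add h1 h2.1, h2.2]⟩

theorem red_lam {P N : ℕ} (l : Fin P → Fin N → E) (hl : ∀ i a, w.Reg (l i a)) (x : Fin P → E)
    (hx : ∀ i, w.Reg (x i)) (a : Fin N) : w.Reg (lam l x a) ∧
      w.red (lam l x a) = lam (fun i a => w.red (l i a)) (fun i => w.red (x i)) a := by
  unfold lam
  have h1 := reg_sum w Finset.univ (fun i => x i * l i a) fun i _ => w.reg_mul (hx i) (hl i a)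
  refine ⟨h1.1, ?_⟩
  rw [h1.2]
  exact Finset.sum_congr rfl fun i _ => w.red_mul (hx i) (hl i a)

end

/-- **The local lemma.** -/
theorem loc {r P : ℕ} {F : MvPolynomial (Fin (r + 2)) ℂ} (hF : F.IsHomogeneous 3) (hsm : Sm F)
    {T : Fin (r + 2) → Fin (r + 2) → Fin (r + 2) → ℂ} (hT : SymG T) (hFT : F = Bg T X X X)
    {E : Type} [Field E] [Algebra ℂ E] (w : Place ℂ E) (u : Fin (r + 2) → E)
    (hu : ∀ i, w.Reg (u i))
    (hug : ∀ (e : ℕ) (H : MvPolynomial (Fin (r + 2)) ℂ), H.IsHomogeneous e →
      aeval (fun i => w.red (u i)) H = 0 → H = 0)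
    (hodd : Odd (finrank (ratioField fun i => w.red (u i)) w.RF))
    (l : Fin P → Fin (r + 2) → E) (v : Fin (r + 2) → E) (β : Fin P → E) (β0 p : E)
    (hS : Spc T l v β β0 p) (hp : p ≠ 0) (hl : ∀ i a, w.Reg (l i a)) (hv : ∀ a, w.Reg (v a))
    (ι : Fin P → Fin (r + 2)) (hι : ∀ j k, l j (ι k) = if j = k then 1 else 0)
    (hvι : ∀ k, v (ι k) = 0) (i1 : Fin (r + 2)) (hvi : v i1 = 1) (s : E) (hs : s ≠ 0)
    (θ : Fin P → E)
    (heq : Bg T (fun a => s * u a + (p * v a + lam l θ a))
      (fun a => s * u a + (p * v a + lam l θ a)) (fun a => s * u a + (p * v a + lam l θ a)) = 0)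
    (hA : w.ord s < w.ord p → ∀ x : Fin P → w.RF,
      Bg T (fun a => w.red (u a) + lam (fun i a => w.red (l i a)) x a)
        (fun a => w.red (u a) + lam (fun i a => w.red (l i a)) x a)
        (fun a => w.red (u a) + lam (fun i a => w.red (l i a)) x a) ≠ 0)
    (hB : w.ord s = w.ord p → (∀ i j k, Bg T
        ((Fin.cons (fun a => w.red (v a)) fun i a => w.red (l i a) :
          Fin (P + 1) → Fin (r + 2) → w.RF) i)
        ((Fin.cons (fun a => w.red (v a)) fun i a => w.red (l i a) :
          Fin (P + 1) → Fin (r + 2) → w.RF) j)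
        ((Fin.cons (fun a => w.red (v a)) fun i a => w.red (l i a) :
          Fin (P + 1) → Fin (r + 2) → w.RF) k) = 0) → ∀ x : Fin (P + 1) → w.RF,
      Bg T (fun a => w.red (u a) + lam (Fin.cons (fun a => w.red (v a)) fun i a => w.red (l i a)) x a)
        (fun a => w.red (u a) + lam (Fin.cons (fun a => w.red (v a)) fun i a => w.red (l i a)) x a)
        (fun a => w.red (u a) + lam (Fin.cons (fun a => w.red (v a)) fun i a => w.red (l i a)) x a)
        ≠ 0) :
    Even (w.ord s) := by
  classical
  set ub : Fin (r + 2) → w.RF := fun i => w.red (u i) with hub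
  set lb : Fin P → Fin (r + 2) → w.RF := fun i a => w.red (l i a) with hlb
  set vb : Fin (r + 2) → w.RF := fun a => w.red (v a) with hvb
  have hsreg : ∀ a b : E, b ≠ 0 → (a = 0 ∨ w.ord b ≤ w.ord a) → w.Reg (a / b) := by
    intro a b hb h
    by_cases ha : a = 0
    · left
      rw [ha, zero_div]
    · right
      rw [w.ord_div ha hb]
      have := h.resolve_left ha
      omega
  have hsred : ∀ a b : E, b ≠ 0 → (a = 0 ∨ w.ord b < w.ord a) →
      w.Reg (a / b) ∧ w.red (a / b) = 0 := by
    intro a b hb h
    by_cases ha : a = 0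
    · rw [ha, zero_div]
      exact ⟨w.reg_zero, w.red_zero⟩
    have h' := h.resolve_left ha
    have f1 := hsreg a b hb (Or.inr h'.le)
    refine ⟨f1, (w.red_eq_zero_iff f1).2 (Or.inr ?_)⟩
    rw [w.ord_div ha hb]
    omega
  have h30 : (3 : E) ≠ 0 := by
    have h7 : algebraMap ℂ E 3 ≠ 0 := by
      rw [Ne, map_eq_zero]
      norm_num
    rwa [map_ofNat] at h7
  have h3R : w.Reg (3 : E) := by
    have := w.reg_const (3 : ℂ)
    rwa [map_ofNat] at this
  have h3o : w.ord (3 : E) = 0 := by
    have := w.ord_const (c := (3 : ℂ)) (by norm_num)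
    rwa [map_ofNat] at this
  have h20 : (2 : E) ≠ 0 := by
    have h7 : algebraMap ℂ E 2 ≠ 0 := by
      rw [Ne, map_eq_zero]
      norm_num
    rwa [map_ofNat] at h7
  have h2o : w.ord (2 : E) = 0 := by
    have := w.ord_const (c := (2 : ℂ)) (by norm_num)
    rwa [map_ofNat] at this
  -- the smallest coefficient
  let x : Option (Fin P) → E := fun o => o.elim p θ
  obtain ⟨o, ho, hmin⟩ := Finset.exists_min_image (Finset.univ.filter fun o => x o ≠ 0)
    (fun o => w.ord (x o)) ⟨none, by simpa [x] using hp⟩
  rw [Finset.mem_filter] at ho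
  obtain ⟨-, ho⟩ := ho
  have hmin' : ∀ o', x o' = 0 ∨ w.ord (x o) ≤ w.ord (x o') := by
    intro o'
    by_cases h : x o' = 0
    · exact Or.inl h
    · exact Or.inr (hmin o' (by simpa using h))
  set τ := x o with hτ
  by_cases hcase : w.ord s ≤ w.ord τ
  · -- `s` dominates
    have hps : w.ord s ≤ w.ord p := by
      rcases hmin' none with h | h
      · exact absurd h hp
      · exact hcase.trans h
    have hθs : ∀ j, θ j = 0 ∨ w.ord s ≤ w.ord (θ j) := by
      intro j
      rcases hmin' (some j) with h | h
      · exact Or.inl h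
      · exact Or.inr (hcase.trans h)
    have r1 : w.Reg (p / s) := hsreg p s hs (Or.inr hps)
    have r2 : ∀ j, w.Reg (θ j / s) := fun j => hsreg _ s hs (hθs j)
    -- the reduced equation
    have f1 : Bg T (fun a => u a + (p / s * v a + lam l (fun j => θ j / s) a))
        (fun a => u a + (p / s * v a + lam l (fun j => θ j / s) a))
        (fun a => u a + (p / s * v a + lam l (fun j => θ j / s) a)) = 0 := by
      have f2 : (fun a => s * u a + (p * v a + lam l θ a)) =
          fun a => s * (u a + (p / s * v a + lam l (fun j => θ j / s) a)) := by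
        funext a
        have f3 : lam l θ a = s * lam l (fun j => θ j / s) a := by
          unfold lam
          rw [Finset.mul_sum]
          refine Finset.sum_congr rfl fun i _ => ?_
          field_simp
        rw [f3]
        field_simp
      rw [f2, Bg_smul1, Bg_smul2, Bg_smul3] at heq
      rcases mul_eq_zero.1 heq with h | h
      · exact absurd h hs
      rcases mul_eq_zero.1 h with h | h
      · exact absurd h hs
      rcases mul_eq_zero.1 h with h | h
      · exact absurd h hs
      exact h
    have f2 : ∀ a, w.Reg (u a + (p / s * v a + lam l (fun j => θ j / s) a)) ∧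
        w.red (u a + (p / s * v a + lam l (fun j => θ j / s) a)) =
          ub a + (w.red (p / s) * vb a + lam lb (fun j => w.red (θ j / s)) a) := by
      intro a
      have k1 := w.reg_mul r1 (hv a)
      have k2 := red_lam w l hl (fun j => θ j / s) r2 a
      refine ⟨w.reg_add (hu a) (w.reg_add k1 k2.1), ?_⟩
      rw [w.red_add (hu a) (w.reg_add k1 k2.1), w.red_add k1 k2.1, w.red_mul r1 (hv a), k2.2]
    have f3 := (red_Bg w T _ _ _ (fun i => (f2 i).1) (fun i => (f2 i).1) (fun i => (f2 i).1)).2
    rw [f1, w.red_zero, funext fun i => (f2 i).2] at f3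
    rcases hps.lt_or_eq with h | h
    · exfalso
      have h0 := (hsred p s hs (Or.inr h)).2
      refine hA h (fun j => w.red (θ j / s)) ?_
      rw [h0] at f3
      simp only [zero_mul, zero_add] at f3
      exact f3.symm
    · by_contra hodd'
      -- the orders of the coefficients
      have hbig : ∀ b B : E, p * B = b ^ 2 → w.Reg B → b = 0 ∨ w.ord p < 2 * w.ord b := by
        intro b B hb hB'
        by_cases hb0 : b = 0
        · exact Or.inl hb0
        right
        have hB0 : B ≠ 0 := by
          rintro rfl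
          rw [mul_zero] at hb
          exact pow_ne_zero 2 hb0 hb.symm
        have g1 := congrArg w.ord hb
        rw [w.ord_mul hp hB0, w.ord_pow] at g1
        have g2 := (w.reg_iff hB0).1 hB'
        push_cast at g1
        by_contra g3
        apply hodd'
        exact ⟨w.ord b, by omega⟩
      have g0 : β0 = 0 ∨ w.ord p < 2 * w.ord β0 :=
        hbig β0 _ hS.h0 (red_Bg w T v v v hv hv hv).1
      have gi : ∀ i, β i = 0 ∨ w.ord p < 2 * w.ord (β i) := by
        intro i
        refine hbig (β i) (3 * Bg T v (l i) (l i)) ?_ (w.reg_mul h3R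
          (red_Bg w T v (l i) (l i) hv (hl i) (hl i)).1)
        linear_combination hS.h2 i i
      have hz2 : ∀ (n : E) (b c B : E), n ≠ 0 → w.ord n = 0 → p * B = n * (b * c) →
          (b = 0 ∨ w.ord p < 2 * w.ord b) → (c = 0 ∨ w.ord p < 2 * w.ord c) → w.Reg B →
          w.red B = 0 := by
        intro n b c B hn hno hB' hb hc hBR
        by_cases hB0 : B = 0
        · rw [hB0, w.red_zero]
        rw [w.red_eq_zero_iff hBR]
        right
        by_cases hb0 : b = 0
        · rw [hb0, zero_mul, mul_zero] at hB'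
          exact absurd ((mul_eq_zero.1 hB').resolve_left hp) hB0
        by_cases hc0 : c = 0
        · rw [hc0, mul_zero, mul_zero] at hB'
          exact absurd ((mul_eq_zero.1 hB').resolve_left hp) hB0
        have g1 := congrArg w.ord hB'
        rw [w.ord_mul hp hB0, w.ord_mul hn (mul_ne_zero hb0 hc0), w.ord_mul hb0 hc0, hno] at g1
        have g2 := hb.resolve_left hb0
        have g3 := hc.resolve_left hc0
        omega
      have k3 : Bg T vb vb vb = 0 := by
        rw [hvb, ← (red_Bg w T v v v hv hv hv).2]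
        refine hz2 1 β0 β0 _ one_ne_zero w.ord_one ?_ g0 g0 (red_Bg w T v v v hv hv hv).1
        rw [hS.h0]
        ring
      have k2 : ∀ i, Bg T vb vb (lb i) = 0 := by
        intro i
        obtain ⟨g1, g2⟩ := red_Bg w T v v (l i) hv hv (hl i)
        rw [hvb, hlb, ← g2]
        refine hz2 (2 / 3) β0 (β i) _ (div_ne_zero h20 h30) ?_ ?_ g0 (gi i) g1
        · rw [w.ord_div h20 h30, h2o, h3o]
          rfl
        · have := hS.h1 i
          field_simp
          linear_combination this
      have k1 : ∀ i j, Bg T vb (lb i) (lb j) = 0 := by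
        intro i j
        obtain ⟨g1, g2⟩ := red_Bg w T v (l i) (l j) hv (hl i) (hl j)
        rw [hvb, hlb, ← g2]
        refine hz2 (1 / 3) (β i) (β j) _ (div_ne_zero one_ne_zero h30) ?_ ?_ (gi i) (gi j) g1
        · rw [w.ord_div one_ne_zero h30, w.ord_one, h3o]
          rfl
        · have := hS.h2 i j
          field_simp
          linear_combination this
      have k0 : ∀ i j k, Bg T (lb i) (lb j) (lb k) = 0 := by
        intro i j k
        rw [hlb, ← (red_Bg w T (l i) (l j) (l k) (hl i) (hl j) (hl k)).2, hS.iso, w.red_zero]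
      refine hB h ?_ (Fin.cons (w.red (p / s)) fun j => w.red (θ j / s)) ?_
      · intro i j k
        refine Fin.cases ?_ (fun i => ?_) i <;> refine Fin.cases ?_ (fun j => ?_) j <;>
          refine Fin.cases ?_ (fun k => ?_) k <;> simp only [Fin.cons_zero, Fin.cons_succ]
        · exact k3
        · exact k2 _
        · rw [Bg_swap23 hT]
          exact k2 _
        · exact k1 _ _
        · rw [Bg_swap12 hT, Bg_swap23 hT]
          exact k2 _
        · rw [Bg_swap12 hT]
          exact k1 _ _
        · rw [Bg_swap23 hT, Bg_swap12 hT]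
          exact k1 _ _
        · exact k0 _ _ _
      · have e1 : ∀ a, lam (Fin.cons vb lb) (Fin.cons (w.red (p / s)) fun j => w.red (θ j / s)) a =
            w.red (p / s) * vb a + lam lb (fun j => w.red (θ j / s)) a := by
          intro a
          unfold lam
          rw [Fin.sum_univ_succ]
          simp only [Fin.cons_zero, Fin.cons_succ]
        simp only [e1]
        exact f3.symm
  · -- the other coefficients dominate
    push Not at hcase
    have hτ0 : τ ≠ 0 := ho
    have r1 : w.Reg (p / τ) := hsreg p τ hτ0 (hmin' none)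
    have r2 : ∀ j, w.Reg (θ j / τ) := fun j => hsreg _ τ hτ0 (hmin' (some j))
    obtain ⟨r3, r3'⟩ := hsred s τ hτ0 (Or.inr hcase)
    set a' : Fin (r + 2) → E := fun a => p / τ * v a + lam l (fun j => θ j / τ) a with ha'
    have haR : ∀ a, w.Reg (a' a) ∧ w.red (a' a) =
        w.red (p / τ) * vb a + lam lb (fun j => w.red (θ j / τ)) a := by
      intro a
      have k1 := w.reg_mul r1 (hv a)
      have k2 := red_lam w l hl (fun j => θ j / τ) r2 a
      refine ⟨w.reg_add k1 k2.1, ?_⟩
      rw [ha', w.red_add k1 k2.1, w.red_mul r1 (hv a), k2.2]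
    have haR' : ∀ a, w.Reg (a' a) := fun a => (haR a).1
    have hpiv : ∀ k, a' (ι k) = θ k / τ := by
      intro k
      simp only [ha', hvι, mul_zero, zero_add, lam, hι]
      rw [Finset.sum_eq_single k]
      · rw [if_pos rfl, mul_one]
      · intro j _ hj
        rw [if_neg hj, mul_zero]
      · intro h
        exact absurd (Finset.mem_univ k) h
    have hab : (fun a => w.red (a' a)) ≠ 0 := by
      intro h0
      have g1 : ∀ k, w.red (θ k / τ) = 0 := by
        intro k
        rw [← hpiv]
        exact congrFun h0 (ι k)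
      rcases hoo : o with _ | j
      · have g2 : τ = p := by
          rw [hτ, hoo]
          rfl
        have g3 := (haR i1).2
        rw [congrFun h0 i1] at g3
        have g4 : ∀ k, w.red (θ k / p) = 0 := fun k => by
          rw [← g2]
          exact g1 k
        simp only [Pi.zero_apply, hvb, hvi, w.red_one, mul_one, lam, g4, zero_mul,
          Finset.sum_const_zero, add_zero, g2, div_self hp] at g3
        exact zero_ne_one g3
      · have g2 : τ = θ j := by
          rw [hτ, hoo]
          rfl
        have g3 := g1 j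
        rw [← g2, div_self hτ0, w.red_one] at g3
        exact one_ne_zero g3
    have hne := div2 hF hsm hT hFT ub hug hodd _ hab
    obtain ⟨q1, q1'⟩ := red_Bg w T u a' a' hu haR' haR'
    obtain ⟨q2, q2'⟩ := red_Bg w T u u a' hu hu haR'
    obtain ⟨q3, q3'⟩ := red_Bg w T u u u hu hu hu
    set σ : E := p * β0 + ∑ i, θ i * β i with hσ
    have hval : τ ^ 3 * Bg T a' a' a' = σ ^ 2 := by
      have g1 := hS.value hT θ
      have g2 : (fun a => p * v a + lam l θ a) = fun a => τ * a' a := by
        funext a
        simp only [ha', lam]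
        rw [mul_add, Finset.mul_sum]
        congr 1
        · field_simp
        · refine Finset.sum_congr rfl fun i _ => ?_
          field_simp
      rw [g2, Bg_smul1, Bg_smul2, Bg_smul3] at g1
      rw [← g1]
      ring
    set B : E := 3 * Bg T u a' a' + s / τ * (3 * Bg T u u a' + s / τ * Bg T u u u) with hBd
    have hmain : σ ^ 2 = -(s * τ ^ 2 * B) := by
      have g1 := Bg_span3 hT u a' a' s τ 0
      have g2 : (fun i => s * u i + τ * a' i + 0 * a' i) =
          fun a => s * u a + (p * v a + lam l θ a) := by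
        funext a
        simp only [ha', lam]
        rw [mul_add, Finset.mul_sum, zero_mul, add_zero]
        congr 2
        · field_simp
        · refine Finset.sum_congr rfl fun i _ => ?_
          field_simp
      rw [g2, heq] at g1
      rw [← hval, hBd]
      field_simp
      linear_combination -g1
    have hR2 : w.Reg (3 * Bg T u u a' + s / τ * Bg T u u u) :=
      w.reg_add (w.reg_mul h3R q2) (w.reg_mul r3 q3)
    have hBR : w.Reg B := w.reg_add (w.reg_mul h3R q1) (w.reg_mul r3 hR2)
    have hBr : w.red B ≠ 0 := by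
      rw [hBd, w.red_add (w.reg_mul h3R q1) (w.reg_mul r3 hR2), w.red_mul r3 hR2, r3', zero_mul,
        add_zero, w.red_mul h3R q1, q1']
      refine mul_ne_zero ?_ hne
      intro h3
      rw [w.red_eq_zero_iff h3R, h3o] at h3
      rcases h3 with h3 | h3
      · exact h30 h3
      · exact lt_irrefl _ h3
    obtain ⟨hB0, hBo⟩ := ord_zero_of w hBR hBr
    have hσ0 : σ ≠ 0 := by
      intro h0
      rw [h0] at hmain
      have h1 : s * τ ^ 2 * B = 0 := by
        rw [← neg_eq_zero, ← hmain]
        ring
      exact mul_ne_zero (mul_ne_zero hs (pow_ne_zero _ hτ0)) hB0 h1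
    have g1 := congrArg w.ord hmain
    rw [w.ord_pow, w.ord_neg, w.ord_mul (mul_ne_zero hs (pow_ne_zero _ hτ0)) hB0, hBo,
      w.ord_mul hs (pow_ne_zero _ hτ0), w.ord_pow] at g1
    push_cast at g1
    exact ⟨w.ord σ - w.ord τ, by omega⟩

end

end Pool.Agent.N122
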