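import Mathlib
import Pool.Agent.N122.Spec

/-! # Special vectors of the second kind -/

set_option autoImplicit false

namespace Pool.Agent.N122

open MvPolynomial Pool.Agent.TH314.PD Module IntermediateField Pool.Agent.Y201.C3

noncomputable section

/-- the numerical condition for the special vectors of the second kind -/
def Cnq (N m P : ℕ) : Prop := P * (P + 3) + 2 * (2 ^ m * P) < 2 * N

/-- **Special vectors of the second kind.** -/
theorem special2 {N m P : ℕ} {T : Fin N → Fin N → Fin N → ℂ} (hT : SymG T) (hC : Cnq N m P)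
    {L : Type} [Field L] [Algebra ℂ L] (hfg : Algebra.EssFiniteType ℂ L) (t : Fin m → L)
    (ht : AlgebraicIndependent ℂ t)
    (halg : ∀ y : L, IsAlgebraic (IntermediateField.adjoin ℂ (Set.range t)) y)
    (l : Fin P → Fin N → L) (hl : LinearIndependent L l) :
    ∃ (v : Fin N → L) (β : Fin P → L) (β0 : L), v ∉ Submodule.span L (Set.range l) ∧
      (∀ i j, 3 * Bg T v (l i) (l j) = β i * β j) ∧
      (∀ i, 3 * Bg T v v (l i) = 2 * β0 * β i) ∧ Bg T v v v = β0 ^ 2 := by
  classical
  set S := Submodule.span L (Set.range l) with hS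
  have hSr : finrank L S = P := by
    rw [hS, finrank_span_eq_card hl, Fintype.card_fin]
  obtain ⟨Qc, hQ⟩ := Submodule.exists_isCompl S
  have hQr : P + finrank L Qc = N := by
    have h1 := Submodule.finrank_add_eq_of_isCompl hQ
    rwa [hSr, finrank_fin_fun] at h1
  let e := finBasis L Qc
  let I : Type := Fin (finrank L Qc)
  let Q : Type := (Σ i : Fin P, Fin ((i : ℕ) + 1)) ⊕ Fin P
  let d : I → ℕ := fun _ => 1
  let w : Q → ℕ := Sum.elim (fun _ => 1) (fun _ => 2)
  let V : Fin N → MvPolynomial I L := fun a => ∑ k, C ((e k : Fin N → L) a) * X k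
  let Lc : Fin P → Fin N → MvPolynomial I L := fun i a => C (l i a)
  let Ψ1 : (Σ i : Fin P, Fin ((i : ℕ) + 1)) → MvPolynomial I L := fun x =>
    Bg T V (Lc x.1) (Lc ⟨x.2, by have := x.1.2; have := x.2.2; omega⟩)
  let Ψ2 : Fin P → MvPolynomial I L := fun i => Bg T V V (Lc i)
  let Ψ : Q → MvPolynomial I L := Sum.elim Ψ1 Ψ2
  have hVw : ∀ a, IsWeightedHomogeneous d (V a) 1 := by
    intro a
    refine IsWeightedHomogeneous.sum _ _ _ fun k _ => ?_
    have h1 := (isWeightedHomogeneous_C d ((e k : Fin N → L) a)).mul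
      (isWeightedHomogeneous_X L d (k : I))
    rwa [zero_add] at h1
  have hLw : ∀ i a, IsWeightedHomogeneous d (Lc i a) 0 := fun i a => isWeightedHomogeneous_C d _
  have hΨ : ∀ q, IsWeightedHomogeneous d (Ψ q) (w q) := by
    rintro (x | i)
    · exact wh_Bg T d _ _ _ 1 0 0 hVw (hLw _) (hLw _)
    · exact wh_Bg T d _ _ _ 1 1 0 hVw hVw (hLw _)
  obtain ⟨a, ha0, ha⟩ := langL hfg t ht halg d (fun i => le_rfl) w (by
      rintro (x | i)
      · exact le_refl 1
      · exact (by norm_num : 1 ≤ 2)) Ψ hΨ (by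
      have h1 : ∑ q, w q ^ m = Fintype.card (Σ i : Fin P, Fin ((i : ℕ) + 1)) + P * 2 ^ m := by
        rw [Fintype.sum_sum_type]
        simp [w]
      have h2 : ∑ i, d i ^ m = finrank L Qc := by
        simp [d, I]
      rw [h1, h2]
      have h3 := card_tri P
      unfold Cnq at hC
      rw [← hQr] at hC
      have h4 : P * (P + 3) =
          2 * (Fintype.card (Σ i : Fin P, Fin ((i : ℕ) + 1))) + 2 * P := by
        rw [h3]
        ring
      rw [h4] at hC
      linarith)
  -- the vector
  set v : Fin N → L := fun b => ∑ k, (e k : Fin N → L) b * a k with hv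
  let ev : MvPolynomial I L →ₐ[ℂ] L := (aeval a : MvPolynomial I L →ₐ[L] L).restrictScalars ℂ
  have hevd : ∀ p, ev p = eval a p := fun p => by
    rw [← coe_aeval_eq_eval]
    rfl
  have hev : ∀ x y z : Fin N → MvPolynomial I L, eval a (Bg T x y z) =
      Bg T (fun i => eval a (x i)) (fun i => eval a (y i)) (fun i => eval a (z i)) := by
    intro x y z
    have h1 := map_Bg ev T x y z
    simp only [hevd] at h1
    exact h1
  have hVe : (fun b => eval a (V b)) = v := by
    funext b
    simp only [V, map_sum, map_mul, eval_C, eval_X, hv]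
  have hLe : ∀ i, (fun b => eval a (Lc i b)) = l i := by
    intro i
    funext b
    simp only [Lc, eval_C]
  have h1 : ∀ x : (Σ i : Fin P, Fin ((i : ℕ) + 1)), Bg T v (l x.1)
      (l ⟨x.2, by have := x.1.2; have := x.2.2; omega⟩) = 0 := by
    intro x
    have h2 := ha (Sum.inl x)
    simp only [Ψ, Sum.elim_inl, Ψ1] at h2
    rwa [hev, hVe, hLe, hLe] at h2
  have h2 : ∀ i, Bg T v v (l i) = 0 := by
    intro i
    have h2 := ha (Sum.inr i)
    simp only [Ψ, Sum.elim_inr, Ψ2] at h2
    rwa [hev, hVe, hLe] at h2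
  have hle : ∀ i j : Fin P, (j : ℕ) ≤ i → Bg T v (l i) (l j) = 0 := fun i j hij =>
    h1 ⟨i, ⟨j, by omega⟩⟩
  have hall : ∀ i j : Fin P, Bg T v (l i) (l j) = 0 := by
    intro i j
    rcases le_total (j : ℕ) i with h | h
    · exact hle i j h
    · rw [Bg_swap23 hT, hle j i h]
  -- it is not in the span
  have hvS : v ∉ S := by
    intro hvS
    have hvQ : v ∈ Qc := by
      have h4 : v = ∑ k, a k • (e k : Fin N → L) := by
        funext b
        simp only [hv, Finset.sum_apply, Pi.smul_apply, smul_eq_mul]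
        exact Finset.sum_congr rfl fun k _ => mul_comm _ _
      rw [h4]
      exact Submodule.sum_mem _ fun k _ => Submodule.smul_mem _ _ (e k).2
    have hv0 : v = 0 := Submodule.disjoint_def.1 hQ.disjoint v hvS hvQ
    apply ha0
    funext k
    have h4 : ∑ k, a k • e k = 0 := by
      apply Subtype.ext
      rw [Submodule.coe_zero, ← hv0]
      funext b
      simp only [hv, AddSubmonoidClass.coe_finsetSum, Submodule.coe_smul, Finset.sum_apply,
        Pi.smul_apply, smul_eq_mul]
      exact Finset.sum_congr rfl fun k _ => mul_comm _ _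
    exact (Fintype.linearIndependent_iff.1 e.linearIndependent) _ h4 k
  by_cases h0 : Bg T v v v = 0
  · refine ⟨v, fun _ => 0, 0, hvS, fun i j => ?_, fun i => ?_, ?_⟩
    · rw [hall, mul_zero, mul_zero]
    · rw [h2, mul_zero, mul_zero]
    · rw [h0]
      ring
  · refine ⟨fun b => Bg T v v v * v b, fun _ => 0, (Bg T v v v) ^ 2, ?_, fun i j => ?_,
      fun i => ?_, ?_⟩
    · intro h3
      apply hvS
      have h4 : v = (Bg T v v v)⁻¹ • (fun b => Bg T v v v * v b) := by
        funext b
        rw [Pi.smul_apply, smul_eq_mul, ← mul_assoc, inv_mul_cancel₀ h0, one_mul]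
      rw [h4]
      exact S.smul_mem _ h3
    · rw [Bg_smul1, hall, mul_zero, mul_zero, mul_zero]
    · rw [Bg_smul1, Bg_smul2, h2, mul_zero, mul_zero, mul_zero, mul_zero]
    · rw [Bg_smul1, Bg_smul2, Bg_smul3]
      ring

theorem Cnq.mono {N m m0 P : ℕ} (h : Cnq N m P) (h0 : m0 ≤ m) : Cnq N m0 P := by
  unfold Cnq at *
  have h1 : 2 ^ m0 ≤ 2 ^ m := Nat.pow_le_pow_right (by norm_num) h0
  have h2 := Nat.mul_le_mul_right P h1
  omega

end

end Pool.Agent.N122
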