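import Mathlib
import Pool.Agent.N122.LocS
import Pool.Agent.N122.Spec2
import Pool.Agent.N122.Dg

/-! # The induction on the transcendence degree -/

set_option autoImplicit false

namespace Pool.Agent.N122

open MvPolynomial Pool.Agent.TH314.PD Module FF IntermediateField Pool.Agent.Y201.C3
open Pool.Agent.R845.T2 Pool.Agent.R845.E3

noncomputable section

/-- no zeros on the linear space spanned by an odd generic point and an isotropic space over a
field of transcendence degree at most `m` -/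
def SS {r : ℕ} (T : Fin (r + 2) → Fin (r + 2) → Fin (r + 2) → ℂ) (m P : ℕ) : Prop :=
  ∀ (E : Type) [Field E] [Algebra ℂ E] (z : Fin (r + 2) → E),
    (∀ (e : ℕ) (H : MvPolynomial (Fin (r + 2)) ℂ), H.IsHomogeneous e → aeval z H = 0 → H = 0) →
    Odd (finrank (ratioField z) E) → ∀ K : IntermediateField ℂ E,
    (∀ y : Fin (m + 1) → E, (∀ i, y i ∈ K) → ¬ AlgebraicIndependent ℂ y) →
    ∀ l : Fin P → Fin (r + 2) → E, (∀ i a, l i a ∈ K) → LinearIndependent E l →
    (∀ i j k, Bg T (l i) (l j) (l k) = 0) → ∀ θ : Fin P → E,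
    Bg T (fun a => z a + lam l θ a) (fun a => z a + lam l θ a) (fun a => z a + lam l θ a) ≠ 0

/-- the residue field is smaller at a nontrivial place -/
theorem kap_small {L E : Type} [Field L] [Field E] [Algebra ℂ L] [Algebra ℂ E] [Algebra L E]
    [IsScalarTower ℂ L E] (w : Place ℂ E) {m : ℕ}
    (hL : ∀ y : Fin (m + 1) → L, ¬ AlgebraicIndependent ℂ y)
    (hnt : ∃ k : L, k ≠ 0 ∧ w.ord (algebraMap L E k) ≠ 0) :
    ∀ y : Fin m → w.RF, (∀ i, y i ∈ NT.kap L w) → ¬ AlgebraicIndependent ℂ y := by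
  intro y hy hAI
  choose a ha hay using hy
  obtain ⟨k, hk0, hk1⟩ := hnt
  obtain ⟨k', hk'⟩ : ∃ k' : L, 0 < w.ord (algebraMap L E k') := by
    rcases lt_or_gt_of_ne hk1 with h | h
    · refine ⟨k⁻¹, ?_⟩
      rw [map_inv₀, w.ord_inv]
      omega
    · exact ⟨k, h⟩
  have h1 : AlgebraicIndependent ℂ fun j => w.red (algebraMap L E (a j)) := by
    rw [show (fun j => w.red (algebraMap L E (a j))) = y from funext hay]
    exact hAI
  have h2 := ai_of_place w (algebraMap L E k') (fun j => algebraMap L E (a j)) hk' ha h1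
  have h3 : (Sum.elim (fun j => algebraMap L E (a j)) (fun _ : Unit => algebraMap L E k')) =
      (IsScalarTower.toAlgHom ℂ L E) ∘ (Sum.elim a (fun _ : Unit => k')) := by
    funext i
    rcases i with i | i <;> rfl
  rw [h3] at h2
  have h4 := h2.of_comp (IsScalarTower.toAlgHom ℂ L E)
  have e : Fin (m + 1) ≃ Fin m ⊕ Unit := Fintype.equivOfCardEq (by
    rw [Fintype.card_sum, Fintype.card_fin, Fintype.card_fin, Fintype.card_unit])
  exact hL _ (h4.comp e e.injective)

/-- monotonicity of the condition -/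
theorem Cnd.down {N m P : ℕ} (h : Cnd N (m + 1) P) : Cnd N m P := by
  unfold Cnd at *
  have h1 : (2 : ℕ) ^ (m + 1) = 2 * 2 ^ m := by rw [pow_succ]; ring
  have h2 : (4 : ℕ) ^ (m + 1) = 4 * (2 ^ m * 2 ^ m) := by
    rw [pow_succ, show (4 : ℕ) = 2 * 2 by norm_num, mul_pow]
    ring
  have h3 : (6 : ℕ) ^ (m + 1) = 6 * (2 ^ m * 3 ^ m) := by
    rw [pow_succ, show (6 : ℕ) = 2 * 3 by norm_num, mul_pow]
    ring
  have h4 : (3 : ℕ) ^ (m + 1) = 3 * 3 ^ m := by rw [pow_succ]; ring
  have h5 : (4 : ℕ) ^ m = 2 ^ m * 2 ^ m := by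
    rw [show (4 : ℕ) = 2 * 2 by norm_num, mul_pow]
  have h6 : (6 : ℕ) ^ m = 2 ^ m * 3 ^ m := by
    rw [show (6 : ℕ) = 2 * 3 by norm_num, mul_pow]
  rw [h1, h2, h3, h4] at h
  rw [h5, h6]
  have hA : 1 ≤ 2 ^ m := Nat.one_le_two_pow
  have hB : 1 ≤ 3 ^ m := Nat.one_le_pow _ _ (by norm_num)
  generalize 2 ^ m = A at *
  generalize 3 ^ m = B at *
  have h7 : B ≤ A * B := Nat.le_mul_of_pos_left B hA
  nlinarith [Nat.zero_le (A * A * P)]

theorem Cnd.mono {N m m0 P : ℕ} (h : Cnd N m P) (h0 : m0 ≤ m) : Cnd N m0 P := by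
  obtain ⟨k, rfl⟩ := Nat.exists_eq_add_of_le h0
  induction k with
  | zero => exact h
  | succ k ih => exact ih h.down (by omega)

theorem Cnd.next {N m P : ℕ} (hP : 1 ≤ P) (h : Cnd N (m + 1) P) : Cnd N m (P + 1) := by
  unfold Cnd at *
  have h1 : (2 : ℕ) ^ (m + 1) = 2 * 2 ^ m := by rw [pow_succ]; ring
  have h2 : (4 : ℕ) ^ (m + 1) = 4 * (2 ^ m * 2 ^ m) := by
    rw [pow_succ, show (4 : ℕ) = 2 * 2 by norm_num, mul_pow]
    ring
  have h3 : (6 : ℕ) ^ (m + 1) = 6 * (2 ^ m * 3 ^ m) := by
    rw [pow_succ, show (6 : ℕ) = 2 * 3 by norm_num, mul_pow]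
    ring
  have h4 : (3 : ℕ) ^ (m + 1) = 3 * 3 ^ m := by rw [pow_succ]; ring
  have h5 : (4 : ℕ) ^ m = 2 ^ m * 2 ^ m := by
    rw [show (4 : ℕ) = 2 * 2 by norm_num, mul_pow]
  have h6 : (6 : ℕ) ^ m = 2 ^ m * 3 ^ m := by
    rw [show (6 : ℕ) = 2 * 3 by norm_num, mul_pow]
  rw [h1, h2, h3, h4] at h
  rw [h5, h6]
  have hA : 1 ≤ 2 ^ m := Nat.one_le_two_pow
  have hB : 2 ^ m ≤ 3 ^ m := Nat.pow_le_pow_left (by norm_num) m
  generalize 2 ^ m = A at *
  generalize 3 ^ m = B at *
  obtain ⟨a, rfl⟩ := Nat.exists_eq_add_of_le hA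
  obtain ⟨b, rfl⟩ := Nat.exists_eq_add_of_le hB
  obtain ⟨p, rfl⟩ := Nat.exists_eq_add_of_le hP
  nlinarith [Nat.zero_le (a * b), Nat.zero_le (a * p), Nat.zero_le (a * a * p),
    Nat.zero_le (b * p), Nat.zero_le (a * a), Nat.zero_le (a * p * p), Nat.zero_le (p * p)]

/-- **The step of the induction.** -/
theorem step {r m P : ℕ} {F : MvPolynomial (Fin (r + 2)) ℂ} (hF : F.IsHomogeneous 3) (hsm : Sm F)
    {T : Fin (r + 2) → Fin (r + 2) → Fin (r + 2) → ℂ} (hT : SymG T) (hFT : F = Bg T X X X)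
    (hC : Cnd (r + 2) m P ∨ Cnq (r + 2) m P)
    (hprev : ∀ m', m = m' + 1 → SS T m' P ∧ SS T m' (P + 1)) : SS T m P := by
  classical
  intro E _ _ z hz hodd K hK l hlK hli hiso θ hθ
  -- the field generated by the coefficients
  let K0 : IntermediateField ℂ E := IntermediateField.adjoin ℂ
    (Set.range fun x : Fin P × Fin (r + 2) => l x.1 x.2)
  have hK0 : K0 ≤ K := by
    rw [adjoin_le_iff]
    rintro _ ⟨x, rfl⟩
    exact hlK _ _
  have hfg : Algebra.EssFiniteType ℂ K0 := by
    rw [IntermediateField.essFiniteType_iff]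
    exact IntermediateField.fg_adjoin_of_finite (Set.finite_range _)
  have hL : ∀ y : Fin (m + 1) → K0, ¬ AlgebraicIndependent ℂ y := by
    intro y hy
    refine hK (fun i => (y i : E)) (fun i => hK0 (y i).2) ?_
    exact hy.map' (f := K0.val) (RingHom.injective _)
  obtain ⟨m0, hm0, t, ht, halg⟩ := exists_tb m hL
  let lK : Fin P → Fin (r + 2) → K0 := fun i a => ⟨l i a, subset_adjoin ℂ _ ⟨(i, a), rfl⟩⟩
  have hlKE : ∀ i a, (lK i a : E) = l i a := fun _ _ => rfl
  have hliK : LinearIndependent K0 lK := by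
    rw [Fintype.linearIndependent_iff]
    intro g hg i
    have h1 : ∑ i, (g i : E) • l i = 0 := by
      funext a
      have h2 := congrArg (algebraMap K0 E) (congrFun hg a)
      rw [Finset.sum_apply, map_sum] at h2
      rw [Finset.sum_apply]
      exact h2
    exact Subtype.ext ((Fintype.linearIndependent_iff.1 hli) _ h1 i)
  have hisoK : ∀ i j k, Bg T (lK i) (lK j) (lK k) = 0 := by
    intro i j k
    apply Subtype.ext
    have h1 := map_Bg K0.val T (lK i) (lK j) (lK k)
    exact h1.trans (hiso i j k)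
  obtain ⟨v, β, β0, hvS, hs2, hs1, hs0⟩ : ∃ (v : Fin (r + 2) → K0) (β : Fin P → K0) (β0 : K0),
      v ∉ Submodule.span K0 (Set.range lK) ∧ (∀ i j, 3 * Bg T v (lK i) (lK j) = β i * β j) ∧
      (∀ i, 3 * Bg T v v (lK i) = 2 * β0 * β i) ∧ Bg T v v v = β0 ^ 2 := by
    rcases hC with hC | hC
    · exact special hT (hC.mono hm0) hfg t ht halg lK hliK
    · exact special2 hT (hC.mono hm0) hfg t ht halg lK hliK
  have hSpc : Spc T lK v β β0 1 := by
    refine ⟨hisoK, fun i j => ?_, fun i => ?_, ?_⟩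
    · rw [mul_one, hs2]
    · rw [mul_one, hs1]
    · rw [one_mul, hs0]
  -- the degeneration
  obtain ⟨s, ρ, u, w, hrel, hu, hug, hodd', hsodd, hor⟩ := degen z hz hodd K0
    (fun i => (v i : E)) (fun i => (v i).2)
  have hs : s ≠ 0 := by
    rintro rfl
    rw [w.ord_zero] at hsodd
    exact absurd hsodd (by decide)
  let f : K0 →ₐ[ℂ] LF E := IsScalarTower.toAlgHom ℂ K0 (LF E)
  have hf : ∀ a : K0, f a = algebraMap E (LF E) (a : E) := fun a =>
    IsScalarTower.algebraMap_apply K0 E (LF E) a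
  have hfK : ∀ a : K0, f a = algebraMap K0 (LF E) a := fun a => rfl
  let g : E →ₐ[ℂ] LF E := IsScalarTower.toAlgHom ℂ E (LF E)
  have hg : ∀ a : E, g a = algebraMap E (LF E) a := fun _ => rfl
  -- the reduced basis
  obtain ⟨ι, B, A, hι, hBreg, hA⟩ := ech (L := K0) w lK hliK
  set l' : Fin P → Fin (r + 2) → K0 := fun j => lam lK (B j) with hl'
  set β' : Fin P → K0 := fun j => ∑ i, B j i * β i with hβ'
  have hS1 : Spc T l' v β' β0 1 := hSpc.change hT B
  have hl'ι : ∀ j k, l' j (ι k) = if j = k then 1 else 0 := hι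
  have hlA : ∀ i a, lK i a = ∑ j, A i j * l' j a := hA
  set c : Fin P → K0 := fun k => -v (ι k) with hc
  set β0' : K0 := β0 + ∑ i, c i * β' i with hβ0'
  set v' : Fin (r + 2) → K0 := fun a => v a + lam l' c a with hv'
  have hS2 : Spc T l' v' β' β0' 1 := hS1.trans hT c
  have hv'ι : ∀ k, v' (ι k) = 0 := by
    intro k
    simp only [hv', lam, hl'ι]
    rw [Finset.sum_eq_single k]
    · rw [if_pos rfl, hc]
      ring
    · intro j _ hj
      rw [if_neg hj, mul_zero]
    · intro h
      exact absurd (Finset.mem_univ k) h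
  have hv'0 : v' ≠ 0 := by
    intro h0
    apply hvS
    have h1 : v = ∑ k, (-c k) • l' k := by
      funext a
      have h2 := congrFun h0 a
      simp only [hv', lam, Pi.zero_apply] at h2
      simp only [Finset.sum_apply, Pi.smul_apply, smul_eq_mul, neg_mul, Finset.sum_neg_distrib]
      linear_combination h2
    rw [h1]
    refine Submodule.sum_mem _ fun k _ => Submodule.smul_mem _ _ ?_
    have h3 : l' k = ∑ i, B k i • lK i := by
      funext a
      simp only [hl', lam, Finset.sum_apply, Pi.smul_apply, smul_eq_mul]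
    rw [h3]
    exact Submodule.sum_mem _ fun i _ => Submodule.smul_mem _ _ (Submodule.subset_span ⟨i, rfl⟩)
  obtain ⟨i1, hi1, hreg1⟩ := prim w (fun a => f (v' a)) (by
    intro h0
    apply hv'0
    funext a
    exact f.injective ((congrFun h0 a).trans (map_zero f).symm))
  have hi1' : v' i1 ≠ 0 := fun h => hi1 (by rw [h, map_zero])
  set p : K0 := v' i1 with hp
  have hS3 := (hS2.scale (p := p) hi1').map f
  -- the places and the residue field
  have hnt : w.ord s < w.ord (f p) ∨ w.ord s = w.ord (f p) →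
      ∃ k : K0, k ≠ 0 ∧ w.ord (algebraMap K0 (LF E) k) ≠ 0 := by
    intro h
    by_contra hcon
    push Not at hcon
    have h1 := hcon p hi1'
    rw [← hfK] at h1
    rw [h1] at h
    rcases hor with h2 | ⟨k, hk, hk0, hk1⟩
    · omega
    · apply hk1
      have h3 := hcon ⟨k, hk⟩ (fun h => hk0 (congrArg Subtype.val h))
      rw [← hfK, hf] at h3
      exact h3
  have hfl : ∀ i a, f (l' i a) = algebraMap K0 (LF E) (∑ i', B i i' * lK i' a) := fun _ _ => rfl
  have hlreg : ∀ i a, w.Reg (f (l' i a)) := fun i a => hBreg i a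
  have hvreg : ∀ a, w.Reg (f ((1 / p) * v' a)) := by
    intro a
    rw [map_mul, map_div₀, map_one, one_div_mul_eq_div]
    exact hreg1 a
  have hvi1 : f ((1 / p) * v' i1) = 1 := by
    rw [one_div_mul_cancel hi1', map_one]
  have hvι : ∀ k, f ((1 / p) * v' (ι k)) = 0 := by
    intro k
    rw [hv'ι, mul_zero, map_zero]
  have hlι : ∀ j k, f (l' j (ι k)) = if j = k then 1 else 0 := by
    intro j k
    rw [hl'ι]
    split_ifs
    · exact map_one f
    · exact map_zero f
  set lb : Fin P → Fin (r + 2) → w.RF := fun i a => w.red (f (l' i a)) with hlb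
  set vb : Fin (r + 2) → w.RF := fun a => w.red (f ((1 / p) * v' a)) with hvb
  have hlbι : ∀ j k, lb j (ι k) = if j = k then 1 else 0 := by
    intro j k
    simp only [hlb, hlι]
    split_ifs
    · exact w.red_one
    · exact w.red_zero
  have hvbι : ∀ k, vb (ι k) = 0 := by
    intro k
    simp only [hvb, hvι]
    exact w.red_zero
  have hvb1 : vb i1 = 1 := by
    simp only [hvb, hvi1]
    exact w.red_one
  have hlbk : ∀ i a, lb i a ∈ NT.kap K0 w := fun i a => NT.mem_kap w (hlreg i a)
  have hvbk : ∀ a, vb a ∈ NT.kap K0 w := fun a => NT.mem_kap w (hvreg a)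
  have hlbiso : ∀ i j k, Bg T (lb i) (lb j) (lb k) = 0 := by
    intro i j k
    have h1 := (red_Bg w T _ _ _ (hlreg i) (hlreg j) (hlreg k)).2
    rw [hS3.iso i j k, w.red_zero] at h1
    exact h1.symm
  have hlbli : LinearIndependent w.RF lb := by
    rw [Fintype.linearIndependent_iff]
    intro x hx k
    have h1 := congrFun hx (ι k)
    simp only [Finset.sum_apply, Pi.smul_apply, smul_eq_mul, hlbι, Pi.zero_apply] at h1
    rw [Finset.sum_eq_single k] at h1
    · rwa [if_pos rfl, mul_one] at h1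
    · intro j _ hj
      rw [if_neg hj, mul_zero]
    · intro h
      exact absurd (Finset.mem_univ k) h
  have hcli : LinearIndependent w.RF (Fin.cons vb lb : Fin (P + 1) → Fin (r + 2) → w.RF) := by
    rw [Fintype.linearIndependent_iff]
    intro x hx
    rw [Fin.sum_univ_succ] at hx
    simp only [Fin.cons_zero, Fin.cons_succ] at hx
    have h1 : ∀ k : Fin P, x k.succ = 0 := by
      intro k
      have h1 := congrFun hx (ι k)
      simp only [Pi.add_apply, Finset.sum_apply, Pi.smul_apply, smul_eq_mul, hlbι, hvbι,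
        Pi.zero_apply, mul_zero, zero_add] at h1
      rw [Finset.sum_eq_single k] at h1
      · rwa [if_pos rfl, mul_one] at h1
      · intro j _ hj
        rw [if_neg hj, mul_zero]
      · intro h
        exact absurd (Finset.mem_univ k) h
    have h2 : x 0 = 0 := by
      have h2 := congrFun hx i1
      simp only [Pi.add_apply, Finset.sum_apply, Pi.smul_apply, smul_eq_mul, hvb1, h1, zero_mul,
        Finset.sum_const_zero, add_zero, mul_one, Pi.zero_apply] at h2
      exact h2
    intro i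
    refine Fin.cases h2 h1 i
  have hcases : (∃ k : K0, k ≠ 0 ∧ w.ord (algebraMap K0 (LF E) k) ≠ 0) → ∃ m', m = m' + 1 ∧
      ∀ y : Fin (m' + 1) → w.RF, (∀ i, y i ∈ NT.kap K0 w) → ¬ AlgebraicIndependent ℂ y := by
    intro h
    have h1 := kap_small w hL h
    rcases m with _ | m'
    · exact absurd (algebraicIndependent_empty_type_iff.2 (algebraMap ℂ w.RF).injective)
        (h1 Fin.elim0 (fun i => i.elim0))
    · exact ⟨m', rfl, h1⟩
  -- the equation
  set θ' : Fin P → LF E := fun j => (∑ i, (ρ * g (θ i)) * f (A i j)) - f (c j) with hθ'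
  have hpt : ∀ a, s * u a + (f p * f ((1 / p) * v' a) + lam (fun i a => f (l' i a)) θ' a) =
      ρ * g (z a + lam l θ a) := by
    intro a
    have h1 : f p * f ((1 / p) * v' a) = f (v' a) := by
      rw [← map_mul]
      congr 1
      field_simp
    have h2 : f (v' a) = f (v a) + ∑ j, f (c j) * f (l' j a) := by
      simp only [hv', lam, map_add, map_sum, map_mul]
    have h3 : lam (fun i a => f (l' i a)) θ' a =
        ∑ i, (ρ * g (θ i)) * f (lK i a) - ∑ j, f (c j) * f (l' j a) := by
      unfold lam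
      have h4 : ∀ i, (ρ * g (θ i)) * f (lK i a) =
          ∑ j, (ρ * g (θ i)) * f (A i j) * f (l' j a) := by
        intro i
        rw [hlA, map_sum, Finset.mul_sum]
        refine Finset.sum_congr rfl fun j _ => ?_
        rw [map_mul]
        ring
      rw [Finset.sum_congr rfl fun i _ => h4 i, Finset.sum_comm, ← Finset.sum_sub_distrib]
      refine Finset.sum_congr rfl fun j _ => ?_
      simp only [hθ']
      rw [sub_mul, Finset.sum_mul]
    have h5 : g (lam l θ a) = ∑ i, g (θ i) * f (lK i a) := by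
      unfold lam
      rw [map_sum]
      refine Finset.sum_congr rfl fun i _ => ?_
      rw [map_mul, hf]
      rfl
    have h6 : f (v a) = ρ * g (z a) - s * u a := by
      rw [hf, hg, ← hrel a]
      ring
    rw [h1, h2, h3, map_add, h5, h6, mul_add, Finset.mul_sum]
    have h7 : ∑ i, ρ * g (θ i) * f (lK i a) = ∑ i, ρ * (g (θ i) * f (lK i a)) :=
      Finset.sum_congr rfl fun i _ => by ring
    rw [h7]
    ring
  have heq : Bg T (fun a => s * u a + (f p * f ((1 / p) * v' a) +
      lam (fun i a => f (l' i a)) θ' a)) (fun a => s * u a + (f p * f ((1 / p) * v' a) +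
      lam (fun i a => f (l' i a)) θ' a)) (fun a => s * u a + (f p * f ((1 / p) * v' a) +
      lam (fun i a => f (l' i a)) θ' a)) = 0 := by
    rw [funext hpt, Bg_smul1, Bg_smul2, Bg_smul3, ← map_Bg, hθ, map_zero]
    ring
  have hfp : f p ≠ 0 := hi1
  have hev := loc hF hsm hT hFT w u hu hug hodd' (fun i a => f (l' i a))
    (fun a => f ((1 / p) * v' a)) (fun i => f (β' i)) (f (β0' / p)) (f p) hS3 hfp hlreg hvreg ι hlι
    hvι i1 hvi1 s hs θ' heq
    (by
      intro h x
      obtain ⟨m', hm', hk⟩ := hcases (hnt (Or.inl h))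
      exact (hprev m' hm').1 w.RF _ hug hodd' (NT.kap K0 w) hk lb hlbk hlbli hlbiso x)
    (by
      intro h hiso' x
      obtain ⟨m', hm', hk⟩ := hcases (hnt (Or.inr h))
      refine (hprev m' hm').2 w.RF _ hug hodd' (NT.kap K0 w) hk
        (Fin.cons vb lb : Fin (P + 1) → Fin (r + 2) → w.RF) ?_ hcli hiso' x
      intro i a
      refine Fin.cases ?_ (fun j => ?_) i
      · simp only [Fin.cons_zero]
        exact hvbk a
      · simp only [Fin.cons_succ]
        exact hlbk j a)
  exact (Int.not_even_iff_odd.2 hsodd) hev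

/-- the numerical conditions of the induction -/
def Gd (N : ℕ) : ℕ → ℕ → Prop
  | 0, P => Cnd N 0 P ∨ Cnq N 0 P
  | m + 1, P => (Cnd N (m + 1) P ∨ Cnq N (m + 1) P) ∧ Gd N m P ∧ Gd N m (P + 1)

/-- **No zeros on the span of an odd generic point and an isotropic space.** -/
theorem ss {r : ℕ} {F : MvPolynomial (Fin (r + 2)) ℂ} (hF : F.IsHomogeneous 3) (hsm : Sm F)
    {T : Fin (r + 2) → Fin (r + 2) → Fin (r + 2) → ℂ} (hT : SymG T) (hFT : F = Bg T X X X)
    (m : ℕ) : ∀ P, Gd (r + 2) m P → SS T m P := by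
  induction m with
  | zero => exact fun P hC => step hF hsm hT hFT hC (fun m' h => by omega)
  | succ m ih =>
    intro P hC
    refine step hF hsm hT hFT hC.1 fun m' h => ?_
    obtain rfl : m = m' := by omega
    exact ⟨ih P hC.2.1, ih (P + 1) hC.2.2⟩

/-- the conditions from explicit inequalities -/
theorem gd_of {N : ℕ} : ∀ (m P : ℕ),
    (∀ j < m, (P + j) * (P + j + 3) + 2 * (2 ^ (m - j) * (P + j)) < 2 * N) →
    (P + m) * (P + m + 3) < 2 * N → Gd N m P := by
  intro m
  induction m with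
  | zero =>
    intro P _ h
    left
    unfold Cnd
    rw [add_zero] at h
    simp only [pow_zero, one_mul, mul_one]
    omega
  | succ m ih =>
    intro P h1 h2
    refine ⟨Or.inr ?_, ih P ?_ ?_, ih (P + 1) ?_ ?_⟩
    · have h3 := h1 0 (by omega)
      rw [add_zero, Nat.sub_zero] at h3
      exact h3
    · intro j hj
      have h3 := h1 (j + 1) (by omega)
      have h4 : m + 1 - (j + 1) = m - j := by omega
      rw [h4] at h3
      refine lt_of_le_of_lt ?_ h3
      have h5 : P + j ≤ P + (j + 1) := by omega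
      have h6 : P + j + 3 ≤ P + (j + 1) + 3 := by omega
      have h7 := Nat.mul_le_mul h5 h6
      have h8 := Nat.mul_le_mul_left (2 ^ (m - j)) h5
      omega
    · refine lt_of_le_of_lt ?_ h2
      exact Nat.mul_le_mul (by omega) (by omega)
    · intro j hj
      have h3 := h1 (j + 1) (by omega)
      have h4 : m + 1 - (j + 1) = m - j := by omega
      have h5 : P + (j + 1) = P + 1 + j := by ring
      rw [h4, h5] at h3
      exact h3
    · have h5 : P + (m + 1) = P + 1 + m := by ring
      rw [h5] at h2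
      exact h2

end

end Pool.Agent.N122
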