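import Mathlib
import Pool.Agent.N122.Par
import Pool.Agent.N122.Mn

/-! # Chords through the points of a curve -/

set_option autoImplicit false

namespace Pool.Agent.N122

open MvPolynomial Pool.Agent.TH314.PD Module FF Pool.Agent.Y201.C3 IntermediateField
open Pool.Agent.R845.T2 Pool.Agent.R845.E3

noncomputable section

/-- **The parity of the degree is preserved by a chord, or the generic point of the chord is a
generic point of odd degree of the projective space.** -/
theorem chord_gen1 {n : ℕ} {F : MvPolynomial (Fin (n + 2)) ℂ} (hF : F.IsHomogeneous 3)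
    (hsm : Sm F) {M : Type} [Field M] [Algebra ℂ M] (x c : Fin (n + 2) → M)
    (hG : Gp F x) (hodd : Odd (finrank (ratioField x) M)) (hxc : LinearIndependent M ![x, c])
    (hcF : aeval c F = 0) (hpn : ¬ Gp F c) (s t : M) (hs : s ≠ 0)
    (hst : aeval (fun j => s * x j + t * c j) F = 0) :
    (Gp F (fun j => s * x j + t * c j) ∧
      Odd (finrank (ratioField fun j => s * x j + t * c j) M)) ∨
    ((∀ (e : ℕ) (H : MvPolynomial (Fin (n + 2)) ℂ), H.IsHomogeneous e →
        aeval (fun j => algebraMap (Polynomial M) (FractionRing (Polynomial M))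
          (Polynomial.C (x j) + Polynomial.X * Polynomial.C (c j))) H = 0 → H = 0) ∧
      Odd (finrank (ratioField fun j => algebraMap (Polynomial M)
      (FractionRing (Polynomial M)) (Polynomial.C (x j) + Polynomial.X * Polynomial.C (c j)))
      (FractionRing (Polynomial M)))) := by
  classical
  have tan : S_TAN := tan_of div (nt Pool.Agent.Y201.LI.hT1) fi fd
  obtain ⟨T, hT, hFT⟩ := exists_tri F hF
  have hodd2 : ¬ 2 ∣ finrank (ratioField x) M := fun h =>
    (Nat.not_even_iff_odd.2 hodd) (even_iff_two_dvd.2 h)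
  set A := 3 * Bg T x x c with hA
  set B := 3 * Bg T x c c with hB
  have hline := line_shape hT hFT x c hG.1 hcF
  rw [← hA, ← hB] at hline
  have hB0 : B ≠ 0 := by
    intro h0
    rw [h0, Polynomial.C_0, zero_mul, add_zero] at hline
    exact hodd2 (tan (n + 1) 3 F hF (by norm_num) hsm M x c A hxc hG.1 hG.2 hline)
  have hscale := fun v b hb h1 h2 => scale hF (M := M) v b hb h1 h2
  -- the equation of the point
  have heq : t * (s * A + t * B) = 0 := by
    have h1 := congrArg (Polynomial.eval (t / s)) hline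
    rw [Polynomial.eval_add, Polynomial.eval_mul, Polynomial.eval_mul, Polynomial.eval_pow,
      Polynomial.eval_C, Polynomial.eval_C, Polynomial.eval_X] at h1
    have h2 : Polynomial.eval (t / s) (aeval (fun j => Polynomial.C (x j) +
        Polynomial.X * Polynomial.C (c j)) F) = aeval (fun j => x j + t / s * c j) F := by
      have h3 := comp_aeval_apply (f := fun j => Polynomial.C (x j) +
        Polynomial.X * Polynomial.C (c j)) ((Polynomial.aeval (R := M) (t / s)).restrictScalars ℂ) F
      have h4 : ((Polynomial.aeval (R := M) (t / s)).restrictScalars ℂ) (aeval (fun j =>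
          Polynomial.C (x j) + Polynomial.X * Polynomial.C (c j)) F) =
          Polynomial.eval (t / s) (aeval (fun j => Polynomial.C (x j) +
            Polynomial.X * Polynomial.C (c j)) F) := by
        rw [AlgHom.restrictScalars_apply, Polynomial.coe_aeval_eq_eval]
      rw [← h4, h3]
      congr 2
      funext j
      rw [AlgHom.restrictScalars_apply, Polynomial.coe_aeval_eq_eval]
      rw [Polynomial.eval_add, Polynomial.eval_mul, Polynomial.eval_C, Polynomial.eval_C,
        Polynomial.eval_X]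
    rw [h2] at h1
    have h3 : (fun j => s * x j + t * c j) = fun j => s * (x j + t / s * c j) := by
      funext j
      field_simp
    rw [h3, aeval_smul_form hF, h1] at hst
    have h4 := (mul_eq_zero.1 hst).resolve_left (pow_ne_zero _ hs)
    field_simp at h4
    linear_combination h4
  rcases mul_eq_zero.1 heq with ht | hAB
  · have h1 : (fun j => s * x j + t * c j) = fun j => s * x j := by
      funext j
      rw [ht, zero_mul, add_zero]
    rw [h1]
    exact Or.inl (hscale x s hs hG hodd)
  have h1 : (fun j => s * x j + t * c j) = fun j => (s / B) * (B * x j - A * c j) := by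
    funext j
    field_simp
    linear_combination c j * hAB
  rw [h1]
  have hsB : s / B ≠ 0 := div_ne_zero hs hB0
  by_cases hA0 : A = 0
  · have h2 : (fun j => (s / B) * (B * x j - A * c j)) = fun j => s * x j := by
      funext j
      rw [hA0, zero_mul, sub_zero]
      field_simp
    rw [h2]
    exact Or.inl (hscale x s hs hG hodd)
  by_cases hy : Gp F (fun j => B * x j - A * c j) ∧
      Odd (finrank (ratioField fun j => B * x j - A * c j) M)
  · exact Or.inl (hscale _ _ hsB hy.1 hy.2)
  right
  refine p3 (n + 1) F hF hsm M x c A B hxc hG hodd hpn hA0 hB0 hline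
    (by
      intro h2
      by_contra h3
      apply hy
      refine ⟨h2, ?_⟩
      rw [← Nat.not_even_iff_odd, even_iff_two_dvd]
      exact h3)


/-- **No odd families of conics.** -/
theorem conics_gen1 {n : ℕ} {F : MvPolynomial (Fin (n + 2)) ℂ} (hF : F.IsHomogeneous 3)
    (hsm : Sm F) {M : Type} [Field M] [Algebra ℂ M] (L : IntermediateField ℂ M) (t : M)
    (ht : Transcendental L t) (α β γ : Fin (n + 2) → M) (hα : ∀ i, α i ∈ L)
    (hβ : ∀ i, β i ∈ L) (hγ : ∀ i, γ i ∈ L)
    (hxα' : α ≠ 0 → LinearIndependent M ![fun i => t ^ 2 * α i + t * β i + γ i, α])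
    (hG : Gp F (fun i => t ^ 2 * α i + t * β i + γ i))
    (hch : Odd (finrank (ratioField fun i => t ^ 2 * α i + t * β i + γ i) M) → α ≠ 0 →
      aeval α F = 0 → ∀ s t' : M, s ≠ 0 →
      aeval (fun i => s * (t ^ 2 * α i + t * β i + γ i) + t' * α i) F = 0 →
      Gp F (fun i => s * (t ^ 2 * α i + t * β i + γ i) + t' * α i) ∧
      Odd (finrank (ratioField fun i => s * (t ^ 2 * α i + t * β i + γ i) + t' * α i) M)) :
    Even (finrank (ratioField fun i => t ^ 2 * α i + t * β i + γ i) M) := by
  classical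
  rw [← Nat.not_odd_iff_even]
  intro hodd
  set x : Fin (n + 2) → M := fun i => t ^ 2 * α i + t * β i + γ i with hx
  have hodd2 : ¬ 2 ∣ finrank (ratioField x) M := fun h =>
    (Nat.not_even_iff_odd.2 hodd) (even_iff_two_dvd.2 h)
  have hF0 : F ≠ 0 := ne_zero_of_smooth (m := n + 1) hsm
  have hirr : Irreducible F := Pool.Agent.Y201.LI.irreducible_of_generic hF hF0 x hG.1 hG.2
  have hT1 := Pool.Agent.Y201.LI.hT1 (n + 2) 3 F hF (by norm_num) hirr hsm M L t ht
  have hane : α ≠ 0 := by
    intro h0
    have h1 : x = fun i => t * β i + γ i := by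
      funext i
      rw [hx]
      simp only
      rw [h0, Pi.zero_apply, mul_zero, zero_add]
    have h2 := hG
    rw [h1] at h2 hodd2
    exact hodd2 (hT1 β γ hβ hγ h2.1 h2.2)
  obtain ⟨l1, l2, l3, k1, k2, k3, hline⟩ := conic_shape hF L t ht α β γ hα hβ hγ hG.1
  have hev : ∀ τ : M, aeval (fun j => x j + τ * α j) F =
      -(l1 * t ^ 2 + l2 * t + l3) * τ + -l1 * τ ^ 2 := by
    intro τ
    have h1 := congrArg (Polynomial.eval τ) hline
    rw [Polynomial.eval_add, Polynomial.eval_mul, Polynomial.eval_mul, Polynomial.eval_pow,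
      Polynomial.eval_C, Polynomial.eval_C, Polynomial.eval_X] at h1
    rw [← h1]
    have h3 := comp_aeval_apply (f := fun j => Polynomial.C (t ^ 2 * α j + t * β j + γ j) +
        Polynomial.X * Polynomial.C (α j)) ((Polynomial.aeval (R := M) τ).restrictScalars ℂ) F
    have h4 : ((Polynomial.aeval (R := M) τ).restrictScalars ℂ) (aeval (fun j =>
        Polynomial.C (t ^ 2 * α j + t * β j + γ j) + Polynomial.X * Polynomial.C (α j)) F) =
        Polynomial.eval τ (aeval (fun j => Polynomial.C (t ^ 2 * α j + t * β j + γ j) +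
          Polynomial.X * Polynomial.C (α j)) F) := by
      rw [AlgHom.restrictScalars_apply, Polynomial.coe_aeval_eq_eval]
    rw [← h4, h3]
    congr 2
    funext j
    rw [AlgHom.restrictScalars_apply, Polynomial.coe_aeval_eq_eval]
    rw [Polynomial.eval_add, Polynomial.eval_mul, Polynomial.eval_C, Polynomial.eval_C,
      Polynomial.eval_X]
  have hxα := hxα' hane
  have tan : S_TAN := tan_of div (nt Pool.Agent.Y201.LI.hT1) fi fd
  have hl1 : l1 ≠ 0 := by
    intro h0
    have h1 : Polynomial.C (-l1) * Polynomial.X ^ 2 = 0 := by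
      rw [h0, neg_zero, Polynomial.C_0, zero_mul]
    rw [h1, add_zero] at hline
    exact hodd2 (tan (n + 1) 3 F hF (by norm_num) hsm M x α _ hxα hG.1 hG.2 hline)
  -- the point `α` lies on the hypersurface
  have hαF : aeval α F = 0 := by
    obtain ⟨T, hT, hFT⟩ := exists_tri F hF
    have hT' : ∀ {R : Type} [CommRing R] [Algebra ℂ R] (v : Fin (n + 2) → R),
        aeval v F = Bg T v v v := by
      intro R _ _ v
      conv_lhs => rw [hFT]
      exact aeval_frmG T v
    have h1 : ∀ τ : M, aeval (fun j => x j + τ * α j) F =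
        3 * Bg T x x α * τ + 3 * Bg T x α α * τ ^ 2 + Bg T α α α * τ ^ 3 := by
      intro τ
      have h2 := Bg_span3 hT x α α 1 τ 0
      have h3 : (fun i => 1 * x i + τ * α i + 0 * α i) = fun i => x i + τ * α i := by
        funext i
        ring
      rw [h3, ← hT', ← hT' x, hG.1] at h2
      linear_combination h2
    have e1 := (h1 1).symm.trans (hev 1)
    have e2 := (h1 (-1)).symm.trans (hev (-1))
    have e3 := (h1 2).symm.trans (hev 2)
    rw [hT']
    have h6 : (6 : M) * Bg T α α α = 0 := by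
      linear_combination e3 - 3 * e1 - e2
    have h60 : (6 : M) ≠ 0 := by
      have := Algebra.algebraMap_eq_smul_one (R := ℂ) (A := M) 6
      have h7 : algebraMap ℂ M 6 ≠ 0 := by
        rw [Ne, map_eq_zero]
        norm_num
      rwa [map_ofNat] at h7
    exact (mul_eq_zero.1 h6).resolve_left h60
  have hs : -l1 ≠ 0 := neg_ne_zero.2 hl1
  have h1 := hch hodd hane hαF (-l1) (l1 * t ^ 2 + l2 * t + l3) hs (by
    have h2 : (fun j => -l1 * x j + (l1 * t ^ 2 + l2 * t + l3) * α j) =
        fun j => -l1 * (x j + (l1 * t ^ 2 + l2 * t + l3) / -l1 * α j) := by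
      funext j
      have h3 := div_mul_cancel₀ (l1 * t ^ 2 + l2 * t + l3) hs
      linear_combination -α j * h3
    rw [h2, aeval_smul_form hF, hev]
    have h3 := div_mul_cancel₀ (l1 * t ^ 2 + l2 * t + l3) hs
    generalize (l1 * t ^ 2 + l2 * t + l3) / -l1 = τ at h3
    rw [← h3]
    ring)
  have h2 : (fun j => -l1 * x j + (l1 * t ^ 2 + l2 * t + l3) * α j) =
      fun j => t * (-l1 * β j + l2 * α j) + (-l1 * γ j + l3 * α j) := by
    funext j
    rw [hx]
    ring
  rw [h2] at h1
  have h3 := hT1 _ _ (fun j => add_mem (mul_mem (neg_mem k1) (hβ j)) (mul_mem k2 (hα j)))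
      (fun j => add_mem (mul_mem (neg_mem k1) (hγ j)) (mul_mem k3 (hα j))) h1.1.1 h1.1.2
  exact (Nat.not_even_iff_odd.2 h1.2) (even_iff_two_dvd.2 h3)



/-- a generic point does not lie on a curve -/
theorem not_gp {n : ℕ} (hn : 2 ≤ n) {F : MvPolynomial (Fin (n + 2)) ℂ} (hF : F.IsHomogeneous 3)
    (hF0 : F ≠ 0) {M : Type} [Field M] [Algebra ℂ M] (c : Fin (n + 2) → M)
    (hc : ∀ a ∈ ratioField c, ∀ b ∈ ratioField c, ¬ AlgebraicIndependent ℂ ![a, b]) :
    ¬ Gp F c := by
  intro h
  obtain ⟨j, -, hAI⟩ := exists_indep' hF (by norm_num) hF0 h.2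
  have h1 := hAI.comp (![⟨0, by omega⟩, ⟨1, by omega⟩] : Fin 2 → Fin n) (by
    intro a b hab
    fin_cases a <;> fin_cases b <;> simp_all)
  have h2 : ∀ l : Fin n, c (j.succAbove l.succ) / c (j.succAbove 0) ∈ ratioField c :=
    fun l => subset_adjoin ℂ _ ⟨_, _, rfl⟩
  refine hc _ (h2 ⟨0, by omega⟩) _ (h2 ⟨1, by omega⟩) ?_
  convert h1 using 1
  funext i
  fin_cases i <;> rfl

/-- a generic point and a point of a curve are linearly independent -/
theorem indep1 {n : ℕ} (hn : 2 ≤ n) {F : MvPolynomial (Fin (n + 2)) ℂ} (hF : F.IsHomogeneous 3)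
    (hF0 : F ≠ 0) {M : Type} [Field M] [Algebra ℂ M] (x c : Fin (n + 2) → M) (hG : Gp F x)
    (hc0 : c ≠ 0)
    (hc : ∀ a ∈ ratioField c, ∀ b ∈ ratioField c, ¬ AlgebraicIndependent ℂ ![a, b]) :
    LinearIndependent M ![x, c] := by
  rw [LinearIndependent.pair_iff]
  intro u v huv
  have hu : u = 0 := by
    by_contra hu
    -- then `c` is generic
    have hv : v ≠ 0 := by
      intro hv
      have h1 : ∀ i, x i = 0 := by
        intro i
        have h2 := congrFun huv i
        simp only [Pi.add_apply, Pi.smul_apply, smul_eq_mul, Pi.zero_apply, hv, zero_mul,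
          add_zero] at h2
        exact (mul_eq_zero.1 h2).resolve_left hu
      exact coord_ne_zero hF (by norm_num) x hG.2 0 (h1 0)
    apply not_gp hn hF hF0 c hc
    have h1 : c = fun i => (-u / v) * x i := by
      funext i
      have h2 := congrFun huv i
      simp only [Pi.add_apply, Pi.smul_apply, smul_eq_mul, Pi.zero_apply] at h2
      field_simp
      linear_combination h2
    have hne : -u / v ≠ 0 := div_ne_zero (neg_ne_zero.2 hu) hv
    refine ⟨by rw [h1, aeval_smul_form hF, hG.1, mul_zero], fun e H hH h0 => ?_⟩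
    rw [h1, aeval_smul_form hH] at h0
    exact hG.2 e H hH ((mul_eq_zero.1 h0).resolve_left (pow_ne_zero _ hne))
  refine ⟨hu, ?_⟩
  by_contra hv
  apply hc0
  funext i
  have h2 := congrFun huv i
  simp only [Pi.add_apply, Pi.smul_apply, smul_eq_mul, Pi.zero_apply, hu, zero_mul,
    zero_add] at h2
  exact (mul_eq_zero.1 h2).resolve_left hv

/-- **Chords through the points of a curve preserve the parity of the degree.** -/
theorem chord1 {n : ℕ} (hn : 4 ≤ n) {F : MvPolynomial (Fin (n + 2)) ℂ} (hF : F.IsHomogeneous 3)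
    (hsm : Sm F) {M : Type} [Field M] [Algebra ℂ M] (x c : Fin (n + 2) → M)
    (hG : Gp F x) (hodd : Odd (finrank (ratioField x) M)) (hc0 : c ≠ 0)
    (hcF : aeval c F = 0)
    (hc : ∀ a ∈ ratioField c, ∀ b ∈ ratioField c, ¬ AlgebraicIndependent ℂ ![a, b])
    (s t : M) (hs : s ≠ 0) (hst : aeval (fun j => s * x j + t * c j) F = 0) :
    Gp F (fun j => s * x j + t * c j) ∧
      Odd (finrank (ratioField fun j => s * x j + t * c j) M) := by
  classical
  have hF0 : F ≠ 0 := ne_zero_of_smooth (m := n + 1) hsm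
  obtain ⟨j0, hj0⟩ : ∃ j, c j ≠ 0 := Function.ne_iff.1 hc0
  -- constant points
  by_cases hconst : ∃ b : Fin (n + 2) → ℂ, ∀ i, c i = algebraMap ℂ M (b i) * c j0
  · obtain ⟨b, hb⟩ := hconst
    refine chord hF hsm x c hG hodd hc0 hcF ?_ s t hs hst
    have h1 := size_span (r := 1) (fun _ => b) (fun _ : Fin 1 => c j0)
    have h2 : (fun i => ∑ l : Fin 1, (fun _ : Fin 1 => c j0) l *
        algebraMap ℂ M ((fun _ => b : Fin 1 → Fin (n + 2) → ℂ) l i)) = c := by
      funext i
      rw [Fin.sum_univ_one, hb i, mul_comm]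
    rw [h2] at h1
    omega
  rcases chord_gen1 hF hsm x c hG hodd (indep1 (by omega) hF hF0 x c hG hc0 hc) hcF
    (not_gp (by omega) hF hF0 c hc) s t hs hst with h | ⟨hzgen, hzodd⟩
  · exact h
  exfalso
  obtain ⟨T, hT, hFT⟩ := exists_tri F hF
  have hev : ∀ {R : Type} [CommRing R] [Algebra ℂ R] (v : Fin (n + 2) → R),
      aeval v F = Bg T v v v := by
    intro R _ _ v
    conv_lhs => rw [hFT]
    exact aeval_frmG T v
  -- the field of the curve
  let L := ratioField c
  have hL : ∀ a b : L, ¬ AlgebraicIndependent ℂ ![a, b] := by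
    intro a b h
    apply hc a a.2 b b.2
    have h1 := h.map' (f := L.val) (RingHom.injective _)
    convert h1 using 1
    funext i
    fin_cases i <;> rfl
  have hfg : Algebra.EssFiniteType ℂ L := by
    have h1 : L = IntermediateField.adjoin ℂ
      (Set.range fun l : Fin (n + 1) => c (j0.succAbove l) / c j0) := Fd.ratioField_eq c hj0
    rw [IntermediateField.essFiniteType_iff, h1]
    exact IntermediateField.fg_adjoin_of_finite (Set.finite_range _)
  set c1 : Fin (n + 2) → L := fun i => ⟨c i / c j0, subset_adjoin ℂ _ ⟨_, _, rfl⟩⟩ with hc1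
  have hc1j : c1 j0 = 1 := Subtype.ext (div_self hj0)
  have hc10 : c1 ≠ 0 := by
    intro h
    have h1 := congrFun h j0
    rw [hc1j] at h1
    exact one_ne_zero h1
  have hBL : ∀ x y w : Fin (n + 2) → L, Bg T (fun i => (x i : M)) (fun i => (y i : M))
      (fun i => (w i : M)) = ((Bg T x y w : L) : M) := fun x y w => (map_Bg L.val T x y w).symm
  have hc1F : Bg T c1 c1 c1 = 0 := by
    apply Subtype.ext
    rw [← hBL]
    have h1 : (fun i => (c1 i : M)) = fun i => (1 / c j0) * c i := by
      funext i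
      simp only [hc1]
      ring
    rw [h1, Bg_smul1, Bg_smul2, Bg_smul3, ← hev, hcF]
    simp
  -- a transcendental element
  obtain ⟨i1, hi1⟩ : ∃ i, ¬ ∃ b : ℂ, c i = algebraMap ℂ M b * c j0 := by
    by_contra hcon
    push Not at hcon
    choose b hb using hcon
    exact hconst ⟨b, hb⟩
  have htr : Transcendental ℂ (c1 i1) := by
    intro h
    obtain ⟨b, hb⟩ := range_of_alg _ h
    apply hi1
    refine ⟨b, ?_⟩
    have h1 := congrArg (Subtype.val : L → M) hb
    have h2 : (algebraMap ℂ L b : M) = algebraMap ℂ M b := rfl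
    rw [h2] at h1
    rw [h1]
    exact (div_mul_cancel₀ _ hj0).symm
  rcases flx2 hF hsm hT hFT (by omega) (tsenL hL hfg (c1 i1) htr) c1 hc10 hc1F with
    ⟨v, hv1, hv2, hv3⟩ | ⟨γ, k, hk, hγ⟩
  swap
  · obtain ⟨b, hb⟩ := const_pt hF hsm hT hFT hL hfg c1 k hk γ hγ i1 j0 (by
      rw [hc1j]
      exact one_ne_zero)
    rw [hc1j, mul_one] at hb
    exact htr (by rw [hb]; exact isAlgebraic_algebraMap b)
  -- the degeneration
  set q : L := Bg T v v v with hq
  set v2 : Fin (n + 2) → L := fun i => q * v i with hv2d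
  let E := FractionRing (Polynomial M)
  let f : M →ₐ[ℂ] E := (IsScalarTower.toAlgHom ℂ (Polynomial M) E).comp
    (IsScalarTower.toAlgHom ℂ M (Polynomial M))
  have hf : ∀ a, f a = algebraMap (Polynomial M) E (Polynomial.C a) := fun _ => rfl
  let g : L →ₐ[ℂ] E := f.comp L.val
  have hBg : ∀ x y w : Fin (n + 2) → L, Bg T (fun i => g (x i)) (fun i => g (y i))
      (fun i => g (w i)) = g (Bg T x y w) := fun x y w => (map_Bg g T x y w).symm
  have hginj : Function.Injective g := RingHom.injective _
  refine curve_main hn hF hsm hT hFT _ hzgen hzodd g.fieldRange ?_ (fun i => g (c1 i))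
    (fun i => g (v2 i)) (fun i => ⟨_, rfl⟩) (fun i => ⟨_, rfl⟩) ?_ ?_ ?_ ?_ (g (q ^ 2)) ?_ ?_
    (-(algebraMap (Polynomial M) E Polynomial.X * f (c j0))) ?_
  · rintro _ ⟨a, rfl⟩ _ ⟨b, rfl⟩ h
    apply hL a b
    have h1 : (![g a, g b] : Fin 2 → E) = g ∘ ![a, b] := by
      funext i
      fin_cases i <;> rfl
    have h2 : AlgebraicIndependent ℂ (g ∘ ![a, b]) := by
      rw [← h1]
      exact h
    exact h2.of_comp g
  · intro h
    have h1 := congrFun h j0
    simp only [hc1j, map_one, Pi.zero_apply] at h1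
    exact one_ne_zero h1
  · rw [hBg, hc1F, map_zero]
  · rw [hBg, hv2d, Bg_smul3, hv1, mul_zero, map_zero]
  · rw [hBg, hv2d, Bg_smul3, Bg_smul2, hv2, mul_zero, mul_zero, map_zero]
  · intro h
    rw [map_eq_zero] at h
    exact hv3 (pow_eq_zero_iff (two_ne_zero) |>.1 h)
  · rw [hBg, hv2d, Bg_smul3, Bg_smul2, Bg_smul1, ← map_pow, ← hq]
    congr 1
    ring
  · have h1 : (fun i => algebraMap (Polynomial M) E (Polynomial.C (x i) +
        Polynomial.X * Polynomial.C (c i)) + -(algebraMap (Polynomial M) E Polynomial.X *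
        f (c j0)) * g (c1 i)) = fun i => f (x i) := by
      funext i
      have h2 : f (c j0) * g (c1 i) = f (c i) := by
        have h3 : g (c1 i) = f (c i / c j0) := rfl
        rw [h3, ← map_mul, mul_div_cancel₀ _ hj0]
      rw [map_add, map_mul, ← hf, ← hf]
      linear_combination -(algebraMap (Polynomial M) E Polynomial.X) * h2
    rw [h1, ← map_Bg, ← hev, hG.1, map_zero]

/-- **No odd families of conics through a curve.** -/
theorem conics1 {n : ℕ} (hn : 4 ≤ n) {F : MvPolynomial (Fin (n + 2)) ℂ} (hF : F.IsHomogeneous 3)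
    (hsm : Sm F) {M : Type} [Field M] [Algebra ℂ M] (L : IntermediateField ℂ M) (t : M)
    (ht : Transcendental L t) (α β γ : Fin (n + 2) → M) (hα : ∀ i, α i ∈ L)
    (hβ : ∀ i, β i ∈ L) (hγ : ∀ i, γ i ∈ L)
    (hc : ∀ a ∈ ratioField α, ∀ b ∈ ratioField α, ¬ AlgebraicIndependent ℂ ![a, b])
    (hG : Gp F (fun i => t ^ 2 * α i + t * β i + γ i)) :
    Even (finrank (ratioField fun i => t ^ 2 * α i + t * β i + γ i) M) := by
  have hF0 : F ≠ 0 := ne_zero_of_smooth (m := n + 1) hsm
  exact conics_gen1 hF hsm L t ht α β γ hα hβ hγ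
    (fun h => indep1 (by omega) hF hF0 _ α hG h hc) hG
    (fun hodd h0 hF' s t' hs hst => chord1 hn hF hsm _ α hG hodd h0 hF' hc s t' hs hst)

end

end Pool.Agent.N122
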