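import Mathlib
import Pool.Agent.N122.Par1
import Pool.Agent.N122.Ind

/-! # Chords through the points of a subvariety of small dimension -/

set_option autoImplicit false

namespace Pool.Agent.N122

open MvPolynomial Pool.Agent.TH314.PD Module FF Pool.Agent.Y201.C3 IntermediateField
open Pool.Agent.R845.T2 Pool.Agent.R845.E3

noncomputable section

/-- a generic point does not lie on a small subvariety -/
theorem not_gpm {n m : ℕ} (hn : m + 1 ≤ n) {F : MvPolynomial (Fin (n + 2)) ℂ}
    (hF : F.IsHomogeneous 3) (hF0 : F ≠ 0) {M : Type} [Field M] [Algebra ℂ M]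
    (c : Fin (n + 2) → M)
    (hc : ∀ y : Fin (m + 1) → M, (∀ i, y i ∈ ratioField c) → ¬ AlgebraicIndependent ℂ y) :
    ¬ Gp F c := by
  intro h
  obtain ⟨j, -, hAI⟩ := exists_indep' hF (by norm_num) hF0 h.2
  have h1 := hAI.comp (Fin.castLE hn) (Fin.castLE_injective hn)
  exact hc _ (fun l => subset_adjoin ℂ _ ⟨_, _, rfl⟩) h1

/-- a generic point and a point of a small subvariety are linearly independent -/
theorem indepm {n m : ℕ} (hn : m + 1 ≤ n) {F : MvPolynomial (Fin (n + 2)) ℂ}
    (hF : F.IsHomogeneous 3) (hF0 : F ≠ 0) {M : Type} [Field M] [Algebra ℂ M]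
    (x c : Fin (n + 2) → M) (hG : Gp F x) (hc0 : c ≠ 0)
    (hc : ∀ y : Fin (m + 1) → M, (∀ i, y i ∈ ratioField c) → ¬ AlgebraicIndependent ℂ y) :
    LinearIndependent M ![x, c] := by
  rw [LinearIndependent.pair_iff]
  intro u v huv
  have hu : u = 0 := by
    by_contra hu
    -- then `c` is generic
    have hv : v ≠ 0 := by
      intro hv
      have h1 : ∀ i, x i = 0 := by
        intro i
        have h2 := congrFun huv i
        simp only [Pi.add_apply, Pi.smul_apply, smul_eq_mul, Pi.zero_apply, hv, zero_mul,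
          add_zero] at h2
        exact (mul_eq_zero.1 h2).resolve_left hu
      exact coord_ne_zero hF (by norm_num) x hG.2 0 (h1 0)
    apply not_gpm hn hF hF0 c hc
    have h1 : c = fun i => (-u / v) * x i := by
      funext i
      have h2 := congrFun huv i
      simp only [Pi.add_apply, Pi.smul_apply, smul_eq_mul, Pi.zero_apply] at h2
      field_simp
      linear_combination h2
    have hne : -u / v ≠ 0 := div_ne_zero (neg_ne_zero.2 hu) hv
    refine ⟨by rw [h1, aeval_smul_form hF, hG.1, mul_zero], fun e H hH h0 => ?_⟩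
    rw [h1, aeval_smul_form hH] at h0
    exact hG.2 e H hH ((mul_eq_zero.1 h0).resolve_left (pow_ne_zero _ hne))
  refine ⟨hu, ?_⟩
  by_contra hv
  apply hc0
  funext i
  have h2 := congrFun huv i
  simp only [Pi.add_apply, Pi.smul_apply, smul_eq_mul, Pi.zero_apply, hu, zero_mul,
    zero_add] at h2
  exact (mul_eq_zero.1 h2).resolve_left hv

/-- the bound for the dimension -/
def dimBound : ℕ → ℕ
  | 0 => 1
  | 1 => 4
  | 2 => 8
  | 3 => 14
  | 4 => 20
  | m + 5 => 2 ^ (m + 5) + 4

theorem dimBound_lt {n m : ℕ} (h : dimBound m ≤ n) : m + 1 ≤ n := by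
  match m, h with
  | 0, h => exact h
  | 1, h => exact le_trans (by decide) h
  | 2, h => exact le_trans (by decide) h
  | 3, h => exact le_trans (by decide) h
  | 4, h => exact le_trans (by decide) h
  | m + 5, h =>
    have h1 : m + 5 < 2 ^ (m + 5) := Nat.lt_two_pow_self
    have h2 : 2 ^ (m + 5) + 4 ≤ n := h
    omega

theorem pow_bound (j : ℕ) : (j + 4 + 1) * (j + 4 + 4) + 4 * (j + 4 + 1) < 4 * 2 ^ (j + 4) + 12 := by
  induction j with
  | zero => norm_num
  | succ j ih =>
    have h1 : 2 ^ (j + 1 + 4) = 2 * 2 ^ (j + 4) := by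
      rw [show j + 1 + 4 = (j + 4) + 1 by ring, pow_succ]
      ring
    rw [h1]
    nlinarith

theorem pow_bound2 (j k : ℕ) : (j + 4 + 1) * (j + 4 + 4) + 2 * (2 ^ (k + 1) * (j + 4 + 1)) <
    2 * (2 ^ (j + 4) * 2 ^ (k + 1)) + 12 := by
  have h4 := pow_bound j
  have h5 : j + 4 + 1 ≤ 2 ^ (j + 4) := Nat.lt_two_pow_self
  have h6 : 2 ^ (k + 1) = 2 * 2 ^ k := by ring
  have h7 : 1 ≤ 2 ^ k := Nat.one_le_two_pow
  rw [h6]
  generalize 2 ^ k = b at *
  generalize 2 ^ (j + 4) = a at *
  obtain ⟨b, rfl⟩ := Nat.exists_eq_add_of_le h7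
  obtain ⟨a, rfl⟩ := Nat.exists_eq_add_of_le h5
  nlinarith [Nat.zero_le (a * b)]

theorem dimBound_gd {n m : ℕ} (h : dimBound m ≤ n) : Gd (n + 2) m 1 := by
  match m, h with
  | 0, h =>
    have h' : 1 ≤ n := h
    simp only [Gd, Cnd, Cnq]
    omega
  | 1, h =>
    have h' : 4 ≤ n := h
    simp only [Gd, Cnd, Cnq]
    omega
  | 2, h =>
    have h' : 8 ≤ n := h
    simp only [Gd, Cnd, Cnq]
    omega
  | 3, h =>
    have h' : 14 ≤ n := h
    simp only [Gd, Cnd, Cnq]
    omega
  | 4, h =>
    have h' : 20 ≤ n := h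
    simp only [Gd, Cnd, Cnq]
    omega
  | m + 5, h =>
    have h' : 2 ^ (m + 5) + 4 ≤ n := h
    refine gd_of (m + 5) 1 (fun j hj => ?_) ?_
    · obtain ⟨k, hk⟩ : ∃ k, m + 5 = j + (k + 1) := ⟨m + 5 - j - 1, by omega⟩
      have h1 : m + 5 - j = k + 1 := by omega
      rw [h1]
      rw [hk] at h'
      have h2 : 2 ^ (j + (k + 1)) = 2 ^ j * 2 ^ (k + 1) := pow_add 2 j (k + 1)
      rw [h2] at h'
      rcases j with _ | _ | _ | _ | j
      · norm_num
        have h3 : 2 ^ 0 * 2 ^ (k + 1) = 2 ^ (k + 1) := by ring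
        omega
      · norm_num
        have h3 : 2 ^ (0 + 1) * 2 ^ (k + 1) = 2 * 2 ^ (k + 1) := by ring
        omega
      · have h4 : 2 ^ 2 ≤ 2 ^ k := Nat.pow_le_pow_right (by norm_num) (by omega)
        have h3 : 2 ^ (0 + 1 + 1) * 2 ^ (k + 1) = 4 * 2 ^ (k + 1) := by ring
        have h5 : 2 ^ (k + 1) = 2 * 2 ^ k := by ring
        norm_num at *
        omega
      · have h4 : 2 ^ 1 ≤ 2 ^ k := Nat.pow_le_pow_right (by norm_num) (by omega)
        have h3 : 2 ^ (0 + 1 + 1 + 1) * 2 ^ (k + 1) = 8 * 2 ^ (k + 1) := by ring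
        have h5 : 2 ^ (k + 1) = 2 * 2 ^ k := by ring
        norm_num at *
        omega
      · have h3 : j + 1 + 1 + 1 + 1 = j + 4 := by ring
        rw [h3] at *
        have h4 := pow_bound2 j k
        have h5 : 1 + (j + 4) = j + 4 + 1 := by ring
        have h6 : j + 4 + 1 + 3 = j + 4 + 4 := by ring
        rw [h5, h6]
        omega
    · have h1 := pow_bound m
      have h2 : 2 ^ (m + 5) = 2 * 2 ^ (m + 4) := by ring
      rw [h2] at h'
      nlinarith

/-- **Chords through the points of a small subvariety preserve the parity of the degree.** -/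
theorem chordm {n m : ℕ} (hn : m + 1 ≤ n) (hgd : Gd (n + 2) m 1) {F : MvPolynomial (Fin (n + 2)) ℂ}
    (hF : F.IsHomogeneous 3) (hsm : Sm F) {M : Type} [Field M] [Algebra ℂ M]
    (x c : Fin (n + 2) → M) (hG : Gp F x) (hodd : Odd (finrank (ratioField x) M)) (hc0 : c ≠ 0)
    (hcF : aeval c F = 0)
    (hc : ∀ y : Fin (m + 1) → M, (∀ i, y i ∈ ratioField c) → ¬ AlgebraicIndependent ℂ y)
    (s t : M) (hs : s ≠ 0) (hst : aeval (fun j => s * x j + t * c j) F = 0) :
    Gp F (fun j => s * x j + t * c j) ∧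
      Odd (finrank (ratioField fun j => s * x j + t * c j) M) := by
  classical
  have hF0 : F ≠ 0 := ne_zero_of_smooth (m := n + 1) hsm
  obtain ⟨j0, hj0⟩ : ∃ j, c j ≠ 0 := Function.ne_iff.1 hc0
  rcases chord_gen1 hF hsm x c hG hodd (indepm hn hF hF0 x c hG hc0 hc) hcF
    (not_gpm hn hF hF0 c hc) s t hs hst with h | ⟨hzgen, hzodd⟩
  · exact h
  exfalso
  obtain ⟨T, hT, hFT⟩ := exists_tri F hF
  have hev : ∀ {R : Type} [CommRing R] [Algebra ℂ R] (v : Fin (n + 2) → R),
      aeval v F = Bg T v v v := by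
    intro R _ _ v
    conv_lhs => rw [hFT]
    exact aeval_frmG T v
  let E := FractionRing (Polynomial M)
  let f : M →ₐ[ℂ] E := (IsScalarTower.toAlgHom ℂ (Polynomial M) E).comp
    (IsScalarTower.toAlgHom ℂ M (Polynomial M))
  have hf : ∀ a, f a = algebraMap (Polynomial M) E (Polynomial.C a) := fun _ => rfl
  let l : Fin 1 → Fin (n + 2) → E := fun _ a => f (c a / c j0)
  have hl : ∀ i a, f (c j0) * l i a = f (c a) := by
    intro i a
    simp only [l]
    rw [← map_mul, mul_div_cancel₀ _ hj0]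
  have hfc : f (c j0) ≠ 0 := by
    intro h
    exact hj0 ((map_eq_zero f).1 h)
  refine ss hF hsm hT hFT m 1 hgd E _ hzgen hzodd ((ratioField c).map f) ?_ l ?_ ?_ ?_
    (fun _ => -(algebraMap (Polynomial M) E Polynomial.X * f (c j0))) ?_
  · intro y hy hAI
    choose a ha hay using hy
    apply hc a ha
    have h1 : y = f ∘ a := (funext hay).symm
    rw [h1] at hAI
    exact hAI.of_comp f
  · intro i a
    exact ⟨c a / c j0, subset_adjoin ℂ _ ⟨_, _, rfl⟩, rfl⟩
  · rw [Fintype.linearIndependent_iff]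
    intro g hg i
    have h1 := congrFun hg j0
    simp only [Finset.univ_unique, Finset.sum_singleton, Pi.smul_apply, smul_eq_mul,
      Pi.zero_apply, l, div_self hj0, map_one, mul_one] at h1
    rw [Subsingleton.elim i default]
    exact h1
  · intro i j k
    have h1 : Bg T (fun a => f (c a)) (fun a => f (c a)) (fun a => f (c a)) = 0 := by
      rw [← map_Bg, ← hev, hcF, map_zero]
    have h2 : (fun a => f (c a)) = fun a => f (c j0) * l i a := funext fun a => (hl i a).symm
    have h3 : l j = l i := rfl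
    have h4 : l k = l i := rfl
    rw [h2, Bg_smul1, Bg_smul2, Bg_smul3] at h1
    rw [h3, h4]
    rcases mul_eq_zero.1 h1 with h | h
    · exact absurd h hfc
    rcases mul_eq_zero.1 h with h | h
    · exact absurd h hfc
    rcases mul_eq_zero.1 h with h | h
    · exact absurd h hfc
    exact h
  · have h1 : (fun a => algebraMap (Polynomial M) E (Polynomial.C (x a) +
        Polynomial.X * Polynomial.C (c a)) + lam l (fun _ => -(algebraMap (Polynomial M) E
        Polynomial.X * f (c j0))) a) = fun a => f (x a) := by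
      funext a
      have h2 := hl 0 a
      simp only [lam, Finset.univ_unique, Finset.sum_singleton]
      rw [map_add, map_mul, ← hf, ← hf]
      have h3 : l default a = l 0 a := rfl
      rw [h3]
      linear_combination -(algebraMap (Polynomial M) E Polynomial.X) * h2
    rw [h1, ← map_Bg, ← hev, hG.1, map_zero]

/-- **No odd families of conics through a small subvariety.** -/
theorem conicsm {n m : ℕ} (hn : m + 1 ≤ n) (hgd : Gd (n + 2) m 1) {F : MvPolynomial (Fin (n + 2)) ℂ}
    (hF : F.IsHomogeneous 3) (hsm : Sm F) {M : Type} [Field M] [Algebra ℂ M]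
    (L : IntermediateField ℂ M) (t : M)
    (ht : Transcendental L t) (α β γ : Fin (n + 2) → M) (hα : ∀ i, α i ∈ L)
    (hβ : ∀ i, β i ∈ L) (hγ : ∀ i, γ i ∈ L)
    (hc : ∀ y : Fin (m + 1) → M, (∀ i, y i ∈ ratioField α) → ¬ AlgebraicIndependent ℂ y)
    (hG : Gp F (fun i => t ^ 2 * α i + t * β i + γ i)) :
    Even (finrank (ratioField fun i => t ^ 2 * α i + t * β i + γ i) M) := by
  have hF0 : F ≠ 0 := ne_zero_of_smooth (m := n + 1) hsm
  exact conics_gen1 hF hsm L t ht α β γ hα hβ hγ
    (fun h => indepm hn hF hF0 _ α hG h hc) hG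
    (fun hodd h0 hF' s t' hs hst => chordm hn hgd hF hsm _ α hG hodd h0 hF' hc s t' hs hst)

end

end Pool.Agent.N122
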