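import Mathlib
import Pool.Agent.N122.Plb
import Pool.Agent.Y201.C3.Core

/-! # Families of plane cubic curves with a rational parametrization do not cover a smooth cubic
hypersurface an odd number of times -/

set_option autoImplicit false

namespace Pool.Agent.N122.Tw

open MvPolynomial Pool.Agent.TH314.PD IntermediateField Module
open Pool.Agent.Y201.C3 Pool.Agent.R845.T2 Pool.Agent.N122.Cong Pool.Agent.N122.Pla

noncomputable section

section alg

variable {σ : Type} [Fintype σ] [DecidableEq σ] {R : Type} [CommRing R] [Algebra ℂ R]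

/-- the cubic form at a combination of two vectors -/
theorem expq {T : σ → σ → σ → ℂ} (hT : SymG T) (q r : R) (e p : σ → R) :
    Bg T (fun i => q * e i + r * p i) (fun i => q * e i + r * p i) (fun i => q * e i + r * p i) =
      q ^ 3 * Bg T e e e + 3 * q ^ 2 * r * Bg T e e p + 3 * q * r ^ 2 * Bg T e p p +
        r ^ 3 * Bg T p p p := by
  simp only [Bg_add1, Bg_add2, Bg_add3, Bg_smul1, Bg_smul2, Bg_smul3]
  rw [Bg_swap12 hT p e e, Bg_swap23 hT e p e, Bg_swap12 hT p e p, swap13 hT p p e]
  ring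

end alg

section poly

variable {n : ℕ} {L : Type} [Field L] [Algebra ℂ L]

/-- the trilinear form at constant vectors -/
theorem Bg_C {T : Fin n → Fin n → Fin n → ℂ} (x y z : Fin n → L) :
    Bg T (fun i => Polynomial.C (x i)) (fun i => Polynomial.C (y i)) (fun i => Polynomial.C (z i)) =
      Polynomial.C (Bg T x y z) := by
  have h := map_Bg (IsScalarTower.toAlgHom ℂ L (Polynomial L)) T x y z
  exact h.symm

/-- `B(u + X w, p, p)` -/
theorem Bg_lin {T : Fin n → Fin n → Fin n → ℂ} (u w p : Fin n → L) :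
    Bg T (fun i => Polynomial.C (u i) + Polynomial.X * Polynomial.C (w i))
      (fun i => Polynomial.C (p i)) (fun i => Polynomial.C (p i)) =
      Polynomial.C (Bg T u p p) + Polynomial.X * Polynomial.C (Bg T w p p) := by
  rw [Bg_add1, Bg_smul1, Bg_C, Bg_C]

/-- a double point from a quadratic factor -/
theorem double2 {T : Fin n → Fin n → Fin n → ℂ} (hT : SymG T) (Q R : Polynomial L)
    (hQR : IsCoprime Q R) (hQ : Q.natDegree = 2) (u w p : Fin n → L)
    (h : Bg T (fun i => Q * (Polynomial.C (u i) + Polynomial.X * Polynomial.C (w i)) +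
        R * Polynomial.C (p i))
      (fun i => Q * (Polynomial.C (u i) + Polynomial.X * Polynomial.C (w i)) +
        R * Polynomial.C (p i))
      (fun i => Q * (Polynomial.C (u i) + Polynomial.X * Polynomial.C (w i)) +
        R * Polynomial.C (p i)) = 0) :
    Bg T p p p = 0 ∧ Bg T u p p = 0 ∧ Bg T w p p = 0 := by
  have hQ0 : Q ≠ 0 := by
    rintro rfl
    rw [Polynomial.natDegree_zero] at hQ
    omega
  have hdeg : ∀ c : Polynomial L, Q ∣ c → c.natDegree < 2 → c = 0 := by
    intro c hc hd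
    by_contra h0
    have := Polynomial.natDegree_le_of_dvd hc h0
    omega
  rw [expq hT, Bg_C, Bg_lin] at h
  set E3 := Bg T (fun i => Polynomial.C (u i) + Polynomial.X * Polynomial.C (w i))
    (fun i => Polynomial.C (u i) + Polynomial.X * Polynomial.C (w i))
    (fun i => Polynomial.C (u i) + Polynomial.X * Polynomial.C (w i))
  set E2 := Bg T (fun i => Polynomial.C (u i) + Polynomial.X * Polynomial.C (w i))
    (fun i => Polynomial.C (u i) + Polynomial.X * Polynomial.C (w i))
    (fun i => Polynomial.C (p i))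
  have h1 : Polynomial.C (Bg T p p p) = 0 := by
    refine hdeg _ ?_ (by rw [Polynomial.natDegree_C]; norm_num)
    refine (hQR.pow_right (n := 3)).dvd_of_dvd_mul_left ?_
    refine ⟨-(Q ^ 2 * E3 + 3 * Q * R * E2 + 3 * R ^ 2 * (Polynomial.C (Bg T u p p) +
      Polynomial.X * Polynomial.C (Bg T w p p))), ?_⟩
    linear_combination h
  rw [h1, mul_zero, add_zero] at h
  have h2 : Q * (Q ^ 2 * E3 + 3 * Q * R * E2 + 3 * R ^ 2 * (Polynomial.C (Bg T u p p) +
      Polynomial.X * Polynomial.C (Bg T w p p))) = 0 := by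
    linear_combination h
  have h3 := (mul_eq_zero.1 h2).resolve_left hQ0
  have h4 : Polynomial.C (Bg T u p p) + Polynomial.X * Polynomial.C (Bg T w p p) = 0 := by
    refine hdeg _ ?_ ?_
    · refine (hQR.pow_right (n := 2)).dvd_of_dvd_mul_left ?_
      refine ⟨-(Polynomial.C (3⁻¹ : L) * (Q * E3 + 3 * R * E2)), ?_⟩
      have h5 : (Polynomial.C (3⁻¹ : L)) * 3 = 1 := by
        have h6 : (3 : Polynomial L) = Polynomial.C (3 : L) := (map_ofNat Polynomial.C 3).symm
        have h7 : (3 : L) ≠ 0 := by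
          have : CharZero L := charZero_of_injective_algebraMap (algebraMap ℂ L).injective
          norm_num
        rw [h6, ← Polynomial.C_mul, inv_mul_cancel₀ h7, Polynomial.C_1]
      linear_combination Polynomial.C (3⁻¹ : L) * h3 - (R ^ 2 * (Polynomial.C (Bg T u p p) +
        Polynomial.X * Polynomial.C (Bg T w p p))) * h5
    · refine lt_of_le_of_lt (Polynomial.natDegree_add_le _ _) (max_lt ?_ ?_)
      · rw [Polynomial.natDegree_C]
        norm_num
      · refine lt_of_le_of_lt (Polynomial.natDegree_mul_le) ?_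
        rw [Polynomial.natDegree_C, add_zero]
        exact lt_of_le_of_lt Polynomial.natDegree_X_le (by norm_num)
  refine ⟨by simpa using h1, ?_, ?_⟩
  · have := congrArg (fun q => Polynomial.coeff q 0) h4
    simpa using this
  · have := congrArg (fun q => Polynomial.coeff q 1) h4
    simpa [Polynomial.coeff_C] using this

/-- a double point with the parameters `0` and `∞` -/
theorem double1 {T : Fin n → Fin n → Fin n → ℂ} (hT : SymG T) (c : L) (hc : c ≠ 0)
    (u w p : Fin n → L)
    (h : Bg T (fun i => Polynomial.X * (Polynomial.C (u i) + Polynomial.X * Polynomial.C (w i)) +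
        (Polynomial.X ^ 3 + Polynomial.C c) * Polynomial.C (p i))
      (fun i => Polynomial.X * (Polynomial.C (u i) + Polynomial.X * Polynomial.C (w i)) +
        (Polynomial.X ^ 3 + Polynomial.C c) * Polynomial.C (p i))
      (fun i => Polynomial.X * (Polynomial.C (u i) + Polynomial.X * Polynomial.C (w i)) +
        (Polynomial.X ^ 3 + Polynomial.C c) * Polynomial.C (p i)) = 0) :
    Bg T p p p = 0 ∧ Bg T u p p = 0 ∧ Bg T w p p = 0 := by
  have h3ne : (3 : L) ≠ 0 := by
    have : CharZero L := charZero_of_injective_algebraMap (algebraMap ℂ L).injective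
    norm_num
  rw [expq hT, Bg_C, Bg_lin] at h
  have hE2 : Bg T (fun i => Polynomial.C (u i) + Polynomial.X * Polynomial.C (w i))
      (fun i => Polynomial.C (u i) + Polynomial.X * Polynomial.C (w i))
      (fun i => Polynomial.C (p i)) = Polynomial.C (Bg T u u p) +
        Polynomial.X * Polynomial.C (2 * Bg T u w p) + Polynomial.X ^ 2 *
          Polynomial.C (Bg T w w p) := by
    simp only [Bg_add1, Bg_add2, Bg_smul1, Bg_smul2, Bg_C]
    rw [Bg_swap12 hT w u p]
    simp only [map_mul, map_ofNat]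
    ring
  have hE3 : Bg T (fun i => Polynomial.C (u i) + Polynomial.X * Polynomial.C (w i))
      (fun i => Polynomial.C (u i) + Polynomial.X * Polynomial.C (w i))
      (fun i => Polynomial.C (u i) + Polynomial.X * Polynomial.C (w i)) =
        Polynomial.C (Bg T u u u) + Polynomial.X * Polynomial.C (3 * Bg T u u w) +
        Polynomial.X ^ 2 * Polynomial.C (3 * Bg T u w w) + Polynomial.X ^ 3 *
          Polynomial.C (Bg T w w w) := by
    simp only [Bg_add1, Bg_add2, Bg_add3, Bg_smul1, Bg_smul2, Bg_smul3, Bg_C]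
    rw [Bg_swap12 hT w u u, Bg_swap23 hT u w u, Bg_swap12 hT w u w, swap13 hT w w u]
    simp only [map_mul, map_ofNat]
    ring
  rw [hE2, hE3] at h
  have h0 := congrArg (Polynomial.eval 0) h
  simp only [Polynomial.eval_add, Polynomial.eval_mul, Polynomial.eval_pow, Polynomial.eval_X,
    Polynomial.eval_C, Polynomial.eval_zero, Polynomial.eval_ofNat] at h0
  have hp : Bg T p p p = 0 := by
    have h1 : c ^ 3 * Bg T p p p = 0 := by linear_combination h0
    exact (mul_eq_zero.1 h1).resolve_left (pow_ne_zero 3 hc)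
  rw [hp, Polynomial.C_0, mul_zero, add_zero] at h
  have h2 : (Polynomial.X : Polynomial L) * (Polynomial.X ^ 2 * (Polynomial.C (Bg T u u u) +
      Polynomial.X * Polynomial.C (3 * Bg T u u w) + Polynomial.X ^ 2 *
        Polynomial.C (3 * Bg T u w w) + Polynomial.X ^ 3 * Polynomial.C (Bg T w w w)) +
      3 * Polynomial.X * (Polynomial.X ^ 3 + Polynomial.C c) * (Polynomial.C (Bg T u u p) +
        Polynomial.X * Polynomial.C (2 * Bg T u w p) + Polynomial.X ^ 2 *
          Polynomial.C (Bg T w w p)) + 3 * (Polynomial.X ^ 3 + Polynomial.C c) ^ 2 *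
      (Polynomial.C (Bg T u p p) + Polynomial.X * Polynomial.C (Bg T w p p))) = 0 := by
    linear_combination h
  have h3 := (mul_eq_zero.1 h2).resolve_left Polynomial.X_ne_zero
  have h4 := congrArg (Polynomial.eval 0) h3
  simp only [Polynomial.eval_add, Polynomial.eval_mul, Polynomial.eval_pow, Polynomial.eval_X,
    Polynomial.eval_C, Polynomial.eval_zero, Polynomial.eval_ofNat] at h4
  have hu : Bg T u p p = 0 := by
    have h5 : 3 * c ^ 2 * Bg T u p p = 0 := by linear_combination h4
    exact (mul_eq_zero.1 h5).resolve_left (mul_ne_zero h3ne (pow_ne_zero 2 hc))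
  refine ⟨hp, hu, ?_⟩
  rw [hu, Polynomial.C_0, zero_add] at h3
  have h6 : (Polynomial.X : Polynomial L) * (Polynomial.X * (Polynomial.C (Bg T u u u) +
      Polynomial.X * Polynomial.C (3 * Bg T u u w) + Polynomial.X ^ 2 *
        Polynomial.C (3 * Bg T u w w) + Polynomial.X ^ 3 * Polynomial.C (Bg T w w w)) +
      3 * (Polynomial.X ^ 3 + Polynomial.C c) * (Polynomial.C (Bg T u u p) +
        Polynomial.X * Polynomial.C (2 * Bg T u w p) + Polynomial.X ^ 2 *
          Polynomial.C (Bg T w w p)) + 3 * (Polynomial.X ^ 3 + Polynomial.C c) ^ 2 *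
      Polynomial.C (Bg T w p p)) = 0 := by
    linear_combination h3
  have h7 := (mul_eq_zero.1 h6).resolve_left Polynomial.X_ne_zero
  have h8 : Polynomial.C (3 * Bg T w p p) * Polynomial.X ^ 6 +
      (Polynomial.C (3 * Bg T w w p) * Polynomial.X ^ 5 +
      (Polynomial.C (Bg T w w w + 6 * Bg T u w p) * Polynomial.X ^ 4 +
      (Polynomial.C (3 * Bg T u w w + 3 * Bg T u u p + 6 * c * Bg T w p p) * Polynomial.X ^ 3 +
      (Polynomial.C (3 * Bg T u u w + 3 * c * Bg T w w p) * Polynomial.X ^ 2 +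
      (Polynomial.C (Bg T u u u + 6 * c * Bg T u w p) * Polynomial.X +
      Polynomial.C (3 * c * Bg T u u p + 3 * c ^ 2 * Bg T w p p)))))) = 0 := by
    rw [← h7]
    simp only [map_add, map_mul, map_ofNat, map_pow]
    ring
  have h9 := congrArg (fun q => Polynomial.coeff q 6) h8
  simp only [Polynomial.coeff_add, Polynomial.coeff_C_mul, Polynomial.coeff_X_pow,
    Polynomial.coeff_X, Polynomial.coeff_C, Polynomial.coeff_zero] at h9
  norm_num at h9
  exact h9.resolve_left h3ne

end poly

/-- the polar hyperplane in terms of the trilinear form -/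
theorem sum_pd {m : ℕ} {R : Type} [CommRing R] [Algebra ℂ R] {T : Fin m → Fin m → Fin m → ℂ}
    (hT : SymG T) (y z : Fin m → R) :
    ∑ i, y i * aeval z (pderiv i (Bg T X X X : MvPolynomial (Fin m) ℂ)) = 3 * Bg T y z z := by
  have e1 : (fun i => ∑ l, y l * (if i = l then (1 : R) else 0)) = y := by
    funext i
    simp
  have e2 : Bg T y z z = ∑ l, y l * Bg T (fun i => if i = l then 1 else 0) z z := by
    conv_lhs => rw [← e1]
    rw [Bg_sum1]
    exact Finset.sum_congr rfl fun l _ => Bg_smul1 T (y l) _ _ _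
  rw [e2, Finset.mul_sum]
  exact Finset.sum_congr rfl fun l _ => by rw [pderiv_frmG hT]; ring

section field

variable {n : ℕ} {F : MvPolynomial (Fin (n + 2)) ℂ} {M : Type} [Field M] [Algebra ℂ M]

/-- polynomial identities from a transcendental element -/
theorem lift0 {T : Fin (n + 2) → Fin (n + 2) → Fin (n + 2) → ℂ} (L : IntermediateField ℂ M) (t : M)
    (ht : Transcendental L t) (Φ : Fin (n + 2) → Polynomial L)
    (h : Bg T (fun i => Polynomial.aeval t (Φ i)) (fun i => Polynomial.aeval t (Φ i))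
      (fun i => Polynomial.aeval t (Φ i)) = 0) : Bg T Φ Φ Φ = 0 := by
  by_contra h0
  refine ht ⟨Bg T Φ Φ Φ, h0, ?_⟩
  have h1 := map_Bg ((Polynomial.aeval (R := L) t).restrictScalars ℂ) T Φ Φ Φ
  exact h1.trans h

/-- the end of the argument: `x = q (u + t w) + r p` with a double point `p` -/
theorem fin0 (hn : 1 ≤ n) (hF : F.IsHomogeneous 3)
    (hsm : ∀ z : Fin (n + 2) → ℂ, (∀ i, eval z (pderiv i F) = 0) → z = 0)
    {T : Fin (n + 2) → Fin (n + 2) → Fin (n + 2) → ℂ} (hT : SymG T) (hFT : F = Bg T X X X)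
    (L : IntermediateField ℂ M) (t : M) (ht : Transcendental L t)
    (x : Fin (n + 2) → M) (hG : Gp F x) (hodd : Odd (finrank (ratioField x) M))
    (u w p : Fin (n + 2) → L) (q r : M)
    (hx : ∀ i, x i = q * (u i + t * w i) + r * p i)
    (h1 : Bg T p p p = 0) (h2 : Bg T u p p = 0) (h3 : Bg T w p p = 0) : False := by
  have hL : ¬ Algebra.IsAlgebraic L M := fun h => ht (h.isAlgebraic t)
  have hx0 : ∀ i, x i ≠ 0 := coord_ne_zero hF (by norm_num) x hG.2
  by_cases hp : p = 0
  · -- a line
    have hx' : ∀ i, x i = q * (u i + t * w i) := by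
      intro i
      rw [hx, hp]
      simp
    have hq : q ≠ 0 := by
      intro h
      apply hx0 0
      rw [hx', h, zero_mul]
    have h4 : (fun i => x i / q) = fun i => t * (w i : M) + (u i : M) := by
      funext i
      rw [hx', mul_div_cancel_left₀ _ hq, add_comm]
    have hG' := gp_scale hF x hq hG
    rw [h4] at hG'
    have h5 := Pool.Agent.Y201.LI.linear_param hF (by norm_num) hsm L t ht
      (fun i => (w i : M)) (fun i => (u i : M)) (fun i => (w i).2) (fun i => (u i).2) hG'.1 hG'.2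
    rw [← h4, NT.ratioField_div x hq, show 3 - 1 = 2 from rfl, ← even_iff_two_dvd] at h5
    exact (Nat.not_even_iff_odd.2 hodd) h5
  · have hval : ∀ y : Fin (n + 2) → L, Bg T y p p = 0 →
        ∑ i, (y i : M) * aeval (fun i => (p i : M)) (pderiv i F) = 0 := by
      intro y hy
      rw [hFT, sum_pd hT]
      have h4 := map_Bg L.val T y p p
      rw [hy, map_zero] at h4
      have h5 : Bg T (fun i => (y i : M)) (fun i => (p i : M)) (fun i => (p i : M)) = 0 := h4.symm
      rw [h5, mul_zero]
    refine plane hn hF hsm x hG hodd L hL (fun i => (u i : M)) (fun i => (w i : M))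
      (fun i => (p i : M)) (fun i => (u i).2) (fun i => (w i).2) (fun i => (p i).2) q (q * t) r
      (fun i => ?_) (fun i => (p i : M)) (fun i => (p i).2) ?_ (hval u h2) (hval w h3) (hval p h1)
    · rw [hx]
      ring
    · intro h
      apply hp
      funext i
      exact Subtype.ext (congrFun h i)

/-- the main case: the node has two finite parameters -/
theorem caseA (hn : 1 ≤ n) (hF : F.IsHomogeneous 3)
    (hsm : ∀ z : Fin (n + 2) → ℂ, (∀ i, eval z (pderiv i F) = 0) → z = 0)
    (L : IntermediateField ℂ M) (t : M) (ht : Transcendental L t)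
    (x : Fin (n + 2) → M) (hG : Gp F x) (hodd : Odd (finrank (ratioField x) M))
    (a0 a1 a2 a3 : Fin (n + 2) → L)
    (hx : ∀ i, x i = a0 i + t * a1 i + t ^ 2 * a2 i + t ^ 3 * a3 i)
    (l0 l1 l2 l3 : L) (hl : ∀ i, l0 * a0 i + l1 * a1 i + l2 * a2 i + l3 * a3 i = 0)
    (hq2 : l0 * l2 - l1 ^ 2 ≠ 0) : False := by
  obtain ⟨T, hT, hFT⟩ := exists_tri F hF
  obtain ⟨q0, hq0⟩ : ∃ q0, q0 = l1 * l3 - l2 ^ 2 := ⟨_, rfl⟩
  obtain ⟨q1, hq1⟩ : ∃ q1, q1 = l1 * l2 - l0 * l3 := ⟨_, rfl⟩
  obtain ⟨q2, hq2'⟩ : ∃ q2, q2 = l0 * l2 - l1 ^ 2 := ⟨_, rfl⟩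
  rw [← hq2'] at hq2
  let w : Fin (n + 2) → L := fun i => a3 i / q2
  let u : Fin (n + 2) → L := fun i => (a2 i - q1 * w i) / q2
  have e3 : ∀ i, a3 i = q2 * w i := fun i => (mul_div_cancel₀ (a3 i) hq2).symm
  have e2 : ∀ i, a2 i = q2 * u i + q1 * w i := by
    intro i
    change a2 i = q2 * ((a2 i - q1 * w i) / q2) + q1 * w i
    rw [mul_div_cancel₀ _ hq2]
    ring
  obtain ⟨p, e0, e1⟩ : ∃ p : Fin (n + 2) → L, (∀ i, a0 i = q0 * u i + l1 * p i) ∧
      (∀ i, a1 i = q1 * u i + q0 * w i - l0 * p i) := by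
    have hrel : ∀ i, l0 * (a0 i - q0 * u i) + l1 * (a1 i - q1 * u i - q0 * w i) = 0 := by
      intro i
      have h1 := hl i
      rw [e3, e2] at h1
      rw [hq0, hq1]
      rw [hq2', hq1] at h1
      linear_combination h1
    by_cases h0 : l0 = 0
    · have h1 : l1 ≠ 0 := by
        rintro h1
        apply hq2
        rw [hq2', h0, h1]
        ring
      refine ⟨fun i => (a0 i - q0 * u i) / l1, fun i => ?_, fun i => ?_⟩
      · rw [mul_div_cancel₀ _ h1]
        ring
      · have h2 := hrel i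
        rw [h0, zero_mul, zero_add] at h2
        have h3 := (mul_eq_zero.1 h2).resolve_left h1
        rw [h0, zero_mul]
        linear_combination h3
    · refine ⟨fun i => -(a1 i - q1 * u i - q0 * w i) / l0, fun i => ?_, fun i => ?_⟩
      · have h2 := hrel i
        field_simp
        linear_combination h2
      · rw [mul_div_cancel₀ _ h0]
        ring
  let Q : Polynomial L := Polynomial.C q0 + Polynomial.X * Polynomial.C q1 +
    Polynomial.X ^ 2 * Polynomial.C q2
  let R : Polynomial L := Polynomial.C l1 - Polynomial.X * Polynomial.C l0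
  let Φ : Fin (n + 2) → Polynomial L := fun i =>
    Q * (Polynomial.C (u i) + Polynomial.X * Polynomial.C (w i)) + R * Polynomial.C (p i)
  have hΦ : (fun i => Polynomial.aeval t (Φ i)) = x := by
    funext i
    rw [hx, e0, e1, e2, e3]
    simp only [Φ, Q, R, map_add, map_sub, map_mul, map_pow, Polynomial.aeval_C, Polynomial.aeval_X]
    have hc : ∀ y : L, algebraMap L M y = (y : M) := fun y => rfl
    simp only [hc]
    push_cast
    ring
  have hP : Bg T Φ Φ Φ = 0 := by
    refine lift0 L t ht Φ ?_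
    rw [hΦ, ← aeval_frmG, ← hFT]
    exact hG.1
  have hcop : IsCoprime Q R := by
    have hq2s : q2 ^ 2 ≠ 0 := pow_ne_zero 2 hq2
    refine ⟨-(Polynomial.C (l0 ^ 2 / q2 ^ 2)), (Polynomial.C q2 * R - Polynomial.C (l0 * q1 +
      2 * l1 * q2)) * Polynomial.C (1 / q2 ^ 2), ?_⟩
    have h1 : (Polynomial.C (l0 ^ 2 / q2 ^ 2) : Polynomial L) = Polynomial.C (l0 ^ 2) *
        Polynomial.C (1 / q2 ^ 2) := by
      rw [← Polynomial.C_mul]
      congr 1
      ring
    have h2 : (Polynomial.C (q2 ^ 2) * Polynomial.C (1 / q2 ^ 2) : Polynomial L) = 1 := by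
      rw [← Polynomial.C_mul, mul_one_div_cancel hq2s, Polynomial.C_1]
    have h3 : -(Polynomial.C (l0 ^ 2)) * Q + (Polynomial.C q2 * R - Polynomial.C (l0 * q1 +
      2 * l1 * q2)) * R = Polynomial.C (q2 ^ 2) := by
      simp only [Q, R]
      have h4 : l0 ^ 2 * q0 + l0 * l1 * q1 + l1 ^ 2 * q2 = -q2 ^ 2 := by
        rw [hq0, hq1, hq2']
        ring
      have h5 : (Polynomial.C (q2 ^ 2) : Polynomial L) = -(Polynomial.C (l0 ^ 2 * q0 +
          l0 * l1 * q1 + l1 ^ 2 * q2)) := by
        rw [h4, Polynomial.C_neg, neg_neg]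
      rw [h5]
      simp only [map_add, map_mul, map_pow, map_ofNat]
      ring
    rw [h1]
    linear_combination Polynomial.C (1 / q2 ^ 2) * h3 + h2
  have hdeg : Q.natDegree = 2 := by
    have h1 : Q = Polynomial.C q2 * Polynomial.X ^ 2 + Polynomial.C q1 * Polynomial.X +
        Polynomial.C q0 := by
      simp only [Q]
      ring
    rw [h1]
    exact Polynomial.natDegree_quadratic hq2
  obtain ⟨d1, d2, d3⟩ := double2 hT Q R hcop hdeg u w p hP
  refine fin0 hn hF hsm hT hFT L t ht x hG hodd u w p (Polynomial.aeval t Q)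
    (Polynomial.aeval t R) (fun i => ?_) d1 d2 d3
  have h1 := congrFun hΦ i
  rw [← h1]
  simp only [Φ, map_add, map_mul, Polynomial.aeval_C, Polynomial.aeval_X]
  rfl

/-- the node has the parameters `0` and `∞` -/
theorem caseC (hn : 1 ≤ n) (hF : F.IsHomogeneous 3)
    (hsm : ∀ z : Fin (n + 2) → ℂ, (∀ i, eval z (pderiv i F) = 0) → z = 0)
    (L : IntermediateField ℂ M) (t : M) (ht : Transcendental L t)
    (x : Fin (n + 2) → M) (hG : Gp F x) (hodd : Odd (finrank (ratioField x) M))
    (a0 a1 a2 a3 : Fin (n + 2) → L)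
    (hx : ∀ i, x i = a0 i + t * a1 i + t ^ 2 * a2 i + t ^ 3 * a3 i)
    (c : L) (hc : c ≠ 0) (h0 : ∀ i, a0 i = c * a3 i) : False := by
  obtain ⟨T, hT, hFT⟩ := exists_tri F hF
  let Φ : Fin (n + 2) → Polynomial L := fun i =>
    Polynomial.X * (Polynomial.C (a1 i) + Polynomial.X * Polynomial.C (a2 i)) +
      (Polynomial.X ^ 3 + Polynomial.C c) * Polynomial.C (a3 i)
  have hΦ : (fun i => Polynomial.aeval t (Φ i)) = x := by
    funext i
    rw [hx, h0]
    simp only [Φ, map_add, map_mul, map_pow, Polynomial.aeval_C, Polynomial.aeval_X]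
    have hc : ∀ y : L, algebraMap L M y = (y : M) := fun y => rfl
    simp only [hc]
    push_cast
    ring
  have hP : Bg T Φ Φ Φ = 0 := by
    refine lift0 L t ht Φ ?_
    rw [hΦ, ← aeval_frmG, ← hFT]
    exact hG.1
  obtain ⟨d1, d2, d3⟩ := double1 hT c hc a1 a2 a3 hP
  refine fin0 hn hF hsm hT hFT L t ht x hG hodd a1 a2 a3 t (t ^ 3 + c) (fun i => ?_) d1 d2 d3
  rw [hx, h0]
  push_cast
  ring

/-- **Families of rational cubic curves which cover a smooth cubic hypersurface an odd number of
times are families of twisted cubics.** -/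
theorem main (hn : 1 ≤ n) (hF : F.IsHomogeneous 3)
    (hsm : ∀ z : Fin (n + 2) → ℂ, (∀ i, eval z (pderiv i F) = 0) → z = 0)
    (L : IntermediateField ℂ M) (t : M) (ht : Transcendental L t)
    (x : Fin (n + 2) → M) (hG : Gp F x) (hodd : Odd (finrank (ratioField x) M))
    (a0 a1 a2 a3 : Fin (n + 2) → L)
    (hx : ∀ i, x i = a0 i + t * a1 i + t ^ 2 * a2 i + t ^ 3 * a3 i)
    (l0 l1 l2 l3 : L) (hl : ∀ i, l0 * a0 i + l1 * a1 i + l2 * a2 i + l3 * a3 i = 0)
    (hne : l0 ≠ 0 ∨ l1 ≠ 0 ∨ l2 ≠ 0 ∨ l3 ≠ 0) (h3 : a3 ≠ 0)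
    (hs : ∀ s : L, ∃ i, a0 i + s * a1 i + s ^ 2 * a2 i + s ^ 3 * a3 i ≠ 0) : False := by
  have ht0 : t ≠ 0 := by
    rintro rfl
    exact ht isAlgebraic_zero
  by_cases hq2 : l0 * l2 - l1 ^ 2 = 0
  swap
  · exact caseA hn hF hsm L t ht x hG hodd a0 a1 a2 a3 hx l0 l1 l2 l3 hl hq2
  by_cases hq0 : l3 * l1 - l2 ^ 2 = 0
  swap
  · have ht' : Transcendental L t⁻¹ := fun h => ht (by simpa using h.inv)
    have ht3 : t ^ 3 ≠ 0 := pow_ne_zero 3 ht0
    have hG' := gp_scale hF x ht3 hG
    have hodd' : Odd (finrank (ratioField fun i => x i / t ^ 3) M) := by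
      rw [NT.ratioField_div x ht3]
      exact hodd
    refine caseA hn hF hsm L t⁻¹ ht' _ hG' hodd' a3 a2 a1 a0 (fun i => ?_) l3 l2 l1 l0
      (fun i => ?_) hq0
    · rw [hx]
      field_simp
      ring
    · rw [← hl i]
      ring
  have hzero : ∀ i, a0 i = 0 → True := fun _ _ => trivial
  by_cases h1 : l1 = 0
  · have h2 : l2 = 0 := by
      rw [h1, mul_zero, zero_sub, neg_eq_zero] at hq0
      exact pow_eq_zero_iff two_ne_zero |>.1 hq0
    rw [h1, h2] at hl
    by_cases h0 : l0 = 0
    · have h3' : l3 ≠ 0 := by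
        rcases hne with h | h | h | h
        · exact absurd h0 h
        · exact absurd h1 h
        · exact absurd h2 h
        · exact h
      apply h3
      funext i
      have h4 := hl i
      rw [h0, zero_mul, zero_mul, zero_mul, zero_add, zero_add, zero_add] at h4
      exact (mul_eq_zero.1 h4).resolve_left h3'
    · by_cases h3' : l3 = 0
      · obtain ⟨i, hi⟩ := hs 0
        apply hi
        have h4 := hl i
        rw [h3', zero_mul, zero_mul, zero_mul, add_zero, add_zero, add_zero] at h4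
        rw [(mul_eq_zero.1 h4).resolve_left h0]
        ring
      · refine caseC hn hF hsm L t ht x hG hodd a0 a1 a2 a3 hx (-l3 / l0)
          (div_ne_zero (neg_ne_zero.2 h3') h0) fun i => ?_
        have h4 := hl i
        field_simp
        linear_combination h4
  · have h02 : l0 * l2 ≠ 0 := by
      intro h
      rw [h, zero_sub, neg_eq_zero] at hq2
      exact h1 (pow_eq_zero_iff two_ne_zero |>.1 hq2)
    have h0 : l0 ≠ 0 := fun h => h02 (by rw [h, zero_mul])
    obtain ⟨i, hi⟩ := hs (l1 / l0)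
    apply hi
    have e1 : l2 = l1 ^ 2 / l0 := by
      field_simp
      linear_combination hq2
    have e2 : l3 = l1 ^ 3 / l0 ^ 2 := by
      have h5 : l3 * l1 = l2 ^ 2 := by linear_combination hq0
      rw [e1] at h5
      have h6 : l3 = (l1 ^ 2 / l0) ^ 2 / l1 := by
        rw [← h5]
        field_simp
      rw [h6]
      field_simp
    have h4 := hl i
    rw [e1, e2] at h4
    have h7 : a0 i + l1 / l0 * a1 i + (l1 / l0) ^ 2 * a2 i + (l1 / l0) ^ 3 * a3 i =
        (1 / l0) * (l0 * a0 i + l1 * a1 i + l1 ^ 2 / l0 * a2 i + l1 ^ 3 / l0 ^ 2 * a3 i) := by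
      field_simp
    rw [h7, h4, mul_zero]

end field

end

end Pool.Agent.N122.Tw
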